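import Pool.Agent.Helper54.LG.Ef

/-!
# LG-PT: the pointwise inequality

`refl ρ = 1 - conj ρ` has the same `mx`, imaginary part and `za` (`refl_mx`, `refl_im`, `refl_re`).
Put `T ρ = mx ρ (qk a b + ek a b / 2)`, `a = za X ρ`, `b = zb X t ρ`. If `Re ρ = 1/2` then `a = 0`, `ek = 0`,
`T ρ = mx ρ qk 0 b`. Otherwise `T ρ ≥ mx ρ qk 0 b / 2` since `ek a b ≥ qk 0 b - 2 qk a b`. All `T ρ ≥ 0`
(`qk_zero_nonneg`). For `g ∈ G` take a zero `ρ` with ordinate `g`, `mx ρ ≥ 1` (`mx` is the order of `xi`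
at the zero): if it is on the line `T ρ ≥ qk 0 b`, otherwise `ρ ≠ refl ρ` and `T ρ + T (refl ρ) ≥ qk 0 b`.
So `∑_{g ∈ G} qk 0 (X (t - g)) ≤ ∑' T ρ = (MM - SS) + (1/2) ∑' mx ek` by `explicit_q`. Summability:
`hk_bound`, `za X ρ ≤ X/2`, and `∑ mx ρ / (1 + X² (t-γ)²) < ∞` from `fz_hasSum`.
-/

set_option autoImplicit false
open MeasureTheory Set Filter Topology
open Pool.Agent.Helper57.Zeta Pool.Agent.Helper57.LH Pool.Agent.Helper57.ED

namespace Pool.Agent.Helper54.LG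

private lemma one_le_mx31 (ρ : ZS) : 1 ≤ mx (ρ : ℂ) := by
  have h : analyticOrderNatAt xi (ρ : ℂ) ≠ 0 := (order_pos_iff differentiable_xi xi_two_ne (ρ : ℂ)).mpr ρ.2
  unfold mx
  exact_mod_cast Nat.one_le_iff_ne_zero.mpr h

private lemma hk_nonneg31 (a b : ℝ) : 0 ≤ hk a b := by unfold hk; positivity

private lemma za_nonneg31 {X : ℝ} (hX : 0 < X) (ρ : ℂ) : 0 ≤ za X ρ := by unfold za; positivity

private lemma za_le31 {X : ℝ} (hX : 0 < X) (ρ : ZS) : za X ρ ≤ X / 2 := by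
  have h := zs_re ρ
  have h1 : |(ρ:ℂ).re - 1 / 2| ≤ 1 / 2 := abs_le.mpr ⟨by linarith, by linarith⟩
  unfold za
  nlinarith

private lemma hk_fz31 {X : ℝ} (hX : 0 < X) (t : ℝ) (ρ : ZS) :
    mx ρ * hk (za X ρ) (zb X t ρ) ≤ (63 * Real.cosh (X / 2) * (4 + 1 / X ^ 2)) * fz ρ t := by
  have h := zs_re ρ
  have hm : 0 ≤ mx (ρ : ℂ) := mx_nonneg _
  have hc : Real.cosh (za X ρ) ≤ Real.cosh (X / 2) := by
    rw [Real.cosh_le_cosh, abs_of_nonneg (za_nonneg31 hX _), abs_of_pos (by positivity)]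
    exact za_le31 hX ρ
  have hb := hk_bound (za X ρ) (zb X t ρ)
  set w : ℝ := t - (ρ:ℂ).im with hw
  have hzb : zb X t ρ = X * w := rfl
  rw [hzb] at hb ⊢
  have hC : (0:ℝ) < Real.cosh (X / 2) := Real.cosh_pos _
  have h1 : 1 / (1 + (X * w) ^ 2) ≤ (4 + 1 / X ^ 2) * (1 / (4 + w ^ 2)) := by
    rw [mul_one_div, div_le_div_iff₀ (by positivity) (by positivity)]
    have : (4 + 1 / X ^ 2) * (1 + (X * w) ^ 2) = 4 + w ^ 2 + (4 * X ^ 2 * w ^ 2 + 1 / X ^ 2) := by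
      field_simp
      ring
    rw [this]
    have : 0 ≤ 4 * X ^ 2 * w ^ 2 + 1 / X ^ 2 := by positivity
    linarith
  have h2 : 1 / (4 + w ^ 2) ≤ (2 - (ρ:ℂ).re) / ((2 - (ρ:ℂ).re) ^ 2 + w ^ 2) := by
    have h3 : 0 < (2 - (ρ:ℂ).re) := by linarith
    rw [div_le_div_iff₀ (by positivity) (by positivity)]
    nlinarith [sq_nonneg w, mul_pos h3 h3, mul_nonneg (sq_nonneg w) (by linarith : (0:ℝ) ≤ 1 - (ρ:ℂ).re)]
  have h4 : hk (za X ρ) (X * w) ≤
      (63 * Real.cosh (X / 2) * (4 + 1 / X ^ 2)) * ((2 - (ρ:ℂ).re) / ((2 - (ρ:ℂ).re) ^ 2 + w ^ 2)) := by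
    calc hk (za X ρ) (X * w) ≤ 63 * Real.cosh (za X ρ) * (1 / (1 + (X * w) ^ 2)) := by
          rw [mul_one_div]; exact hb
      _ ≤ 63 * Real.cosh (X / 2) * ((4 + 1 / X ^ 2) * (1 / (4 + w ^ 2))) := by gcongr
      _ ≤ 63 * Real.cosh (X / 2) * ((4 + 1 / X ^ 2) * ((2 - (ρ:ℂ).re) / ((2 - (ρ:ℂ).re) ^ 2 + w ^ 2))) := by gcongr
      _ = _ := by ring
  calc mx ρ * hk (za X ρ) (X * w) ≤ mx ρ * ((63 * Real.cosh (X / 2) * (4 + 1 / X ^ 2)) *
        ((2 - (ρ:ℂ).re) / ((2 - (ρ:ℂ).re) ^ 2 + w ^ 2))) := by gcongr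
    _ = _ := by unfold fz; rw [hw]; ring

theorem summable_h {X : ℝ} (hX : 0 < X) (t : ℝ) :
    Summable fun ρ : ZS => mx ρ * hk (za X ρ) (zb X t ρ) :=
  Summable.of_nonneg_of_le (fun _ => mul_nonneg (mx_nonneg _) (hk_nonneg31 _ _)) (hk_fz31 hX t)
    ((fz_hasSum t).summable.mul_left _)

private noncomputable def TT31 (X t : ℝ) (ρ : ZS) : ℝ :=
  mx ρ * qk (za X ρ) (zb X t ρ) + 1 / 2 * (mx ρ * ek (za X ρ) (zb X t ρ))

private lemma TT_half31 {X : ℝ} (t : ℝ) (ρ : ZS) : mx ρ * (qk 0 (zb X t ρ) / 2) ≤ TT31 X t ρ := by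
  have h : qk 0 (zb X t ρ) - 2 * qk (za X ρ) (zb X t ρ) ≤ ek (za X ρ) (zb X t ρ) := le_max_right _ _
  have hm : 0 ≤ mx (ρ : ℂ) := mx_nonneg _
  unfold TT31
  nlinarith

private lemma TT_nonneg31 {X : ℝ} (t : ℝ) (ρ : ZS) : 0 ≤ TT31 X t ρ :=
  (mul_nonneg (mx_nonneg _) (div_nonneg (qk_zero_nonneg _) (by norm_num))).trans (TT_half31 t ρ)

private lemma TT_line31 {X : ℝ} (t : ℝ) (ρ : ZS) (h : (ρ:ℂ).re = 1 / 2) : qk 0 (zb X t ρ) ≤ TT31 X t ρ := by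
  have hz : za X ρ = 0 := by unfold za; rw [h]; simp
  unfold TT31
  rw [hz, ek_zero]
  have := one_le_mx31 ρ
  have := qk_zero_nonneg (zb X t ρ)
  nlinarith

open Classical in
private lemma TT_pair31 {X : ℝ} (t : ℝ) (ρ : ZS) :
    qk 0 (X * (t - (ρ:ℂ).im)) ≤ ∑ r ∈ ({ρ, refl ρ} : Finset ZS), TT31 X t r := by
  have hz : zb X t ρ = X * (t - (ρ:ℂ).im) := rfl
  rw [← hz]
  by_cases h : (ρ:ℂ).re = 1 / 2
  · exact (TT_line31 t ρ h).trans (Finset.single_le_sum (f := TT31 X t) (fun i _ => TT_nonneg31 t i)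
      (Finset.mem_insert_self _ _))
  · have hne : ρ ≠ refl ρ := by
      intro he
      have h1 := refl_re ρ
      rw [← he] at h1
      exact h (by linarith)
    rw [Finset.sum_pair hne]
    have h1 := TT_half31 (X := X) t ρ
    have h2 := TT_half31 (X := X) t (refl ρ)
    rw [refl_mx] at h2
    have hz2 : zb X t (refl ρ : ℂ) = zb X t ρ := by unfold zb; rw [refl_im]
    rw [hz2] at h2
    have h3 := one_le_mx31 ρ
    have h4 := qk_zero_nonneg (zb X t ρ)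
    nlinarith

theorem pointwise {X : ℝ} (hX : 0 < X) (t : ℝ) (G : Finset ℝ)
    (hG : ∀ g ∈ G, ∃ ρ : ZS, (ρ : ℂ).im = g) :
    ∑ g ∈ G, qk 0 (X * (t - g)) ≤
      MM X t - SS X t + 1 / 2 * ∑' ρ : ZS, mx ρ * ek (za X ρ) (zb X t ρ) := by
  classical
  have he : Summable fun ρ : ZS => mx ρ * ek (za X ρ) (zb X t ρ) :=
    Summable.of_nonneg_of_le (fun ρ => mul_nonneg (mx_nonneg _) (ek_nonneg _ _))
      (fun ρ => mul_le_mul_of_nonneg_left (ek_le_hk _ _) (mx_nonneg _)) (summable_h hX t)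
  have hT : HasSum (TT31 X t)
      (MM X t - SS X t + 1 / 2 * ∑' ρ : ZS, mx ρ * ek (za X ρ) (zb X t ρ)) :=
    (explicit_q hX t).add (he.hasSum.mul_left (1 / 2))
  rcases isEmpty_or_nonempty ZS with hemp | hemp
  · have hGe : G = ∅ := by
      refine Finset.eq_empty_of_forall_notMem fun g hg => ?_
      obtain ⟨ρ, -⟩ := hG g hg
      exact hemp.elim ρ
    rw [hGe, Finset.sum_empty]
    exact hT.nonneg fun ρ => TT_nonneg31 t ρ
  choose! f hf using hG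
  have hdis : (G : Set ℝ).PairwiseDisjoint (fun g => ({f g, refl (f g)} : Finset ZS)) := by
    intro g hg g' hg' hne
    have key : ∀ x : ZS, ∀ y ∈ G, x ∈ ({f y, refl (f y)} : Finset ZS) → (x:ℂ).im = y := by
      intro x y hy hx
      rw [Finset.mem_insert, Finset.mem_singleton] at hx
      rcases hx with rfl | rfl
      · exact hf y hy
      · rw [refl_im]; exact hf y hy
    refine Finset.disjoint_left.mpr fun x hx hx' => hne ?_
    rw [← key x g hg hx, ← key x g' hg' hx']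
  calc ∑ g ∈ G, qk 0 (X * (t - g)) ≤ ∑ g ∈ G, ∑ r ∈ ({f g, refl (f g)} : Finset ZS), TT31 X t r := by
        refine Finset.sum_le_sum fun g hg => ?_
        have h := TT_pair31 (X := X) t (f g)
        rw [hf g hg] at h
        exact h
    _ = ∑ r ∈ G.biUnion (fun g => ({f g, refl (f g)} : Finset ZS)), TT31 X t r :=
        (Finset.sum_biUnion hdis).symm
    _ ≤ _ := sum_le_hasSum _ (fun i _ => TT_nonneg31 t i) hT

end Pool.Agent.Helper54.LG
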