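import Pool.Agent.Helper54.LG.Cos

/-!
# LG-CONV: local averages against the Poisson kernel

`conv_le`: `1 / (1 + X² s²) = (π/X) PW (1/X) s`, `PW_conv`, and `PW (W+w) s ≤ (1 + w/W) PW W s`.
`conv_fine`: let `X = θ log W`. Near part (`|t - γ| ≤ 1`): `PW W (t - τ) ≤ (1 + 2/W) PW W (γ - τ)`, by
`(W²+s²)/(W²+(s+h)²) ≤ 1 + |h|/W + h²/W²`. Far part: `f ≤ C/(1 + X² (t-γ)²) ≤ (2C/X²)/(1 + (t-γ)²)`, and `conv_le`
with `X = 1` bounds the integral by `2πC(1+1/W)/X² PW W (γ-τ)`.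
-/

set_option autoImplicit false
open MeasureTheory Set Filter Topology
open Pool.Agent.Helper57.Zeta Pool.Agent.Helper57.LH Pool.Agent.Helper57.ED

namespace Pool.Agent.Helper54.LG

theorem conv_le {W X : ℝ} (hW : 0 < W) (hX : 0 < X) (τ γ : ℝ) :
    Integrable (fun t => PW W (t - τ) * (1 / (1 + (X * (t - γ)) ^ 2))) ∧
    ∫ t, PW W (t - τ) * (1 / (1 + (X * (t - γ)) ^ 2)) ≤
      Real.pi / X * (1 + 1 / (W * X)) * PW W (γ - τ) := by
  have hpi := Real.pi_pos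
  have e : ∀ t : ℝ, PW W (t - τ) * (1 / (1 + (X * (t - γ)) ^ 2)) =
      Real.pi / X * (PW W (t - τ) * PW (1 / X) (t - γ)) := by
    intro t
    unfold PW
    have h1 : 0 < W ^ 2 + (t - τ) ^ 2 := by positivity
    have h2 : 0 < 1 + (X * (t - γ)) ^ 2 := by positivity
    have h3 : (1 / X) ^ 2 + (t - γ) ^ 2 = (1 + (X * (t - γ)) ^ 2) / X ^ 2 := by field_simp
    rw [h3]
    field_simp
  obtain ⟨hi, hv⟩ := PW_conv (W := W) (w := 1 / X) hW (by positivity) τ γ
  simp_rw [e]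
  refine ⟨hi.const_mul _, ?_⟩
  rw [integral_const_mul, hv, mul_assoc]
  refine mul_le_mul_of_nonneg_left ?_ (by positivity)
  unfold PW
  have h1 : 0 < W ^ 2 + (γ - τ) ^ 2 := by positivity
  have h2 : 0 < (W + 1 / X) ^ 2 + (γ - τ) ^ 2 := by positivity
  have e2 : (1 + 1 / (W * X)) * (W / (Real.pi * (W ^ 2 + (γ - τ) ^ 2))) =
      (W + 1 / X) / (Real.pi * (W ^ 2 + (γ - τ) ^ 2)) := by
    field_simp
  rw [e2]
  refine div_le_div_of_nonneg_left (by positivity) (by positivity) ?_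
  refine mul_le_mul_of_nonneg_left ?_ hpi.le
  have h3 : 0 < 1 / X := by positivity
  nlinarith [mul_pos hW h3]

private lemma ratio32 {W : ℝ} (hW : 1 ≤ W) {t τ γ : ℝ} (h : |t - γ| ≤ 1) :
    PW W (t - τ) ≤ (1 + 2 / W) * PW W (γ - τ) := by
  have hpi := Real.pi_pos
  have hW0 : 0 < W := by linarith
  unfold PW
  have h1 : 0 < W ^ 2 + (γ - τ) ^ 2 := by positivity
  have h2 : 0 < W ^ 2 + (t - τ) ^ 2 := by positivity
  have e2 : (1 + 2 / W) * (W / (Real.pi * (W ^ 2 + (γ - τ) ^ 2))) =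
      (W + 2) / (Real.pi * (W ^ 2 + (γ - τ) ^ 2)) := by
    field_simp
  rw [e2, div_le_div_iff₀ (by positivity) (by positivity)]
  obtain ⟨r, hr⟩ : ∃ r, r = t - τ := ⟨_, rfl⟩
  obtain ⟨k, hk⟩ : ∃ k, k = t - γ := ⟨_, rfl⟩
  have e3 : γ - τ = r - k := by rw [hr, hk]; ring
  rw [← hk] at h
  rw [e3, ← hr]
  have hk2 : k ^ 2 ≤ 1 := by
    have := abs_le.1 h
    nlinarith
  -- W ((r-k)^2 + W^2) ≤ (W+2) (W^2 + r^2)
  have key : W * (W ^ 2 + (r - k) ^ 2) ≤ (W + 2) * (W ^ 2 + r ^ 2) := by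
    have h4 : -2 * r * k ≤ (W ^ 2 + r ^ 2) / W := by
      rw [le_div_iff₀ hW0]
      have : 0 ≤ (W + r * k) ^ 2 := sq_nonneg _
      have h5 : (r * k) ^ 2 ≤ r ^ 2 := by
        rw [mul_pow]
        nlinarith [sq_nonneg r]
      nlinarith
    have h6 : W * (-2 * r * k) ≤ W ^ 2 + r ^ 2 := by
      have := mul_le_mul_of_nonneg_left h4 hW0.le
      rwa [mul_div_cancel₀ _ hW0.ne'] at this
    have h7 : W * k ^ 2 ≤ W ^ 2 + r ^ 2 := by nlinarith [sq_nonneg r]
    nlinarith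
  calc W * (Real.pi * (W ^ 2 + (r - k) ^ 2)) = Real.pi * (W * (W ^ 2 + (r - k) ^ 2)) := by ring
    _ ≤ Real.pi * ((W + 2) * (W ^ 2 + r ^ 2)) := mul_le_mul_of_nonneg_left key hpi.le
    _ = (W + 2) * (Real.pi * (W ^ 2 + r ^ 2)) := by ring

theorem conv_fine {θ C ε : ℝ} (hθ : 0 < θ) (hC : 0 ≤ C) (hε : 0 < ε) :
    ∀ᶠ W : ℝ in atTop, ∀ f : ℝ → ℝ, Measurable f → (∀ b, 0 ≤ f b ∧ f b ≤ C / (1 + b ^ 2)) →
      ∀ τ γ : ℝ, ∫ t, PW W (t - τ) * f (θ * Real.log W * (t - γ)) ≤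
        1 / (θ * Real.log W) * PW W (γ - τ) * ((∫ b, f b) + ε) := by
  have hpi := Real.pi_pos
  have hXt : Tendsto (fun W : ℝ => θ * Real.log W) atTop atTop :=
    Real.tendsto_log_atTop.const_mul_atTop hθ
  have hlim : Tendsto (fun W : ℝ => 2 / W * (C * Real.pi) + 4 * Real.pi * C / (θ * Real.log W)) atTop (𝓝 0) := by
    have h1 : Tendsto (fun W : ℝ => 2 / W * (C * Real.pi)) atTop (𝓝 0) := by
      simpa using (tendsto_const_nhds.div_atTop tendsto_id).mul_const (C * Real.pi)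
    have h2 : Tendsto (fun W : ℝ => 4 * Real.pi * C / (θ * Real.log W)) atTop (𝓝 0) :=
      tendsto_const_nhds.div_atTop hXt
    simpa using h1.add h2
  filter_upwards [hlim.eventually (gt_mem_nhds hε), eventually_ge_atTop (1 : ℝ),
    hXt.eventually_gt_atTop 0] with W hW1 hW hX f hf hfb τ γ
  obtain ⟨X, hXe⟩ : ∃ X, X = θ * Real.log W := ⟨_, rfl⟩
  rw [← hXe] at hX hW1 ⊢
  have hW0 : 0 < W := by linarith
  obtain ⟨p0, hp0⟩ : ∃ p0, p0 = PW W (γ - τ) := ⟨_, rfl⟩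
  have hp0pos : 0 < p0 := hp0 ▸ PW_pos hW0 _
  -- integrability of f
  have hg : Integrable (fun b : ℝ => C / (1 + b ^ 2)) := by
    simpa [div_eq_mul_inv] using integrable_inv_one_add_sq.const_mul C
  have hfi : Integrable f := by
    refine hg.mono' hf.aestronglyMeasurable (Eventually.of_forall fun b => ?_)
    rw [Real.norm_of_nonneg (hfb b).1]
    exact (hfb b).2
  have hfC : ∫ b, f b ≤ C * Real.pi := by
    calc ∫ b, f b ≤ ∫ b : ℝ, C / (1 + b ^ 2) := integral_mono hfi hg fun b => (hfb b).2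
      _ = C * Real.pi := by
        simp_rw [div_eq_mul_inv]
        rw [integral_const_mul, integral_univ_inv_one_add_sq]
  have hf0 : 0 ≤ ∫ b, f b := integral_nonneg fun b => (hfb b).1
  have hcomp : Integrable (fun t => f (X * (t - γ))) :=
    (hfi.comp_mul_left' hX.ne').comp_sub_right γ
  have hcompv : ∫ t, f (X * (t - γ)) = 1 / X * ∫ b, f b := by
    rw [integral_sub_right_eq_self (fun t => f (X * t)) γ, Measure.integral_comp_mul_left f X,
      abs_of_pos (by positivity), smul_eq_mul, one_div]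
  obtain ⟨hc1, hc2⟩ := conv_le hW0 (X := 1) one_pos τ γ
  rw [← hp0] at hc2
  have hmaj : ∀ t, PW W (t - τ) * f (X * (t - γ)) ≤
      (1 + 2 / W) * p0 * f (X * (t - γ)) +
        2 * C / X ^ 2 * (PW W (t - τ) * (1 / (1 + (1 * (t - γ)) ^ 2))) := by
    intro t
    have hP := (PW_pos hW0 (t - τ)).le
    rcases le_or_gt |t - γ| 1 with h | h
    · have h1 := mul_le_mul_of_nonneg_right (ratio32 hW (τ := τ) h) (hfb (X * (t - γ))).1
      rw [← hp0] at h1
      have h2 : 0 ≤ 2 * C / X ^ 2 * (PW W (t - τ) * (1 / (1 + (1 * (t - γ)) ^ 2))) := by positivity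
      linarith
    · have h1 : f (X * (t - γ)) ≤ 2 * C / X ^ 2 * (1 / (1 + (1 * (t - γ)) ^ 2)) := by
        refine (hfb _).2.trans ?_
        have h3 : 1 < (t - γ) ^ 2 := by
          rw [← sq_abs]; nlinarith
        rw [mul_one_div, div_div, div_le_div_iff₀ (by positivity) (by positivity)]
        have h4 : 0 < X ^ 2 := by positivity
        have h5 : X ^ 2 * (1 + (1 * (t - γ)) ^ 2) ≤ 2 * (1 + (X * (t - γ)) ^ 2) := by nlinarith
        calc C * (X ^ 2 * (1 + (1 * (t - γ)) ^ 2)) ≤ C * (2 * (1 + (X * (t - γ)) ^ 2)) :=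
              mul_le_mul_of_nonneg_left h5 hC
          _ = 2 * C * (1 + (X * (t - γ)) ^ 2) := by ring
      have h2 := mul_le_mul_of_nonneg_left h1 hP
      have h3 : 0 ≤ (1 + 2 / W) * p0 * f (X * (t - γ)) :=
        mul_nonneg (by positivity) (hfb _).1
      calc PW W (t - τ) * f (X * (t - γ)) ≤ PW W (t - τ) * (2 * C / X ^ 2 * (1 / (1 + (1 * (t - γ)) ^ 2))) := h2
        _ = 2 * C / X ^ 2 * (PW W (t - τ) * (1 / (1 + (1 * (t - γ)) ^ 2))) := by ring
        _ ≤ _ := by linarith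
  have hI : ∫ t, PW W (t - τ) * f (X * (t - γ)) ≤
      (1 + 2 / W) * p0 * (1 / X * ∫ b, f b) + 2 * C / X ^ 2 * (Real.pi / 1 * (1 + 1 / (W * 1)) * p0) := by
    calc ∫ t, PW W (t - τ) * f (X * (t - γ)) ≤ ∫ t, ((1 + 2 / W) * p0 * f (X * (t - γ)) +
        2 * C / X ^ 2 * (PW W (t - τ) * (1 / (1 + (1 * (t - γ)) ^ 2)))) :=
          integral_mono_of_nonneg
            (Eventually.of_forall fun t => mul_nonneg (PW_pos hW0 _).le (hfb _).1)
            ((hcomp.const_mul _).add (hc1.const_mul _)) (Eventually.of_forall hmaj)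
      _ = (1 + 2 / W) * p0 * (1 / X * ∫ b, f b) +
          2 * C / X ^ 2 * ∫ t, (PW W (t - τ) * (1 / (1 + (1 * (t - γ)) ^ 2))) := by
        rw [integral_add (hcomp.const_mul _) (hc1.const_mul _), integral_const_mul, integral_const_mul, hcompv]
      _ ≤ _ := by
        have : 0 ≤ 2 * C / X ^ 2 := by positivity
        have := mul_le_mul_of_nonneg_left hc2 this
        linarith
  rw [← hp0]
  refine hI.trans ?_
  have h8 : (1 + 1 / (W * 1)) ≤ 2 := by
    rw [mul_one]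
    have : 1 / W ≤ 1 := by rw [div_le_one hW0]; exact hW
    linarith
  have h9 : 2 / W * (∫ b, f b) ≤ 2 / W * (C * Real.pi) := mul_le_mul_of_nonneg_left hfC (by positivity)
  have h10 : 2 / W * (∫ b, f b) + 2 * C / X * (Real.pi * (1 + 1 / (W * 1))) ≤ ε := by
    have h11 : 2 * C / X * (Real.pi * (1 + 1 / (W * 1))) ≤ 4 * Real.pi * C / X := by
      have h12 : 2 * C / X * (Real.pi * (1 + 1 / (W * 1))) ≤ 2 * C / X * (Real.pi * 2) :=
        mul_le_mul_of_nonneg_left (mul_le_mul_of_nonneg_left h8 hpi.le) (by positivity)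
      refine h12.trans (le_of_eq ?_)
      ring
    linarith
  have e5 : (1 + 2 / W) * p0 * (1 / X * ∫ b, f b) + 2 * C / X ^ 2 * (Real.pi / 1 * (1 + 1 / (W * 1)) * p0) =
      1 / X * p0 * ((∫ b, f b) + (2 / W * (∫ b, f b) + 2 * C / X * (Real.pi * (1 + 1 / (W * 1))))) := by
    field_simp
    ring
  rw [e5]
  exact mul_le_mul_of_nonneg_left (by linarith) (by positivity)

end Pool.Agent.Helper54.LG
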