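import Pool.Agent.Helper54.LG.Def
import Pool.Agent.Helper57.ED.PoA

/-!
# LG-MU: the probability measure with the Poisson density
-/

set_option autoImplicit false
open MeasureTheory Set Filter Topology
open Pool.Agent.Helper57.Zeta Pool.Agent.Helper57.LH Pool.Agent.Helper57.ED

namespace Pool.Agent.Helper54.LG

private lemma int_PW54b {W : ℝ} (hW : 0 < W) (τ : ℝ) : Integrable fun t => PW W (t - τ) :=
  (integral_PW hW).1.comp_sub_right τ

private lemma cont_PW54 {W : ℝ} (hW : 0 < W) (τ : ℝ) : Continuous fun t => PW W (t - τ) := by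
  unfold PW
  have := Real.pi_pos
  apply Continuous.div continuous_const (by fun_prop)
  intro t
  positivity

theorem mu_prob {W : ℝ} (hW : 0 < W) (τ : ℝ) : IsProbabilityMeasure (mu W τ) := by
  constructor
  unfold mu
  rw [withDensity_apply _ MeasurableSet.univ, Measure.restrict_univ,
    ← ofReal_integral_eq_lintegral_ofReal (int_PW54b hW τ)
      (Eventually.of_forall fun t => (PW_pos hW _).le),
    integral_sub_right_eq_self (PW W) τ, (integral_PW hW).2, ENNReal.ofReal_one]

theorem integral_mu {W : ℝ} (hW : 0 < W) (τ : ℝ) (f : ℝ → ℝ) :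
    ∫ t, f t ∂(mu W τ) = ∫ t, PW W (t - τ) * f t := by
  unfold mu
  have h := integral_withDensity_eq_integral_smul (μ := volume)
    (f := fun t => (PW W (t - τ)).toNNReal) (cont_PW54 hW τ).measurable.real_toNNReal f
  have e : (fun t => ((PW W (t - τ)).toNNReal : ENNReal)) = fun t => ENNReal.ofReal (PW W (t - τ)) := by
    funext t; rfl
  rw [e] at h
  rw [h]
  apply integral_congr_ae
  filter_upwards with t
  rw [NNReal.smul_def, smul_eq_mul, Real.coe_toNNReal _ (PW_pos hW _).le]

theorem integrable_mu {W : ℝ} (hW : 0 < W) (τ : ℝ) (f : ℝ → ℝ) :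
    Integrable f (mu W τ) ↔ Integrable (fun t => PW W (t - τ) * f t) := by
  unfold mu
  have h := integrable_withDensity_iff_integrable_smul (μ := volume)
    (f := fun t => (PW W (t - τ)).toNNReal) (cont_PW54 hW τ).measurable.real_toNNReal (g := f)
  have e : (fun t => ((PW W (t - τ)).toNNReal : ENNReal)) = fun t => ENNReal.ofReal (PW W (t - τ)) := by
    funext t; rfl
  rw [e] at h
  rw [h]
  apply integrable_congr
  filter_upwards with t
  rw [NNReal.smul_def, smul_eq_mul, Real.coe_toNNReal _ (PW_pos hW _).le]

/-- The density is at most `1 / (π W)`. -/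
theorem mu_le {W : ℝ} (hW : 0 < W) (τ : ℝ) (S : Set ℝ) :
    mu W τ S ≤ ENNReal.ofReal (1 / (Real.pi * W)) * volume S := by
  have hpi := Real.pi_pos
  have h1 : mu W τ (toMeasurable volume S) ≤ ENNReal.ofReal (1 / (Real.pi * W)) * volume S := by
    unfold mu
    rw [withDensity_apply _ (measurableSet_toMeasurable _ _), ← measure_toMeasurable S]
    calc ∫⁻ t in toMeasurable volume S, ENNReal.ofReal (PW W (t - τ))
        ≤ ∫⁻ t in toMeasurable volume S, ENNReal.ofReal (1 / (Real.pi * W)) := by
          apply lintegral_mono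
          intro t
          apply ENNReal.ofReal_le_ofReal
          unfold PW
          rw [div_le_div_iff₀ (by positivity) (by positivity)]
          have h1 : 0 ≤ Real.pi * (t - τ) ^ 2 := by positivity
          nlinarith
      _ = _ := by rw [lintegral_const, Measure.restrict_apply MeasurableSet.univ, univ_inter]
  exact (measure_mono (subset_toMeasurable volume S)).trans h1

/-- The tails. -/
theorem mu_tail {W D : ℝ} (hW : 0 < W) (hD : 0 < D) (τ : ℝ) :
    mu W τ {t | D ≤ |t - τ|} ≤ ENNReal.ofReal (2 * W / (Real.pi * D)) := by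
  have hpi := Real.pi_pos
  have hS : MeasurableSet {t : ℝ | D ≤ |t - τ|} := measurableSet_le (by fun_prop) (by fun_prop)
  -- integral over the right half line
  have hr : Integrable fun t => PW W (t - τ) := int_PW54b hW τ
  have key : IntegrableOn (fun s : ℝ => W / Real.pi * s ^ (-2 : ℝ)) (Ioi D) ∧
      ∫ s in Ioi D, W / Real.pi * s ^ (-2 : ℝ) = W / (Real.pi * D) := by
    constructor
    · exact (integrableOn_Ioi_rpow_of_lt (by norm_num) hD).const_mul _
    · rw [integral_const_mul, integral_Ioi_rpow_of_lt (by norm_num) hD]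
      norm_num
      rw [Real.rpow_neg_one]
      field_simp
  have hle : ∀ s : ℝ, s ∈ Ioi D → PW W s ≤ W / Real.pi * s ^ (-2 : ℝ) := by
    intro s hs
    have hs0 : 0 < s := hD.trans hs
    have e : s ^ (-2 : ℝ) = 1 / s ^ 2 := by
      rw [Real.rpow_neg hs0.le, one_div]
      norm_cast
    rw [e]
    unfold PW
    rw [div_mul_div_comm, mul_one, div_le_div_iff₀ (by positivity) (by positivity)]
    have : 0 ≤ W * Real.pi * W ^ 2 := by positivity
    nlinarith
  have hPi : Integrable (PW W) := (integral_PW hW).1
  have h2 : ∫ s in Ioi D, PW W s ≤ W / (Real.pi * D) := by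
    rw [← key.2]
    exact setIntegral_mono_on hPi.integrableOn key.1 measurableSet_Ioi hle
  have hPc : Continuous (PW W) := by simpa using cont_PW54 hW 0
  have h3 : ∫⁻ s in Ici D, ENNReal.ofReal (PW W s) ≤ ENNReal.ofReal (W / (Real.pi * D)) := by
    rw [setLIntegral_congr Ioi_ae_eq_Ici.symm,
      ← ofReal_integral_eq_lintegral_ofReal hPi.integrableOn
        (Eventually.of_forall fun t => (PW_pos hW _).le)]
    exact ENNReal.ofReal_le_ofReal h2
  have h4 : ∫⁻ s in Iic (-D), ENNReal.ofReal (PW W s) = ∫⁻ s in Ici D, ENNReal.ofReal (PW W s) := by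
    have hpre : (fun s : ℝ => -s) ⁻¹' (Ici D) = Iic (-D) := by
      ext s; simp only [mem_preimage, mem_Ici, mem_Iic]; constructor <;> intro h <;> linarith
    rw [← hpre]
    have hmp : MeasurePreserving (fun s : ℝ => -s) volume volume :=
      Measure.measurePreserving_neg volume
    have := hmp.setLIntegral_comp_preimage (s := Ici D) measurableSet_Ici
      (f := fun s => ENNReal.ofReal (PW W s)) (by fun_prop)
    rw [← this]
    apply lintegral_congr
    intro s
    unfold PW
    rw [neg_sq]
  unfold mu
  rw [withDensity_apply _ hS]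
  have e : {t : ℝ | D ≤ |t - τ|} = (fun t => t - τ) ⁻¹' (Iic (-D) ∪ Ici D) := by
    ext t
    simp only [mem_ofPred_eq, mem_preimage, mem_union, mem_Iic, mem_Ici, le_abs']
  rw [e]
  have hmp : MeasurePreserving (fun t : ℝ => t - τ) volume volume :=
    measurePreserving_sub_right volume τ
  rw [hmp.setLIntegral_comp_preimage (s := Iic (-D) ∪ Ici D)
    (measurableSet_Iic.union measurableSet_Ici) (f := fun s => ENNReal.ofReal (PW W s))
    (by fun_prop)]
  refine (lintegral_union_le _ _ _).trans ?_
  rw [h4]
  calc _ ≤ ENNReal.ofReal (W / (Real.pi * D)) + ENNReal.ofReal (W / (Real.pi * D)) := add_le_add h3 h3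
    _ = _ := by
      rw [← ENNReal.ofReal_add (by positivity) (by positivity)]
      congr 1
      ring

end Pool.Agent.Helper54.LG
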