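import Pool.Agent.Helper54.LG.Def
import Pool.Agent.Helper57.ED.PoA

/-!
# LG-COS: means of cosines and the semigroup property of the Poisson kernel

`integral_cexp`: for `u ≥ 0` apply `poisson_bdd` (`σ = 0`, `c = -1`, `K = 1`) to `f(s) = exp (-u s)`:
`∫ PW W (t - τ) e^{-iut} dt = e^{-u (W + iτ)}`; the other sign by conjugation. `PW_conv`: apply
`poisson_bdd` to `f(s) = 1 / (s + w - iγ)` (`σ = 0`, `c = -w/2`, `K = 1/w`): on the line
`Re f(it) = w / (w² + (t-γ)²) = π PW w (t - γ)`.
-/

set_option autoImplicit false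
open MeasureTheory Set Filter Topology
open Pool.Agent.Helper57.Zeta Pool.Agent.Helper57.LH Pool.Agent.Helper57.ED

namespace Pool.Agent.Helper54.LG

private lemma cexp_neg54 {W : ℝ} (hW : 0 < W) (τ : ℝ) {u : ℝ} (hu : u ≤ 0) :
    ∫ t, (PW W (t - τ) : ℂ) * Complex.exp (Complex.I * ((u * t : ℝ) : ℂ)) =
      (Real.exp (-(W * |u|)) : ℂ) * Complex.exp (Complex.I * ((u * τ : ℝ) : ℂ)) := by
  have h := poisson_bdd (f := fun s : ℂ => Complex.exp ((u : ℂ) * s)) (c := -1) (σ := 0) (W := W)
    (τ := τ) (K := 1) (by norm_num) (by fun_prop) (fun s hs => by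
      rw [Complex.norm_exp, Real.exp_le_one_iff]
      simp only [Complex.re_ofReal_mul]
      exact mul_nonpos_of_nonpos_of_nonneg hu hs) hW
  have e1 : ∀ t : ℝ, Complex.exp (Complex.I * ((u * t : ℝ) : ℂ)) =
      Complex.exp ((u : ℂ) * ((0 : ℝ) + t * Complex.I)) := by
    intro t
    congr 1
    push_cast
    ring
  simp_rw [e1]
  rw [← h, abs_of_nonpos hu, Complex.ofReal_exp, ← Complex.exp_add]
  congr 1
  push_cast
  ring

theorem integral_cexp {W : ℝ} (hW : 0 < W) (τ u : ℝ) :
    ∫ t, (PW W (t - τ) : ℂ) * Complex.exp (Complex.I * ((u * t : ℝ) : ℂ)) =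
      (Real.exp (-(W * |u|)) : ℂ) * Complex.exp (Complex.I * ((u * τ : ℝ) : ℂ)) := by
  rcases le_total u 0 with hu | hu
  · exact cexp_neg54 hW τ hu
  · have h := cexp_neg54 hW τ (u := -u) (by linarith)
    have h2 := congrArg (starRingEnd ℂ) h
    rw [← integral_conj] at h2
    have e1 : ∀ t : ℝ, (starRingEnd ℂ) ((PW W (t - τ) : ℂ) * Complex.exp (Complex.I * ((-u * t : ℝ) : ℂ))) =
        (PW W (t - τ) : ℂ) * Complex.exp (Complex.I * ((u * t : ℝ) : ℂ)) := by
      intro t
      rw [map_mul, Complex.conj_ofReal, ← Complex.exp_conj, map_mul, Complex.conj_I,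
        Complex.conj_ofReal]
      congr 2
      push_cast
      ring
    simp_rw [e1] at h2
    rw [h2, map_mul, Complex.conj_ofReal, ← Complex.exp_conj, map_mul, Complex.conj_I,
      Complex.conj_ofReal, abs_neg]
    congr 2
    push_cast
    ring

private lemma int_PW54 {W : ℝ} (hW : 0 < W) (τ : ℝ) : Integrable fun t => PW W (t - τ) :=
  (integral_PW hW).1.comp_sub_right τ

theorem integral_cos {W : ℝ} (hW : 0 < W) (τ u : ℝ) :
    ∫ t, PW W (t - τ) * Real.cos (u * t) = Real.exp (-(W * |u|)) * Real.cos (u * τ) := by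
  have h := congrArg Complex.re (integral_cexp hW τ u)
  have hi : Integrable fun t : ℝ => (PW W (t - τ) : ℂ) * Complex.exp (Complex.I * ((u * t : ℝ) : ℂ)) := by
    refine Integrable.mul_bdd (c := 1) (int_PW54 hW τ).ofReal ?_ ?_
    · apply Continuous.aestronglyMeasurable
      fun_prop
    · exact Eventually.of_forall fun t => by
        rw [mul_comm, Complex.norm_exp_ofReal_mul_I]
  have h1 := Complex.reCLM.integral_comp_comm hi
  simp only [Complex.reCLM_apply] at h1
  rw [← h1] at h
  have e1 : ∀ t : ℝ, ((PW W (t - τ) : ℂ) * Complex.exp (Complex.I * ((u * t : ℝ) : ℂ))).re =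
      PW W (t - τ) * Real.cos (u * t) := by
    intro t
    rw [Complex.re_ofReal_mul, mul_comm Complex.I, Complex.exp_ofReal_mul_I_re]
  simp_rw [e1] at h
  rw [h, Complex.re_ofReal_mul, mul_comm Complex.I, Complex.exp_ofReal_mul_I_re]

theorem PW_conv {W w : ℝ} (hW : 0 < W) (hw : 0 < w) (τ γ : ℝ) :
    Integrable (fun t => PW W (t - τ) * PW w (t - γ)) ∧
      ∫ t, PW W (t - τ) * PW w (t - γ) = PW (W + w) (γ - τ) := by
  have hpi := Real.pi_pos
  have hbd : ∀ t : ℝ, PW w (t - γ) ≤ 1 / (Real.pi * w) := by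
    intro t
    unfold PW
    rw [div_le_div_iff₀ (by positivity) (by positivity)]
    have h1 : 0 ≤ Real.pi * (t - γ) ^ 2 := by positivity
    nlinarith
  have hint : Integrable (fun t => PW W (t - τ) * PW w (t - γ)) := by
    refine Integrable.mul_bdd (c := 1 / (Real.pi * w)) (int_PW54 hW τ) ?_ ?_
    · apply Continuous.aestronglyMeasurable
      unfold PW
      apply Continuous.div continuous_const (by fun_prop)
      intro t
      positivity
    · exact Eventually.of_forall fun t => by
        rw [Real.norm_of_nonneg (PW_pos hw _).le]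
        exact hbd t
  refine ⟨hint, ?_⟩
  have hne : ∀ s : ℂ, -w < s.re → s + w - γ * Complex.I ≠ 0 := by
    intro s hs h0
    have := congrArg Complex.re h0
    simp at this
    linarith
  have h := poisson_bdd (f := fun s : ℂ => 1 / (s + w - γ * Complex.I)) (c := -w) (σ := 0)
    (W := W) (τ := τ) (K := 1 / w) (by linarith) (by
      apply DifferentiableOn.div (by fun_prop) (by fun_prop)
      intro s hs
      exact hne s hs) (fun s hs => by
      rw [norm_div, norm_one]
      apply div_le_div_of_nonneg_left (by norm_num) hw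
      have h1 := Complex.re_le_norm (s + w - γ * Complex.I)
      have h2 : (s + w - γ * Complex.I).re = s.re + w := by simp
      rw [h2] at h1
      linarith) hW
  have hre := congrArg Complex.re h
  have hi2 : Integrable fun t : ℝ => (PW W (t - τ) : ℂ) *
      (1 / (((0 : ℝ) : ℂ) + t * Complex.I + w - γ * Complex.I)) := by
    refine Integrable.mul_bdd (c := 1 / w) (int_PW54 hW τ).ofReal ?_ ?_
    · apply Continuous.aestronglyMeasurable
      apply Continuous.div continuous_const (by fun_prop)
      intro t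
      exact hne _ (by simpa using hw)
    · exact Eventually.of_forall fun t => by
        rw [norm_div, norm_one]
        apply div_le_div_of_nonneg_left (by norm_num) hw
        have h1 := Complex.re_le_norm (((0 : ℝ) : ℂ) + t * Complex.I + w - γ * Complex.I)
        have h2 : (((0 : ℝ) : ℂ) + t * Complex.I + w - γ * Complex.I).re = w := by simp
        rw [h2] at h1
        exact h1
  have h1 := Complex.reCLM.integral_comp_comm hi2
  simp only [Complex.reCLM_apply] at h1
  rw [← h1] at hre
  have key : ∀ v x : ℝ, 0 < v → (1 / ((v : ℂ) + x * Complex.I)).re = Real.pi * PW v x := by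
    intro v x hv
    rw [one_div, Complex.inv_re, Complex.normSq_apply]
    simp only [Complex.add_re, Complex.ofReal_re, Complex.mul_re, Complex.I_re, mul_zero,
      Complex.ofReal_im, Complex.I_im, mul_one, sub_self, add_zero, Complex.add_im, Complex.mul_im,
      zero_add]
    unfold PW
    have : 0 < v ^ 2 + x ^ 2 := by positivity
    have h3 : v * v + x * x = v ^ 2 + x ^ 2 := by ring
    rw [h3]
    field_simp
  have e1 : ∀ t : ℝ, ((PW W (t - τ) : ℂ) * (1 / (((0 : ℝ) : ℂ) + t * Complex.I + w - γ * Complex.I))).re =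
      Real.pi * (PW W (t - τ) * PW w (t - γ)) := by
    intro t
    rw [Complex.re_ofReal_mul]
    have e2 : (((0 : ℝ) : ℂ) + t * Complex.I + w - γ * Complex.I) = (w : ℂ) + ((t - γ : ℝ) : ℂ) * Complex.I := by
      push_cast
      ring
    rw [e2, key w _ hw]
    ring
  simp_rw [e1] at hre
  rw [integral_const_mul] at hre
  have e3 : ((((0 + W : ℝ) : ℂ)) + τ * Complex.I + w - γ * Complex.I) =
      ((W + w : ℝ) : ℂ) + ((τ - γ : ℝ) : ℂ) * Complex.I := by
    push_cast
    ring
  rw [e3, key (W + w) _ (by positivity)] at hre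
  have e4 : PW (W + w) (τ - γ) = PW (W + w) (γ - τ) := by
    unfold PW
    rw [show (τ - γ) ^ 2 = (γ - τ) ^ 2 by ring]
  rw [e4] at hre
  exact (mul_left_cancel₀ hpi.ne' hre).symm

end Pool.Agent.Helper54.LG
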