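import Pool.Agent.Helper54.LG.Def

/-!
# LG: the hypotheses of the final deduction
-/

set_option autoImplicit false
open MeasureTheory Set Filter Topology
open Pool.Agent.Helper57.Zeta Pool.Agent.Helper57.LH Pool.Agent.Helper57.ED Pool.Agent.Helper57.PC

namespace Pool.Agent.Helper54.LG

/-- No-gap bound for the kernel. -/
def C1 (θ lam : ℝ) : Prop := ∀ δ : ℝ, 0 < δ → ∃ R : ℝ, 0 < R ∧ ∀ S : Finset ℝ,
  (∀ x : ℝ, -R ≤ x → x + 2 * Real.pi * θ * lam ≤ R → ∃ s ∈ S, x ≤ s ∧ s ≤ x + 2 * Real.pi * θ * lam) →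
    1 / (θ * lam) - δ ≤ ∑ s ∈ S, qk 0 s

/-- Majorant for the loss of the pairs off the line. -/
def C2 (θ e : ℝ) : Prop := ∀ A : ℝ, 0 < A → ∃ (n : ℕ) (c a : Fin n → ℝ),
  (∀ j, 0 ≤ c j) ∧ (∀ j, 0 < a j) ∧
  (∀ x, 0 ≤ x → x ≤ A → ∫ b, ek x b ≤ ∑ j, c j * max 0 (x - a j)) ∧
  ∑ j, c j * Bn (a j / (2 * Real.pi * θ)) ≤ e

/-- Test polynomial. -/
def C3 (κ e : ℝ) : Prop := ∃ co : ℕ → ℕ → ℝ, (∀ i j, 8 < i + 2 * j → co i j = 0) ∧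
  (∀ x y : ℝ, ∑ i ∈ Finset.range 9, ∑ j ∈ Finset.range 5, co i j * x ^ i * y ^ j ≤
    max 0 (-κ - x - y)) ∧
  e < ∑ i ∈ Finset.range 9, ∑ j ∈ Finset.range 5, co i j * gm i v1 * gm j v2

/-- The deep density theorem. -/
def DeepDens : Prop := ∀ K e : ℝ, 0 ≤ K → 0 < e → ∃ Y : ℝ, ∀ᶠ W : ℝ in atTop, ∀ τ : ℝ,
  |τ| ≤ K * W → ∀ Z : Finset ZS,
    (∀ ρ ∈ Z, Y ≤ Real.log W * ((ρ : ℂ).re - 1 / 2) / (2 * Real.pi)) →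
    ∑ ρ ∈ Z, mx ρ * (2 * Real.pi / Real.log W * PW W ((ρ : ℂ).im - τ)) *
      Real.exp (Real.pi / 2 * (Real.log W * ((ρ : ℂ).re - 1 / 2) / (2 * Real.pi))) ≤ e

end Pool.Agent.Helper54.LG
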