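import Pool.Agent.Helper54.LG.Def

/-!
# LG-KER: elementary properties of the kernel

`qk_bound`: the trivial bound is `2 cosh a / 3`; integrating by parts twice with
`F(u) = (1-u)² cosh (au)`, `F(1) = F'(1) = 0`, `F'(0) = -2`: `b² ∫ F cos(bu) = 2 - ∫ F'' cos (bu)`, and
`∫ |F''| ≤ 2 cosh a + 4 |a| ∫ (1-u) sinh (|a|u) + a² ∫ (1-u)² cosh (au) ≤ 8 cosh a`, in total
`(1 + b²) |qk a b| ≤ (2/3 + 20) cosh a`. `qk_zero_nonneg`: `qk 0 b = 4 (1 - sin b / b) / b²` for `b ≠ 0`.
-/

set_option autoImplicit false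
open MeasureTheory Set Filter Topology
open Pool.Agent.Helper57.Zeta Pool.Agent.Helper57.LH Pool.Agent.Helper57.ED

namespace Pool.Agent.Helper54.LG

theorem qk_neg_left (a b : ℝ) : qk (-a) b = qk a b := by
  simp only [qk, neg_mul, Real.cosh_neg]

theorem qk_neg_right (a b : ℝ) : qk a (-b) = qk a b := by
  simp only [qk, neg_mul, Real.cos_neg]

private theorem qk_abs74 (a b : ℝ) : qk |a| b = qk a b := by
  rcases abs_choice a with h | h
  · rw [h]
  · rw [h, qk_neg_left]

/-- the second derivative of `(1-u)² cosh (au)` -/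
private noncomputable def F2_74 (a u : ℝ) : ℝ :=
  2 * Real.cosh (a * u) - 4 * a * (1 - u) * Real.sinh (a * u)
    + a ^ 2 * (1 - u) ^ 2 * Real.cosh (a * u)

private theorem F2_cont74 (a : ℝ) : Continuous (F2_74 a) := by
  unfold F2_74
  fun_prop

private theorem parts74 (a b : ℝ) :
    b ^ 2 * (∫ u in (0:ℝ)..1, (1 - u) ^ 2 * Real.cosh (a * u) * Real.cos (b * u)) =
      2 - ∫ u in (0:ℝ)..1, F2_74 a u * Real.cos (b * u) := by
  have hd : ∀ u : ℝ, HasDerivAt (fun u : ℝ => (1 - u) ^ 2 * Real.cosh (a * u) * (b * Real.sin (b * u))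
      + (-2 * (1 - u) * Real.cosh (a * u) + a * (1 - u) ^ 2 * Real.sinh (a * u)) * Real.cos (b * u))
      (b ^ 2 * ((1 - u) ^ 2 * Real.cosh (a * u) * Real.cos (b * u)) + F2_74 a u * Real.cos (b * u))
      u := by
    intro u
    have h1 : HasDerivAt (fun u : ℝ => 1 - u) (-1) u := by
      simpa using (hasDerivAt_id u).const_sub 1
    have ha : HasDerivAt (fun u : ℝ => a * u) a u := by
      simpa using (hasDerivAt_id u).const_mul a
    have hb : HasDerivAt (fun u : ℝ => b * u) b u := by
      simpa using (hasDerivAt_id u).const_mul b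
    have hc := ha.cosh
    have hs := ha.sinh
    have hco := hb.cos
    have hsi := hb.sin
    have h2 := h1.pow 2
    have e1 := (h2.mul hc).mul (hsi.const_mul b)
    have e2 := (((h1.const_mul (-2)).mul hc).add ((h2.const_mul a).mul hs)).mul hco
    refine (e1.add e2).congr_deriv ?_
    unfold F2_74
    simp only [Pi.mul_apply, Pi.pow_apply, Pi.add_apply]
    push_cast
    ring
  have hF := F2_cont74 a
  have c1 : Continuous fun u : ℝ => (1 - u) ^ 2 * Real.cosh (a * u) * Real.cos (b * u) := by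
    fun_prop
  have c2 : Continuous fun u : ℝ => F2_74 a u * Real.cos (b * u) := by fun_prop
  have key := intervalIntegral.integral_eq_sub_of_hasDerivAt (a := 0) (b := 1)
    (fun u _ => hd u) (((c1.const_mul (b ^ 2)).add c2).intervalIntegrable 0 1)
  rw [intervalIntegral.integral_add ((c1.const_mul (b ^ 2)).intervalIntegrable 0 1)
    (c2.intervalIntegrable 0 1), intervalIntegral.integral_const_mul] at key
  simp at key
  linarith [key]

private theorem int_cosh74 {a : ℝ} (ha : 0 ≤ a) :
    ∫ u in (0:ℝ)..1, Real.cosh (a * u) ≤ Real.cosh a := by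
  have c : Continuous fun u : ℝ => Real.cosh (a * u) := by fun_prop
  calc ∫ u in (0:ℝ)..1, Real.cosh (a * u) ≤ ∫ _u in (0:ℝ)..1, Real.cosh a := by
        refine intervalIntegral.integral_mono_on zero_le_one (c.intervalIntegrable 0 1)
          (continuous_const.intervalIntegrable 0 1) fun u hu => ?_
        rw [Real.cosh_le_cosh, abs_of_nonneg (mul_nonneg ha hu.1), abs_of_nonneg ha]
        nlinarith [hu.1, hu.2]
    _ = Real.cosh a := by simp

private theorem int_F2_74 {a : ℝ} (ha : 0 ≤ a) :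
    ∫ u in (0:ℝ)..1, |F2_74 a u| ≤ 8 * Real.cosh a := by
  have hd : ∀ u : ℝ, HasDerivAt (fun u : ℝ => 6 * ((1 - u) * Real.cosh (a * u))
      + (1 - u) ^ 2 * (a * Real.sinh (a * u)))
      (2 * Real.cosh (a * u) + 4 * a * (1 - u) * Real.sinh (a * u)
        + a ^ 2 * (1 - u) ^ 2 * Real.cosh (a * u) - 8 * Real.cosh (a * u)) u := by
    intro u
    have h1 : HasDerivAt (fun u : ℝ => 1 - u) (-1) u := by
      simpa using (hasDerivAt_id u).const_sub 1
    have hx : HasDerivAt (fun u : ℝ => a * u) a u := by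
      simpa using (hasDerivAt_id u).const_mul a
    have hc := hx.cosh
    have hs := hx.sinh
    have e := ((h1.mul hc).const_mul 6).add ((h1.pow 2).mul (hs.const_mul a))
    refine e.congr_deriv ?_
    simp only [Pi.pow_apply]
    push_cast
    ring
  have cG : Continuous fun u : ℝ => 2 * Real.cosh (a * u) + 4 * a * (1 - u) * Real.sinh (a * u)
      + a ^ 2 * (1 - u) ^ 2 * Real.cosh (a * u) := by fun_prop
  have cC : Continuous fun u : ℝ => 8 * Real.cosh (a * u) := by fun_prop
  have key := intervalIntegral.integral_eq_sub_of_hasDerivAt (a := 0) (b := 1)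
    (fun u _ => hd u) ((cG.sub cC).intervalIntegrable 0 1)
  rw [intervalIntegral.integral_sub (cG.intervalIntegrable 0 1) (cC.intervalIntegrable 0 1),
    intervalIntegral.integral_const_mul] at key
  simp at key
  have hc := int_cosh74 ha
  have hm : ∫ u in (0:ℝ)..1, |F2_74 a u| ≤ ∫ u in (0:ℝ)..1,
      (2 * Real.cosh (a * u) + 4 * a * (1 - u) * Real.sinh (a * u)
        + a ^ 2 * (1 - u) ^ 2 * Real.cosh (a * u)) := by
    refine intervalIntegral.integral_mono_on zero_le_one
      ((F2_cont74 a).abs.intervalIntegrable 0 1) (cG.intervalIntegrable 0 1) fun u hu => ?_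
    have h1 : 0 ≤ Real.cosh (a * u) := (Real.cosh_pos _).le
    have h2 : 0 ≤ Real.sinh (a * u) := Real.sinh_nonneg_iff.2 (mul_nonneg ha hu.1)
    have h3 : 0 ≤ 4 * a * (1 - u) * Real.sinh (a * u) :=
      mul_nonneg (mul_nonneg (by linarith) (by linarith [hu.2])) h2
    have h4 : 0 ≤ a ^ 2 * (1 - u) ^ 2 * Real.cosh (a * u) :=
      mul_nonneg (mul_nonneg (sq_nonneg _) (sq_nonneg _)) h1
    unfold F2_74
    rw [abs_le]
    constructor <;> linarith
  linarith

private theorem triv74 {a : ℝ} (ha : 0 ≤ a) (b : ℝ) :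
    |∫ u in (0:ℝ)..1, (1 - u) ^ 2 * Real.cosh (a * u) * Real.cos (b * u)| ≤ Real.cosh a / 3 := by
  have c1 : Continuous fun u : ℝ => (1 - u) ^ 2 * Real.cosh (a * u) * Real.cos (b * u) := by
    fun_prop
  have c2 : Continuous fun u : ℝ => (1 - u) ^ 2 * Real.cosh a := by fun_prop
  refine (intervalIntegral.abs_integral_le_integral_abs zero_le_one).trans ?_
  calc ∫ u in (0:ℝ)..1, |(1 - u) ^ 2 * Real.cosh (a * u) * Real.cos (b * u)| ≤
        ∫ u in (0:ℝ)..1, (1 - u) ^ 2 * Real.cosh a := by
        refine intervalIntegral.integral_mono_on zero_le_one (c1.abs.intervalIntegrable 0 1)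
          (c2.intervalIntegrable 0 1) fun u hu => ?_
        rw [abs_mul, abs_mul, abs_of_nonneg (sq_nonneg _), abs_of_pos (Real.cosh_pos _)]
        have h1 : Real.cosh (a * u) ≤ Real.cosh a := by
          rw [Real.cosh_le_cosh, abs_of_nonneg (mul_nonneg ha hu.1), abs_of_nonneg ha]
          nlinarith [hu.1, hu.2]
        calc (1 - u) ^ 2 * Real.cosh (a * u) * |Real.cos (b * u)| ≤
              (1 - u) ^ 2 * Real.cosh a * 1 :=
              mul_le_mul (mul_le_mul_of_nonneg_left h1 (sq_nonneg _)) (Real.abs_cos_le_one _)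
                (abs_nonneg _) (mul_nonneg (sq_nonneg _) (Real.cosh_pos _).le)
          _ = (1 - u) ^ 2 * Real.cosh a := mul_one _
    _ = Real.cosh a / 3 := by
        rw [intervalIntegral.integral_mul_const]
        have : ∫ u in (0:ℝ)..1, (1 - u) ^ 2 = 1 / 3 := by
          rw [intervalIntegral.integral_comp_sub_left (fun u => u ^ 2) 1]
          norm_num
        rw [this]
        ring

theorem qk_bound (a b : ℝ) : |qk a b| ≤ 21 * Real.cosh a / (1 + b ^ 2) := by
  rw [← qk_abs74 a b, ← Real.cosh_abs a]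
  have ha := abs_nonneg a
  generalize |a| = a at *
  have h1 := triv74 ha b
  have h2 := parts74 a b
  have h3 : |∫ u in (0:ℝ)..1, F2_74 a u * Real.cos (b * u)| ≤ 8 * Real.cosh a := by
    refine le_trans ?_ (int_F2_74 ha)
    refine (intervalIntegral.abs_integral_le_integral_abs zero_le_one).trans ?_
    refine intervalIntegral.integral_mono_on zero_le_one
      (((F2_cont74 a).mul (by fun_prop)).abs.intervalIntegrable 0 1)
      ((F2_cont74 a).abs.intervalIntegrable 0 1) fun u _ => ?_
    rw [abs_mul]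
    exact mul_le_of_le_one_right (abs_nonneg _) (Real.abs_cos_le_one _)
  have hc := Real.one_le_cosh a
  rw [le_div_iff₀ (by positivity)]
  unfold qk
  generalize (∫ u in (0:ℝ)..1, (1 - u) ^ 2 * Real.cosh (a * u) * Real.cos (b * u)) = I at *
  generalize (∫ u in (0:ℝ)..1, F2_74 a u * Real.cos (b * u)) = J at *
  rw [abs_mul, abs_of_pos (by norm_num : (0:ℝ) < 2)]
  have h4 : b ^ 2 * |I| ≤ 2 + 8 * Real.cosh a := by
    have : b ^ 2 * |I| = |b ^ 2 * I| := by rw [abs_mul, abs_of_nonneg (sq_nonneg b)]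
    rw [this, h2]
    have := abs_sub (2:ℝ) J
    rw [abs_of_pos (by norm_num : (0:ℝ) < 2)] at this
    linarith
  nlinarith

theorem qk_cont (a : ℝ) : Continuous (qk a) := by
  unfold qk
  refine continuous_const.mul ?_
  exact intervalIntegral.continuous_parametric_intervalIntegral_of_continuous' (by fun_prop) 0 1

theorem qk_zero_nonneg (b : ℝ) : 0 ≤ qk 0 b := by
  have h := parts74 0 b
  have e : ∀ u : ℝ, F2_74 0 u * Real.cos (b * u) = 2 * Real.cos (b * u) := by
    intro u
    unfold F2_74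
    simp
  simp only [e] at h
  rw [intervalIntegral.integral_const_mul] at h
  have h1 : ∫ u in (0:ℝ)..1, Real.cos (b * u) ≤ 1 := by
    calc ∫ u in (0:ℝ)..1, Real.cos (b * u) ≤ ∫ _u in (0:ℝ)..1, (1:ℝ) := by
          refine intervalIntegral.integral_mono_on zero_le_one
            ((by fun_prop : Continuous fun u : ℝ => Real.cos (b * u)).intervalIntegrable 0 1)
            (continuous_const.intervalIntegrable 0 1) fun u _ => Real.cos_le_one _
      _ = 1 := by simp
  unfold qk
  rcases eq_or_ne b 0 with rfl | hb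
  · refine mul_nonneg (by norm_num) (intervalIntegral.integral_nonneg zero_le_one fun u _ => ?_)
    simp only [zero_mul, Real.cosh_zero, Real.cos_zero, mul_one]
    exact sq_nonneg _
  · have hb2 : 0 < b ^ 2 := by positivity
    generalize (∫ u in (0:ℝ)..1, (1 - u) ^ 2 * Real.cosh (0 * u) * Real.cos (b * u)) = I at *
    have : 0 ≤ b ^ 2 * I := by rw [h]; linarith
    have h2 : 0 ≤ I := nonneg_of_mul_nonneg_right this hb2
    linarith

theorem ek_nonneg (a b : ℝ) : 0 ≤ ek a b := le_max_left _ _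

theorem ek_zero (b : ℝ) : ek 0 b = 0 := by
  unfold ek
  have := qk_zero_nonneg b
  exact max_eq_left (by linarith)

theorem ek_le_hk (a b : ℝ) : ek a b ≤ hk a b := by
  unfold ek hk
  have h1 := abs_nonneg (qk 0 b)
  have h2 := abs_nonneg (qk a b)
  refine max_le (by linarith) ?_
  have h3 := le_abs_self (qk 0 b)
  have h4 := neg_abs_le (qk a b)
  linarith

theorem hk_bound (a b : ℝ) : hk a b ≤ 63 * Real.cosh a / (1 + b ^ 2) := by
  unfold hk
  have h1 := qk_bound 0 b
  have h2 := qk_bound a b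
  have hc := Real.one_le_cosh a
  have hb : 0 < 1 + b ^ 2 := by positivity
  rw [Real.cosh_zero] at h1
  have h3 : 21 * 1 / (1 + b ^ 2) ≤ 21 * Real.cosh a / (1 + b ^ 2) := by gcongr
  have h4 : 63 * Real.cosh a / (1 + b ^ 2) = 3 * (21 * Real.cosh a / (1 + b ^ 2)) := by ring
  linarith

theorem ek_cont (a : ℝ) : Continuous (ek a) := by
  unfold ek
  exact continuous_const.max ((qk_cont 0).sub (continuous_const.mul (qk_cont a)))

theorem hk_cont (a : ℝ) : Continuous (hk a) := by
  unfold hk
  exact (qk_cont 0).abs.add (continuous_const.mul (qk_cont a).abs)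

end Pool.Agent.Helper54.LG
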