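import Pool.Agent.Helper54.LG.Def

/-!
# LG-COUNT: upper bound for the density of all zeros, with the Poisson weight

`pf_hasSum` (M/Z) at `s = W + 1 + iτ`: `∑_ρ mx ρ Re (1/(s - ρ)) = Re (logDeriv xi s)`, all terms
are `(W+1-β)/((W+1-β)² + (τ-γ)²) ≥ c W/(W² + (τ-γ)²)` (`0 < β < 1`), and `Re (logDeriv xi s) ≤ C log (2 + ‖s‖)`.
-/

set_option autoImplicit false
open MeasureTheory Set Filter Topology
open Pool.Agent.Helper57.Zeta Pool.Agent.Helper57.LH Pool.Agent.Helper57.ED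

namespace Pool.Agent.Helper54.LG

/-- the terms of the digamma series -/
private lemma term_re52 (z : ℂ) (n : ℕ) : (1 / ((n:ℂ) + 1) - 1 / ((n:ℂ) + z)).re =
    1 / ((n:ℝ) + 1) - ((n:ℝ) + z.re) / (((n:ℝ) + z.re) ^ 2 + z.im ^ 2) := by
  have e1 : (1 / ((n:ℂ) + 1)).re = 1 / ((n:ℝ) + 1) := by
    have : 1 / ((n:ℂ) + 1) = ((1 / ((n:ℝ) + 1) : ℝ) : ℂ) := by push_cast; rfl
    rw [this, Complex.ofReal_re]
  rw [Complex.sub_re, e1, one_div ((n:ℂ) + z), Complex.inv_re, Complex.normSq_apply]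
  simp only [Complex.add_re, Complex.natCast_re, Complex.add_im, Complex.natCast_im, zero_add]
  ring

/-- upper bound for the digamma function -/
private lemma digamma_le52 {z : ℂ} (hz : 1 ≤ z.re) : (Complex.digamma z).re ≤ 4 + Real.log (‖z‖ + 2) := by
  have h1 := Complex.hasSum_re (digamma_hasSum (s := z) (by linarith))
  rw [Complex.add_re, Complex.ofReal_re] at h1
  have hγ := Real.one_half_lt_eulerMascheroniConstant
  have hz1 : 1 ≤ ‖z‖ := hz.trans (Complex.re_le_norm z)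
  set M : ℕ := ⌈‖z‖⌉₊ with hM
  have hMz : ‖z‖ ≤ M := Nat.le_ceil _
  have hMz2 : (M:ℝ) < ‖z‖ + 1 := Nat.ceil_lt_add_one (by linarith)
  have hM1 : 1 ≤ M := by
    rw [hM, Nat.one_le_ceil_iff]; linarith
  have hM0 : (0:ℝ) < M := by exact_mod_cast hM1
  have h2 := h1.tendsto_sum_nat.comp (tendsto_add_atTop_nat M)
  have h3 : ∀ K : ℕ, ∑ n ∈ Finset.range (K + M), (1 / ((n:ℂ) + 1) - 1 / ((n:ℂ) + z)).re ≤ 4 + Real.log (‖z‖ + 2) := by
    intro K
    rw [add_comm K M, Finset.sum_range_add]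
    have hA : ∑ n ∈ Finset.range M, (1 / ((n:ℂ) + 1) - 1 / ((n:ℂ) + z)).re ≤ (harmonic M : ℝ) := by
      unfold harmonic
      push_cast
      refine Finset.sum_le_sum fun n _ => ?_
      rw [term_re52, one_div]
      have : (0:ℝ) ≤ n := Nat.cast_nonneg n
      have : 0 ≤ ((n:ℝ) + z.re) / (((n:ℝ) + z.re) ^ 2 + z.im ^ 2) := by
        apply div_nonneg (by linarith) (by positivity)
      linarith
    have hH1 := harmonic_le_one_add_log M
    have hH2 : Real.log M ≤ Real.log (‖z‖ + 2) := Real.log_le_log hM0 (by linarith)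
    have hB : ∑ n ∈ Finset.range K, (1 / (((M + n : ℕ):ℂ) + 1) - 1 / (((M + n : ℕ):ℂ) + z)).re ≤ 2 := by
      have h4 : ∀ n : ℕ, (1 / (((M + n : ℕ):ℂ) + 1) - 1 / (((M + n : ℕ):ℂ) + z)).re ≤
          (2 * M) * (1 / (((n:ℝ) + M) * ((n:ℝ) + M + 1))) := by
        intro n
        rw [term_re52]
        push_cast
        have hn0 : (0:ℝ) ≤ n := Nat.cast_nonneg n
        set p : ℝ := (n:ℝ) + M with hp
        have hpM : (M:ℝ) ≤ p := by rw [hp]; linarith
        have hp0 : 0 < p := by linarith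
        rw [show (M:ℝ) + n = p by rw [hp]; ring]
        have hx1 : z.re ≤ M := (Complex.re_le_norm z).trans hMz
        have hy : z.im ^ 2 ≤ M * p := by
          have h5 := Complex.abs_im_le_norm z
          have h6 : z.im ^ 2 ≤ ‖z‖ ^ 2 := by rw [← sq_abs]; gcongr
          nlinarith
        have hq : 0 < (p + z.re) ^ 2 + z.im ^ 2 := by positivity
        have e5 : 1 / (p + 1) - (p + z.re) / ((p + z.re) ^ 2 + z.im ^ 2) =
            ((p + z.re) * (z.re - 1) + z.im ^ 2) / ((p + 1) * ((p + z.re) ^ 2 + z.im ^ 2)) := by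
          field_simp
          ring
        rw [e5, mul_one_div, div_le_div_iff₀ (by positivity) (by positivity)]
        have h7 : ((p + z.re) * (z.re - 1) + z.im ^ 2) * p ≤ 2 * M * ((p + z.re) ^ 2 + z.im ^ 2) := by
          have h8 : (p + z.re) * (z.re - 1) * p ≤ (p + z.re) * M * (p + z.re) := by
            gcongr <;> linarith
          have h9 : z.im ^ 2 * p ≤ (M * p) * p := by gcongr
          have h10 : (M * p) * p ≤ M * (p + z.re) ^ 2 := by
            have : p ^ 2 ≤ (p + z.re) ^ 2 := by gcongr; linarith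
            nlinarith
          have h11 : 0 ≤ M * z.im ^ 2 := by positivity
          nlinarith
        calc ((p + z.re) * (z.re - 1) + z.im ^ 2) * (p * (p + 1))
            = (((p + z.re) * (z.re - 1) + z.im ^ 2) * p) * (p + 1) := by ring
          _ ≤ (2 * M * ((p + z.re) ^ 2 + z.im ^ 2)) * (p + 1) := by gcongr
          _ = _ := by ring
      calc ∑ n ∈ Finset.range K, (1 / (((M + n : ℕ):ℂ) + 1) - 1 / (((M + n : ℕ):ℂ) + z)).re
          ≤ ∑ n ∈ Finset.range K, (2 * M) * (1 / (((n:ℝ) + M) * ((n:ℝ) + M + 1))) :=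
            Finset.sum_le_sum fun n _ => h4 n
        _ = (2 * M) * (1 / (M:ℝ) - 1 / ((K:ℝ) + M)) := by rw [← Finset.mul_sum, tel_sum M hM1]
        _ ≤ (2 * M) * (1 / (M:ℝ)) := by
            have : 0 ≤ 1 / ((K:ℝ) + M) := by positivity
            gcongr
            linarith
        _ = 2 := by field_simp
    linarith
  have h4 := le_of_tendsto h2 (Eventually.of_forall fun K => h3 K)
  linarith

/-- the logarithmic derivative of zeta is bounded on `Re s ≥ 2` -/
private lemma logDeriv_zeta52 : ∃ C : ℝ, 0 ≤ C ∧ ∀ s : ℂ, 2 ≤ s.re → ‖logDeriv riemannZeta s‖ ≤ C := by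
  set f : ℕ → ℂ := fun n => ((ArithmeticFunction.vonMangoldt n : ℝ) : ℂ) with hf
  have hs2 : Summable fun n => ‖LSeries.term f (2:ℂ) n‖ :=
    (ArithmeticFunction.LSeriesSummable_vonMangoldt (s := 2) (by norm_num)).norm
  refine ⟨∑' n, ‖LSeries.term f (2:ℂ) n‖, tsum_nonneg fun n => norm_nonneg _, ?_⟩
  intro s hs
  have hle : ∀ n, ‖LSeries.term f s n‖ ≤ ‖LSeries.term f (2:ℂ) n‖ := fun n =>
    LSeries.norm_term_le_of_re_le_re f (by simpa using hs) n
  have hss : Summable fun n => ‖LSeries.term f s n‖ :=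
    Summable.of_nonneg_of_le (fun n => norm_nonneg _) hle hs2
  have h1 := ArithmeticFunction.LSeries_vonMangoldt_eq_deriv_riemannZeta_div (s := s) (by linarith)
  have h2 : ‖logDeriv riemannZeta s‖ = ‖∑' n, LSeries.term f s n‖ := by
    rw [logDeriv_apply, ← norm_neg, ← neg_div, ← h1]
    rfl
  rw [h2]
  exact (norm_tsum_le_tsum_norm hss).trans (hss.tsum_le_tsum hle hs2)

/-- `Re ξ'/ξ` is at most logarithmic. -/
private lemma xi_le52 : ∃ C : ℝ, 0 ≤ C ∧ ∀ s : ℂ, 2 ≤ s.re → (logDeriv xi s).re ≤ C + Real.log (‖s‖ + 2) := by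
  obtain ⟨C, hC, hb⟩ := logDeriv_zeta52
  refine ⟨C + 4, by linarith, ?_⟩
  intro s hs
  rw [logDeriv_xi (by linarith)]
  simp only [Complex.add_re]
  have hn : s.re ≤ ‖s‖ := Complex.re_le_norm s
  have h1 : (1 / s).re ≤ 1 := by
    refine (Complex.re_le_norm _).trans ?_
    rw [norm_div, norm_one, div_le_one (by linarith)]
    linarith
  have h2 : (1 / (s - 1)).re ≤ 1 := by
    refine (Complex.re_le_norm _).trans ?_
    have h3 : (s - 1).re ≤ ‖s - 1‖ := Complex.re_le_norm _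
    rw [Complex.sub_re, Complex.one_re] at h3
    rw [norm_div, norm_one, div_le_one (by linarith)]
    linarith
  have h3 : (-(Real.log Real.pi : ℂ) / 2).re ≤ 0 := by
    have : (-(Real.log Real.pi : ℂ) / 2) = ((-(Real.log Real.pi) / 2 : ℝ) : ℂ) := by push_cast; rfl
    rw [this, Complex.ofReal_re]
    have : 0 ≤ Real.log Real.pi := Real.log_nonneg (by have := Real.pi_gt_three; linarith)
    linarith
  have hs2 : (s / 2).re = s.re / 2 := by
    rw [show s / 2 = ((1/2 : ℝ) : ℂ) * s by push_cast; ring, Complex.re_ofReal_mul]; ring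
  have h4 : (Complex.digamma (s / 2) / 2).re ≤ 2 + Real.log (‖s‖ + 2) := by
    have h5 := digamma_le52 (z := s / 2) (by rw [hs2]; linarith)
    have e : (Complex.digamma (s / 2) / 2).re = (Complex.digamma (s / 2)).re / 2 := by
      rw [show Complex.digamma (s / 2) / 2 = ((1/2 : ℝ) : ℂ) * Complex.digamma (s / 2) by push_cast; ring,
        Complex.re_ofReal_mul]; ring
    have h6 : Real.log (‖s / 2‖ + 2) ≤ Real.log (‖s‖ + 2) := by
      apply Real.log_le_log (by positivity)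
      rw [norm_div, Complex.norm_ofNat]
      have := norm_nonneg s
      linarith
    have h7 : 0 ≤ Real.log (‖s‖ + 2) := Real.log_nonneg (by have := norm_nonneg s; linarith)
    rw [e]
    linarith
  have h5 := (Complex.re_le_norm _).trans (hb s hs)
  linarith

theorem count_mean {K : ℝ} (hK : 0 ≤ K) : ∃ C : ℝ, 0 < C ∧ ∀ᶠ W : ℝ in atTop, ∀ τ : ℝ,
    |τ| ≤ K * W → ∀ Z : Finset ZS,
      ∑ ρ ∈ Z, mx ρ * (2 * Real.pi / Real.log W * PW W ((ρ : ℂ).im - τ)) ≤ C := by
  obtain ⟨C, hC, hb⟩ := xi_le52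
  refine ⟨8 * (C + Real.log (K + 4) + 1), ?_, ?_⟩
  · have : 0 ≤ Real.log (K + 4) := Real.log_nonneg (by linarith)
    linarith
  filter_upwards [eventually_ge_atTop (Real.exp 1)] with W hW τ hτ Z
  have hW1 : 1 ≤ W := (Real.one_le_exp (by norm_num)).trans hW
  have hW0 : 0 < W := by linarith
  have hlog : 1 ≤ Real.log W := by
    rw [Real.le_log_iff_exp_le hW0]; exact hW
  set s : ℂ := ((W + 1 : ℝ) : ℂ) + (τ : ℂ) * Complex.I with hs
  have hsre : s.re = W + 1 := by rw [hs]; simp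
  have hsim : s.im = τ := by rw [hs]; simp
  have h1 := pf_hasSum (s := s) (by rw [hsre]; linarith)
  have hterm : ∀ ρ : ZS, mx ρ * (2 * Real.pi / Real.log W * PW W ((ρ : ℂ).im - τ)) ≤
      8 / Real.log W * (mx ρ * (1 / (s - ρ)).re) := by
    intro ρ
    have hβ := zs_re ρ
    have e1 : (1 / (s - ρ)).re = (W + 1 - (ρ:ℂ).re) / ((W + 1 - (ρ:ℂ).re) ^ 2 + (τ - (ρ:ℂ).im) ^ 2) := by
      rw [one_div, Complex.inv_re, Complex.normSq_apply]
      simp only [Complex.sub_re, Complex.sub_im, hsre, hsim]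
      ring
    have h2 : W / (4 * (W ^ 2 + ((ρ:ℂ).im - τ) ^ 2)) ≤ (1 / (s - ρ)).re := by
      rw [e1, div_le_div_iff₀ (by positivity) (by nlinarith [sq_nonneg (τ - (ρ:ℂ).im)])]
      set b := W + 1 - (ρ:ℂ).re with hbd
      have hb1 : W ≤ b := by rw [hbd]; linarith
      have hb2 : b ≤ 2 * W := by rw [hbd]; linarith
      rw [show (τ - (ρ:ℂ).im) ^ 2 = ((ρ:ℂ).im - τ) ^ 2 by ring]
      set y := ((ρ:ℂ).im - τ) ^ 2 with hy
      have hy0 : 0 ≤ y := sq_nonneg _
      have h3 : W * b ^ 2 ≤ b * (4 * W ^ 2) := by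
        have : b ^ 2 ≤ b * (2 * W) := by nlinarith
        nlinarith [mul_le_mul_of_nonneg_left this hW0.le, mul_nonneg (mul_nonneg (by linarith : (0:ℝ) ≤ b) hW0.le) hW0.le]
      have h4 : W * y ≤ b * (4 * y) := by
        have := mul_le_mul_of_nonneg_right hb1 hy0
        have := mul_nonneg (by linarith : (0:ℝ) ≤ b) hy0
        linarith
      nlinarith
    have h3 : 2 * Real.pi / Real.log W * PW W ((ρ : ℂ).im - τ) ≤ 8 / Real.log W * (1 / (s - ρ)).re := by
      have e2 : 2 * Real.pi / Real.log W * PW W ((ρ : ℂ).im - τ) =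
          8 / Real.log W * (W / (4 * (W ^ 2 + ((ρ:ℂ).im - τ) ^ 2))) := by
        unfold PW
        have := Real.pi_pos
        field_simp
        norm_num
      rw [e2]
      gcongr
    calc mx ρ * (2 * Real.pi / Real.log W * PW W ((ρ : ℂ).im - τ)) ≤ mx ρ * (8 / Real.log W * (1 / (s - ρ)).re) :=
          mul_le_mul_of_nonneg_left h3 (mx_nonneg _)
      _ = _ := by ring
  have h2 : ∑ ρ ∈ Z, mx ρ * (1 / (s - ρ)).re ≤ (logDeriv xi s).re :=
    sum_le_hasSum Z (fun ρ _ => mul_nonneg (mx_nonneg _) (re_pos_term (by rw [hsre]; linarith) ρ.2)) h1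
  have h3 := hb s (by rw [hsre]; linarith)
  have h4 : ‖s‖ + 2 ≤ (K + 4) * W := by
    have h5 := Complex.norm_le_abs_re_add_abs_im s
    rw [hsre, hsim, abs_of_pos (by linarith : 0 < W + 1)] at h5
    nlinarith
  have h5 : Real.log (‖s‖ + 2) ≤ Real.log (K + 4) + Real.log W := by
    rw [← Real.log_mul (by linarith) (by linarith)]
    exact Real.log_le_log (by positivity) h4
  have h6 : 0 ≤ Real.log (K + 4) := Real.log_nonneg (by linarith)
  calc ∑ ρ ∈ Z, mx ρ * (2 * Real.pi / Real.log W * PW W ((ρ : ℂ).im - τ))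
      ≤ ∑ ρ ∈ Z, 8 / Real.log W * (mx ρ * (1 / (s - ρ)).re) := Finset.sum_le_sum fun ρ _ => hterm ρ
    _ = 8 / Real.log W * ∑ ρ ∈ Z, mx ρ * (1 / (s - ρ)).re := by rw [Finset.mul_sum]
    _ ≤ 8 / Real.log W * ((C + Real.log (K + 4) + 1) * Real.log W) := by
        have : ∑ ρ ∈ Z, mx ρ * (1 / (s - ρ)).re ≤ (C + Real.log (K + 4) + 1) * Real.log W := by
          have : (C + Real.log (K + 4)) * 1 ≤ (C + Real.log (K + 4)) * Real.log W := by gcongr
          linarith
        gcongr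
    _ = 8 * (C + Real.log (K + 4) + 1) := by field_simp

end Pool.Agent.Helper54.LG
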