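import Pool.Agent.Helper54.LG.Long

/-!
# LG-COV: few large gaps leave few uncovered points

`L = log T`, `g = lam 2π/L`. Let `t ∈ uncov`, `x` as in the definition: no ordinate in `[x, x+g]`. Take
`R'` from `long_gaps` (with `ε/100` or so, and we may enlarge it: `R' ≥ r`, monotone in `R'`), `Lo` = the
set of `y ∈ [0, T]` with no ordinate in `[y, y + R'/L]`.
Case 1: some ordinate in `[x - 2R'/L, x)`. Let `γ` be the largest one (finitely many). No ordinate lies in
`(γ, γ + g)`, so `γ ∈ gapSet lam T` if `0 ≤ γ ≤ T` (true for `3 (R' + r)/L ≤ t ≤ T - (r + 1)/L`; the rest of the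
`t` has measure `≤ 10 (R'+r+1)/L`), and `|t - γ| ≤ (2R' + r)/L`. These `t` have measure
`≤ ncard · 2 (2R'+r)/L ≤ c T 2 (2R' + r)`.
Case 2: no ordinate in `[x - 2R'/L, x]`: then `[x - 2R'/L, x - R'/L] ⊆ Lo`, an interval of length `R'/L` within
distance `(2R'+r)/L` of `t`. So `1 ≤ (L/R') |Lo ∩ [t - (2R'+r)/L, t + r/L]|`, and by Tonelli the measure of
these `t` is at most `(L/R') |Lo| (2R'+2r)/L ≤ 4 |Lo|`.
-/

set_option autoImplicit false
open MeasureTheory Set Filter Topology
open Pool.Agent.Helper57.Zeta Pool.Agent.Helper57.LH Pool.Agent.Helper57.ED Pool.Agent.Helper57.PC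

namespace Pool.Agent.Helper54.LG

/-- Ordinates in `[0, T]` followed by a gap of `lam` mean spacings. -/
def gapSet (lam T : ℝ) : Set ℝ :=
  {g | 0 ≤ g ∧ g ≤ T ∧ (∃ ρ : ℂ, IsNontrivialZero ρ ∧ ρ.im = g) ∧
    ∀ ρ : ℂ, IsNontrivialZero ρ → ρ.im ∉ Ioo g (g + lam * (2 * Real.pi / Real.log T))}

/-- Points of `[0, T]` near which there is a closed interval of `lam` mean spacings without
ordinates. -/
def uncov (lam r T : ℝ) : Set ℝ :=
  {t | 0 ≤ t ∧ t ≤ T ∧ ∃ x : ℝ, t - r / Real.log T ≤ x ∧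
    x + lam * (2 * Real.pi / Real.log T) ≤ t + r / Real.log T ∧
    ∀ ρ : ℂ, IsNontrivialZero ρ → ¬(x ≤ ρ.im ∧ ρ.im ≤ x + lam * (2 * Real.pi / Real.log T))}

theorem gapSet_finite (lam T : ℝ) : (gapSet lam T).Finite := by
  refine ((zerosUpTo_finite T).image Complex.im).subset ?_
  rintro g ⟨h0, h1, ⟨ρ, h2, h3⟩, -⟩
  exact ⟨ρ, ⟨h2, by rw [h3]; exact h0, by rw [h3]; exact h1⟩, h3⟩

/-- Tonelli and Markov for windows. -/
private lemma window99 {A D : Set ℝ} {a b l : ℝ}
    (h : ∀ t ∈ A, ∃ x : ℝ, t - a ≤ x ∧ x + l ≤ t + b ∧ Icc x (x + l) ⊆ D) :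
    ENNReal.ofReal l * volume A ≤ ENNReal.ofReal (a + b) * volume D := by
  set M := toMeasurable volume D with hM
  have hMm : MeasurableSet M := measurableSet_toMeasurable _ _
  set E : Set (ℝ × ℝ) := {p | p.2 ∈ M ∧ p.1 - a ≤ p.2 ∧ p.2 ≤ p.1 + b} with hE
  have hEm : MeasurableSet E := by
    have e1 : MeasurableSet {p : ℝ × ℝ | p.2 ∈ M} := measurable_snd hMm
    have e2 : MeasurableSet {p : ℝ × ℝ | p.1 - a ≤ p.2} :=
      measurableSet_le (measurable_fst.sub_const a) measurable_snd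
    have e3 : MeasurableSet {p : ℝ × ℝ | p.2 ≤ p.1 + b} :=
      measurableSet_le measurable_snd (measurable_fst.add_const b)
    exact e1.inter (e2.inter e3)
  have k1 : ENNReal.ofReal l * volume A ≤ ∫⁻ t, volume (Prod.mk t ⁻¹' E) := by
    refine le_trans ?_ (mul_meas_ge_le_lintegral (measurable_measure_prodMk_left hEm) (ENNReal.ofReal l))
    refine mul_le_mul_right ?_ _
    refine measure_mono fun t ht => ?_
    obtain ⟨x, h1, h2, h3⟩ := h t ht
    show ENNReal.ofReal l ≤ volume (Prod.mk t ⁻¹' E)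
    have e : ENNReal.ofReal l = volume (Icc x (x + l)) := by
      rw [Real.volume_Icc]; congr 1; ring
    rw [e]
    refine measure_mono fun y hy => ?_
    exact ⟨subset_toMeasurable _ _ (h3 hy), h1.trans hy.1, hy.2.trans h2⟩
  have k2 : ∫⁻ t, volume (Prod.mk t ⁻¹' E) = ∫⁻ y, volume ((fun t => (t, y)) ⁻¹' E) := by
    rw [← Measure.prod_apply hEm, Measure.prod_apply_symm hEm]
  have k3 : ∫⁻ y, volume ((fun t => (t, y)) ⁻¹' E) ≤ ∫⁻ y, M.indicator (fun _ => ENNReal.ofReal (a + b)) y := by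
    refine lintegral_mono fun y => ?_
    by_cases hy : y ∈ M
    · rw [indicator_of_mem hy]
      have e : ENNReal.ofReal (a + b) = volume (Icc (y - b) (y + a)) := by
        rw [Real.volume_Icc]; congr 1; ring
      rw [e]
      refine measure_mono fun t ht => ?_
      exact ⟨by linarith only [ht.2.2], by linarith only [ht.2.1]⟩
    · rw [indicator_of_notMem hy]
      refine le_of_eq ?_
      have e : (fun t => (t, y)) ⁻¹' E = (∅ : Set ℝ) := by
        ext t
        simp only [mem_preimage, mem_empty_iff_false, iff_false]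
        exact fun hh => hy hh.1
      rw [e, measure_empty]
  have k4 : ∫⁻ y, M.indicator (fun _ => ENNReal.ofReal (a + b)) y = ENNReal.ofReal (a + b) * volume D := by
    rw [lintegral_indicator hMm, setLIntegral_const, hM, measure_toMeasurable]
  exact k1.trans ((k2.le.trans k3).trans k4.le)

theorem cov {lam r ε : ℝ} (hlam : 0 < lam) (hr : 0 < r) (hε : 0 < ε) :
    ∃ c : ℝ, 0 < c ∧ ∀ᶠ T : ℝ in atTop,
      ((gapSet lam T).ncard : ℝ) ≤ c * (T * Real.log T) →
        volume (uncov lam r T) ≤ ENNReal.ofReal (ε * T) := by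
  obtain ⟨R0, hR0, hlong⟩ := long_gaps (ε := ε / 16) (by positivity)
  set R := max R0 r with hR
  have hRr : r ≤ R := le_max_right _ _
  have hRR : R0 ≤ R := le_max_left _ _
  have hRp : 0 < R := hr.trans_le hRr
  refine ⟨ε / (4 * (2 * R + 2 * r)), by positivity, ?_⟩
  filter_upwards [hlong, eventually_ge_atTop (Real.exp 1), eventually_ge_atTop ((2 * R + 2 * r) * (4 / ε))]
    with T hT hTe hT2 hcard
  have hL : 1 ≤ Real.log T := by
    rw [← Real.log_exp 1]
    exact Real.log_le_log (Real.exp_pos 1) hTe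
  set L := Real.log T with hLdef
  have hLp : 0 < L := by linarith only [hL]
  have hTp : 0 < T := (Real.exp_pos 1).trans_le hTe
  set g := lam * (2 * Real.pi / L) with hg
  have hgp : 0 < g := by have := Real.pi_pos; positivity
  set Lo : Set ℝ := {t : ℝ | 0 ≤ t ∧ t ≤ T ∧ ∀ ρ : ℂ, IsNontrivialZero ρ → ¬(t ≤ ρ.im ∧ ρ.im ≤ t + R0 / L)} with hLo
  set G := (gapSet_finite lam T).toFinset with hG
  have hGc : (G.card : ℝ) = ((gapSet lam T).ncard : ℝ) := by
    rw [Set.ncard_eq_toFinset_card _ (gapSet_finite lam T)]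
  set A2 : Set ℝ := {t | ∃ x : ℝ, t - (2 * R + r) / L ≤ x ∧ x + R / L ≤ t + r / L ∧ Icc x (x + R / L) ⊆ Lo} with hA2
  have hsub : uncov lam r T ⊆ (Icc 0 ((2 * R + r) / L) ∪ Icc (T - r / L) T) ∪
      ((⋃ γ ∈ G, Icc (γ - r / L) (γ + (2 * R + r) / L)) ∪ A2) := by
    rintro t ⟨h0, h1, x, hx1, hx2, hx3⟩
    by_cases hl : t ≤ (2 * R + r) / L
    · exact Or.inl (Or.inl ⟨h0, hl⟩)
    by_cases hu : T - r / L ≤ t
    · exact Or.inl (Or.inr ⟨hu, h1⟩)
    rw [not_le] at hl hu
    right
    have hd : (2 * R + r) / L = 2 * (R / L) + r / L := by ring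
    have hRL : 0 < R / L := by positivity
    have hR0L : R0 / L ≤ R / L := by gcongr
    have hx0 : 0 ≤ x - 2 * (R / L) := by linarith only [hl, hd, hx1]
    have hxT : x ≤ T := by linarith only [hu, hx2, hgp]
    by_cases hz : ∃ ρ : ℂ, IsNontrivialZero ρ ∧ x - 2 * (R / L) ≤ ρ.im ∧ ρ.im < x
    · left
      set Z : Set ℂ := {ρ | IsNontrivialZero ρ ∧ x - 2 * (R / L) ≤ ρ.im ∧ ρ.im < x} with hZ
      have hZf : Z.Finite := (zerosUpTo_finite T).subset fun ρ hρ =>
        ⟨hρ.1, hx0.trans hρ.2.1, hρ.2.2.le.trans hxT⟩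
      obtain ⟨ρ, hρ, hmax⟩ := Set.exists_max_image Z Complex.im hZf hz
      rw [mem_iUnion₂]
      refine ⟨ρ.im, ?_, ?_⟩
      · rw [hG, Set.Finite.mem_toFinset]
        refine ⟨hx0.trans hρ.2.1, hρ.2.2.le.trans hxT, ⟨ρ, hρ.1, rfl⟩, fun σ hσ hmem => ?_⟩
        rw [mem_Ioo] at hmem
        by_cases hσx : σ.im < x
        · have := hmax σ ⟨hσ, hρ.2.1.trans hmem.1.le, hσx⟩
          exact absurd hmem.1 (not_lt.mpr this)
        · rw [not_lt] at hσx
          exact hx3 σ hσ ⟨hσx, by linarith only [hmem.2, hρ.2.2]⟩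
      · constructor
        · linarith only [hρ.2.2, hx2, hgp]
        · linarith only [hρ.2.1, hx1, hd]
    · right
      push Not at hz
      refine ⟨x - 2 * (R / L), by linarith only [hx1, hd], by linarith only [hx2, hgp, hRL], ?_⟩
      rintro y ⟨hy1, hy2⟩
      refine ⟨hx0.trans hy1, by linarith only [hy2, hxT, hRL], fun ρ hρ hmem => ?_⟩
      have h2 := hz ρ hρ (hy1.trans hmem.1)
      exact hx3 ρ hρ ⟨h2, by linarith only [hmem.2, hy2, hR0L, hgp]⟩
  have hRL : 0 < R / L := by positivity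
  have m0 : volume (Icc 0 ((2 * R + r) / L) ∪ Icc (T - r / L) T) ≤ ENNReal.ofReal (ε / 4 * T) := by
    refine (measure_union_le _ _).trans ?_
    rw [Real.volume_Icc, Real.volume_Icc, ← ENNReal.ofReal_add (by rw [sub_zero]; positivity)
      (by rw [sub_sub_cancel]; positivity)]
    refine ENNReal.ofReal_le_ofReal ?_
    have e : (2 * R + r) / L - 0 + (T - (T - r / L)) = (2 * R + 2 * r) / L := by ring
    rw [e]
    calc (2 * R + 2 * r) / L ≤ 2 * R + 2 * r := div_le_self (by positivity) hL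
      _ = ε / 4 * ((2 * R + 2 * r) * (4 / ε)) := by field_simp
      _ ≤ ε / 4 * T := by gcongr
  have m1 : volume (⋃ γ ∈ G, Icc (γ - r / L) (γ + (2 * R + r) / L)) ≤ ENNReal.ofReal (ε / 4 * T) := by
    refine (measure_biUnion_finset_le _ _).trans ?_
    have e : ∀ γ : ℝ, volume (Icc (γ - r / L) (γ + (2 * R + r) / L)) = ENNReal.ofReal ((2 * R + 2 * r) / L) := by
      intro γ
      rw [Real.volume_Icc]; congr 1; ring
    simp only [e, Finset.sum_const, nsmul_eq_mul]
    rw [← ENNReal.ofReal_natCast, ← ENNReal.ofReal_mul (Nat.cast_nonneg _)]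
    refine ENNReal.ofReal_le_ofReal ?_
    rw [hGc]
    calc ((gapSet lam T).ncard : ℝ) * ((2 * R + 2 * r) / L)
        ≤ (ε / (4 * (2 * R + 2 * r)) * (T * L)) * ((2 * R + 2 * r) / L) := by gcongr
      _ = ε / 4 * T := by field_simp
  have m2 : volume A2 ≤ ENNReal.ofReal (ε / 4 * T) := by
    have h := window99 (A := A2) (D := Lo) (a := (2 * R + r) / L) (b := r / L) (l := R / L)
      (fun t ht => ht)
    have e : (2 * R + r) / L + r / L ≤ R / L * 4 := by
      rw [← add_div, div_mul_eq_mul_div]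
      gcongr
      linarith only [hRr]
    have h2 : ENNReal.ofReal (R / L) * volume A2 ≤ ENNReal.ofReal (R / L) * ENNReal.ofReal (ε / 4 * T) := by
      refine h.trans ?_
      calc ENNReal.ofReal ((2 * R + r) / L + r / L) * volume Lo
          ≤ ENNReal.ofReal (R / L * 4) * ENNReal.ofReal (ε / 16 * T) := by
            gcongr
        _ = ENNReal.ofReal (R / L) * ENNReal.ofReal (ε / 4 * T) := by
            rw [← ENNReal.ofReal_mul (by positivity), ← ENNReal.ofReal_mul (by positivity)]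
            congr 1; ring
    exact (ENNReal.mul_le_mul_iff_right (by simpa using hRL) ENNReal.ofReal_ne_top).mp h2
  calc volume (uncov lam r T) ≤ _ := measure_mono hsub
    _ ≤ ENNReal.ofReal (ε / 4 * T) + (ENNReal.ofReal (ε / 4 * T) + ENNReal.ofReal (ε / 4 * T)) :=
        (measure_union_le _ _).trans (add_le_add m0 ((measure_union_le _ _).trans (add_le_add m1 m2)))
    _ ≤ ENNReal.ofReal (ε * T) := by
        rw [← ENNReal.ofReal_add (by positivity) (by positivity), ← ENNReal.ofReal_add (by positivity) (by positivity)]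
        refine ENNReal.ofReal_le_ofReal ?_
        have : 0 < ε * T := by positivity
        linarith only [this]

end Pool.Agent.Helper54.LG
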