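import Pool.Agent.Helper54.LG.EDef
import Pool.Agent.Helper54.LG.Conv
import Pool.Agent.Helper54.LG.Pt

/-!
# LG-DEEP: the zeros far from the line spoil few points

Hypothesis `hD` is the deep density theorem (ED/Deep.lean of helper57). Let `X = θ log W`, `a = za X ρ =
2πθ |yy W ρ| ≤ π |yy W ρ|`, `B = e^{a/2}`, `k_ρ(t) = 1/(1 + (X (t-γ)/B)²)` and `Φ(t) = ∑_{a ≥ A} mx ρ k_ρ(t)`. By
`conv_le` (with `X/B`) `∫ PW W (t-τ) k_ρ ≤ (π B/X)(1 + B/(WX)) PW W (γ-τ) ≤ (2π B/X) PW W (γ-τ)`, `B ≤ W^{1/8}`; so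
`∫ PW Φ ≤ C_θ · 2 · ε'` by `hD` (for both sides of the line by reflection; `A = 2πθ Y`). If `|X(t-γ)| < B` for some
`ρ` with `a ≥ A`, then `Φ(t) ≥ 1/2` (`mx ρ ≥ 1`). Otherwise `hk a b ≤ 63 e^a/(1+b²) ≤ 126/(1+(b/B)²)` for all of
them, so `Dy ≤ 126 Φ(t)`. Hence `{Dy > δ} ⊆ {Φ ≥ min (1/2) (δ/126)}` and Markov's inequality.
-/

set_option autoImplicit false
open MeasureTheory Set Filter Topology
open Pool.Agent.Helper57.Zeta Pool.Agent.Helper57.LH Pool.Agent.Helper57.ED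

namespace Pool.Agent.Helper54.LG

private lemma one_le_mx6 (ρ : ZS) : 1 ≤ mx (ρ : ℂ) := by
  have h : analyticOrderNatAt xi (ρ : ℂ) ≠ 0 := (order_pos_iff differentiable_xi xi_two_ne (ρ : ℂ)).mpr ρ.2
  unfold mx
  exact_mod_cast Nat.one_le_iff_ne_zero.mpr h

private lemma za_nonneg6 {X : ℝ} (hX : 0 < X) (ρ : ℂ) : 0 ≤ za X ρ := by unfold za; positivity

private lemma za_le6 {X : ℝ} (hX : 0 < X) (ρ : ZS) : za X ρ ≤ X / 2 := by
  have h := zs_re ρ
  have h1 : |(ρ:ℂ).re - 1 / 2| ≤ 1 / 2 := abs_le.mpr ⟨by linarith, by linarith⟩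
  unfold za
  nlinarith

/-- The localised kernel, times the multiplicity. -/
private noncomputable def kt6 (X A t : ℝ) (ρ : ZS) : ℝ :=
  mx ρ * (if za X ρ < A then 0 else 1 / (1 + (X / Real.exp (za X ρ / 2) * (t - (ρ : ℂ).im)) ^ 2))

private lemma kt_nonneg6 (X A t : ℝ) (ρ : ZS) : 0 ≤ kt6 X A t ρ := by
  unfold kt6
  refine mul_nonneg (mx_nonneg _) ?_
  split_ifs
  · exact le_rfl
  · positivity

private lemma hk_le_kt6 {X A t : ℝ} (hX : 0 < X) (ρ : ZS) (h : kt6 X A t ρ < 1 / 2) :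
    mx ρ * (if za X ρ < A then 0 else hk (za X ρ) (zb X t ρ)) ≤ 126 * kt6 X A t ρ := by
  have hm1 := one_le_mx6 ρ
  unfold kt6 at h ⊢
  by_cases hA : za X ρ < A
  · simp [hA]
  · simp only [if_neg hA] at h ⊢
    have ha := za_nonneg6 hX (ρ : ℂ)
    set a := za X ρ with ha'
    set u : ℝ := X * (t - (ρ : ℂ).im) with hu
    have hz : zb X t ρ = u := rfl
    rw [hz]
    have hB : 0 < Real.exp (a / 2) := Real.exp_pos _
    have hBB : Real.exp (a / 2) ^ 2 = Real.exp a := by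
      rw [← Real.exp_nat_mul]
      congr 1
      push_cast
      ring
    have e1 : (X / Real.exp (a / 2) * (t - (ρ : ℂ).im)) ^ 2 = u ^ 2 / Real.exp a := by
      rw [← hBB, hu]
      field_simp
    rw [e1] at h ⊢
    have hE : 0 < Real.exp a := Real.exp_pos _
    have e2 : 1 / (1 + u ^ 2 / Real.exp a) = Real.exp a / (Real.exp a + u ^ 2) := by
      field_simp
    rw [e2] at h ⊢
    have h1 : Real.exp a / (Real.exp a + u ^ 2) < 1 / 2 := by
      have h0 : 0 ≤ Real.exp a / (Real.exp a + u ^ 2) := by positivity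
      nlinarith
    rw [div_lt_div_iff₀ (by positivity) (by norm_num)] at h1
    have h2 : Real.exp a ≤ u ^ 2 := by linarith
    have h3 := hk_bound a u
    have h4 : Real.cosh a ≤ Real.exp a := by
      rw [Real.cosh_eq]
      have : Real.exp (-a) ≤ Real.exp a := Real.exp_le_exp.mpr (by linarith)
      linarith
    have h5 : 63 * Real.cosh a / (1 + u ^ 2) ≤ 126 * (Real.exp a / (Real.exp a + u ^ 2)) := by
      rw [← mul_div_assoc, div_le_div_iff₀ (by positivity) (by positivity)]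
      have h6 : 63 * Real.cosh a * (Real.exp a + u ^ 2) ≤ 63 * Real.exp a * (2 * u ^ 2) := by
        have : Real.exp a + u ^ 2 ≤ 2 * u ^ 2 := by linarith
        gcongr
      nlinarith
    calc mx ρ * hk a u ≤ mx ρ * (126 * (Real.exp a / (Real.exp a + u ^ 2))) := by
          gcongr
          exact h3.trans h5
      _ = _ := by ring

private lemma PW_cont6 {W : ℝ} (hW : 0 < W) (τ : ℝ) : Continuous fun t => PW W (t - τ) := by
  have hpi := Real.pi_pos
  unfold PW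
  refine Continuous.div continuous_const (by fun_prop) fun t => ?_
  positivity

private lemma kt_meas6 (X A : ℝ) (ρ : ZS) : Measurable fun t => kt6 X A t ρ := by
  unfold kt6
  refine Measurable.const_mul ?_ _
  split_ifs
  · exact measurable_const
  · refine Continuous.measurable (Continuous.div continuous_const (by fun_prop) fun t => ?_)
    positivity

private lemma kt_int6 {W X A : ℝ} (hW : 1 < W) (hX : 1 ≤ X) (hXW : X ≤ 1 / 2 * Real.log W) (τ : ℝ) (ρ : ZS) :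
    Integrable (fun t => PW W (t - τ) * kt6 X A t ρ) ∧
    ∫ t, PW W (t - τ) * kt6 X A t ρ ≤
      if za X ρ < A then 0 else
        mx ρ * (2 * Real.pi / X * Real.exp (za X ρ / 2) * PW W ((ρ : ℂ).im - τ)) := by
  have hW0 : 0 < W := by linarith
  have hX0 : 0 < X := by linarith
  have hpi := Real.pi_pos
  by_cases hA : za X ρ < A
  · simp [kt6, hA]
  · simp only [kt6, if_neg hA]
    set a := za X ρ with ha'
    have hB : 0 < Real.exp (a / 2) := Real.exp_pos _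
    have hc := conv_le hW0 (X := X / Real.exp (a / 2)) (by positivity) τ (ρ : ℂ).im
    have e1 : ∀ t, PW W (t - τ) * (mx ρ * (1 / (1 + (X / Real.exp (a / 2) * (t - (ρ : ℂ).im)) ^ 2))) =
        mx ρ * (PW W (t - τ) * (1 / (1 + (X / Real.exp (a / 2) * (t - (ρ : ℂ).im)) ^ 2))) := by
      intro t; ring
    simp only [e1]
    refine ⟨hc.1.const_mul _, ?_⟩
    rw [integral_const_mul]
    have hm := mx_nonneg (ρ : ℂ)
    refine mul_le_mul_of_nonneg_left (hc.2.trans ?_) hm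
    have hp := PW_pos hW0 ((ρ : ℂ).im - τ)
    have hBW : Real.exp (a / 2) ≤ W := by
      have h1 : a / 2 ≤ Real.log W := by
        have := za_le6 hX0 ρ
        have hL : 0 < Real.log W := Real.log_pos hW
        linarith
      calc Real.exp (a / 2) ≤ Real.exp (Real.log W) := Real.exp_le_exp.mpr h1
        _ = W := Real.exp_log hW0
    have h2 : 1 / (W * (X / Real.exp (a / 2))) ≤ 1 := by
      rw [div_le_one (by positivity), ← mul_div_assoc, le_div_iff₀ hB]
      nlinarith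
    calc Real.pi / (X / Real.exp (a / 2)) * (1 + 1 / (W * (X / Real.exp (a / 2)))) * PW W ((ρ : ℂ).im - τ)
        ≤ Real.pi / (X / Real.exp (a / 2)) * (1 + 1) * PW W ((ρ : ℂ).im - τ) := by gcongr
      _ = _ := by field_simp; ring

/-- The sum over both sides of the line. -/
private lemma two_sides6 {θ W τ A Y e : ℝ} (hθ : 0 < θ) (hθ1 : θ < 1 / 2) (hW : 1 < W)
    (hA : A = 2 * Real.pi * θ * Y)
    (hD : ∀ Z : Finset ZS, (∀ ρ ∈ Z, Y ≤ Real.log W * ((ρ : ℂ).re - 1 / 2) / (2 * Real.pi)) →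
      ∑ ρ ∈ Z, mx ρ * (2 * Real.pi / Real.log W * PW W ((ρ : ℂ).im - τ)) *
        Real.exp (Real.pi / 2 * (Real.log W * ((ρ : ℂ).re - 1 / 2) / (2 * Real.pi))) ≤ e)
    (Z : Finset ZS) :
    ∑ ρ ∈ Z, (if za (θ * Real.log W) ρ < A then 0 else
        mx ρ * (2 * Real.pi / (θ * Real.log W) * Real.exp (za (θ * Real.log W) ρ / 2) *
          PW W ((ρ : ℂ).im - τ))) ≤ 1 / θ * (e + e) := by
  classical
  have hL : 0 < Real.log W := Real.log_pos hW
  have hW0 : 0 < W := by linarith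
  have hpi := Real.pi_pos
  set L := Real.log W with hLd
  -- the summand
  set g : ZS → ℝ := fun ρ => mx ρ * (2 * Real.pi / L * PW W ((ρ : ℂ).im - τ)) *
        Real.exp (Real.pi / 2 * (L * ((ρ : ℂ).re - 1 / 2) / (2 * Real.pi))) with hg
  have hg0 : ∀ ρ, 0 ≤ g ρ := by
    intro ρ
    have hp := PW_pos hW0 ((ρ : ℂ).im - τ)
    have hm := mx_nonneg (ρ : ℂ)
    simp only [hg]
    positivity
  set Z1 : Finset ZS := Z.filter fun ρ : ZS => ¬ za (θ * L) ρ < A ∧ 1 / 2 ≤ (ρ : ℂ).re with hZ1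
  set Z2 : Finset ZS := Z.filter fun ρ : ZS => ¬ za (θ * L) ρ < A ∧ ¬ 1 / 2 ≤ (ρ : ℂ).re with hZ2
  have hY1 : ∀ ρ ∈ Z1, Y ≤ L * ((ρ : ℂ).re - 1 / 2) / (2 * Real.pi) := by
    intro ρ hρ
    rw [hZ1, Finset.mem_filter] at hρ
    obtain ⟨-, h1, h2⟩ := hρ
    rw [not_lt, hA] at h1
    unfold za at h1
    rw [abs_of_nonneg (by linarith)] at h1
    rw [le_div_iff₀ (by positivity)]
    have : θ * (Y * (2 * Real.pi)) ≤ θ * (L * ((ρ : ℂ).re - 1 / 2)) := by linarith
    exact le_of_mul_le_mul_left this hθ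
  have hY2 : ∀ ρ ∈ Z2.map refl.toEmbedding, Y ≤ L * ((ρ : ℂ).re - 1 / 2) / (2 * Real.pi) := by
    intro σ hσ
    rw [Finset.mem_map] at hσ
    obtain ⟨ρ, hρ, rfl⟩ := hσ
    rw [hZ2, Finset.mem_filter] at hρ
    obtain ⟨-, h1, h2⟩ := hρ
    rw [not_lt, hA] at h1
    rw [not_le] at h2
    unfold za at h1
    rw [abs_of_neg (by linarith)] at h1
    rw [Equiv.coe_toEmbedding, refl_re, le_div_iff₀ (by positivity)]
    have : θ * (Y * (2 * Real.pi)) ≤ θ * (L * (1 - (ρ : ℂ).re - 1 / 2)) := by nlinarith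
    exact le_of_mul_le_mul_left this hθ
  have k1 := hD Z1 hY1
  have k2 := hD (Z2.map refl.toEmbedding) hY2
  rw [Finset.sum_map] at k2
  have hs : ∑ ρ ∈ Z, (if za (θ * L) ρ < A then 0 else
        mx ρ * (2 * Real.pi / (θ * L) * Real.exp (za (θ * L) ρ / 2) * PW W ((ρ : ℂ).im - τ))) ≤
      ∑ ρ ∈ Z, ((if ¬ za (θ * L) ρ < A ∧ 1 / 2 ≤ (ρ : ℂ).re then 1 / θ * g ρ else 0) +
        (if ¬ za (θ * L) ρ < A ∧ ¬ 1 / 2 ≤ (ρ : ℂ).re then 1 / θ * g (refl ρ) else 0)) := by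
    refine Finset.sum_le_sum fun ρ _ => ?_
    have hp := PW_pos hW0 ((ρ : ℂ).im - τ)
    have hm := mx_nonneg (ρ : ℂ)
    by_cases h1 : za (θ * L) ρ < A
    · simp [h1]
    · by_cases h2 : 1 / 2 ≤ (ρ : ℂ).re
      · rw [if_neg h1, if_pos ⟨h1, h2⟩, if_neg (fun h => h.2 h2), add_zero]
        have h3 : za (θ * L) ρ / 2 ≤ Real.pi / 2 * (L * ((ρ : ℂ).re - 1 / 2) / (2 * Real.pi)) := by
          unfold za
          rw [abs_of_nonneg (by linarith)]
          have e : Real.pi / 2 * (L * ((ρ : ℂ).re - 1 / 2) / (2 * Real.pi)) = 1 / 2 * (L * ((ρ : ℂ).re - 1 / 2)) / 2 := by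
            field_simp
          rw [e]
          have : 0 ≤ L * ((ρ : ℂ).re - 1 / 2) := mul_nonneg hL.le (by linarith)
          nlinarith
        calc mx ρ * (2 * Real.pi / (θ * L) * Real.exp (za (θ * L) ρ / 2) * PW W ((ρ : ℂ).im - τ))
            ≤ mx ρ * (2 * Real.pi / (θ * L) * Real.exp (Real.pi / 2 * (L * ((ρ : ℂ).re - 1 / 2) / (2 * Real.pi))) *
                PW W ((ρ : ℂ).im - τ)) := by gcongr
          _ = 1 / θ * g ρ := by
              simp only [hg]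
              field_simp
      · rw [if_neg h1, if_neg (fun h => h2 h.2), if_pos ⟨h1, h2⟩, zero_add]
        rw [not_le] at h2
        have h3 : za (θ * L) ρ / 2 ≤ Real.pi / 2 * (L * ((refl ρ : ℂ).re - 1 / 2) / (2 * Real.pi)) := by
          unfold za
          rw [abs_of_neg (by linarith), refl_re]
          have e : Real.pi / 2 * (L * (1 - (ρ : ℂ).re - 1 / 2) / (2 * Real.pi)) =
              1 / 2 * (L * (1 - (ρ : ℂ).re - 1 / 2)) / 2 := by
            field_simp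
          rw [e]
          have : 0 ≤ L * (1 - (ρ : ℂ).re - 1 / 2) := mul_nonneg hL.le (by linarith)
          nlinarith
        calc mx ρ * (2 * Real.pi / (θ * L) * Real.exp (za (θ * L) ρ / 2) * PW W ((ρ : ℂ).im - τ))
            ≤ mx ρ * (2 * Real.pi / (θ * L) * Real.exp (Real.pi / 2 * (L * ((refl ρ : ℂ).re - 1 / 2) / (2 * Real.pi))) *
                PW W ((ρ : ℂ).im - τ)) := by gcongr
          _ = 1 / θ * g (refl ρ) := by
              simp only [hg]
              rw [refl_mx, refl_im]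
              field_simp
  refine hs.trans ?_
  rw [Finset.sum_add_distrib, ← Finset.sum_filter, ← Finset.sum_filter, ← Finset.mul_sum, ← Finset.mul_sum,
    ← mul_add]
  have hθ' : 0 ≤ 1 / θ := by positivity
  refine mul_le_mul_of_nonneg_left (add_le_add k1 ?_) hθ'
  exact k2

theorem Dy_small {θ K δ ε : ℝ} (hθ : 0 < θ) (hθ1 : θ < 1 / 2) (hK : 0 ≤ K) (hδ : 0 < δ)
    (hε : 0 < ε)
    (hD : ∀ e : ℝ, 0 < e → ∃ Y : ℝ, ∀ᶠ W : ℝ in atTop, ∀ τ : ℝ, |τ| ≤ K * W → ∀ Z : Finset ZS,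
      (∀ ρ ∈ Z, Y ≤ Real.log W * ((ρ : ℂ).re - 1 / 2) / (2 * Real.pi)) →
      ∑ ρ ∈ Z, mx ρ * (2 * Real.pi / Real.log W * PW W ((ρ : ℂ).im - τ)) *
        Real.exp (Real.pi / 2 * (Real.log W * ((ρ : ℂ).re - 1 / 2) / (2 * Real.pi))) ≤ e) :
    ∃ A : ℝ, 0 < A ∧ ∀ᶠ W : ℝ in atTop, ∀ τ : ℝ, |τ| ≤ K * W →
      mu W τ {t | δ < Dy (θ * Real.log W) A t} ≤ ENNReal.ofReal ε := by
  have hpi := Real.pi_pos
  set c : ℝ := min (1 / 2) (δ / 126) with hc
  have hc0 : 0 < c := lt_min (by norm_num) (by positivity)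
  have hc1 : c ≤ 1 / 2 := min_le_left _ _
  have hc2 : 126 * c ≤ δ := by
    have := min_le_right (1 / 2 : ℝ) (δ / 126)
    rw [← hc] at this
    linarith
  obtain ⟨Y0, hY0⟩ := hD (ε * θ * c / 2) (by positivity)
  set Y : ℝ := max Y0 1 with hY
  have hY1 : 0 < Y := lt_of_lt_of_le one_pos (le_max_right _ _)
  refine ⟨2 * Real.pi * θ * Y, by positivity, ?_⟩
  filter_upwards [hY0, eventually_gt_atTop 1, eventually_ge_atTop (Real.exp (1 / θ))] with W hW1 hW hWe τ hτ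
  have hW0 : 0 < W := by linarith
  have hL : 0 < Real.log W := Real.log_pos hW
  have hX1 : 1 ≤ θ * Real.log W := by
    have h1 : 1 / θ ≤ Real.log W := (Real.le_log_iff_exp_le hW0).mpr hWe
    calc (1:ℝ) = θ * (1 / θ) := by field_simp
      _ ≤ θ * Real.log W := by gcongr
  have hXW : θ * Real.log W ≤ 1 / 2 * Real.log W := by gcongr
  set X := θ * Real.log W with hX
  have hX0 : 0 < X := by linarith
  set A := 2 * Real.pi * θ * Y with hA
  set F : ℝ → ENNReal := fun t => ∑' ρ : ZS, ENNReal.ofReal (kt6 X A t ρ) with hF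
  have hFm : Measurable F := Measurable.tsum fun ρ => (kt_meas6 X A ρ).ennreal_ofReal
  have hsub : {t | δ < Dy X A t} ⊆ {t | ENNReal.ofReal c ≤ F t} := by
    intro t ht
    by_contra hcon
    rw [mem_ofPred_eq, not_le] at hcon
    have hfin : ∀ Z : Finset ZS, ∑ ρ ∈ Z, kt6 X A t ρ < c := by
      intro Z
      have h1 : ∑ ρ ∈ Z, ENNReal.ofReal (kt6 X A t ρ) ≤ F t := ENNReal.sum_le_tsum Z
      rw [← ENNReal.ofReal_sum_of_nonneg fun i _ => kt_nonneg6 X A t i] at h1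
      exact (ENNReal.ofReal_lt_ofReal_iff hc0).mp (h1.trans_lt hcon)
    have hk1 : ∀ ρ : ZS, kt6 X A t ρ < 1 / 2 := by
      intro ρ
      have := hfin {ρ}
      rw [Finset.sum_singleton] at this
      linarith
    have hle : Dy X A t ≤ δ := by
      unfold Dy
      refine tsum_le_of_sum_le' hδ.le fun Z => ?_
      calc ∑ ρ ∈ Z, mx ρ * (if za X ρ < A then 0 else hk (za X ρ) (zb X t ρ))
          ≤ ∑ ρ ∈ Z, 126 * kt6 X A t ρ := Finset.sum_le_sum fun ρ _ => hk_le_kt6 hX0 ρ (hk1 ρ)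
        _ = 126 * ∑ ρ ∈ Z, kt6 X A t ρ := by rw [Finset.mul_sum]
        _ ≤ 126 * c := by
            have := (hfin Z).le
            linarith
        _ ≤ δ := hc2
    exact absurd ht (not_lt.mpr hle)
  have hint : ∫⁻ t, F t ∂(mu W τ) ≤ ENNReal.ofReal (ε * c) := by
    unfold mu
    rw [lintegral_withDensity_eq_lintegral_mul _ (PW_cont6 hW0 τ).measurable.ennreal_ofReal hFm]
    have e1 : ∀ t, ((fun t => ENNReal.ofReal (PW W (t - τ))) * F) t =
        ∑' ρ : ZS, ENNReal.ofReal (PW W (t - τ) * kt6 X A t ρ) := by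
      intro t
      simp only [Pi.mul_apply, hF]
      rw [← ENNReal.tsum_mul_left]
      refine tsum_congr fun ρ => ?_
      rw [ENNReal.ofReal_mul (PW_pos hW0 _).le]
    simp only [e1]
    have hmm : ∀ ρ : ZS, AEMeasurable (fun t => ENNReal.ofReal (PW W (t - τ) * kt6 X A t ρ)) :=
      fun ρ => ((PW_cont6 hW0 τ).measurable.mul (kt_meas6 X A ρ)).ennreal_ofReal.aemeasurable
    rw [lintegral_tsum hmm, ENNReal.tsum_eq_iSup_sum]
    refine iSup_le fun Z => ?_
    have e2 : ∀ ρ : ZS, ∫⁻ t, ENNReal.ofReal (PW W (t - τ) * kt6 X A t ρ) =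
        ENNReal.ofReal (∫ t, PW W (t - τ) * kt6 X A t ρ) := by
      intro ρ
      rw [ofReal_integral_eq_lintegral_ofReal (kt_int6 (A := A) hW hX1 hXW τ ρ).1
        (ae_of_all _ fun t => mul_nonneg (PW_pos hW0 _).le (kt_nonneg6 X A t ρ))]
    simp only [e2]
    rw [← ENNReal.ofReal_sum_of_nonneg fun i _ =>
      integral_nonneg fun t => mul_nonneg (PW_pos hW0 _).le (kt_nonneg6 X A t i)]
    refine ENNReal.ofReal_le_ofReal ?_
    have h1 : ∑ ρ ∈ Z, ∫ t, PW W (t - τ) * kt6 X A t ρ ≤ _ :=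
      Finset.sum_le_sum fun ρ _ => (kt_int6 (A := A) hW hX1 hXW τ ρ).2
    refine h1.trans ((two_sides6 hθ hθ1 hW hA (fun Z' hZ' => hW1 τ hτ Z' fun ρ hρ =>
      (le_max_left Y0 1).trans (hZ' ρ hρ)) Z).trans (le_of_eq ?_))
    field_simp
    ring
  have hmk := mul_meas_ge_le_lintegral (μ := mu W τ) hFm (ENNReal.ofReal c)
  have h2 : ENNReal.ofReal c * mu W τ {t | ENNReal.ofReal c ≤ F t} ≤ ENNReal.ofReal c * ENNReal.ofReal ε := by
    rw [← ENNReal.ofReal_mul hc0.le, mul_comm c ε]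
    exact hmk.trans hint
  have h3 : mu W τ {t | ENNReal.ofReal c ≤ F t} ≤ ENNReal.ofReal ε :=
    (ENNReal.mul_le_mul_iff_right (by simpa using hc0) ENNReal.ofReal_ne_top).mp h2
  exact (measure_mono hsub).trans h3

end Pool.Agent.Helper54.LG
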