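import Pool.Agent.Helper57.ED.Def
import Pool.Agent.Helper57.M.C

/-!
# LG: large gaps between the zeros of the zeta function: definitions

`W` large, `X = θ log W`, `0 < θ < 1/2`. Averages over `t` are taken with the Poisson kernel
`PW W (t - τ)`, a probability density. In the variables `a = X (β - 1/2)`, `b = X (t - γ)` of a
zero `β + iγ` the kernel is `qk a b = 2 ∫_0^1 (1-u)² cosh(au) cos(bu) du`, an average of Fejer kernels over `X`
(kernel of helper25). The zeros have density `1 / (2 π θ)` per unit of `b`.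
-/

set_option autoImplicit false
open MeasureTheory Set Filter Topology
open Pool.Agent.Helper57.Zeta Pool.Agent.Helper57.LH Pool.Agent.Helper57.ED

namespace Pool.Agent.Helper54.LG

/-- The probability measure with density the Poisson kernel centred at `τ`. -/
noncomputable def mu (W τ : ℝ) : Measure ℝ :=
  volume.withDensity fun t => ENNReal.ofReal (PW W (t - τ))

/-- The kernel. -/
noncomputable def qk (a b : ℝ) : ℝ :=
  2 * ∫ u in (0:ℝ)..1, (1 - u) ^ 2 * Real.cosh (a * u) * Real.cos (b * u)

/-- The possible loss of a pair of zeros off the line. -/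
noncomputable def ek (a b : ℝ) : ℝ := max 0 (qk 0 b - 2 * qk a b)

/-- A majorant for the contribution of a zero. -/
noncomputable def hk (a b : ℝ) : ℝ := |qk 0 b| + 2 * |qk a b|

/-- `a`-coordinate of a zero. -/
noncomputable def za (X : ℝ) (ρ : ℂ) : ℝ := X * |ρ.re - 1 / 2|

/-- `b`-coordinate of a zero, seen from `t`. -/
noncomputable def zb (X t : ℝ) (ρ : ℂ) : ℝ := X * (t - ρ.im)

/-- Coefficients of the prime sum. -/
noncomputable def cc (X : ℝ) (p : ℕ) : ℝ :=
  2 / X * (Real.log p / Real.sqrt p) * (1 - Real.log p / X) ^ 2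

/-- The primes `p` with `α X < log p ≤ β X`. -/
noncomputable def PP (X α β : ℝ) : Finset ℕ :=
  (Finset.range (⌊Real.exp (β * X)⌋₊ + 1)).filter fun p => p.Prime ∧ α * X < Real.log p ∧ Real.log p ≤ β * X

/-- The part of the prime sum over a band. -/
noncomputable def Ab (X α β t : ℝ) : ℝ := -∑ p ∈ PP X α β, cc X p * Real.cos (t * Real.log p)

/-- Low band. -/
noncomputable def a1 (X t : ℝ) : ℝ := Ab X 0 (1 / 2) t

/-- High band. -/
noncomputable def a2 (X t : ℝ) : ℝ := Ab X (1 / 2) 1 t

/-- Variance of the low band in the limit, `2 ∫_0^{1/2} u (1-u)^4 du`. -/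
noncomputable def v1 : ℝ := 19 / 320

/-- Variance of the high band in the limit, `2 ∫_{1/2}^1 u (1-u)^4 du`. -/
noncomputable def v2 : ℝ := 7 / 960

/-- Gaussian moments: `gm n v` is the moment of order `n` of the centred Gaussian of variance `v`. -/
noncomputable def gm (n : ℕ) (v : ℝ) : ℝ :=
  if Even n then (Nat.factorial n : ℝ) / (2 ^ (n / 2) * Nat.factorial (n / 2)) * v ^ (n / 2) else 0

/-- The prime sum including the prime powers. -/
noncomputable def SS (X t : ℝ) : ℝ :=
  2 / X * ∑ n ∈ Finset.range (⌊Real.exp X⌋₊ + 1),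
    ArithmeticFunction.vonMangoldt n / Real.sqrt n * (1 - Real.log n / X) ^ 2 * Real.cos (t * Real.log n)

/-- The main term of the explicit formula. -/
noncomputable def MM (X t : ℝ) : ℝ := 2 / X ^ 3 * ∫ x in (0:ℝ)..X, x * MT x t

/-- The contribution of the prime powers. -/
noncomputable def pp (X t : ℝ) : ℝ := -SS X t - (a1 X t + a2 X t)

/-- `Bn y = (1/4π) log (1 / (1 - e^{-2πy}))`, as in the density theorem. -/
noncomputable def Bn (y : ℝ) : ℝ := 1 / (4 * Real.pi) * Real.log (1 / (1 - Real.exp (-(2 * Real.pi * y))))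

end Pool.Agent.Helper54.LG
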