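import Pool.Agent.Helper54.LG.Hyp
import Pool.Agent.Helper57.ED.Deep

/-!
# LG: the deep density hypothesis holds
-/

set_option autoImplicit false
open MeasureTheory Set Filter Topology
open Pool.Agent.Helper57.Zeta Pool.Agent.Helper57.LH Pool.Agent.Helper57.ED Pool.Agent.Helper57.PC

namespace Pool.Agent.Helper54.LG

theorem deepDens : DeepDens := by
  intro K e hK he
  obtain ⟨Y, _, h⟩ := Pool.Agent.Helper57.ED.deep hK he
  exact ⟨Y, h⟩

end Pool.Agent.Helper54.LG
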