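import Pool.Agent.Helper54.LG.Word

/-!
# LG-DIAG: the diagonal term is `r! V^r` up to a small error

For words `w, w'` of length `r` in primes, `∏w = ∏w'` iff `w' = w ∘ σ` for a permutation `σ`. So
`dg = ∑_w n(w) c_w²` with `n(w) ≤ r!`, equality if `w` is injective; the words with `w_i = w_j` are summed exactly.
-/

set_option autoImplicit false
open Finset

namespace Pool.Agent.Helper54.LG

private lemma uniq57 {P : Finset ℕ} (hP : ∀ p ∈ P, p.Prime) {r : ℕ} {w w' : Fin r → P}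
    (h : ∏ i, (w i : ℕ) = ∏ i, (w' i : ℕ)) : ∃ σ : Equiv.Perm (Fin r), w' = w ∘ σ := by
  have h1 : ∀ v : Fin r → P, List.Perm (List.ofFn fun i => (v i : ℕ)) (∏ i, (v i : ℕ)).primeFactorsList := by
    intro v
    apply Nat.primeFactorsList_unique
    · rw [List.prod_ofFn]
    · intro p hp
      rw [List.mem_ofFn] at hp
      obtain ⟨i, rfl⟩ := hp
      exact hP _ (v i).2
  have h2 : List.Perm (List.ofFn fun i => (w i : ℕ)) (List.ofFn fun i => (w' i : ℕ)) := by
    refine (h1 w).trans ?_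
    rw [h]
    exact (h1 w').symm
  obtain ⟨σ, hσ⟩ : ∃ σ, σ = Tuple.sort fun i => (w i : ℕ) := ⟨_, rfl⟩
  obtain ⟨τ, hτ⟩ : ∃ τ, τ = Tuple.sort fun i => (w' i : ℕ) := ⟨_, rfl⟩
  have m1 : Monotone ((fun i => (w i : ℕ)) ∘ σ) := by rw [hσ]; exact Tuple.monotone_sort _
  have m2 : Monotone ((fun i => (w' i : ℕ)) ∘ τ) := by rw [hτ]; exact Tuple.monotone_sort _
  have h3 : (fun i => (w i : ℕ)) ∘ σ = (fun i => (w' i : ℕ)) ∘ τ := by
    apply List.ofFn_injective
    exact ((σ.ofFn_comp_perm _).trans (h2.trans (τ.ofFn_comp_perm _).symm)).eq_of_pairwise'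
      m1.sortedLE_ofFn.pairwise m2.sortedLE_ofFn.pairwise
  refine ⟨τ.symm.trans σ, ?_⟩
  funext i
  have h4 := congrFun h3 (τ.symm i)
  simp only [Function.comp_apply, Equiv.apply_symm_apply] at h4
  apply Subtype.ext
  simp only [Function.comp_apply, Equiv.trans_apply]
  exact h4.symm

private lemma cprod57 {P : Finset ℕ} (c : ℕ → ℝ) {r : ℕ} (w : Fin r → P) (σ : Equiv.Perm (Fin r)) :
    ∏ i, c ((w ∘ σ) i) = ∏ i, c (w i) :=
  Equiv.prod_comp σ fun i => c (w i)

private lemma nprod57 {P : Finset ℕ} {r : ℕ} (w : Fin r → P) (σ : Equiv.Perm (Fin r)) :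
    ∏ i, ((w ∘ σ) i : ℕ) = ∏ i, (w i : ℕ) :=
  Equiv.prod_comp σ fun i => (w i : ℕ)

private lemma dg57 {P : Finset ℕ} (hP : ∀ p ∈ P, p.Prime) (c : ℕ → ℝ) (r : ℕ) :
    dg P c r = ∑ w : Fin r → P, (∏ i, c (w i)) ^ 2 *
      ((univ.filter fun w' : Fin r → P => ∏ i, (w i : ℕ) = ∏ i, (w' i : ℕ)).card : ℝ) := by
  unfold dg
  refine sum_congr rfl fun w _ => ?_
  rw [← sum_filter]
  have : ∀ w' ∈ univ.filter fun w' : Fin r → P => ∏ i, (w i : ℕ) = ∏ i, (w' i : ℕ),
      (∏ i, c (w i)) * ∏ i, c (w' i) = (∏ i, c (w i)) ^ 2 := by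
    intro w' hw'
    rw [mem_filter] at hw'
    obtain ⟨σ, rfl⟩ := uniq57 hP hw'.2
    rw [cprod57, sq]
  rw [sum_congr rfl this, sum_const, nsmul_eq_mul, mul_comm]

private lemma card_le57 {P : Finset ℕ} (hP : ∀ p ∈ P, p.Prime) {r : ℕ} (w : Fin r → P) :
    (univ.filter fun w' : Fin r → P => ∏ i, (w i : ℕ) = ∏ i, (w' i : ℕ)).card ≤ r.factorial := by
  have h1 : (univ.filter fun w' : Fin r → P => ∏ i, (w i : ℕ) = ∏ i, (w' i : ℕ)) ⊆
      (univ : Finset (Equiv.Perm (Fin r))).image fun σ : Equiv.Perm (Fin r) => w ∘ (σ : Fin r → Fin r) := by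
    intro w' hw'
    rw [mem_filter] at hw'
    obtain ⟨σ, rfl⟩ := uniq57 hP hw'.2
    exact mem_image_of_mem _ (mem_univ σ)
  refine (card_le_card h1).trans (card_image_le.trans ?_)
  rw [card_univ, Fintype.card_perm, Fintype.card_fin]

private lemma card_ge57 {P : Finset ℕ} {r : ℕ} {w : Fin r → P} (hw : Function.Injective w) :
    r.factorial ≤ (univ.filter fun w' : Fin r → P => ∏ i, (w i : ℕ) = ∏ i, (w' i : ℕ)).card := by
  have h1 : ((univ : Finset (Equiv.Perm (Fin r))).image fun σ : Equiv.Perm (Fin r) => w ∘ (σ : Fin r → Fin r)) ⊆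
      (univ.filter fun w' : Fin r → P => ∏ i, (w i : ℕ) = ∏ i, (w' i : ℕ)) := by
    intro w' hw'
    rw [mem_image] at hw'
    obtain ⟨σ, _, rfl⟩ := hw'
    rw [mem_filter]
    exact ⟨mem_univ _, (nprod57 w σ).symm⟩
  refine le_trans ?_ (card_le_card h1)
  rw [card_image_of_injective, card_univ, Fintype.card_perm, Fintype.card_fin]
  intro σ τ h
  ext i
  have := congrFun h i
  exact congrArg Fin.val (hw this)

private lemma pow57 (P : Finset ℕ) (c : ℕ → ℝ) (r : ℕ) :
    (∑ p ∈ P, c p ^ 2) ^ r = ∑ w : Fin r → P, (∏ i, c (w i)) ^ 2 := by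
  rw [← Finset.sum_coe_sort P (fun p => c p ^ 2), Fintype.sum_pow]
  refine sum_congr rfl fun w _ => ?_
  rw [Finset.prod_pow]

/-- Words with `w i = w j`. -/
private lemma pair57 (P : Finset ℕ) (c : ℕ → ℝ) {r : ℕ} {i j : Fin r} (hij : i ≠ j) :
    ∑ w : Fin r → P, (if w i = w j then (∏ k, c (w k)) ^ 2 else 0) ≤
      (∑ p ∈ P, c p ^ 4) * (1 + ∑ p ∈ P, c p ^ 2) ^ r := by
  set V := ∑ p ∈ P, c p ^ 2 with hV
  have hV0 : 0 ≤ V := sum_nonneg fun p _ => sq_nonneg _
  have h1 : ∀ w : Fin r → P, (if w i = w j then (∏ k, c (w k)) ^ 2 else 0) =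
      ∑ p : P, ∏ k, (if k ∈ ({i, j} : Finset (Fin r)) then (if w k = p then c (w k) ^ 2 else 0) else c (w k) ^ 2) := by
    intro w
    by_cases h : w i = w j
    · rw [if_pos h, sum_eq_single (w i)]
      · rw [← prod_pow]
        refine prod_congr rfl fun k _ => ?_
        by_cases hk : k ∈ ({i, j} : Finset (Fin r))
        · rw [if_pos hk]
          rw [mem_insert, mem_singleton] at hk
          rcases hk with rfl | rfl
          · rw [if_pos rfl]
          · rw [if_pos h.symm]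
        · rw [if_neg hk]
      · intro p _ hp
        refine prod_eq_zero (mem_univ i) ?_
        rw [if_pos (by simp), if_neg (fun h' => hp h'.symm)]
      · intro h'
        exact absurd (mem_univ _) h'
    · rw [if_neg h]
      symm
      refine sum_eq_zero fun p _ => ?_
      by_cases hp : w i = p
      · refine prod_eq_zero (mem_univ j) ?_
        rw [if_pos (by simp), if_neg (fun h' => h (hp.trans h'.symm))]
      · refine prod_eq_zero (mem_univ i) ?_
        rw [if_pos (by simp), if_neg hp]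
  simp_rw [h1]
  rw [sum_comm]
  have h2 : ∀ p : P, ∑ w : Fin r → P, ∏ k, (if k ∈ ({i, j} : Finset (Fin r)) then (if w k = p then c (w k) ^ 2 else 0) else c (w k) ^ 2) =
      ∏ k, (if k ∈ ({i, j} : Finset (Fin r)) then c p ^ 2 else V) := by
    intro p
    have h3 := Finset.prod_univ_sum (fun _ : Fin r => (univ : Finset P))
      (fun k q => if k ∈ ({i, j} : Finset (Fin r)) then (if q = p then c q ^ 2 else 0) else c q ^ 2)
    rw [Fintype.piFinset_univ] at h3
    rw [← h3]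
    refine prod_congr rfl fun k _ => ?_
    by_cases hk : k ∈ ({i, j} : Finset (Fin r))
    · simp only [if_pos hk]
      rw [sum_ite_eq' univ p, if_pos (mem_univ _)]
    · simp only [if_neg hk]
      rw [hV, ← Finset.sum_coe_sort P (fun p => c p ^ 2)]
  simp_rw [h2]
  rw [← Finset.sum_coe_sort P (fun p => c p ^ 4), sum_mul]
  refine sum_le_sum fun p _ => ?_
  rw [prod_ite]
  rw [prod_const, prod_const]
  have h4 : (univ.filter fun k : Fin r => k ∈ ({i, j} : Finset (Fin r))).card = 2 := by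
    rw [filter_mem_eq_inter, univ_inter, card_pair hij]
  rw [h4, ← pow_mul]
  have h5 : V ^ (univ.filter fun k : Fin r => k ∉ ({i, j} : Finset (Fin r))).card ≤ (1 + V) ^ r := by
    refine (pow_le_pow_left₀ hV0 (by linarith) _).trans (pow_le_pow_right₀ (by linarith) ?_)
    refine (card_filter_le _ _).trans ?_
    rw [card_univ, Fintype.card_fin]
  exact mul_le_mul_of_nonneg_left h5 (Even.pow_nonneg (by decide) _)

theorem dg_bound {P : Finset ℕ} (hP : ∀ p ∈ P, p.Prime) (c : ℕ → ℝ) (r : ℕ) :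
    |dg P c r - (r.factorial : ℝ) * (∑ p ∈ P, c p ^ 2) ^ r| ≤
      (r.factorial : ℝ) * (r : ℝ) ^ 2 * (∑ p ∈ P, c p ^ 4) * (1 + ∑ p ∈ P, c p ^ 2) ^ r := by
  rw [dg57 hP, pow57, mul_sum, ← sum_sub_distrib]
  refine (abs_sum_le_sum_abs _ _).trans ?_
  have h1 : ∀ w : Fin r → P, |(∏ i, c (w i)) ^ 2 *
      ((univ.filter fun w' : Fin r → P => ∏ i, (w i : ℕ) = ∏ i, (w' i : ℕ)).card : ℝ) -
      (r.factorial : ℝ) * (∏ i, c (w i)) ^ 2| ≤
      (r.factorial : ℝ) * ∑ q ∈ (univ : Finset (Fin r × Fin r)).filter (fun q => q.1 ≠ q.2),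
        (if w q.1 = w q.2 then (∏ k, c (w k)) ^ 2 else 0) := by
    intro w
    have hs0 : ∀ q ∈ (univ : Finset (Fin r × Fin r)).filter (fun q => q.1 ≠ q.2),
        0 ≤ (if w q.1 = w q.2 then (∏ k, c (w k)) ^ 2 else 0) := by
      intro q _
      split_ifs
      · positivity
      · exact le_rfl
    by_cases hw : Function.Injective w
    · rw [le_antisymm (card_le57 hP w) (card_ge57 hw)]
      rw [mul_comm, sub_self, abs_zero]
      exact mul_nonneg (by positivity) (sum_nonneg hs0)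
    · have h2 : ∃ q : Fin r × Fin r, q.1 ≠ q.2 ∧ w q.1 = w q.2 := by
        rw [Function.Injective] at hw
        push Not at hw
        obtain ⟨i, j, h, hij⟩ := hw
        exact ⟨(i, j), hij, h⟩
      obtain ⟨q, hq1, hq2⟩ := h2
      have h3 := single_le_sum hs0 (mem_filter.2 ⟨mem_univ q, hq1⟩)
      rw [if_pos hq2] at h3
      have h4 : ((univ.filter fun w' : Fin r → P => ∏ i, (w i : ℕ) = ∏ i, (w' i : ℕ)).card : ℝ) ≤ r.factorial := by
        exact_mod_cast card_le57 hP w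
      have h5 : (0 : ℝ) ≤ ((univ.filter fun w' : Fin r → P => ∏ i, (w i : ℕ) = ∏ i, (w' i : ℕ)).card : ℝ) := by
        positivity
      have h6 : 0 ≤ (∏ k, c (w k)) ^ 2 := sq_nonneg _
      rw [abs_le]
      constructor
      · nlinarith [mul_nonneg h6 h5, mul_le_mul_of_nonneg_left h3 (by positivity : (0:ℝ) ≤ r.factorial)]
      · nlinarith [mul_le_mul_of_nonneg_left h4 h6, mul_nonneg (by positivity : (0:ℝ) ≤ r.factorial) (sum_nonneg hs0)]
  refine (sum_le_sum fun w _ => h1 w).trans ?_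
  rw [← mul_sum, sum_comm]
  rw [mul_assoc, mul_assoc]
  refine mul_le_mul_of_nonneg_left ?_ (by positivity)
  have h2 : ∀ q ∈ (univ : Finset (Fin r × Fin r)).filter (fun q => q.1 ≠ q.2),
      ∑ w : Fin r → P, (if w q.1 = w q.2 then (∏ k, c (w k)) ^ 2 else 0) ≤
        (∑ p ∈ P, c p ^ 4) * (1 + ∑ p ∈ P, c p ^ 2) ^ r := by
    intro q hq
    exact pair57 P c (mem_filter.1 hq).2
  refine (sum_le_sum h2).trans ?_
  rw [sum_const, nsmul_eq_mul]
  have hV0 : 0 ≤ ∑ p ∈ P, c p ^ 2 := sum_nonneg fun p _ => sq_nonneg _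
  have hV4 : 0 ≤ ∑ p ∈ P, c p ^ 4 := sum_nonneg fun p _ => by positivity
  refine mul_le_mul_of_nonneg_right ?_ (by positivity)
  have h3 : (((univ : Finset (Fin r × Fin r)).filter (fun q => q.1 ≠ q.2)).card) ≤ r * r := by
    refine (card_filter_le _ _).trans ?_
    rw [card_univ, Fintype.card_prod, Fintype.card_fin]
  have h4 : ((((univ : Finset (Fin r × Fin r)).filter (fun q => q.1 ≠ q.2)).card : ℕ) : ℝ) ≤ ((r * r : ℕ) : ℝ) := by
    exact_mod_cast h3
  refine h4.trans (le_of_eq ?_)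
  push_cast
  ring

end Pool.Agent.Helper54.LG
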