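import Pool.Agent.Helper54.LG.Def

/-!
# LG: the two losses
-/

set_option autoImplicit false
open MeasureTheory Set Filter Topology
open Pool.Agent.Helper57.Zeta Pool.Agent.Helper57.LH Pool.Agent.Helper57.ED

namespace Pool.Agent.Helper54.LG

/-- The loss caused by the zeros with `a < A`. -/
noncomputable def Ey (X A t : ℝ) : ℝ :=
  1 / 2 * ∑' ρ : ZS, mx ρ * (if za X ρ < A then ek (za X ρ) (zb X t ρ) else 0)

/-- The contribution of the zeros with `a ≥ A`. -/
noncomputable def Dy (X A t : ℝ) : ℝ :=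
  ∑' ρ : ZS, mx ρ * (if za X ρ < A then 0 else hk (za X ρ) (zb X t ρ))

end Pool.Agent.Helper54.LG
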