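import Pool.Agent.Helper54.LG.EDef
import Pool.Agent.Helper54.LG.Conv
import Pool.Agent.Helper54.LG.Count
import Pool.Agent.Helper54.LG.Pt
import Pool.Agent.Helper57.ED.EdF

/-!
# LG-EM: the mean loss caused by the zeros off the line

For each `ρ` with `za X ρ < A`: `conv_fine` with `C = 63 cosh A`, `f = ek (za X ρ)`:
`∫ PW W (t-τ) ek a (X (t-γ)) dt ≤ (1/X) PW W (γ-τ) (∫ ek a b db + ε')`. With
`L = log W`, `X = θ L`, `X |β - 1/2| = 2 π θ |yy W ρ|`, `1/X = (2π/L)/(2πθ)` and the hypothesis `hell`, summing over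
a finite set `Z` invariant under `refl` (or any finite set, enlarged by its reflection): the half sum
over both sides of the line is the sum over the right side,
`≤ ∑_j c_j ∑_ρ mx ρ (2π/L) PW (γ-τ) max 0 (yy W ρ - a_j/(2πθ)) + ε' C/(4πθ)`, and `ed_main` (ED/EdF.lean,
`y0 = a_j/(2πθ)`) and `count_mean`. Passage to the infinite sum: `lintegral` of a sum of nonnegative
continuous functions, or monotone convergence (`hasSum_integral_of_summable_integral_norm`).
-/

set_option autoImplicit false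
open MeasureTheory Set Filter Topology
open Pool.Agent.Helper57.Zeta Pool.Agent.Helper57.LH Pool.Agent.Helper57.ED

namespace Pool.Agent.Helper54.LG

/-- Infinite sums of nonnegative integrable functions. -/
private lemma tsum_bound64 {ι : Type*} [Countable ι] {F : ι → ℝ → ℝ} (hF0 : ∀ i t, 0 ≤ F i t)
    (hFm : ∀ i, Measurable (F i)) (hFi : ∀ i, Integrable (F i)) {B : ℝ}
    (hB : ∀ Z : Finset ι, ∑ i ∈ Z, ∫ t, F i t ≤ B) :
    Integrable (fun t => ∑' i, F i t) ∧ ∫ t, ∑' i, F i t ≤ B := by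
  have hB0 : 0 ≤ B := by simpa using hB ∅
  have e1 : (fun t => ∑' i, F i t) = fun t => (∑' i, ENNReal.ofReal (F i t)).toReal := by
    funext t
    rw [ENNReal.tsum_toReal_eq (fun i => ENNReal.ofReal_ne_top)]
    simp only [ENNReal.toReal_ofReal (hF0 _ _)]
  have hm : Measurable (fun t => ∑' i, ENNReal.ofReal (F i t)) :=
    Measurable.tsum fun i => (hFm i).ennreal_ofReal
  have hl : ∫⁻ t, ∑' i, ENNReal.ofReal (F i t) ≤ ENNReal.ofReal B := by
    rw [lintegral_tsum fun i => (hFm i).ennreal_ofReal.aemeasurable]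
    rw [ENNReal.tsum_eq_iSup_sum]
    refine iSup_le fun Z => ?_
    have e2 : ∀ i, ∫⁻ t, ENNReal.ofReal (F i t) = ENNReal.ofReal (∫ t, F i t) := by
      intro i
      rw [ofReal_integral_eq_lintegral_ofReal (hFi i) (ae_of_all _ (hF0 i))]
    simp only [e2]
    rw [← ENNReal.ofReal_sum_of_nonneg fun i _ => integral_nonneg (hF0 i)]
    exact ENNReal.ofReal_le_ofReal (hB Z)
  have hne : ∫⁻ t, ∑' i, ENNReal.ofReal (F i t) ≠ ⊤ :=
    (hl.trans_lt ENNReal.ofReal_lt_top).ne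
  rw [e1]
  refine ⟨integrable_toReal_of_lintegral_ne_top hm.aemeasurable hne, ?_⟩
  rw [integral_toReal hm.aemeasurable (ae_lt_top hm hne)]
  calc (∫⁻ t, ∑' i, ENNReal.ofReal (F i t)).toReal ≤ (ENNReal.ofReal B).toReal :=
        ENNReal.toReal_mono ENNReal.ofReal_ne_top hl
    _ = B := ENNReal.toReal_ofReal hB0

private lemma max_split64 (y y0 : ℝ) :
    max 0 (|y| - y0) ≤ max 0 (y - y0) + max 0 (-y - y0) := by
  rcases abs_cases y with ⟨h, _⟩ | ⟨h, _⟩
  · rw [h]
    have := le_max_left (0:ℝ) (-y - y0)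
    linarith
  · rw [h]
    have := le_max_left (0:ℝ) (y - y0)
    linarith

private lemma yy_refl64 (W : ℝ) (ρ : ZS) : yy W (refl ρ) = -yy W ρ := by
  unfold yy
  rw [refl_re]
  ring

/-- both sides of the line. -/
private lemma two_sides64 {W τ y0 B : ℝ}
    (hB : ∀ Z : Finset ZS,
      ∑ ρ ∈ Z, mx ρ * (2 * Real.pi / Real.log W * PW W ((ρ : ℂ).im - τ)) * max 0 (yy W ρ - y0) ≤ B)
    (hW : 1 < W) (Z : Finset ZS) :
    ∑ ρ ∈ Z, mx ρ * (2 * Real.pi / Real.log W * PW W ((ρ : ℂ).im - τ)) * max 0 (|yy W ρ| - y0) ≤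
      2 * B := by
  have hL : 0 < Real.log W := Real.log_pos hW
  have hpi := Real.pi_pos
  have h1 : ∑ ρ ∈ Z, mx ρ * (2 * Real.pi / Real.log W * PW W ((ρ : ℂ).im - τ)) * max 0 (|yy W ρ| - y0) ≤
      ∑ ρ ∈ Z, (mx ρ * (2 * Real.pi / Real.log W * PW W ((ρ : ℂ).im - τ)) * max 0 (yy W ρ - y0) +
        mx ρ * (2 * Real.pi / Real.log W * PW W ((ρ : ℂ).im - τ)) * max 0 (-yy W ρ - y0)) := by
    refine Finset.sum_le_sum fun ρ _ => ?_
    rw [← mul_add]
    have hp := PW_pos (show 0 < W by linarith) ((ρ : ℂ).im - τ)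
    have hm := mx_nonneg (ρ : ℂ)
    exact mul_le_mul_of_nonneg_left (max_split64 _ _) (by positivity)
  have h2 : ∑ ρ ∈ Z, mx ρ * (2 * Real.pi / Real.log W * PW W ((ρ : ℂ).im - τ)) * max 0 (-yy W ρ - y0) =
      ∑ ρ ∈ Z.map refl.toEmbedding,
        mx ρ * (2 * Real.pi / Real.log W * PW W ((ρ : ℂ).im - τ)) * max 0 (yy W ρ - y0) := by
    rw [Finset.sum_map]
    refine Finset.sum_congr rfl fun ρ _ => ?_
    rw [Equiv.coe_toEmbedding, refl_mx, refl_im, yy_refl64]
  rw [Finset.sum_add_distrib, h2] at h1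
  linarith [hB Z, hB (Z.map refl.toEmbedding)]

private lemma PW_cont64 {W : ℝ} (hW : 0 < W) : Continuous (PW W) := by
  have hpi := Real.pi_pos
  unfold PW
  refine Continuous.div continuous_const (by fun_prop) fun t => ?_
  positivity

private lemma ek_meas64 (a : ℝ) : Measurable (ek a) := (ek_cont a).measurable

/-- one zero. -/
private lemma one_zero64 {θ A ε' W τ : ℝ} (hθ : 0 < θ) (hε : 0 < ε') (hW : 1 < W)
    {n : ℕ} {c a : Fin n → ℝ} (hc : ∀ j, 0 ≤ c j)
    (hell : ∀ x, 0 ≤ x → x ≤ A → ∫ b, ek x b ≤ ∑ j, c j * max 0 (x - a j))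
    (hcf : ∀ f : ℝ → ℝ, Measurable f → (∀ b, 0 ≤ f b ∧ f b ≤ 63 * Real.cosh A / (1 + b ^ 2)) →
      ∀ τ γ : ℝ, ∫ t, PW W (t - τ) * f (θ * Real.log W * (t - γ)) ≤
        1 / (θ * Real.log W) * PW W (γ - τ) * ((∫ b, f b) + ε')) (ρ : ZS) :
    Measurable (fun t => PW W (t - τ) * (1 / 2 * (mx ρ *
      (if za (θ * Real.log W) ρ < A then ek (za (θ * Real.log W) ρ) (zb (θ * Real.log W) t ρ) else 0)))) ∧
    Integrable (fun t => PW W (t - τ) * (1 / 2 * (mx ρ *
      (if za (θ * Real.log W) ρ < A then ek (za (θ * Real.log W) ρ) (zb (θ * Real.log W) t ρ) else 0)))) ∧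
    ∫ t, PW W (t - τ) * (1 / 2 * (mx ρ *
      (if za (θ * Real.log W) ρ < A then ek (za (θ * Real.log W) ρ) (zb (θ * Real.log W) t ρ) else 0))) ≤
      1 / 2 * (mx ρ * (1 / (θ * Real.log W) * PW W ((ρ : ℂ).im - τ) *
        ((∑ j, c j * max 0 (za (θ * Real.log W) ρ - a j)) + ε'))) := by
  have hL : 0 < Real.log W := Real.log_pos hW
  have hW0 : 0 < W := by linarith
  set X : ℝ := θ * Real.log W with hX
  have hX0 : 0 < X := by positivity
  have hm := mx_nonneg (ρ : ℂ)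
  have hp := PW_pos hW0 ((ρ : ℂ).im - τ)
  have hPm : Continuous (fun t => PW W (t - τ)) := (PW_cont64 hW0).comp (by fun_prop)
  have hPi : Integrable (fun t => PW W (t - τ)) := (integral_PW hW0).1.comp_sub_right τ
  have hsum : 0 ≤ ∑ j, c j * max 0 (za X ρ - a j) :=
    Finset.sum_nonneg fun j _ => mul_nonneg (hc j) (le_max_left _ _)
  by_cases hA : za X ρ < A
  · simp only [if_pos hA]
    have hza : 0 ≤ za X ρ := by unfold za; positivity
    have hcosh : Real.cosh (za X ρ) ≤ Real.cosh A := by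
      apply Real.cosh_le_cosh.mpr
      rw [abs_of_nonneg hza, abs_of_nonneg (hza.trans hA.le)]
      exact hA.le
    have hf : ∀ b, 0 ≤ ek (za X ρ) b ∧ ek (za X ρ) b ≤ 63 * Real.cosh A / (1 + b ^ 2) := by
      intro b
      refine ⟨ek_nonneg _ _, ((ek_le_hk _ _).trans (hk_bound _ _)).trans ?_⟩
      gcongr
    have hkc : Continuous (fun t => ek (za X ρ) (zb X t ρ)) := by
      refine (ek_cont _).comp ?_
      unfold zb
      fun_prop
    have hbd : ∀ t, ‖ek (za X ρ) (zb X t ρ)‖ ≤ 63 * Real.cosh A := by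
      intro t
      rw [Real.norm_of_nonneg (ek_nonneg _ _)]
      refine (hf _).2.trans ?_
      have hc1 := Real.cosh_pos A
      rw [div_le_iff₀ (by positivity)]
      nlinarith [sq_nonneg (zb X t ρ)]
    have hint : Integrable (fun t => PW W (t - τ) * ek (za X ρ) (zb X t ρ)) := by
      have := hPi.bdd_mul (c := 63 * Real.cosh A) hkc.aestronglyMeasurable (ae_of_all _ hbd)
      simpa [mul_comm] using this
    have e1 : ∀ t, PW W (t - τ) * (1 / 2 * (mx ρ * ek (za X ρ) (zb X t ρ))) =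
        (1 / 2 * mx ρ) * (PW W (t - τ) * ek (za X ρ) (zb X t ρ)) := fun t => by ring
    simp only [e1]
    refine ⟨?_, hint.const_mul _, ?_⟩
    · exact ((hPm.mul hkc).const_mul _).measurable
    · rw [integral_const_mul]
      have h1 := hcf (ek (za X ρ)) (ek_meas64 _) hf τ (ρ : ℂ).im
      have h2 := hell (za X ρ) hza hA.le
      have h3 : ∫ t, PW W (t - τ) * ek (za X ρ) (zb X t ρ) ≤
          1 / X * PW W ((ρ : ℂ).im - τ) * ((∑ j, c j * max 0 (za X ρ - a j)) + ε') := by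
        refine le_trans h1 ?_
        gcongr
      calc 1 / 2 * mx ρ * ∫ t, PW W (t - τ) * ek (za X ρ) (zb X t ρ)
          ≤ 1 / 2 * mx ρ * (1 / X * PW W ((ρ : ℂ).im - τ) * ((∑ j, c j * max 0 (za X ρ - a j)) + ε')) := by
            gcongr
        _ = _ := by ring
  · simp only [if_neg hA, mul_zero, integral_zero]
    refine ⟨measurable_const, integrable_zero _ _ _, ?_⟩
    positivity

theorem Ey_mean {θ A K ε : ℝ} (hθ : 0 < θ) (hθ1 : θ < 1 / 2) (hA : 0 < A) (hK : 0 ≤ K)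
    (hε : 0 < ε) {n : ℕ} {c a : Fin n → ℝ} (hc : ∀ j, 0 ≤ c j) (ha : ∀ j, 0 < a j)
    (hell : ∀ x, 0 ≤ x → x ≤ A → ∫ b, ek x b ≤ ∑ j, c j * max 0 (x - a j)) :
    ∀ᶠ W : ℝ in atTop, ∀ τ : ℝ, |τ| ≤ K * W →
      Integrable (fun t => PW W (t - τ) * Ey (θ * Real.log W) A t) ∧
      ∫ t, PW W (t - τ) * Ey (θ * Real.log W) A t ≤
        ∑ j, c j * Bn (a j / (2 * Real.pi * θ)) + ε := by
  have hpi := Real.pi_pos
  have hcs : 0 ≤ ∑ j, c j := Finset.sum_nonneg fun j _ => hc j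
  obtain ⟨C, hC, hcount⟩ := count_mean hK
  set ε1 : ℝ := ε / (2 * (1 + ∑ j, c j)) with hε1
  have hε1p : 0 < ε1 := by positivity
  set ε' : ℝ := 2 * Real.pi * θ * ε / C with hε'
  have hε'p : 0 < ε' := by positivity
  have hcosh := Real.cosh_pos A
  have hed : ∀ᶠ W : ℝ in atTop, ∀ j : Fin n, ∀ τ : ℝ, |τ| ≤ K * W → ∀ Z : Finset ZS,
      ∑ ρ ∈ Z, mx ρ * (2 * Real.pi / Real.log W * PW W ((ρ : ℂ).im - τ)) *
        max 0 (yy W ρ - a j / (2 * Real.pi * θ)) ≤
        1 / (4 * Real.pi) * Real.log (1 / (1 - Real.exp (-(2 * Real.pi * (a j / (2 * Real.pi * θ)))))) + ε1 := by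
    rw [eventually_all]
    intro j
    have := ha j
    exact ed_main (by positivity) hK hε1p
  filter_upwards [conv_fine hθ (by positivity : (0:ℝ) ≤ 63 * Real.cosh A) hε'p, hcount, hed,
    eventually_gt_atTop 1] with W hW1 hW2 hW3 hW τ hτ
  have hL : 0 < Real.log W := Real.log_pos hW
  have hW0 : 0 < W := by linarith
  set L := Real.log W with hLd
  set X : ℝ := θ * L with hX
  have hX0 : 0 < X := by positivity
  have hone := fun ρ : ZS => one_zero64 (τ := τ) hθ hε'p hW hc hell hW1 ρ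
  have hEy : (fun t => PW W (t - τ) * Ey X A t) = fun t => ∑' ρ : ZS, PW W (t - τ) * (1 / 2 * (mx ρ *
      (if za X ρ < A then ek (za X ρ) (zb X t ρ) else 0))) := by
    funext t
    unfold Ey
    rw [tsum_mul_left, tsum_mul_left]
  rw [hEy]
  refine tsum_bound64 ?_ (fun ρ => (hone ρ).1) (fun ρ => (hone ρ).2.1) ?_
  · intro ρ t
    have hm := mx_nonneg (ρ : ℂ)
    have hp := PW_pos hW0 (t - τ)
    have hk : 0 ≤ (if za X ρ < A then ek (za X ρ) (zb X t ρ) else 0) := by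
      split_ifs
      · exact ek_nonneg _ _
      · exact le_rfl
    positivity
  · intro Z
    have h1 : ∑ ρ ∈ Z, ∫ t, PW W (t - τ) * (1 / 2 * (mx ρ *
        (if za X ρ < A then ek (za X ρ) (zb X t ρ) else 0))) ≤
        ∑ ρ ∈ Z, 1 / 2 * (mx ρ * (1 / X * PW W ((ρ : ℂ).im - τ) *
          ((∑ j, c j * max 0 (za X ρ - a j)) + ε'))) :=
      Finset.sum_le_sum fun ρ _ => (hone ρ).2.2
    refine h1.trans ?_
    have hza : ∀ ρ : ZS, ∀ j, max 0 (za X ρ - a j) =
        2 * Real.pi * θ * max 0 (|yy W ρ| - a j / (2 * Real.pi * θ)) := by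
      intro ρ j
      have e1 : za X ρ = 2 * Real.pi * θ * |yy W ρ| := by
        unfold za yy
        rw [abs_div, abs_mul, abs_of_pos hL, abs_of_pos (by positivity : (0:ℝ) < 2 * Real.pi), hX]
        field_simp
      rw [e1, mul_max_of_nonneg _ _ (by positivity : (0:ℝ) ≤ 2 * Real.pi * θ), mul_zero]
      rw [mul_sub]
      congr 2
      field_simp
    have h2 : ∀ ρ : ZS, 1 / 2 * (mx ρ * (1 / X * PW W ((ρ : ℂ).im - τ) *
          ((∑ j, c j * max 0 (za X ρ - a j)) + ε'))) =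
        ∑ j, (1 / 2 * c j) * (mx ρ * (2 * Real.pi / L * PW W ((ρ : ℂ).im - τ)) *
          max 0 (|yy W ρ| - a j / (2 * Real.pi * θ))) +
        ε' / (4 * Real.pi * θ) * (mx ρ * (2 * Real.pi / L * PW W ((ρ : ℂ).im - τ))) := by
      intro ρ
      have e2 : ∑ j, c j * max 0 (za X ρ - a j) =
          2 * Real.pi * θ * ∑ j, c j * max 0 (|yy W ρ| - a j / (2 * Real.pi * θ)) := by
        rw [Finset.mul_sum]
        refine Finset.sum_congr rfl fun j _ => ?_
        rw [hza]; ring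
      have e3 : ∑ j, (1 / 2 * c j) * (mx ρ * (2 * Real.pi / L * PW W ((ρ : ℂ).im - τ)) *
          max 0 (|yy W ρ| - a j / (2 * Real.pi * θ))) =
          1 / 2 * (mx ρ * (2 * Real.pi / L * PW W ((ρ : ℂ).im - τ))) *
            ∑ j, c j * max 0 (|yy W ρ| - a j / (2 * Real.pi * θ)) := by
        rw [Finset.mul_sum]
        refine Finset.sum_congr rfl fun j _ => ?_
        ring
      rw [e2, e3, hX]
      field_simp
      ring
    simp only [h2]
    rw [Finset.sum_add_distrib, ← Finset.mul_sum, Finset.sum_comm]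
    simp only [← Finset.mul_sum]
    have h3 : ∀ j, ∑ ρ ∈ Z, mx ρ * (2 * Real.pi / L * PW W ((ρ : ℂ).im - τ)) *
        max 0 (|yy W ρ| - a j / (2 * Real.pi * θ)) ≤ 2 * (Bn (a j / (2 * Real.pi * θ)) + ε1) :=
      fun j => two_sides64 (fun Z => hW3 j τ hτ Z) hW Z
    have h4 := hW2 τ hτ Z
    calc ∑ j, 1 / 2 * c j * ∑ ρ ∈ Z, mx ρ * (2 * Real.pi / L * PW W ((ρ : ℂ).im - τ)) *
            max 0 (|yy W ρ| - a j / (2 * Real.pi * θ)) +
          ε' / (4 * Real.pi * θ) * ∑ ρ ∈ Z, mx ρ * (2 * Real.pi / L * PW W ((ρ : ℂ).im - τ))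
        ≤ ∑ j, 1 / 2 * c j * (2 * (Bn (a j / (2 * Real.pi * θ)) + ε1)) + ε' / (4 * Real.pi * θ) * C := by
          gcongr with j _
          · have := hc j
            positivity
          · exact h3 j
      _ = ∑ j, c j * Bn (a j / (2 * Real.pi * θ)) + (∑ j, c j) * ε1 + ε / 2 := by
          rw [Finset.sum_mul, ← Finset.sum_add_distrib]
          congr 1
          · refine Finset.sum_congr rfl fun j _ => ?_
            ring
          · rw [hε']
            field_simp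
            ring
      _ ≤ ∑ j, c j * Bn (a j / (2 * Real.pi * θ)) + ε := by
          have : (∑ j, c j) * ε1 ≤ ε / 2 := by
            rw [hε1, mul_div_assoc', div_le_iff₀ (by positivity)]
            nlinarith
          linarith

end Pool.Agent.Helper54.LG
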