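import Pool.Agent.Helper54.LG.Ker

/-!
# LG-EF: the explicit formula for the kernel `qk`

`Pool.Agent.Helper57.LH.explicit`: for `x > 0`,
`∑_ρ mx ρ · gs x (β - 1/2) (t - γ) = MT x t / x - PS x t`. Multiply by `(2/X³) x²` and integrate over
`0 < x ≤ X`. (1) `(2/X³) ∫_0^X x² gs x v w dx = qk (X v) (X w)`: `x² gs x v w = 2 ∫_0^x (x - y) cosh (vy)
cos (wy) dy` (`gs_eq`), the derivative of `∫_0^x (x - y)² cosh (vy) cos (wy) dy`. (2) the prime part:
`x² PS x t = 2 ∑ Λ(n)/√n (x - log n)_+ cos (t log n)`. (3) exchange of the sum over `ρ` and the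
integral: `x² |gs x v w| ≤ C X² Kd X w` uniformly for `|v| ≤ 1/2`, and `∑ mx Kd X (t-γ) < ∞` (`fz_hasSum`).
-/

set_option autoImplicit false
open MeasureTheory Set Filter Topology
open Pool.Agent.Helper57.Zeta Pool.Agent.Helper57.LH Pool.Agent.Helper57.ED

namespace Pool.Agent.Helper54.LG

private noncomputable def ph93 (v w y : ℝ) : ℝ := Real.cosh (v * y) * Real.cos (w * y)

private theorem ph_cont93 (v w : ℝ) : Continuous (ph93 v w) := by
  unfold ph93; fun_prop

private noncomputable def G93 (v w x : ℝ) : ℝ :=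
  2 * (x * (∫ y in (0:ℝ)..x, ph93 v w y) - ∫ y in (0:ℝ)..x, y * ph93 v w y)

private theorem G_cont93 (v w : ℝ) : Continuous (G93 v w) := by
  have h0 := ph_cont93 v w
  have h1 : Continuous fun x : ℝ => ∫ y in (0:ℝ)..x, ph93 v w y :=
    intervalIntegral.continuous_primitive (fun a b => h0.intervalIntegrable a b) 0
  have h2 : Continuous fun x : ℝ => ∫ y in (0:ℝ)..x, y * ph93 v w y :=
    intervalIntegral.continuous_primitive (fun a b => (continuous_id.mul h0).intervalIntegrable a b) 0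
  unfold G93
  fun_prop

private theorem G_eq93 (v w : ℝ) {x : ℝ} (hx : 0 < x) : x ^ 2 * gs x v w = G93 v w x := by
  have h0 := ph_cont93 v w
  rw [gs_eq]
  unfold G93
  have e1 : x * (∫ y in (0:ℝ)..x, ph93 v w y) - (∫ y in (0:ℝ)..x, y * ph93 v w y) =
      x * ∫ y in (0:ℝ)..x, (1 - y / x) * (Real.cosh (v * y) * Real.cos (w * y)) := by
    rw [← intervalIntegral.integral_const_mul, ← intervalIntegral.integral_sub, ← intervalIntegral.integral_const_mul]
    · apply intervalIntegral.integral_congr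
      intro y _
      simp only [ph93]
      field_simp
    · exact (continuous_const.mul h0).intervalIntegrable _ _
    · exact (continuous_id.mul h0).intervalIntegrable _ _
  rw [e1]
  have hx' : x ≠ 0 := hx.ne'
  rw [show x ^ 2 * (2 / x * ∫ y in (0:ℝ)..x, (1 - y / x) * (Real.cosh (v * y) * Real.cos (w * y))) =
    (x ^ 2 * (2 / x)) * ∫ y in (0:ℝ)..x, (1 - y / x) * (Real.cosh (v * y) * Real.cos (w * y)) by ring,
    show x ^ 2 * (2 / x) = 2 * x by field_simp]
  ring

private theorem G_int93 (v w : ℝ) (X : ℝ) :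
    ∫ x in (0:ℝ)..X, G93 v w x = ∫ y in (0:ℝ)..X, (X - y) ^ 2 * ph93 v w y := by
  have h0 := ph_cont93 v w
  have h1 : Continuous fun y : ℝ => y * ph93 v w y := by fun_prop
  have h2 : Continuous fun y : ℝ => y ^ 2 * ph93 v w y := by fun_prop
  have hd : ∀ x : ℝ, HasDerivAt (fun x : ℝ => x ^ 2 * (∫ y in (0:ℝ)..x, ph93 v w y) -
      2 * x * (∫ y in (0:ℝ)..x, y * ph93 v w y) + ∫ y in (0:ℝ)..x, y ^ 2 * ph93 v w y) (G93 v w x) x := by
    intro x
    have d0 := intervalIntegral.integral_hasDerivAt_right (h0.intervalIntegrable 0 x)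
      (h0.stronglyMeasurableAtFilter volume (𝓝 x)) h0.continuousAt
    have d1 := intervalIntegral.integral_hasDerivAt_right (h1.intervalIntegrable 0 x)
      (h1.stronglyMeasurableAtFilter volume (𝓝 x)) h1.continuousAt
    have d2 := intervalIntegral.integral_hasDerivAt_right (h2.intervalIntegrable 0 x)
      (h2.stronglyMeasurableAtFilter volume (𝓝 x)) h2.continuousAt
    have p2 : HasDerivAt (fun x : ℝ => x ^ 2) (2 * x) x := by simpa using hasDerivAt_pow 2 x
    have p1 : HasDerivAt (fun x : ℝ => 2 * x) 2 x := by simpa using (hasDerivAt_id x).const_mul 2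
    refine (((p2.mul d0).sub (p1.mul d1)).add d2).congr_deriv ?_
    unfold G93
    ring
  rw [intervalIntegral.integral_eq_sub_of_hasDerivAt (fun x _ => hd x) ((G_cont93 v w).intervalIntegrable _ _)]
  simp only [intervalIntegral.integral_same, mul_zero, sub_zero, add_zero, ne_eq, OfNat.ofNat_ne_zero, not_false_eq_true,
    zero_pow]
  rw [← intervalIntegral.integral_const_mul, ← intervalIntegral.integral_const_mul, ← intervalIntegral.integral_sub,
    ← intervalIntegral.integral_add]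
  · apply intervalIntegral.integral_congr
    intro y _
    ring
  · exact ((continuous_const.mul h0).sub (continuous_const.mul h1)).intervalIntegrable _ _
  · exact h2.intervalIntegrable _ _
  · exact (continuous_const.mul h0).intervalIntegrable _ _
  · exact (continuous_const.mul h1).intervalIntegrable _ _

private theorem qk_eq93 {X : ℝ} (hX : 0 < X) (v w : ℝ) :
    2 / X ^ 3 * ∫ x in (0:ℝ)..X, G93 v w x = qk (X * |v|) (X * w) := by
  rw [G_int93]
  have e : ∫ y in (0:ℝ)..X, (X - y) ^ 2 * ph93 v w y =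
      X * ∫ u in (0:ℝ)..1, (X - X * u) ^ 2 * ph93 v w (X * u) := by
    have := intervalIntegral.mul_integral_comp_mul_left (a := 0) (b := 1) (f := fun y => (X - y) ^ 2 * ph93 v w y) X
    rw [this]; simp
  rw [e]
  unfold qk
  rw [← intervalIntegral.integral_const_mul, ← intervalIntegral.integral_const_mul, ← intervalIntegral.integral_const_mul]
  apply intervalIntegral.integral_congr
  intro u _
  simp only [ph93]
  have hc : Real.cosh (X * |v| * u) = Real.cosh (v * (X * u)) := by
    rw [← Real.cosh_abs, ← Real.cosh_abs (v * (X * u))]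
    congr 1
    simp only [abs_mul, abs_abs]
    ring
  rw [hc, show X * w * u = w * (X * u) by ring]
  field_simp

private theorem gs_bd93 {X x : ℝ} (hx : 0 < x) (hxX : x ≤ X) {v : ℝ} (hv : |v| ≤ 1 / 2) (w : ℝ) :
    x ^ 2 * |gs x v w| ≤ (5 + 8 * (X ^ 2 * Real.exp X)) * (X ^ 2 * Kd X w) := by
  have hX : 0 < X := hx.trans_le hxX
  have h1 := gs_diff_bound hx v w
  have h2 := gs_zero_decay hx w
  have h3 := gs_zero_nonneg hx w
  have hK : 0 ≤ Kd x w := by unfold Kd; positivity
  have hvx : |v| * x ≤ X := by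
    have := abs_nonneg v
    nlinarith
  have h4 : (|v| * x) ^ 2 * Real.exp (|v| * x) ≤ X ^ 2 * Real.exp X := by
    have : 0 ≤ |v| * x := by positivity
    gcongr
  have h5 : |gs x v w| ≤ (5 + 8 * (X ^ 2 * Real.exp X)) * Kd x w := by
    have h6 : |gs x v w| ≤ |gs x 0 w| + |gs x v w - gs x 0 w| := by
      have := abs_add_le (gs x 0 w) (gs x v w - gs x 0 w)
      rwa [add_sub_cancel] at this
    rw [abs_of_nonneg h3] at h6
    have h7 : 8 * ((|v| * x) ^ 2 * Real.exp (|v| * x)) * Kd x w ≤ 8 * (X ^ 2 * Real.exp X) * Kd x w := by gcongr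
    linarith
  have h8 : x ^ 2 * Kd x w ≤ X ^ 2 * Kd X w := by
    unfold Kd
    rw [← div_eq_mul_inv, ← div_eq_mul_inv, div_le_div_iff₀ (by positivity) (by positivity)]
    have : x ^ 2 ≤ X ^ 2 := by gcongr
    nlinarith [this]
  calc x ^ 2 * |gs x v w| ≤ x ^ 2 * ((5 + 8 * (X ^ 2 * Real.exp X)) * Kd x w) := by gcongr
    _ = (5 + 8 * (X ^ 2 * Real.exp X)) * (x ^ 2 * Kd x w) := by ring
    _ ≤ _ := by gcongr

private theorem sum_Kd93 {X : ℝ} (hX : 0 < X) (t : ℝ) :
    Summable fun ρ : ZS => mx ρ * Kd X (t - (ρ:ℂ).im) := by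
  refine Summable.of_nonneg_of_le (fun ρ => mul_nonneg (mx_nonneg _) (by unfold Kd; positivity)) (fun ρ => ?_)
    ((fz_hasSum t).summable.mul_left (4 + 1 / X ^ 2))
  have hr := zs_re ρ
  have hm : 0 ≤ mx ρ := mx_nonneg _
  unfold fz Kd
  set w := t - (ρ:ℂ).im with hw
  have h1 : (1 + (X * w) ^ 2)⁻¹ ≤ (4 + 1 / X ^ 2) * ((2 - (ρ:ℂ).re) / ((2 - (ρ:ℂ).re) ^ 2 + w ^ 2)) := by
    have h2 : 1 / (4 + w ^ 2) ≤ (2 - (ρ:ℂ).re) / ((2 - (ρ:ℂ).re) ^ 2 + w ^ 2) := by
      have hb1 : 1 < 2 - (ρ:ℂ).re := by linarith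
      have hb2 : 2 - (ρ:ℂ).re < 2 := by linarith
      rw [div_le_div_iff₀ (by positivity) (by positivity)]
      nlinarith [sq_nonneg w, mul_pos (by linarith : (0:ℝ) < 2 - (ρ:ℂ).re) (by linarith : 0 < (2 - (ρ:ℂ).re) - 1)]
    refine le_trans ?_ (mul_le_mul_of_nonneg_left h2 (by positivity))
    rw [inv_eq_one_div, mul_one_div, div_le_div_iff₀ (by positivity) (by positivity)]
    have e : (4 + 1 / X ^ 2) * (1 + (X * w) ^ 2) = 4 + w ^ 2 + (1 / X ^ 2 + 4 * (X * w) ^ 2) := by
      field_simp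
      ring
    rw [e]
    have : 0 ≤ 1 / X ^ 2 + 4 * (X * w) ^ 2 := by positivity
    linarith
  calc mx ρ * (1 + (X * w) ^ 2)⁻¹ ≤ mx ρ * ((4 + 1 / X ^ 2) * ((2 - (ρ:ℂ).re) / ((2 - (ρ:ℂ).re) ^ 2 + w ^ 2))) := by gcongr
    _ = _ := by ring

/-- the prime part as a finite sum -/
private theorem PS_eq93 {X x : ℝ} (hx : 0 < x) (hxX : x ≤ X) (t : ℝ) :
    x ^ 2 * PS x t = ∑ n ∈ Finset.range (⌊Real.exp X⌋₊ + 1),
      ArithmeticFunction.vonMangoldt n / Real.sqrt n * Real.cos (t * Real.log n) * (2 * max 0 (x - Real.log n)) := by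
  unfold PS
  rw [tsum_eq_sum (s := Finset.range (⌊Real.exp X⌋₊ + 1))]
  · rw [Finset.mul_sum]
    refine Finset.sum_congr rfl fun n _ => ?_
    rcases Nat.eq_zero_or_pos n with rfl | hn
    · simp [cV]
    have hn' : (0:ℝ) < n := by exact_mod_cast hn
    have hL : 0 ≤ Real.log n := Real.log_natCast_nonneg n
    unfold cV kpp
    rw [abs_of_nonneg hL]
    have e1 : Real.exp (3 / 2 * Real.log n) = (n:ℝ) * Real.sqrt n := by
      rw [show 3 / 2 * Real.log (n:ℝ) = Real.log n + Real.log n / 2 by ring, Real.exp_add, Real.exp_log hn',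
        ← Real.log_sqrt hn'.le, Real.exp_log (Real.sqrt_pos.mpr hn')]
    have e2 : max 0 (1 - Real.log n / x) = max 0 (x - Real.log n) / x := by
      rw [← max_div_div_right hx.le]
      congr 1
      · simp
      · field_simp
    rw [e1, e2, mul_comm (Real.log (n:ℝ)) t]
    have hs : Real.sqrt n ≠ 0 := (Real.sqrt_pos.mpr hn').ne'
    have hs2 : Real.sqrt n ^ 2 = n := Real.sq_sqrt hn'.le
    field_simp
    rw [hs2]
  · intro n hn
    rw [Finset.mem_range, not_lt] at hn
    have h1 : Real.exp X < n := by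
      have := Nat.lt_floor_add_one (Real.exp X)
      have h2 : ((⌊Real.exp X⌋₊ + 1 : ℕ) : ℝ) ≤ n := by exact_mod_cast hn
      push_cast at h2
      linarith
    have hn' : (0:ℝ) < n := (Real.exp_pos X).trans h1
    have h3 : X < Real.log n := by rwa [Real.lt_log_iff_exp_lt hn']
    rw [kpp_zero_of hx (by rw [abs_of_nonneg (by linarith)]; linarith)]
    simp

private theorem max_int93 {X L : ℝ} (hL0 : 0 ≤ L) (hLX : L ≤ X) :
    ∫ x in (0:ℝ)..X, 2 * max 0 (x - L) = (X - L) ^ 2 := by
  have hc : Continuous fun x : ℝ => 2 * max 0 (x - L) := by fun_prop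
  rw [← intervalIntegral.integral_add_adjacent_intervals (hc.intervalIntegrable 0 L) (hc.intervalIntegrable L X)]
  have e1 : ∫ x in (0:ℝ)..L, 2 * max 0 (x - L) = 0 := by
    rw [intervalIntegral.integral_congr (g := fun _ => (0:ℝ))]
    · simp
    · intro x hx
      rw [uIcc_of_le hL0] at hx
      simp only
      rw [max_eq_left (by linarith [hx.2])]
      simp
  have e2 : ∫ x in L..X, 2 * max 0 (x - L) = (X - L) ^ 2 := by
    have hd : ∀ x : ℝ, HasDerivAt (fun x : ℝ => (x - L) ^ 2) (2 * (x - L)) x := by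
      intro x
      have := ((hasDerivAt_id x).sub_const L).fun_pow 2
      simpa using this
    rw [intervalIntegral.integral_congr (g := fun x => 2 * (x - L))]
    · rw [intervalIntegral.integral_eq_sub_of_hasDerivAt (fun x _ => hd x)
        (by apply Continuous.intervalIntegrable; fun_prop)]
      ring
    · intro x hx
      rw [uIcc_of_le hLX] at hx
      simp only
      rw [max_eq_right (by linarith [hx.1])]
  rw [e1, e2, zero_add]

theorem explicit_q {X : ℝ} (hX : 0 < X) (t : ℝ) :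
    HasSum (fun ρ : ZS => mx ρ * qk (za X ρ) (zb X t ρ)) (MM X t - SS X t) := by
  set μ : Measure ℝ := volume.restrict (Ioc 0 X) with hμ
  set K : ℝ := 2 / X ^ 3 with hK
  have hK0 : 0 < K := by positivity
  set F : ZS → ℝ → ℝ := fun ρ x => K * mx ρ * G93 ((ρ:ℂ).re - 1 / 2) (t - (ρ:ℂ).im) x with hF
  set f : ℝ → ℝ := fun x => K * (x * MT x t) - K * (x ^ 2 * PS x t) with hf
  have hFc : ∀ ρ, Continuous (F ρ) := fun ρ => continuous_const.mul (G_cont93 _ _)
  have hlim : ∀ᵐ x ∂μ, HasSum (fun ρ => F ρ x) (f x) := by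
    filter_upwards [ae_restrict_mem measurableSet_Ioc] with x hx
    have h := (explicit hx.1 t).mul_left (K * x ^ 2)
    have e : K * x ^ 2 * (MT x t / x - PS x t) = f x := by
      have := hx.1.ne'
      simp only [hf]
      field_simp
    rw [e] at h
    refine h.congr_fun ?_
    intro ρ
    simp only [hF]
    rw [← G_eq93 _ _ hx.1]
    ring
  set C : ℝ := K * ((5 + 8 * (X ^ 2 * Real.exp X)) * X ^ 2) with hC
  have hbd : ∀ ρ, ∀ᵐ x ∂μ, ‖F ρ x‖ ≤ C * (mx ρ * Kd X (t - (ρ:ℂ).im)) := by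
    intro ρ
    filter_upwards [ae_restrict_mem measurableSet_Ioc] with x hx
    have hr := zs_re ρ
    have hm : 0 ≤ mx ρ := mx_nonneg _
    have hv : |(ρ:ℂ).re - 1 / 2| ≤ 1 / 2 := by rw [abs_le]; constructor <;> linarith
    have h1 := gs_bd93 hx.1 hx.2 hv (t - (ρ:ℂ).im)
    simp only [hF]
    rw [← G_eq93 _ _ hx.1, Real.norm_eq_abs, abs_mul, abs_mul, abs_mul, abs_of_pos hK0, abs_of_nonneg hm,
      abs_of_nonneg (sq_nonneg x)]
    calc K * mx ρ * (x ^ 2 * |gs x ((ρ:ℂ).re - 1 / 2) (t - (ρ:ℂ).im)|) ≤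
        K * mx ρ * ((5 + 8 * (X ^ 2 * Real.exp X)) * (X ^ 2 * Kd X (t - (ρ:ℂ).im))) := by gcongr
      _ = _ := by rw [hC]; ring
  have hsum : Summable fun ρ : ZS => C * (mx ρ * Kd X (t - (ρ:ℂ).im)) := (sum_Kd93 hX t).mul_left C
  have hmain : HasSum (fun ρ => ∫ x, F ρ x ∂μ) (∫ x, f x ∂μ) := by
    refine hasSum_integral_of_dominated_convergence (fun ρ _ => C * (mx ρ * Kd X (t - (ρ:ℂ).im)))
      (fun ρ => (hFc ρ).aestronglyMeasurable) hbd (Eventually.of_forall fun _ => hsum) (integrable_const _) hlim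
  -- integrability of the sum
  have hfi : Integrable f μ := by
    have hmeas : AEStronglyMeasurable f μ := by
      refine aestronglyMeasurable_of_tendsto_ae (atTop : Filter (Finset ZS))
        (f := fun (s : Finset ZS) x => ∑ ρ ∈ s, F ρ x) (fun s => ?_) ?_
      · exact (continuous_finsetSum s fun ρ _ => hFc ρ).aestronglyMeasurable
      · filter_upwards [hlim] with x hx
        exact hx
    refine (integrable_const (∑' ρ : ZS, C * (mx ρ * Kd X (t - (ρ:ℂ).im)))).mono' hmeas ?_
    have hbd' := ae_all_iff.mpr hbd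
    filter_upwards [hlim, hbd'] with x hx hb
    rw [← hx.tsum_eq]
    exact tsum_of_norm_bounded hsum.hasSum hb
  have hPSc : Continuous fun x : ℝ => ∑ n ∈ Finset.range (⌊Real.exp X⌋₊ + 1),
      ArithmeticFunction.vonMangoldt n / Real.sqrt n * Real.cos (t * Real.log n) * (2 * max 0 (x - Real.log n)) := by
    fun_prop
  have hPSe : ∀ᵐ x ∂μ, x ^ 2 * PS x t = ∑ n ∈ Finset.range (⌊Real.exp X⌋₊ + 1),
      ArithmeticFunction.vonMangoldt n / Real.sqrt n * Real.cos (t * Real.log n) * (2 * max 0 (x - Real.log n)) := by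
    filter_upwards [ae_restrict_mem measurableSet_Ioc] with x hx
    exact PS_eq93 hx.1 hx.2 t
  have hPSi : Integrable (fun x => x ^ 2 * PS x t) μ :=
    (hPSc.integrableOn_Icc.mono_set Ioc_subset_Icc_self).congr (hPSe.mono fun x hx => hx.symm)
  have hMTi : Integrable (fun x => K * (x * MT x t)) μ := by
    have := hfi.add (hPSi.const_mul K)
    refine this.congr (Eventually.of_forall fun x => ?_)
    simp only [hf, Pi.add_apply]
    ring
  have hPSint : ∫ x, K * (x ^ 2 * PS x t) ∂μ = SS X t := by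
    rw [integral_const_mul, integral_congr_ae hPSe, ← intervalIntegral.integral_of_le hX.le,
      intervalIntegral.integral_finsetSum (fun n _ => by apply Continuous.intervalIntegrable; fun_prop)]
    unfold SS
    rw [Finset.mul_sum, Finset.mul_sum]
    refine Finset.sum_congr rfl fun n hn => ?_
    rcases Nat.eq_zero_or_pos n with rfl | hn0
    · simp
    have hn' : (0:ℝ) < n := by exact_mod_cast hn0
    have hL : Real.log n ≤ X := by
      rw [Real.log_le_iff_le_exp hn']
      rw [Finset.mem_range] at hn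
      have := Nat.floor_le (Real.exp_pos X).le
      have h2 : (n:ℝ) ≤ ⌊Real.exp X⌋₊ := by exact_mod_cast Nat.lt_succ_iff.mp hn
      linarith
    rw [intervalIntegral.integral_const_mul, max_int93 (Real.log_natCast_nonneg n) hL, hK]
    field_simp
  have e1 : ∫ x, f x ∂μ = MM X t - SS X t := by
    simp only [hf]
    rw [integral_sub hMTi (hPSi.const_mul K), hPSint, integral_const_mul]
    unfold MM
    rw [intervalIntegral.integral_of_le hX.le]
  rw [e1] at hmain
  refine hmain.congr_fun ?_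
  intro ρ
  simp only [hF]
  rw [integral_const_mul, ← intervalIntegral.integral_of_le hX.le]
  unfold za zb
  rw [← qk_eq93 hX, hK]
  ring

end Pool.Agent.Helper54.LG
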