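import Pool.Agent.Helper54.LG.Def

/-!
# LG-VAR: the variances of the two bands

`Pool.Agent.Helper57.LS.mertens`: `|∑_{n ≤ e^y} Λ(n)/n - y| ≤ CMe`. Drop the prime powers
(`nonprime_sum`): `S(y) = ∑_{p ≤ e^y} log p / p = y + O(1)`. With `φ(u) = u (1 - u)^4` the sum of the
squares over a band is `4/X ∑ (log p / p) φ(log p / X)`, and `φ(v) = φ(β) - ∫_v^β φ'` gives
the limit with an error `O(1/X)`.
-/

set_option autoImplicit false
open MeasureTheory Set Filter Topology
open Pool.Agent.Helper57.Zeta Pool.Agent.Helper57.LH Pool.Agent.Helper57.ED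

namespace Pool.Agent.Helper54.LG

/-- Mertens' sum over the primes. -/
private noncomputable def S50 (y : ℝ) : ℝ :=
  ∑ n ∈ Finset.range (NX y + 1), if n.Prime then Real.log n / n else 0

private lemma S50_bound {y : ℝ} (hy : 0 ≤ y) :
    |S50 y - y| ≤ Pool.Agent.Helper57.LS.CMe + Pool.Agent.Helper57.LS.CNP := by
  have h1 := Pool.Agent.Helper57.LS.mertens hy
  have h2 := Pool.Agent.Helper57.LS.nonprime_sum (NX y)
  have h3 : 0 ≤ ∑ n ∈ Finset.range (NX y + 1), Pool.Agent.Helper57.LS.aN n / n :=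
    Finset.sum_nonneg fun n _ => div_nonneg (Pool.Agent.Helper57.LS.aN_nonneg n) (Nat.cast_nonneg n)
  have h4 : ∑ n ∈ Finset.range (NX y + 1), ArithmeticFunction.vonMangoldt n / n =
      S50 y + ∑ n ∈ Finset.range (NX y + 1), Pool.Agent.Helper57.LS.aN n / n := by
    rw [S50, ← Finset.sum_add_distrib]
    refine Finset.sum_congr rfl fun n _ => ?_
    unfold Pool.Agent.Helper57.LS.aN
    split_ifs with h
    · rw [ArithmeticFunction.vonMangoldt_apply_prime h]
      simp
    · simp
  rw [h4] at h1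
  rw [abs_le] at h1 ⊢
  constructor <;> linarith [h1.1, h1.2]

/-- The polynomial `φ`. -/
private noncomputable def ph50 (u : ℝ) : ℝ := u * (1 - u) ^ 4

private noncomputable def dp50 (u : ℝ) : ℝ := (1 - u) ^ 4 - 4 * u * (1 - u) ^ 3

private lemma ph50_deriv (u : ℝ) : HasDerivAt ph50 (dp50 u) u := by
  unfold ph50 dp50
  have h1 : HasDerivAt (fun u : ℝ => 1 - u) (-1) u := by
    simpa using (hasDerivAt_id u).const_sub 1
  have h2 := (hasDerivAt_id u).mul (h1.pow 4)
  refine h2.congr_deriv ?_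
  simp only [id, Pi.pow_apply]
  push_cast
  ring

private lemma dp50_cont : Continuous dp50 := by
  unfold dp50
  fun_prop

private lemma ph50_int (a b : ℝ) : ∫ u in a..b, dp50 u = ph50 b - ph50 a :=
  intervalIntegral.integral_eq_sub_of_hasDerivAt (fun u _ => ph50_deriv u) (dp50_cont.intervalIntegrable a b)

private lemma dp50_bound {u : ℝ} (h0 : 0 ≤ u) (h1 : u ≤ 1) : |dp50 u| ≤ 5 := by
  unfold dp50
  have h2 : 0 ≤ 1 - u := by linarith
  have h3 : 1 - u ≤ 1 := by linarith
  have h4 : (1 - u) ^ 4 ≤ 1 := pow_le_one₀ h2 h3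
  have h5 : (1 - u) ^ 3 ≤ 1 := pow_le_one₀ h2 h3
  have h6 : 0 ≤ (1 - u) ^ 4 := by positivity
  have h7 : 0 ≤ (1 - u) ^ 3 := by positivity
  have h8 : 0 ≤ u * (1 - u) ^ 3 := by positivity
  have h9 : u * (1 - u) ^ 3 ≤ 1 * 1 := by gcongr
  rw [abs_le]
  constructor <;> nlinarith

private lemma ph50_bound {u : ℝ} (h0 : 0 ≤ u) (h1 : u ≤ 1) : |ph50 u| ≤ 1 := by
  unfold ph50
  have h2 : 0 ≤ 1 - u := by linarith
  have h3 : 1 - u ≤ 1 := by linarith
  have h4 : (1 - u) ^ 4 ≤ 1 := pow_le_one₀ h2 h3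
  have h6 : 0 ≤ (1 - u) ^ 4 := by positivity
  rw [abs_of_nonneg (by positivity)]
  calc u * (1 - u) ^ 4 ≤ 1 * 1 := by gcongr
    _ = 1 := by ring

private lemma hi50 {f : ℝ → ℝ} (hm : Measurable f) {c : ℝ} (hc : ∀ u, |f u| ≤ c) (a b : ℝ) :
    IntervalIntegrable (fun u => f u * dp50 u) volume a b := by
  have h1 := dp50_cont.intervalIntegrable (μ := volume) a b
  rw [intervalIntegrable_iff] at h1 ⊢
  exact Integrable.bdd_mul (c := c) h1 hm.aestronglyMeasurable (Filter.Eventually.of_forall hc)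

private lemma mem_range50 {n : ℕ} {y : ℝ} (hn : n.Prime) : n ∈ Finset.range (NX y + 1) ↔ Real.log n ≤ y := by
  have h0 : (0:ℝ) < n := by exact_mod_cast hn.pos
  rw [Finset.mem_range, Nat.lt_succ_iff, NX, Nat.le_floor_iff (Real.exp_pos y).le, Real.log_le_iff_le_exp h0]

private lemma mem_PP50 {X α β : ℝ} {p : ℕ} :
    p ∈ PP X α β ↔ p.Prime ∧ α * X < Real.log p ∧ Real.log p ≤ β * X := by
  unfold PP
  rw [Finset.mem_filter]
  constructor
  · exact fun h => h.2
  · intro h
    exact ⟨(mem_range50 h.1).2 h.2.2, h⟩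

/-- the mass of the primes below `u` -/
private lemma D50 {X α β u : ℝ} (hX : 0 < X) (hα : 0 ≤ α) (hu : α ≤ u) (hub : u ≤ β) :
    |(∑ p ∈ PP X α β, if Real.log p ≤ u * X then Real.log p / p / X else 0) - (u - α)| ≤
      2 * (Pool.Agent.Helper57.LS.CMe + Pool.Agent.Helper57.LS.CNP) / X := by
  classical
  have e1 : (∑ p ∈ PP X α β, if Real.log p ≤ u * X then Real.log p / p / X else 0) =
      (S50 (u * X) - S50 (α * X)) / X := by
    rw [← Finset.sum_filter]
    have e2 : (PP X α β).filter (fun p : ℕ => Real.log p ≤ u * X) =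
        (Finset.range (NX (u * X) + 1)).filter Nat.Prime \ (Finset.range (NX (α * X) + 1)).filter Nat.Prime := by
      ext p
      rw [Finset.mem_filter, Finset.mem_sdiff, Finset.mem_filter, Finset.mem_filter, mem_PP50]
      constructor
      · rintro ⟨⟨h1, h2, h3⟩, h4⟩
        exact ⟨⟨(mem_range50 h1).2 h4, h1⟩, fun h => absurd ((mem_range50 h1).1 h.1) (not_le.2 h2)⟩
      · rintro ⟨⟨h1, h2⟩, h3⟩
        have h4 := (mem_range50 h2).1 h1
        have h5 : α * X < Real.log p := by
          by_contra h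
          exact h3 ⟨(mem_range50 h2).2 (not_lt.1 h), h2⟩
        exact ⟨⟨h2, h5, h4.trans (by gcongr)⟩, h4⟩
    rw [e2]
    have h1 : (Finset.range (NX (α * X) + 1)).filter Nat.Prime ⊆ (Finset.range (NX (u * X) + 1)).filter Nat.Prime := by
      intro p hp
      rw [Finset.mem_filter] at hp ⊢
      exact ⟨(mem_range50 hp.2).2 (((mem_range50 hp.2).1 hp.1).trans (by gcongr)), hp.2⟩
    have h2 := Finset.sum_sdiff (f := fun p : ℕ => Real.log p / p / X) h1
    have h3 : ∀ y : ℝ, ∑ p ∈ (Finset.range (NX y + 1)).filter Nat.Prime, Real.log p / p / X = S50 y / X := by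
      intro y
      rw [Finset.sum_filter, S50, Finset.sum_div]
      refine Finset.sum_congr rfl fun n _ => ?_
      split_ifs <;> simp
    rw [h3, h3] at h2
    rw [sub_div]
    linarith
  rw [e1]
  have h1 := S50_bound (y := u * X) (mul_nonneg (hα.trans hu) hX.le)
  have h2 := S50_bound (y := α * X) (mul_nonneg hα hX.le)
  have h3 : (S50 (u * X) - S50 (α * X)) / X - (u - α) =
      ((S50 (u * X) - u * X) - (S50 (α * X) - α * X)) / X := by
    field_simp
    ring
  rw [h3, abs_div, abs_of_pos hX]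
  have h4 := abs_sub (S50 (u * X) - u * X) (S50 (α * X) - α * X)
  gcongr
  linarith

private lemma T50 {X α β : ℝ} (hX : 0 < X) (hα : 0 ≤ α) (hαβ : α ≤ β) (hβ : β ≤ 1) :
    |(∑ p ∈ PP X α β, Real.log p / p / X * ph50 (Real.log p / X)) - ∫ u in α..β, ph50 u| ≤
      12 * (Pool.Agent.Helper57.LS.CMe + Pool.Agent.Helper57.LS.CNP) / X := by
  classical
  set C := Pool.Agent.Helper57.LS.CMe + Pool.Agent.Helper57.LS.CNP with hC
  set D : ℝ → ℝ := fun u => ∑ p ∈ PP X α β, if Real.log p ≤ u * X then Real.log p / p / X else 0 with hD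
  have hDm : Measurable D := by
    rw [hD]
    refine Finset.measurable_sum _ fun p _ => ?_
    refine Measurable.ite ?_ measurable_const measurable_const
    exact measurableSet_le measurable_const (by fun_prop)
  have hDb : ∀ u ∈ Icc α β, |D u - (u - α)| ≤ 2 * C / X := fun u hu => D50 hX hα hu.1 hu.2
  have hCX : 0 ≤ 2 * C / X := (abs_nonneg _).trans (hDb α ⟨le_rfl, hαβ⟩)
  -- each term
  have hterm : ∀ p ∈ PP X α β, Real.log p / p / X * ph50 (Real.log p / X) =
      Real.log p / p / X * ph50 β - ∫ u in α..β, (if Real.log p ≤ u * X then Real.log p / p / X else 0) * dp50 u := by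
    intro p hp
    obtain ⟨hpp, h1, h2⟩ := mem_PP50.1 hp
    set v := Real.log p / X with hv
    have hv1 : α < v := by rw [hv, lt_div_iff₀ hX]; exact h1
    have hv2 : v ≤ β := by rw [hv, div_le_iff₀ hX]; exact h2
    have hind : ∀ u : ℝ, (Real.log p ≤ u * X) ↔ v ≤ u := by
      intro u
      rw [hv, div_le_iff₀ hX]
    have hi : ∀ a b : ℝ, IntervalIntegrable (fun u => (if Real.log p ≤ u * X then Real.log p / p / X else 0) * dp50 u) volume a b := by
      intro a b
      have hm : Measurable fun u : ℝ => (if Real.log p ≤ u * X then Real.log p / p / X else 0) :=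
        Measurable.ite (measurableSet_le measurable_const (by fun_prop)) measurable_const measurable_const
      refine hi50 hm (c := |Real.log p / p / X|) (fun u => ?_) a b
      split_ifs
      · exact le_rfl
      · simp
    rw [← intervalIntegral.integral_add_adjacent_intervals (hi α v) (hi v β)]
    have e1 : ∫ u in α..v, (if Real.log p ≤ u * X then Real.log p / p / X else 0) * dp50 u = 0 := by
      rw [intervalIntegral.integral_of_le hv1.le, MeasureTheory.integral_Ioc_eq_integral_Ioo]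
      rw [MeasureTheory.setIntegral_eq_zero_of_forall_eq_zero]
      intro u hu
      rw [if_neg]
      · simp
      · rw [hind, not_le]
        exact hu.2
    have e2 : ∫ u in v..β, (if Real.log p ≤ u * X then Real.log p / p / X else 0) * dp50 u =
        Real.log p / p / X * (ph50 β - ph50 v) := by
      rw [← ph50_int, ← intervalIntegral.integral_const_mul]
      refine intervalIntegral.integral_congr fun u hu => ?_
      rw [uIcc_of_le hv2] at hu
      simp only [if_pos ((hind u).2 hu.1)]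
    rw [e1, e2]
    ring
  have hsum : ∑ p ∈ PP X α β, Real.log p / p / X * ph50 (Real.log p / X) =
      D β * ph50 β - ∫ u in α..β, D u * dp50 u := by
    rw [Finset.sum_congr rfl hterm, Finset.sum_sub_distrib, ← Finset.sum_mul]
    congr 1
    · congr 1
      rw [hD]
      refine Finset.sum_congr rfl fun p hp => ?_
      rw [if_pos (mem_PP50.1 hp).2.2]
    · rw [← intervalIntegral.integral_finset_sum]
      · refine intervalIntegral.integral_congr fun u _ => ?_
        simp only [hD, Finset.sum_mul]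
      · intro p _
        have hm : Measurable fun u : ℝ => (if Real.log p ≤ u * X then Real.log p / p / X else 0) :=
          Measurable.ite (measurableSet_le measurable_const (by fun_prop)) measurable_const measurable_const
        refine hi50 hm (c := |Real.log p / p / X|) (fun u => ?_) α β
        split_ifs
        · exact le_rfl
        · simp
  -- integration by parts for the limit
  have hlim : ∫ u in α..β, ph50 u = (β - α) * ph50 β - ∫ u in α..β, (u - α) * dp50 u := by
    have h1 := intervalIntegral.integral_mul_deriv_eq_deriv_mul (a := α) (b := β) (u := fun u => u - α) (v := ph50)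
      (u' := fun _ => 1) (v' := dp50) (fun u _ => by simpa using (hasDerivAt_id u).sub_const α)
      (fun u _ => ph50_deriv u) (by simp) (dp50_cont.intervalIntegrable α β)
    rw [h1]
    simp
  have hiD : IntervalIntegrable (fun u => D u * dp50 u) volume α β := by
    have hb : ∀ u ∈ Icc α β, |D u| ≤ 2 * C / X + (β - α) := by
      intro u hu
      have h1 := hDb u hu
      have h2 : |D u| ≤ |D u - (u - α)| + |u - α| := by
        have := abs_add_le (D u - (u - α)) (u - α)
        rwa [sub_add_cancel] at this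
      have h3 : |u - α| ≤ β - α := by
        rw [abs_of_nonneg (by linarith [hu.1])]
        linarith [hu.2]
      linarith
    rw [intervalIntegrable_iff_integrableOn_Icc_of_le hαβ]
    refine Integrable.bdd_mul (c := 2 * C / X + (β - α)) (dp50_cont.integrableOn_Icc) hDm.aestronglyMeasurable ?_
    refine (ae_restrict_iff' measurableSet_Icc).2 (Filter.Eventually.of_forall fun u hu => ?_)
    exact hb u hu
  have hiL : IntervalIntegrable (fun u => (u - α) * dp50 u) volume α β :=
    (((continuous_id.sub continuous_const).mul dp50_cont).intervalIntegrable α β)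
  have hdiff : (D β * ph50 β - ∫ u in α..β, D u * dp50 u) - ((β - α) * ph50 β - ∫ u in α..β, (u - α) * dp50 u) =
      (D β - (β - α)) * ph50 β - ∫ u in α..β, (D u - (u - α)) * dp50 u := by
    have : ∫ u in α..β, (D u - (u - α)) * dp50 u = (∫ u in α..β, D u * dp50 u) - ∫ u in α..β, (u - α) * dp50 u := by
      rw [← intervalIntegral.integral_sub hiD hiL]
      refine intervalIntegral.integral_congr fun u _ => ?_
      show (D u - (u - α)) * dp50 u = D u * dp50 u - (u - α) * dp50 u
      ring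
    rw [this]
    ring
  rw [hsum, hlim, hdiff]
  have hβ0 : 0 ≤ β := hα.trans hαβ
  have h1 : |(D β - (β - α)) * ph50 β| ≤ 2 * C / X * 1 := by
    rw [abs_mul]
    exact mul_le_mul (hDb β ⟨hαβ, le_rfl⟩) (ph50_bound hβ0 hβ) (abs_nonneg _) hCX
  have h2 : |∫ u in α..β, (D u - (u - α)) * dp50 u| ≤ 2 * C / X * 5 * |β - α| := by
    rw [← Real.norm_eq_abs]
    refine intervalIntegral.norm_integral_le_of_norm_le_const fun u hu => ?_
    rw [uIoc_of_le hαβ] at hu
    rw [Real.norm_eq_abs, abs_mul]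
    exact mul_le_mul (hDb u ⟨hu.1.le, hu.2⟩) (dp50_bound (hα.trans hu.1.le) (hu.2.trans hβ)) (abs_nonneg _) hCX
  have h3 : |β - α| ≤ 1 := by
    rw [abs_of_nonneg (by linarith)]
    linarith
  have h4 := abs_sub ((D β - (β - α)) * ph50 β) (∫ u in α..β, (D u - (u - α)) * dp50 u)
  have h5 : 2 * C / X * 5 * |β - α| ≤ 2 * C / X * 5 * 1 := by gcongr
  calc _ ≤ _ := h4
    _ ≤ 2 * C / X * 1 + 2 * C / X * 5 * 1 := by linarith
    _ = 12 * C / X := by ring

private lemma cc_sq50 {X : ℝ} (hX : 0 < X) (p : ℕ) :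
    cc X p ^ 2 = 4 * (Real.log p / p / X * ph50 (Real.log p / X)) := by
  unfold cc ph50
  rcases Nat.eq_zero_or_pos p with rfl | hp
  · simp
  have hp0 : (0:ℝ) < p := by exact_mod_cast hp
  have h1 : Real.sqrt p ^ 2 = p := Real.sq_sqrt hp0.le
  have h2 : Real.sqrt p ≠ 0 := (Real.sqrt_pos.2 hp0).ne'
  rw [mul_pow, mul_pow, div_pow, div_pow, h1]
  generalize 1 - Real.log p / X = t
  field_simp
  ring

theorem var_band {α β : ℝ} (hα : 0 ≤ α) (hαβ : α ≤ β) (hβ : β ≤ 1) :
    Tendsto (fun X : ℝ => ∑ p ∈ PP X α β, cc X p ^ 2) atTop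
      (𝓝 (4 * ∫ u in α..β, u * (1 - u) ^ 4)) := by
  have h1 : Tendsto (fun X : ℝ => 4 * (12 * (Pool.Agent.Helper57.LS.CMe + Pool.Agent.Helper57.LS.CNP) / X)) atTop (𝓝 0) := by
    have h0 : Tendsto (fun X : ℝ => 12 * (Pool.Agent.Helper57.LS.CMe + Pool.Agent.Helper57.LS.CNP) / X) atTop (𝓝 0) :=
      tendsto_const_nhds.div_atTop tendsto_id
    simpa using h0.const_mul 4
  rw [tendsto_iff_norm_sub_tendsto_zero]
  refine squeeze_zero' (Filter.Eventually.of_forall fun X => norm_nonneg _) ?_ h1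
  filter_upwards [eventually_gt_atTop 0] with X hX
  have h2 := T50 hX hα hαβ hβ
  have h3 : ∑ p ∈ PP X α β, cc X p ^ 2 = 4 * ∑ p ∈ PP X α β, Real.log p / p / X * ph50 (Real.log p / X) := by
    rw [Finset.mul_sum]
    exact Finset.sum_congr rfl fun p _ => cc_sq50 hX p
  rw [h3, ← mul_sub, norm_mul, Real.norm_eq_abs, Real.norm_eq_abs, abs_of_pos (by norm_num : (0:ℝ) < 4)]
  exact mul_le_mul_of_nonneg_left h2 (by norm_num)

private lemma int50 (a b : ℝ) : ∫ u in a..b, u * (1 - u) ^ 4 =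
    (b ^ 2 / 2 - 4 * b ^ 3 / 3 + 6 * b ^ 4 / 4 - 4 * b ^ 5 / 5 + b ^ 6 / 6) -
    (a ^ 2 / 2 - 4 * a ^ 3 / 3 + 6 * a ^ 4 / 4 - 4 * a ^ 5 / 5 + a ^ 6 / 6) := by
  refine intervalIntegral.integral_eq_sub_of_hasDerivAt
    (f := fun x : ℝ => x ^ 2 / 2 - 4 * x ^ 3 / 3 + 6 * x ^ 4 / 4 - 4 * x ^ 5 / 5 + x ^ 6 / 6) (fun x _ => ?_) ?_
  · have h1 := (((((hasDerivAt_pow 2 x).div_const 2).sub (((hasDerivAt_pow 3 x).const_mul 4).div_const 3)).add
      (((hasDerivAt_pow 4 x).const_mul 6).div_const 4)).sub (((hasDerivAt_pow 5 x).const_mul 4).div_const 5)).add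
      ((hasDerivAt_pow 6 x).div_const 6)
    refine h1.congr_deriv ?_
    push_cast
    ring
  · apply Continuous.intervalIntegrable
    fun_prop

theorem var_low : Tendsto (fun X : ℝ => ∑ p ∈ PP X 0 (1 / 2), cc X p ^ 2) atTop (𝓝 (2 * v1)) := by
  have h := var_band (α := 0) (β := 1 / 2) le_rfl (by norm_num) (by norm_num)
  rw [int50] at h
  unfold v1
  convert h using 2
  norm_num

theorem var_high : Tendsto (fun X : ℝ => ∑ p ∈ PP X (1 / 2) 1, cc X p ^ 2) atTop (𝓝 (2 * v2)) := by
  have h := var_band (α := 1 / 2) (β := 1) (by norm_num) (by norm_num) le_rfl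
  rw [int50] at h
  unfold v2
  convert h using 2
  norm_num

private lemma cc_abs50 {X α β : ℝ} (hX : 0 < X) (hβ : β ≤ 1) {p : ℕ} (hp : p ∈ PP X α β) :
    |cc X p| ≤ 4 / X := by
  obtain ⟨h1, _, h3⟩ := mem_PP50.1 hp
  have hp1 : (1:ℝ) ≤ p := by exact_mod_cast h1.one_le
  have hp0 : (0:ℝ) < p := by linarith
  have hs : 0 < Real.sqrt p := Real.sqrt_pos.2 hp0
  have hl0 : 0 ≤ Real.log p := Real.log_nonneg hp1
  have hl : Real.log p ≤ 2 * Real.sqrt p := by
    have h4 : Real.log (Real.sqrt p) ≤ Real.sqrt p - 1 := Real.log_le_sub_one_of_pos hs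
    rw [Real.log_sqrt hp0.le] at h4
    linarith
  have hq : Real.log p / Real.sqrt p ≤ 2 := by
    rw [div_le_iff₀ hs]
    exact hl
  have hv : Real.log p / X ≤ 1 := by
    rw [div_le_iff₀ hX]
    refine h3.trans ?_
    gcongr
  have hv0 : 0 ≤ Real.log p / X := by positivity
  have h5 : (1 - Real.log p / X) ^ 2 ≤ 1 := pow_le_one₀ (by linarith) (by linarith)
  have h6 : 0 ≤ Real.log p / Real.sqrt p := by positivity
  unfold cc
  rw [abs_of_nonneg (by positivity)]
  calc 2 / X * (Real.log p / Real.sqrt p) * (1 - Real.log p / X) ^ 2 ≤ 2 / X * 2 * 1 := by gcongr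
    _ = 4 / X := by ring

private lemma four50 {α β : ℝ} (hβ : β ≤ 1) {v : ℝ}
    (h : Tendsto (fun X : ℝ => ∑ p ∈ PP X α β, cc X p ^ 2) atTop (𝓝 v)) :
    Tendsto (fun X : ℝ => ∑ p ∈ PP X α β, cc X p ^ 4) atTop (𝓝 0) := by
  have h0 : Tendsto (fun X : ℝ => (4 / X) ^ 2 * ∑ p ∈ PP X α β, cc X p ^ 2) atTop (𝓝 0) := by
    have h1 : Tendsto (fun X : ℝ => 4 / X) atTop (𝓝 0) := tendsto_const_nhds.div_atTop tendsto_id
    have h2 := (h1.pow 2).mul h
    simpa using h2
  refine squeeze_zero' (Filter.Eventually.of_forall fun X => Finset.sum_nonneg fun p _ => by positivity) ?_ h0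
  filter_upwards [eventually_gt_atTop 0] with X hX
  rw [Finset.mul_sum]
  refine Finset.sum_le_sum fun p hp => ?_
  have h1 := cc_abs50 hX hβ hp
  have h2 : cc X p ^ 2 ≤ (4 / X) ^ 2 := by
    rw [← sq_abs]
    exact pow_le_pow_left₀ (abs_nonneg _) h1 2
  calc cc X p ^ 4 = cc X p ^ 2 * cc X p ^ 2 := by ring
    _ ≤ (4 / X) ^ 2 * cc X p ^ 2 := by gcongr

theorem four_low : Tendsto (fun X : ℝ => ∑ p ∈ PP X 0 (1 / 2), cc X p ^ 4) atTop (𝓝 0) :=
  four50 (by norm_num) var_low

theorem four_high : Tendsto (fun X : ℝ => ∑ p ∈ PP X (1 / 2) 1, cc X p ^ 4) atTop (𝓝 0) :=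
  four50 le_rfl var_high

theorem sum_abs {X α β : ℝ} (hX : 1 ≤ X) (hα : 0 ≤ α) (hβ : β ≤ 1) :
    ∑ p ∈ PP X α β, |cc X p| ≤ 4 * Real.exp X := by
  have hX0 : 0 < X := by linarith
  have h1 : ∀ p ∈ PP X α β, |cc X p| ≤ 4 := by
    intro p hp
    refine (cc_abs50 hX0 hβ hp).trans ?_
    rw [div_le_iff₀ hX0]
    linarith
  have h2 : (PP X α β).card ≤ ⌊Real.exp (β * X)⌋₊ := by
    have h3 : PP X α β ⊆ Finset.Ioc 0 ⌊Real.exp (β * X)⌋₊ := by
      intro p hp
      rw [PP, Finset.mem_filter, Finset.mem_range] at hp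
      rw [Finset.mem_Ioc]
      exact ⟨hp.2.1.pos, by omega⟩
    have h4 := Finset.card_le_card h3
    rwa [Nat.card_Ioc, Nat.sub_zero] at h4
  calc ∑ p ∈ PP X α β, |cc X p| ≤ ∑ p ∈ PP X α β, (4:ℝ) := Finset.sum_le_sum h1
    _ = (PP X α β).card * 4 := by rw [Finset.sum_const, nsmul_eq_mul]
    _ ≤ (⌊Real.exp (β * X)⌋₊ : ℝ) * 4 := by
        gcongr
    _ ≤ Real.exp (β * X) * 4 := by
        gcongr
        exact Nat.floor_le (Real.exp_pos _).le
    _ ≤ Real.exp X * 4 := by
        gcongr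
        nlinarith
    _ = 4 * Real.exp X := by ring

end Pool.Agent.Helper54.LG
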