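import Pool.Agent.Helper54.LG.Diag
import Pool.Agent.Helper54.LG.Var

/-!
# LG-MOM: the joint moments of the two bands tend to the Gaussian ones

`a1 = -(D + conj D)/2` with `D = DD (PP X 0 (1/2)) (cc X)`, `a2` similarly with `PP X (1/2) 1`; the
primes are at most `e^{X/2}`, `e^X`. Binomial theorem, `mean_words` for each term with
`N = W^{θ(i/2+j)/2} ≤ W^{1-η}` (`X = θ log W`), the total error
`(4 W^θ)^{i+j} exp (-W/(2N))` tends to `0`. The diagonal terms: only if `i = 2r`, `j = 2s`, and then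
`2^{-i} C(i, r) r! (2 v1)^r = (2r)!/(2^r r!) v1^r = gm i v1` (`dg_bound`, `var_low`, `four_low`).
-/

set_option autoImplicit false
open MeasureTheory Set Filter Topology
open Pool.Agent.Helper57.Zeta Pool.Agent.Helper57.LH Pool.Agent.Helper57.ED

namespace Pool.Agent.Helper54.LG

private lemma DD_re34 (P : Finset ℕ) (c : ℕ → ℝ) (t : ℝ) :
    ((-∑ p ∈ P, c p * Real.cos (t * Real.log p) : ℝ) : ℂ) =
      (-(1 / 2) : ℂ) * (DD P c t + (starRingEnd ℂ) (DD P c t)) := by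
  unfold DD
  rw [map_sum, ← Finset.sum_add_distrib, Finset.mul_sum, Complex.ofReal_neg, Complex.ofReal_sum,
    ← Finset.sum_neg_distrib]
  refine Finset.sum_congr rfl fun p _ => ?_
  rw [map_mul, Complex.conj_ofReal, ← Complex.exp_conj, map_mul, Complex.conj_I, Complex.conj_ofReal,
    Complex.ofReal_mul, Complex.ofReal_cos, Complex.cos]
  have e1 : ((t * Real.log p : ℝ) : ℂ) * Complex.I = Complex.I * ((t * Real.log p : ℝ) : ℂ) := mul_comm _ _
  have e2 : -((t * Real.log p : ℝ) : ℂ) * Complex.I = -Complex.I * ((t * Real.log p : ℝ) : ℂ) := by ring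
  rw [e1, e2]
  ring

private lemma DD_cont34 (P : Finset ℕ) (c : ℕ → ℝ) : Continuous (DD P c) := by
  unfold DD
  fun_prop

private lemma DD_bdd34 (P : Finset ℕ) (c : ℕ → ℝ) (t : ℝ) : ‖DD P c t‖ ≤ ∑ p ∈ P, |c p| := by
  unfold DD
  refine (norm_sum_le _ _).trans (Finset.sum_le_sum fun p _ => ?_)
  rw [norm_mul, mul_comm Complex.I, Complex.norm_exp_ofReal_mul_I, mul_one, Complex.norm_real,
    Real.norm_eq_abs]

private lemma int_term34 (P Q : Finset ℕ) (c : ℕ → ℝ) (r r' s s' : ℕ) {W : ℝ} (τ : ℝ) (hW : 0 < W) :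
    Integrable fun t => (PW W (t - τ) : ℂ) * (DD P c t ^ r * (starRingEnd ℂ) (DD P c t) ^ r' *
        DD Q c t ^ s * (starRingEnd ℂ) (DD Q c t) ^ s') := by
  have h1 : Integrable fun t => (PW W (t - τ) : ℂ) :=
    ((integral_PW hW).1.comp_sub_right τ).ofReal
  refine h1.mul_bdd (c := (∑ p ∈ P, |c p|) ^ r * (∑ p ∈ P, |c p|) ^ r' *
    (∑ p ∈ Q, |c p|) ^ s * (∑ p ∈ Q, |c p|) ^ s') ?_ ?_
  · apply Continuous.aestronglyMeasurable
    have hP := DD_cont34 P c
    have hQ := DD_cont34 Q c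
    have hP' := Complex.continuous_conj.comp hP
    have hQ' := Complex.continuous_conj.comp hQ
    exact (((hP.pow r).mul (hP'.pow r')).mul (hQ.pow s)).mul (hQ'.pow s')
  · refine Eventually.of_forall fun t => ?_
    rw [norm_mul, norm_mul, norm_mul, norm_pow, norm_pow, norm_pow, norm_pow, RCLike.norm_conj,
      RCLike.norm_conj]
    have h2 := DD_bdd34 P c t
    have h3 := DD_bdd34 Q c t
    gcongr

/-- the main term of the moment of one band -/
private noncomputable def gd34 (P : Finset ℕ) (c : ℕ → ℝ) (i : ℕ) : ℝ :=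
  if Even i then (1 / 2) ^ i * (i.choose (i / 2)) * dg P c (i / 2) else 0

private lemma sum_choose34 (i : ℕ) (f : ℕ → ℝ) :
    (∑ m ∈ Finset.range (i + 1), (-(1 / 2) : ℝ) ^ i * (i.choose m) * (if m = i - m then f m else 0)) =
      if Even i then (1 / 2) ^ i * (i.choose (i / 2)) * f (i / 2) else 0 := by
  by_cases hi : Even i
  · obtain ⟨k, hk⟩ := hi
    rw [if_pos ⟨k, hk⟩, Finset.sum_eq_single (i / 2)]
    · rw [if_pos (by omega), Even.neg_pow ⟨k, hk⟩]
    · intro m hm hne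
      rw [Finset.mem_range] at hm
      rw [if_neg (by omega), mul_zero]
    · intro h
      exact absurd (Finset.mem_range.2 (by omega)) h
  · rw [if_neg hi]
    refine Finset.sum_eq_zero fun m hm => ?_
    rw [Finset.mem_range] at hm
    rw [if_neg, mul_zero]
    intro h
    exact hi ⟨m, by omega⟩

private lemma expand34 {P Q : Finset ℕ} (hP : ∀ p ∈ P, p.Prime) (hQ : ∀ p ∈ Q, p.Prime)
    (hPQ : Disjoint P Q) (c : ℕ → ℝ) (i j : ℕ) {W N x y : ℝ} (τ : ℝ) (hW : 0 < W)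
    (hN : 1 ≤ N) (hx1 : 1 ≤ x) (hy1 : 1 ≤ y) (hx : ∀ p ∈ P, (p : ℝ) ≤ x)
    (hy : ∀ p ∈ Q, (p : ℝ) ≤ y) (hxy : x ^ i * y ^ j ≤ N ^ 2) :
    |(∫ t, PW W (t - τ) * ((-∑ p ∈ P, c p * Real.cos (t * Real.log p)) ^ i *
        (-∑ p ∈ Q, c p * Real.cos (t * Real.log p)) ^ j)) - gd34 P c i * gd34 Q c j| ≤
      (∑ p ∈ P, |c p|) ^ i * (∑ p ∈ Q, |c p|) ^ j * Real.exp (-(W / (2 * N))) := by
  set E := (∑ p ∈ P, |c p|) ^ i * (∑ p ∈ Q, |c p|) ^ j * Real.exp (-(W / (2 * N))) with hE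
  set T : ℕ → ℕ → ℂ := fun m n => ∫ t, (PW W (t - τ) : ℂ) * (DD P c t ^ m *
    (starRingEnd ℂ) (DD P c t) ^ (i - m) * DD Q c t ^ n * (starRingEnd ℂ) (DD Q c t) ^ (j - n)) with hT
  have h1 : ((∫ t, PW W (t - τ) * ((-∑ p ∈ P, c p * Real.cos (t * Real.log p)) ^ i *
        (-∑ p ∈ Q, c p * Real.cos (t * Real.log p)) ^ j) : ℝ) : ℂ) =
      ∑ m ∈ Finset.range (i + 1), ∑ n ∈ Finset.range (j + 1),
        ((((-(1 / 2) : ℝ) ^ i * (i.choose m)) * ((-(1 / 2) : ℝ) ^ j * (j.choose n)) : ℝ) : ℂ) * T m n := by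
    rw [← integral_complex_ofReal]
    have e1 : ∀ t : ℝ, ((PW W (t - τ) * ((-∑ p ∈ P, c p * Real.cos (t * Real.log p)) ^ i *
        (-∑ p ∈ Q, c p * Real.cos (t * Real.log p)) ^ j) : ℝ) : ℂ) =
        ∑ m ∈ Finset.range (i + 1), ∑ n ∈ Finset.range (j + 1),
        ((((-(1 / 2) : ℝ) ^ i * (i.choose m)) * ((-(1 / 2) : ℝ) ^ j * (j.choose n)) : ℝ) : ℂ) *
          ((PW W (t - τ) : ℂ) * (DD P c t ^ m *
    (starRingEnd ℂ) (DD P c t) ^ (i - m) * DD Q c t ^ n * (starRingEnd ℂ) (DD Q c t) ^ (j - n))) := by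
      intro t
      rw [Complex.ofReal_mul, Complex.ofReal_mul, Complex.ofReal_pow, Complex.ofReal_pow,
        DD_re34, DD_re34, mul_pow, mul_pow, add_pow, add_pow, Finset.mul_sum, Finset.mul_sum,
        Finset.sum_mul_sum, Finset.mul_sum]
      refine Finset.sum_congr rfl fun m _ => ?_
      rw [Finset.mul_sum]
      refine Finset.sum_congr rfl fun n _ => ?_
      push_cast
      ring
    simp_rw [e1]
    rw [integral_finsetSum _ fun m _ => integrable_finsetSum _ fun n _ =>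
      (int_term34 P Q c m (i - m) n (j - n) τ hW).const_mul _]
    refine Finset.sum_congr rfl fun m _ => ?_
    rw [integral_finsetSum _ fun n _ => (int_term34 P Q c m (i - m) n (j - n) τ hW).const_mul _]
    refine Finset.sum_congr rfl fun n _ => ?_
    rw [integral_const_mul]
  have h2 : ((gd34 P c i * gd34 Q c j : ℝ) : ℂ) =
      ∑ m ∈ Finset.range (i + 1), ∑ n ∈ Finset.range (j + 1),
        ((((-(1 / 2) : ℝ) ^ i * (i.choose m)) * ((-(1 / 2) : ℝ) ^ j * (j.choose n)) : ℝ) : ℂ) *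
          (if m = i - m ∧ n = j - n then ((dg P c m * dg Q c n : ℝ) : ℂ) else 0) := by
    rw [gd34, gd34, ← sum_choose34 i (dg P c), ← sum_choose34 j (dg Q c), Finset.sum_mul_sum,
      Complex.ofReal_sum]
    refine Finset.sum_congr rfl fun m _ => ?_
    rw [Complex.ofReal_sum]
    refine Finset.sum_congr rfl fun n _ => ?_
    by_cases hm : m = i - m
    · by_cases hn : n = j - n
      · rw [if_pos hm, if_pos hn, if_pos ⟨hm, hn⟩]
        push_cast
        ring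
      · rw [if_neg hn, if_neg (fun h : m = i - m ∧ n = j - n => hn h.2)]
        simp
    · rw [if_neg hm, if_neg (fun h : m = i - m ∧ n = j - n => hm h.1)]
      simp
  have h3 : ∀ m ∈ Finset.range (i + 1), ∀ n ∈ Finset.range (j + 1),
      ‖T m n - (if m = i - m ∧ n = j - n then ((dg P c m * dg Q c n : ℝ) : ℂ) else 0)‖ ≤ E := by
    intro m hm n hn
    rw [Finset.mem_range] at hm hn
    have hmi : m + (i - m) = i := by omega
    have hnj : n + (j - n) = j := by omega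
    have := mean_words hP hQ hPQ c m (i - m) n (j - n) τ hW hN hx1 hy1 hx hy
      (by rw [hmi, hnj]; exact hxy)
    rw [hmi, hnj] at this
    exact this
  rw [← Real.norm_eq_abs, ← Complex.norm_real, Complex.ofReal_sub, h1, h2, ← Finset.sum_sub_distrib]
  have h4 : ∀ m ∈ Finset.range (i + 1), ‖(∑ n ∈ Finset.range (j + 1),
        ((((-(1 / 2) : ℝ) ^ i * (i.choose m)) * ((-(1 / 2) : ℝ) ^ j * (j.choose n)) : ℝ) : ℂ) * T m n) -
      ∑ n ∈ Finset.range (j + 1),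
        ((((-(1 / 2) : ℝ) ^ i * (i.choose m)) * ((-(1 / 2) : ℝ) ^ j * (j.choose n)) : ℝ) : ℂ) *
          (if m = i - m ∧ n = j - n then ((dg P c m * dg Q c n : ℝ) : ℂ) else 0)‖ ≤
      ∑ n ∈ Finset.range (j + 1),
        (((1 / 2) ^ i * (i.choose m)) * ((1 / 2) ^ j * (j.choose n)) : ℝ) * E := by
    intro m hm
    rw [← Finset.sum_sub_distrib]
    refine (norm_sum_le _ _).trans (Finset.sum_le_sum fun n hn => ?_)
    rw [← mul_sub, norm_mul]
    refine mul_le_mul (le_of_eq ?_) (h3 m hm n hn) (norm_nonneg _) (by positivity)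
    rw [Complex.norm_real, Real.norm_eq_abs, abs_mul, abs_mul, abs_mul, abs_pow, abs_pow, abs_neg,
      Nat.abs_cast, Nat.abs_cast, abs_of_pos (by norm_num : (0:ℝ) < 1 / 2)]
  refine (norm_sum_le _ _).trans ((Finset.sum_le_sum h4).trans (le_of_eq ?_))
  have h5 : ∀ k : ℕ, ∑ m ∈ Finset.range (k + 1), ((1 / 2) ^ k * (k.choose m) : ℝ) = 1 := by
    intro k
    rw [← Finset.mul_sum, ← Nat.cast_sum, Nat.sum_range_choose]
    push_cast
    rw [← mul_pow]
    norm_num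
  simp_rw [← Finset.sum_mul]
  rw [← Finset.sum_mul_sum, h5, h5]
  ring

private lemma dg_lim34 {P : ℝ → Finset ℕ} {c : ℝ → ℕ → ℝ} (hP : ∀ X, ∀ p ∈ P X, p.Prime) {v : ℝ}
    (h2 : Tendsto (fun X => ∑ p ∈ P X, c X p ^ 2) atTop (𝓝 (2 * v)))
    (h4 : Tendsto (fun X => ∑ p ∈ P X, c X p ^ 4) atTop (𝓝 0)) (r : ℕ) :
    Tendsto (fun X => dg (P X) (c X) r) atTop (𝓝 ((r.factorial : ℝ) * (2 * v) ^ r)) := by
  have h5 : Tendsto (fun X => (r.factorial : ℝ) * (r : ℝ) ^ 2 * (∑ p ∈ P X, c X p ^ 4) *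
      (1 + ∑ p ∈ P X, c X p ^ 2) ^ r) atTop (𝓝 ((r.factorial : ℝ) * (r : ℝ) ^ 2 * 0 * (1 + 2 * v) ^ r)) :=
    (h4.const_mul _).mul ((h2.const_add 1).pow r)
  rw [mul_zero, zero_mul] at h5
  have h6 : Tendsto (fun X => dg (P X) (c X) r - (r.factorial : ℝ) * (∑ p ∈ P X, c X p ^ 2) ^ r)
      atTop (𝓝 0) :=
    squeeze_zero_norm (fun X => by rw [Real.norm_eq_abs]; exact dg_bound (hP X) (c X) r) h5
  have h7 : Tendsto (fun X => (r.factorial : ℝ) * (∑ p ∈ P X, c X p ^ 2) ^ r) atTop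
      (𝓝 ((r.factorial : ℝ) * (2 * v) ^ r)) := (h2.pow r).const_mul _
  have h8 := h6.add h7
  simpa using h8

private lemma gd_lim34 {P : ℝ → Finset ℕ} {c : ℝ → ℕ → ℝ} (hP : ∀ X, ∀ p ∈ P X, p.Prime) {v : ℝ}
    (h2 : Tendsto (fun X => ∑ p ∈ P X, c X p ^ 2) atTop (𝓝 (2 * v)))
    (h4 : Tendsto (fun X => ∑ p ∈ P X, c X p ^ 4) atTop (𝓝 0)) (i : ℕ) :
    Tendsto (fun X => gd34 (P X) (c X) i) atTop (𝓝 (gm i v)) := by
  by_cases hi : Even i
  · have h := (dg_lim34 hP h2 h4 (i / 2)).const_mul ((1 / 2) ^ i * (i.choose (i / 2) : ℝ))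
    have e1 : (1 / 2 : ℝ) ^ i * (i.choose (i / 2) : ℝ) * (((i / 2).factorial : ℝ) * (2 * v) ^ (i / 2)) =
        gm i v := by
      rw [gm, if_pos hi]
      obtain ⟨k, hk⟩ := hi
      have hk2 : i / 2 = k := by omega
      rw [hk2]
      have hc : ((i.choose k : ℕ) : ℝ) = (i.factorial : ℝ) / (k.factorial * k.factorial) := by
        rw [Nat.cast_choose ℝ (by omega : k ≤ i), show i - k = k by omega]
      rw [hc, show i = k + k by omega, mul_pow, pow_add]
      have hf : (k.factorial : ℝ) ≠ 0 := by positivity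
      field_simp
      rw [← mul_pow, ← mul_pow]
      norm_num
    rw [e1] at h
    refine h.congr fun X => ?_
    rw [gd34, if_pos hi]
  · have e1 : gm i v = 0 := by rw [gm, if_neg hi]
    rw [e1]
    refine tendsto_const_nhds.congr fun X => ?_
    rw [gd34, if_neg hi]

private lemma PP_prime34 (X α β : ℝ) : ∀ p ∈ PP X α β, p.Prime := by
  intro p hp
  rw [PP, Finset.mem_filter] at hp
  exact hp.2.1

private lemma PP_le34 {X α β : ℝ} : ∀ p ∈ PP X α β, (p : ℝ) ≤ Real.exp (β * X) := by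
  intro p hp
  rw [PP, Finset.mem_filter] at hp
  have h0 : (0:ℝ) < p := by exact_mod_cast hp.2.1.pos
  rw [← Real.exp_log h0]
  exact Real.exp_le_exp.2 hp.2.2.2

private lemma PP_disj34 (X : ℝ) : Disjoint (PP X 0 (1 / 2)) (PP X (1 / 2) 1) := by
  rw [Finset.disjoint_left]
  intro p hp hq
  rw [PP, Finset.mem_filter] at hp hq
  exact absurd hp.2.2.2 (not_le.2 hq.2.2.1)

private lemma err_lim34 {A η : ℝ} (hη : 0 < η) (B : ℝ) :
    Tendsto (fun W : ℝ => B * W ^ A * Real.exp (-(W ^ η / 2))) atTop (𝓝 0) := by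
  have h1 : Tendsto (fun y : ℝ => y ^ (A / η) * Real.exp (-(1 / 2) * y)) atTop (𝓝 0) :=
    tendsto_rpow_mul_exp_neg_mul_atTop_nhds_zero _ _ (by norm_num)
  have h2 := (h1.comp (tendsto_rpow_atTop hη)).const_mul B
  rw [mul_zero] at h2
  refine h2.congr' ?_
  filter_upwards [eventually_gt_atTop 0] with W hW
  simp only [Function.comp_apply]
  rw [← Real.rpow_mul hW.le, mul_div_cancel₀ _ hη.ne', mul_assoc]
  congr 3
  ring

theorem moments {θ : ℝ} (hθ : 0 < θ) (i j : ℕ) (hij : θ * ((i : ℝ) / 2 + j) < 2) {ε : ℝ}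
    (hε : 0 < ε) :
    ∀ᶠ W : ℝ in atTop, ∀ τ : ℝ,
      |(∫ t, PW W (t - τ) * (a1 (θ * Real.log W) t ^ i * a2 (θ * Real.log W) t ^ j)) -
        gm i v1 * gm j v2| ≤ ε := by
  have hX : Tendsto (fun W : ℝ => θ * Real.log W) atTop atTop :=
    Real.tendsto_log_atTop.const_mul_atTop hθ
  have hm1 := gd_lim34 (fun X => PP_prime34 X 0 (1 / 2)) var_low four_low i
  have hm2 := gd_lim34 (fun X => PP_prime34 X (1 / 2) 1) var_high four_high j
  have hmain := ((hm1.mul hm2).comp hX).sub_const (gm i v1 * gm j v2)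
  rw [sub_self] at hmain
  set η : ℝ := 1 - θ * ((i : ℝ) / 2 + j) / 2 with hη
  have hη0 : 0 < η := by rw [hη]; linarith
  have herr := err_lim34 (A := θ * (i + j)) hη0 (4 ^ (i + j))
  have e1 := hmain.norm.eventually (gt_mem_nhds (by rw [norm_zero]; linarith : ‖(0:ℝ)‖ < ε / 2))
  have e2 := herr.eventually (gt_mem_nhds (by linarith : (0:ℝ) < ε / 2))
  filter_upwards [e1, e2, eventually_gt_atTop 1, hX.eventually_ge_atTop 1] with W h1 h2 hW1 hX1 τ
  have hW : 0 < W := by linarith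
  set X : ℝ := θ * Real.log W with hXd
  have hexpX : Real.exp X = W ^ θ := by
    rw [hXd, Real.rpow_def_of_pos hW, mul_comm]
  have hN : 1 ≤ Real.exp (X * ((i : ℝ) / 2 + j) / 2) := Real.one_le_exp (by positivity)
  have h3 := expand34 (PP_prime34 X 0 (1 / 2)) (PP_prime34 X (1 / 2) 1) (PP_disj34 X) (cc X) i j τ hW
    hN (Real.one_le_exp (by positivity : 0 ≤ 1 / 2 * X)) (Real.one_le_exp (by positivity : 0 ≤ 1 * X))
    PP_le34 PP_le34 (by
      rw [← Real.exp_nat_mul, ← Real.exp_nat_mul, ← Real.exp_nat_mul, ← Real.exp_add]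
      apply le_of_eq
      congr 1
      push_cast
      ring)
  have h4 : (∑ p ∈ PP X 0 (1 / 2), |cc X p|) ^ i * (∑ p ∈ PP X (1 / 2) 1, |cc X p|) ^ j *
      Real.exp (-(W / (2 * Real.exp (X * ((i : ℝ) / 2 + j) / 2)))) ≤
      4 ^ (i + j) * W ^ (θ * (i + j)) * Real.exp (-(W ^ η / 2)) := by
    have s1 : (∑ p ∈ PP X 0 (1 / 2), |cc X p|) ^ i ≤ (4 * Real.exp X) ^ i :=
      pow_le_pow_left₀ (Finset.sum_nonneg fun _ _ => abs_nonneg _)
        (sum_abs hX1 le_rfl (by norm_num)) i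
    have s2 : (∑ p ∈ PP X (1 / 2) 1, |cc X p|) ^ j ≤ (4 * Real.exp X) ^ j :=
      pow_le_pow_left₀ (Finset.sum_nonneg fun _ _ => abs_nonneg _)
        (sum_abs hX1 (by norm_num) le_rfl) j
    have s3 : (4 * Real.exp X) ^ i * (4 * Real.exp X) ^ j = 4 ^ (i + j) * W ^ (θ * (i + j)) := by
      rw [← pow_add, mul_pow, hexpX, ← Real.rpow_natCast (W ^ θ), ← Real.rpow_mul hW.le]
      push_cast
      rfl
    have s4 : W / (2 * Real.exp (X * ((i : ℝ) / 2 + j) / 2)) = W ^ η / 2 := by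
      have : Real.exp (X * ((i : ℝ) / 2 + j) / 2) = W ^ (1 - η) := by
        rw [Real.rpow_def_of_pos hW, hXd, hη]
        congr 1
        ring
      rw [this, Real.rpow_sub hW, Real.rpow_one]
      have : W ^ η ≠ 0 := (Real.rpow_pos_of_pos hW _).ne'
      field_simp
    rw [s4, ← s3]
    exact mul_le_mul_of_nonneg_right (mul_le_mul s1 s2 (by positivity) (by positivity))
      (Real.exp_pos _).le
  have h5 : |gd34 (PP X 0 (1 / 2)) (cc X) i * gd34 (PP X (1 / 2) 1) (cc X) j - gm i v1 * gm j v2| <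
      ε / 2 := by
    have := h1
    rw [Real.norm_eq_abs] at this
    exact this
  have h6 : (∫ t, PW W (t - τ) * (a1 X t ^ i * a2 X t ^ j)) =
      ∫ t, PW W (t - τ) * ((-∑ p ∈ PP X 0 (1 / 2), cc X p * Real.cos (t * Real.log p)) ^ i *
        (-∑ p ∈ PP X (1 / 2) 1, cc X p * Real.cos (t * Real.log p)) ^ j) := rfl
  rw [h6]
  have h7 := abs_sub_le (∫ t, PW W (t - τ) * ((-∑ p ∈ PP X 0 (1 / 2), cc X p * Real.cos (t * Real.log p)) ^ i *
        (-∑ p ∈ PP X (1 / 2) 1, cc X p * Real.cos (t * Real.log p)) ^ j))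
    (gd34 (PP X 0 (1 / 2)) (cc X) i * gd34 (PP X (1 / 2) 1) (cc X) j) (gm i v1 * gm j v2)
  linarith

end Pool.Agent.Helper54.LG
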