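import Pool.Agent.Helper54.LG.Def

/-!
# LG-MT: the main term of the explicit formula

`MM X t = (2/X³) ∫_0^X x MT x t dx`. For `0 < x` with `e^{x/2} ≤ t²` the difference `x MT x t - x log t` is at most
`C (1 + x)`: for `x ≥ 1` by `MT_bound`, for `x ≤ 1` by the same comparison with the digamma sum, in which the
factor `x` absorbs the `1/x` of `JJ`. Integrate over `0 < x ≤ X` and use `log t = log W + O(1)`, `X = θ log W`.
-/

set_option autoImplicit false
open MeasureTheory Set Filter Topology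
open Pool.Agent.Helper57.Zeta Pool.Agent.Helper57.LH Pool.Agent.Helper57.ED

namespace Pool.Agent.Helper54.LG

open Complex in
private lemma xJJ21 {x : ℝ} (hx : 0 < x) {z : ℂ} (hz : z ≠ 0) :
    x * (JJ x z).re = (-((x : ℂ) / z) + (cexp (z * x) - 1) / z ^ 2).re := by
  rw [← Complex.re_ofReal_mul, JJ_eq hx hz]
  have hx' : (x : ℂ) ≠ 0 := by exact_mod_cast hx.ne'
  congr 1
  field_simp

open Complex in
private lemma xJJ_cont21 {X : ℝ} {z : ℂ} (hz : z ≠ 0) : ContinuousOn (fun x : ℝ => x * (JJ x z).re) (Ioc 0 X) := by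
  have h : Continuous (fun x : ℝ => (-((x : ℂ) / z) + (cexp (z * x) - 1) / z ^ 2).re) := by
    apply Complex.continuous_re.comp
    apply Continuous.add
    · apply Continuous.neg
      exact Complex.continuous_ofReal.div_const z
    · apply Continuous.div_const
      fun_prop
  exact h.continuousOn.congr fun x hx => xJJ21 hx.1 hz

/-- difference of the two main sums, termwise, all positive lengths -/
private lemma term_diff21 {X t : ℝ} (hX0 : 0 < X) (ht : 1 ≤ t) (n : ℕ) :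
    |X * ((1 / ((n:ℝ) + 1) - 2 * (JJ X ((3 / 2 - 2 * ((n:ℝ) + 1) : ℝ) + t * Complex.I)).re) - Dn n t)| ≤
      (3 * X + 4) * (2 * (1 / ((n:ℝ) + 1) ^ 2)) := by
  have hn0 : (0:ℝ) ≤ n := Nat.cast_nonneg n
  set b : ℝ := 2 * ((n:ℝ) + 1) - 3 / 2 with hb
  have hb0 : 0 < b := by rw [hb]; linarith only [hn0]
  have hz : (((3 / 2 - 2 * ((n:ℝ) + 1) : ℝ) : ℂ) + t * Complex.I) = ((-b : ℝ) : ℂ) + t * Complex.I := by
    congr 2; rw [hb]; ring
  rw [hz]
  have hz0 : ((-b : ℝ) : ℂ) + t * Complex.I ≠ 0 := z_ne (by linarith only [hb0]) t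
  rw [JJ_eq hX0 hz0, Complex.add_re, Complex.neg_re, one_div, one_div, Complex.inv_re, normSq_z]
  have e1 : (((-b : ℝ) : ℂ) + t * Complex.I).re = -b := by simp
  rw [e1]
  set q := ((Complex.exp ((((-b : ℝ) : ℂ) + t * Complex.I) * X) - 1) / (X * (((-b : ℝ) : ℂ) + t * Complex.I) ^ 2)).re with hq
  have hq1 : |q| ≤ 2 / (b ^ 2 + t ^ 2) / X := by
    rw [hq]
    refine (Complex.abs_re_le_norm _).trans ?_
    rw [norm_div, norm_mul, norm_pow, Complex.norm_real, Real.norm_of_nonneg hX0.le, ← Complex.normSq_eq_norm_sq, normSq_z, neg_sq]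
    have h1 : ‖Complex.exp ((((-b : ℝ) : ℂ) + t * Complex.I) * X) - 1‖ ≤ 2 := by
      refine (norm_sub_le _ _).trans ?_
      rw [Complex.norm_exp, norm_one]
      have : ((((-b : ℝ) : ℂ) + t * Complex.I) * X).re ≤ 0 := by
        simp
        positivity
      have := Real.exp_le_one_iff.mpr this
      linarith only [this]
    calc ‖Complex.exp ((((-b : ℝ) : ℂ) + t * Complex.I) * X) - 1‖ / (X * (b ^ 2 + t ^ 2)) ≤ 2 / (X * (b ^ 2 + t ^ 2)) := by gcongr
      _ = _ := by rw [div_div, mul_comm X]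
  unfold Dn
  have hab : 2 * ((n:ℝ) + 1) = b + 3 / 2 := by rw [hb]; ring
  rw [hab]
  have e2 : (((n:ℝ) + 1)⁻¹ - 2 * (-(-b / ((-b) ^ 2 + t ^ 2)) + q)) - (1 / ((n:ℝ) + 1) - 2 * ((b + 3 / 2) / ((b + 3 / 2) ^ 2 + t ^ 2))) =
      -(3 * (b * (b + 3 / 2) - t ^ 2) / ((b ^ 2 + t ^ 2) * ((b + 3 / 2) ^ 2 + t ^ 2))) - 2 * q := by
    field_simp
    ring
  rw [e2]
  have h3 : |3 * (b * (b + 3 / 2) - t ^ 2) / ((b ^ 2 + t ^ 2) * ((b + 3 / 2) ^ 2 + t ^ 2))| ≤ 3 / (b ^ 2 + t ^ 2) := by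
    rw [abs_div, abs_of_pos (by positivity : 0 < (b ^ 2 + t ^ 2) * ((b + 3 / 2) ^ 2 + t ^ 2)), div_le_div_iff₀ (by positivity) (by positivity), abs_mul,
      abs_of_pos (by norm_num : (0:ℝ) < 3)]
    have h4 : |b * (b + 3 / 2) - t ^ 2| ≤ (b + 3 / 2) ^ 2 + t ^ 2 := by
      rw [abs_le]
      constructor <;> nlinarith only [hb0, sq_nonneg t, mul_pos hb0 hb0]
    calc 3 * |b * (b + 3 / 2) - t ^ 2| * (b ^ 2 + t ^ 2) ≤ 3 * ((b + 3 / 2) ^ 2 + t ^ 2) * (b ^ 2 + t ^ 2) := by gcongr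
      _ = _ := by ring
  have h5 : 1 / (b ^ 2 + t ^ 2) ≤ 2 * (1 / ((n:ℝ) + 1) ^ 2) := by
    rw [mul_one_div, div_le_div_iff₀ (by positivity) (by positivity)]
    rw [hb]
    nlinarith
  have h6 : |-(3 * (b * (b + 3 / 2) - t ^ 2) / ((b ^ 2 + t ^ 2) * ((b + 3 / 2) ^ 2 + t ^ 2))) - 2 * q| ≤
      3 / (b ^ 2 + t ^ 2) + 2 * (2 / (b ^ 2 + t ^ 2) / X) := by
    refine (abs_sub _ _).trans ?_
    rw [abs_neg, abs_mul, abs_of_pos (by norm_num : (0:ℝ) < 2)]
    gcongr
  rw [abs_mul, abs_of_pos hX0]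
  calc X * |-(3 * (b * (b + 3 / 2) - t ^ 2) / ((b ^ 2 + t ^ 2) * ((b + 3 / 2) ^ 2 + t ^ 2))) - 2 * q|
      ≤ X * (3 / (b ^ 2 + t ^ 2) + 2 * (2 / (b ^ 2 + t ^ 2) / X)) := by gcongr
    _ = (3 * X + 4) * (1 / (b ^ 2 + t ^ 2)) := by
        field_simp
        ring
    _ ≤ _ := by gcongr

private lemma sum_sq21 : Summable (fun n : ℕ => 2 * (1 / ((n:ℝ) + 1) ^ 2)) := by
  have h := sum_inv_sq.2.mul_left (1 / 7)
  refine h.congr fun n => ?_
  ring

/-- the tail sum -/
private noncomputable def RR21 (t x : ℝ) : ℝ :=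
  ∑' n : ℕ, x * ((1 / ((n:ℝ) + 1) - 2 * (JJ x ((3 / 2 - 2 * ((n:ℝ) + 1) : ℝ) + t * Complex.I)).re) - Dn n t)

private lemma RR_bound21 {x t : ℝ} (hx : 0 < x) (ht : 1 ≤ t) : |RR21 t x| ≤ (3 * x + 4) * 4 := by
  unfold RR21
  have h := tsum_of_norm_bounded ((sum_sq21.mul_left (3 * x + 4)).hasSum) (fun n => by
    rw [Real.norm_eq_abs]; exact term_diff21 hx ht n)
  have h0 : ∑' n : ℕ, (3 * x + 4) * (2 * (1 / ((n:ℝ) + 1) ^ 2)) = (3 * x + 4) * ∑' n : ℕ, 2 * (1 / ((n:ℝ) + 1) ^ 2) :=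
    tsum_mul_left
  rw [Real.norm_eq_abs, h0] at h
  refine h.trans ?_
  have h2 : ∑' n : ℕ, 2 * (1 / ((n:ℝ) + 1) ^ 2) = 1 / 7 * ∑' n : ℕ, 14 * (1 / ((n:ℝ) + 1) ^ 2) := by
    rw [← tsum_mul_left]
    congr 1
    funext n
    ring
  have h3 := sum_inv_sq.1
  have h4 : ∑' n : ℕ, 2 * (1 / ((n:ℝ) + 1) ^ 2) ≤ 4 := by rw [h2]; linarith only [h3]
  gcongr

private lemma RR_cont21 {X t : ℝ} (ht : 1 ≤ t) : ContinuousOn (RR21 t) (Ioc 0 X) := by
  unfold RR21
  apply continuousOn_tsum (u := fun n : ℕ => (3 * X + 4) * (2 * (1 / ((n:ℝ) + 1) ^ 2)))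
  · intro n
    have hn0 : (0:ℝ) ≤ n := Nat.cast_nonneg n
    have hz : (((3 / 2 - 2 * ((n:ℝ) + 1) : ℝ) : ℂ) + t * Complex.I) ≠ 0 := z_ne (by linarith only [hn0]) t
    have h := xJJ_cont21 (X := X) hz
    have e : (fun x : ℝ => x * ((1 / ((n:ℝ) + 1) - 2 * (JJ x ((3 / 2 - 2 * ((n:ℝ) + 1) : ℝ) + t * Complex.I)).re) - Dn n t)) =
        fun x : ℝ => x * (1 / ((n:ℝ) + 1) - Dn n t) - 2 * (x * (JJ x ((3 / 2 - 2 * ((n:ℝ) + 1) : ℝ) + t * Complex.I)).re) := by
      funext x; ring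
    rw [e]
    exact (continuousOn_id.mul continuousOn_const).sub (continuousOn_const.mul h)
  · exact sum_sq21.mul_left _
  · intro n x hx
    rw [Real.norm_eq_abs]
    refine (term_diff21 hx.1 ht n).trans ?_
    have := hx.2
    gcongr

/-- the main term through the digamma sum -/
private lemma MT_eq21 {x t : ℝ} (hx : 0 < x) (ht : 1 ≤ t) : x * MT x t =
    2 * (x * (JJ x ((3 / 2 - 2 : ℝ) + t * Complex.I)).re) + 2 * (x * (JJ x ((3 / 2 - 1 : ℝ) + t * Complex.I)).re) -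
      x * (Real.log Real.pi + Real.eulerMascheroniConstant) + (RR21 t x + x * ∑' n : ℕ, Dn n t) := by
  have hs : Summable (fun n : ℕ => x * ((1 / ((n:ℝ) + 1) - 2 * (JJ x ((3 / 2 - 2 * ((n:ℝ) + 1) : ℝ) + t * Complex.I)).re) - Dn n t)) :=
    Summable.of_norm_bounded (sum_sq21.mul_left (3 * x + 4)) (fun n => by
      rw [Real.norm_eq_abs]; exact term_diff21 hx ht n)
  have hD := (Dn_summable t).mul_left x
  have h1 : RR21 t x + x * ∑' n : ℕ, Dn n t =
      x * ∑' n : ℕ, (1 / ((n:ℝ) + 1) - 2 * (JJ x ((3 / 2 - 2 * ((n:ℝ) + 1) : ℝ) + t * Complex.I)).re) := by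
    unfold RR21
    rw [← tsum_mul_left, ← tsum_mul_left, ← hs.tsum_add hD]
    congr 1
    funext n
    ring
  rw [h1]
  unfold MT
  ring

private noncomputable def C21 : ℝ := CM + 100

private lemma C_pos21 : 0 < C21 := by
  unfold C21 CM
  positivity

private lemma MT_diff21 {x t : ℝ} (hx : 0 < x) (ht : 1 ≤ t) (hxt : Real.exp (x / 2) ≤ t ^ 2) :
    |x * MT x t - x * Real.log t| ≤ C21 * (1 + x) := by
  rcases le_total 1 x with h | h
  · have h1 := MT_bound h ht hxt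
    rw [← mul_sub, abs_mul, abs_of_pos hx]
    have h2 : CM ≤ C21 := by unfold C21; linarith
    have h3 := C_pos21
    calc x * |MT x t - Real.log t| ≤ x * C21 := by gcongr; linarith
      _ ≤ _ := by nlinarith only [h3, hx]
  · have hJ1 : |x * (JJ x ((3 / 2 - 2 : ℝ) + t * Complex.I)).re| ≤ 4 := by
      have h' := JJ_re_le hx (z_ne (a := 3/2 - 2) (by norm_num) t)
      rw [normSq_z] at h'
      have e1 : (((3 / 2 - 2 : ℝ) : ℂ) + t * Complex.I).re = -(1/2) := by simp; norm_num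
      rw [e1, abs_neg, abs_of_pos (by norm_num : (0:ℝ) < 1/2)] at h'
      rw [abs_mul, abs_of_pos hx]
      have h2 : Real.exp (-(1/2) * x) ≤ 1 := Real.exp_le_one_iff.mpr (by linarith only [hx])
      calc x * |(JJ x ((3 / 2 - 2 : ℝ) + t * Complex.I)).re|
          ≤ x * ((1 / 2 + (Real.exp (-(1/2) * x) + 1) / x) / ((3 / 2 - 2) ^ 2 + t ^ 2)) := by gcongr
        _ = (x / 2 + (Real.exp (-(1/2) * x) + 1)) / ((3 / 2 - 2) ^ 2 + t ^ 2) := by
            field_simp
        _ ≤ 4 := by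
            rw [div_le_iff₀ (by positivity)]
            nlinarith only [ht, h2, h]
    have hJ2 : |x * (JJ x ((3 / 2 - 1 : ℝ) + t * Complex.I)).re| ≤ 4 := by
      have h' := JJ_re_le hx (z_ne (a := 3/2 - 1) (by norm_num) t)
      rw [normSq_z] at h'
      have e1 : (((3 / 2 - 1 : ℝ) : ℂ) + t * Complex.I).re = 1/2 := by simp; norm_num
      rw [e1, abs_of_pos (by norm_num : (0:ℝ) < 1/2)] at h'
      rw [abs_mul, abs_of_pos hx]
      have h2 : Real.exp (1/2 * x) ≤ t ^ 2 := by rw [show 1/2 * x = x / 2 by ring]; exact hxt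
      calc x * |(JJ x ((3 / 2 - 1 : ℝ) + t * Complex.I)).re|
          ≤ x * ((1 / 2 + (Real.exp (1/2 * x) + 1) / x) / ((3 / 2 - 1) ^ 2 + t ^ 2)) := by gcongr
        _ = (x / 2 + (Real.exp (1/2 * x) + 1)) / ((3 / 2 - 1) ^ 2 + t ^ 2) := by
            field_simp
        _ ≤ 4 := by
            rw [div_le_iff₀ (by positivity)]
            nlinarith only [ht, h2, h]
    have h1 := RR_bound21 hx ht
    have h2 := Dn_sum ht
    rw [MT_eq21 hx ht]
    set A1 := x * (JJ x ((3 / 2 - 2 : ℝ) + t * Complex.I)).re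
    set A2 := x * (JJ x ((3 / 2 - 1 : ℝ) + t * Complex.I)).re
    set A3 := Real.log Real.pi + Real.eulerMascheroniConstant with hA3
    have e : 2 * A1 + 2 * A2 - x * A3 + (RR21 t x + x * ∑' n : ℕ, Dn n t) - x * Real.log t =
        2 * A1 + 2 * A2 - x * A3 + RR21 t x + x * (∑' n : ℕ, Dn n t - Real.log t) := by ring
    rw [e]
    have g1 : |x * A3| ≤ |A3| * (1 + x) := by
      rw [abs_mul, abs_of_pos hx]
      nlinarith only [hx, abs_nonneg A3]
    have g2 : |x * (∑' n : ℕ, Dn n t - Real.log t)| ≤ x * 20 := by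
      rw [abs_mul, abs_of_pos hx]
      gcongr
    have hC : C21 * (1 + x) = 160 * (1 + x) + |A3| * (1 + x) := by
      unfold C21 CM
      rw [hA3]; ring
    rw [hC]
    have k1 := abs_le.mp hJ1
    have k2 := abs_le.mp hJ2
    have k3 := abs_le.mp g1
    have k4 := abs_le.mp g2
    have k5 := abs_le.mp h1
    rw [abs_le]
    constructor <;> linarith [k1.1, k1.2, k2.1, k2.2, k3.1, k3.2, k4.1, k4.2, k5.1, k5.2]

private lemma MT_int21 {X t : ℝ} (_ : 0 < X) (ht : 1 ≤ t) (hXt : Real.exp (X / 2) ≤ t ^ 2) :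
    IntegrableOn (fun x : ℝ => x * MT x t - x * Real.log t) (Ioc 0 X) := by
  have hc : ContinuousOn (fun x : ℝ => x * MT x t - x * Real.log t) (Ioc 0 X) := by
    have h1 : ContinuousOn (fun x : ℝ => 2 * (x * (JJ x ((3 / 2 - 2 : ℝ) + t * Complex.I)).re) +
        2 * (x * (JJ x ((3 / 2 - 1 : ℝ) + t * Complex.I)).re) -
        x * (Real.log Real.pi + Real.eulerMascheroniConstant) + (RR21 t x + x * ∑' n : ℕ, Dn n t)) (Ioc 0 X) := by
      have a1 := xJJ_cont21 (X := X) (z_ne (a := 3/2 - 2) (by norm_num) t)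
      have a2 := xJJ_cont21 (X := X) (z_ne (a := 3/2 - 1) (by norm_num) t)
      exact (((continuousOn_const.mul a1).add (continuousOn_const.mul a2)).sub
        (continuousOn_id.mul continuousOn_const)).add ((RR_cont21 ht).add (continuousOn_id.mul continuousOn_const))
    have h2 : ContinuousOn (fun x : ℝ => x * MT x t) (Ioc 0 X) := h1.congr fun x hx => MT_eq21 hx.1 ht
    exact h2.sub (continuousOn_id.mul continuousOn_const)
  refine Integrable.of_bound (hc.aestronglyMeasurable measurableSet_Ioc) (C21 * (1 + X)) ?_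
  · rw [ae_restrict_iff' measurableSet_Ioc]
    refine ae_of_all _ fun x hx => ?_
    rw [Real.norm_eq_abs]
    have h3 : Real.exp (x / 2) ≤ t ^ 2 := (Real.exp_le_exp.mpr (by linarith [hx.2])).trans hXt
    refine (MT_diff21 hx.1 ht h3).trans ?_
    have := C_pos21
    have := hx.2
    gcongr

private lemma MM_diff21 {X t : ℝ} (hX : 1 ≤ X) (ht : 1 ≤ t) (hXt : Real.exp (X / 2) ≤ t ^ 2) :
    |MM X t - Real.log t / X| ≤ 4 * C21 / X := by
  have hX0 : 0 < X := by linarith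
  have hC := C_pos21
  have hI := MT_int21 hX0 ht hXt
  have hI' : IntervalIntegrable (fun x : ℝ => x * MT x t - x * Real.log t) volume 0 X := by
    rw [intervalIntegrable_iff_integrableOn_Ioc_of_le hX0.le]; exact hI
  have hL : IntervalIntegrable (fun x : ℝ => x * Real.log t) volume 0 X := by
    apply Continuous.intervalIntegrable
    fun_prop
  have h1 : ∫ x in (0:ℝ)..X, x * MT x t = (∫ x in (0:ℝ)..X, (x * MT x t - x * Real.log t)) + X ^ 2 / 2 * Real.log t := by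
    have e := intervalIntegral.integral_add hI' hL
    have e2 : ∫ x in (0:ℝ)..X, x * Real.log t = X ^ 2 / 2 * Real.log t := by
      rw [intervalIntegral.integral_mul_const, integral_id]
      ring
    rw [e2] at e
    rw [← e]
    congr 1
    funext x
    ring
  have h2 : |∫ x in (0:ℝ)..X, (x * MT x t - x * Real.log t)| ≤ C21 * (1 + X) * X := by
    have h3 := intervalIntegral.norm_integral_le_of_norm_le_const (a := 0) (b := X) (C := C21 * (1 + X))
      (f := fun x : ℝ => x * MT x t - x * Real.log t) (fun x hx => by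
        rw [uIoc_of_le hX0.le] at hx
        rw [Real.norm_eq_abs]
        have h3 : Real.exp (x / 2) ≤ t ^ 2 := (Real.exp_le_exp.mpr (by linarith [hx.2])).trans hXt
        refine (MT_diff21 hx.1 ht h3).trans ?_
        have := hx.2
        gcongr)
    rw [Real.norm_eq_abs, sub_zero, abs_of_pos hX0] at h3
    exact h3
  unfold MM
  rw [h1]
  set Q := ∫ x in (0:ℝ)..X, (x * MT x t - x * Real.log t)
  have e3 : 2 / X ^ 3 * (Q + X ^ 2 / 2 * Real.log t) - Real.log t / X = 2 / X ^ 3 * Q := by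
    field_simp
    ring
  rw [e3, abs_mul, abs_of_pos (by positivity : 0 < 2 / X ^ 3)]
  calc 2 / X ^ 3 * |Q| ≤ 2 / X ^ 3 * (C21 * (1 + X) * X) := by gcongr
    _ = 2 * C21 * (1 + X) / X ^ 2 := by field_simp
    _ ≤ 2 * C21 * (X + X) / X ^ 2 := by gcongr
    _ = 4 * C21 / X := by field_simp; ring

theorem MM_lim {θ δ K ε : ℝ} (hθ : 0 < θ) (hθ1 : θ ≤ 1) (hδ : 0 < δ) (hε : 0 < ε) :
    ∀ᶠ W : ℝ in atTop, ∀ t : ℝ, δ * W ≤ t → t ≤ K * W → |MM (θ * Real.log W) t - 1 / θ| ≤ ε := by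
  have hC := C_pos21
  set B : ℝ := |Real.log δ| + |Real.log K| with hB
  have hB0 : 0 ≤ B := by positivity
  have hlog := Real.tendsto_log_atTop
  filter_upwards [eventually_ge_atTop 1, eventually_ge_atTop (1 / δ), eventually_ge_atTop (1 / δ ^ 2),
    hlog.eventually_ge_atTop (1 / θ), hlog.eventually_ge_atTop ((4 * C21 + B) / ε / θ)] with W hW1 hW2 hW3 hL1 hL2
  intro t ht1 ht2
  have hW0 : 0 < W := by linarith
  have hδW : 1 ≤ δ * W := by
    rw [div_le_iff₀ hδ] at hW2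
    linarith
  have hδW2 : 1 ≤ δ ^ 2 * W := by
    rw [div_le_iff₀ (by positivity)] at hW3
    linarith
  have ht : 1 ≤ t := hδW.trans ht1
  have ht0 : 0 < t := by linarith
  have hL0 : 0 ≤ Real.log W := Real.log_nonneg hW1
  have hX1 : 1 ≤ θ * Real.log W := by
    rw [div_le_iff₀ hθ] at hL1
    linarith
  have hX0 : 0 < θ * Real.log W := by linarith
  have hX2 : (4 * C21 + B) / ε ≤ θ * Real.log W := by
    rw [div_le_iff₀ hθ] at hL2
    linarith
  have hXt : Real.exp (θ * Real.log W / 2) ≤ t ^ 2 := by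
    calc Real.exp (θ * Real.log W / 2) ≤ Real.exp (Real.log W) := by
          apply Real.exp_le_exp.mpr
          nlinarith
      _ = W := Real.exp_log hW0
      _ ≤ (δ * W) ^ 2 := by nlinarith
      _ ≤ t ^ 2 := by gcongr
  have hK : 0 < K := by
    by_contra h
    push Not at h
    nlinarith
  have h1 := MM_diff21 hX1 ht hXt
  have h2 : |Real.log t - Real.log W| ≤ B := by
    have a1 : Real.log δ + Real.log W ≤ Real.log t := by
      rw [← Real.log_mul hδ.ne' hW0.ne']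
      exact Real.log_le_log (by positivity) ht1
    have a2 : Real.log t ≤ Real.log K + Real.log W := by
      rw [← Real.log_mul hK.ne' hW0.ne']
      exact Real.log_le_log ht0 ht2
    have b1 := neg_abs_le (Real.log δ)
    have b2 := le_abs_self (Real.log K)
    have b3 := abs_nonneg (Real.log δ)
    have b4 := abs_nonneg (Real.log K)
    rw [abs_le]
    constructor <;> linarith
  set X := θ * Real.log W with hX
  have hLX : Real.log W / X = 1 / θ := by
    have : Real.log W ≠ 0 := by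
      intro h
      rw [hX, h, mul_zero] at hX0
      exact lt_irrefl _ hX0
    rw [hX]
    field_simp
  have h3 : |Real.log t / X - 1 / θ| ≤ B / X := by
    rw [← hLX, ← sub_div, abs_div, abs_of_pos hX0]
    gcongr
  calc |MM X t - 1 / θ| ≤ |MM X t - Real.log t / X| + |Real.log t / X - 1 / θ| := abs_sub_le _ _ _
    _ ≤ 4 * C21 / X + B / X := add_le_add h1 h3
    _ = (4 * C21 + B) / X := by ring
    _ ≤ ε := by
        rw [div_le_iff₀ hX0]
        rw [div_le_iff₀ hε] at hX2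
        linarith

end Pool.Agent.Helper54.LG
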