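import Pool.Agent.Helper54.LG.Cos
import Mathlib.NumberTheory.LSeries.PrimesInAP

/-!
# LG-PP: the prime powers are negligible

`pp X t = -(2/X) ∑_{n = p^k ≤ e^X, k ≥ 2} Λ(n)/√n (1 - log n/X)² cos (t log n)` (the primes are exactly
`PP X 0 (1/2) ∪ PP X (1/2) 1`), lemma `pp_eq33`. Second moment (`second33`): `integral_cos` for the
frequencies `log m ± log n`; the diagonal is at most `(4/X) ∑ Λ(n)/n` over the non-primes, a
convergent series; for `m ≠ n ≤ e^X` the frequency is at least `e^{-X} = W^{-θ}`, so the rest is at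
most `4 W^{2θ} exp (-W^{1-θ})`. Cauchy-Schwarz.
-/

set_option autoImplicit false
open MeasureTheory Set Filter Topology
open Pool.Agent.Helper57.Zeta Pool.Agent.Helper57.LH Pool.Agent.Helper57.ED

namespace Pool.Agent.Helper54.LG

private lemma Ab_cont33 (X α β : ℝ) : Continuous (Ab X α β) := by
  unfold Ab
  exact (continuous_finsetSum _ fun p _ => by fun_prop).neg

private lemma SS_cont33 (X : ℝ) : Continuous (SS X) := by
  unfold SS
  exact continuous_const.mul (continuous_finsetSum _ fun p _ => by fun_prop)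

theorem pp_cont (X : ℝ) : Continuous (pp X) := by
  have h1 : Continuous (a1 X) := Ab_cont33 X 0 (1 / 2)
  have h2 : Continuous (a2 X) := Ab_cont33 X (1 / 2) 1
  unfold pp
  exact (SS_cont33 X).neg.sub (h1.add h2)

/-- The coefficients. -/
private noncomputable def cf33 (X : ℝ) (n : ℕ) : ℝ :=
  2 / X * (ArithmeticFunction.vonMangoldt n / Real.sqrt n * (1 - Real.log n / X) ^ 2)

/-- The non-primes up to `e^X`. -/
private noncomputable def NP33 (X : ℝ) : Finset ℕ :=
  (Finset.Icc 2 ⌊Real.exp X⌋₊).filter fun n => ¬ n.Prime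

private lemma mem_PP33 {X α β : ℝ} {p : ℕ} :
    p ∈ PP X α β ↔ p.Prime ∧ α * X < Real.log p ∧ Real.log p ≤ β * X := by
  unfold PP
  rw [Finset.mem_filter, Finset.mem_range]
  constructor
  · exact fun h => h.2
  · intro h
    refine ⟨?_, h⟩
    rw [Nat.lt_succ_iff]
    apply Nat.le_floor
    have hp : (0 : ℝ) < p := by exact_mod_cast h.1.pos
    rw [← Real.log_le_iff_le_exp hp]
    exact h.2.2

private lemma pp_eq33 (X t : ℝ) :
    pp X t = -∑ n ∈ NP33 X, cf33 X n * Real.cos (t * Real.log n) := by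
  have hS : SS X t = ∑ n ∈ Finset.range (⌊Real.exp X⌋₊ + 1), cf33 X n * Real.cos (t * Real.log n) := by
    unfold SS cf33
    rw [Finset.mul_sum]
    exact Finset.sum_congr rfl fun n _ => by ring
  have h1 := Finset.sum_filter_add_sum_filter_not (Finset.range (⌊Real.exp X⌋₊ + 1))
    (fun n => n.Prime) (fun n => cf33 X n * Real.cos (t * Real.log n))
  have hA : (Finset.range (⌊Real.exp X⌋₊ + 1)).filter (fun n => n.Prime) =
      PP X 0 (1 / 2) ∪ PP X (1 / 2) 1 := by
    ext p
    rw [Finset.mem_union, mem_PP33, mem_PP33, Finset.mem_filter, Finset.mem_range, Nat.lt_succ_iff]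
    constructor
    · rintro ⟨h, hp⟩
      have hp0 : (0 : ℝ) < p := by exact_mod_cast hp.pos
      have hl : Real.log p ≤ X := by
        rw [Real.log_le_iff_le_exp hp0]
        exact (Nat.le_floor_iff (Real.exp_pos X).le).1 h
      have hl0 : 0 < Real.log p := Real.log_pos (by exact_mod_cast hp.one_lt)
      rcases le_or_gt (Real.log p) (1 / 2 * X) with h2 | h2
      · exact Or.inl ⟨hp, by linarith, h2⟩
      · exact Or.inr ⟨hp, h2, by linarith⟩
    · intro h
      have h2 : p.Prime ∧ Real.log p ≤ X := by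
        rcases h with h | h
        · exact ⟨h.1, by linarith [h.2.2]⟩
        · exact ⟨h.1, by linarith [h.2.2]⟩
      refine ⟨?_, h2.1⟩
      apply Nat.le_floor
      have hp : (0 : ℝ) < p := by exact_mod_cast h2.1.pos
      rw [← Real.log_le_iff_le_exp hp]
      exact h2.2
  have hd : Disjoint (PP X 0 (1 / 2)) (PP X (1 / 2) 1) := by
    rw [Finset.disjoint_left]
    intro p h1 h2
    rw [mem_PP33] at h1 h2
    linarith [h1.2.2, h2.2.1]
  have hcc : ∀ p : ℕ, p.Prime → cf33 X p = cc X p := by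
    intro p hp
    unfold cf33 cc
    rw [ArithmeticFunction.vonMangoldt_apply_prime hp]
    ring
  have hB : ∑ n ∈ (Finset.range (⌊Real.exp X⌋₊ + 1)).filter (fun n => n.Prime),
      cf33 X n * Real.cos (t * Real.log n) = -(a1 X t + a2 X t) := by
    rw [hA, Finset.sum_union hd]
    unfold a1 a2 Ab
    rw [neg_add, neg_neg, neg_neg]
    congr 1
    · exact Finset.sum_congr rfl fun p hp => by rw [hcc p (mem_PP33.1 hp).1]
    · exact Finset.sum_congr rfl fun p hp => by rw [hcc p (mem_PP33.1 hp).1]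
  have hC : ∑ n ∈ (Finset.range (⌊Real.exp X⌋₊ + 1)).filter (fun n => ¬ n.Prime),
      cf33 X n * Real.cos (t * Real.log n) = ∑ n ∈ NP33 X, cf33 X n * Real.cos (t * Real.log n) := by
    symm
    apply Finset.sum_subset
    · intro n hn
      unfold NP33 at hn
      rw [Finset.mem_filter, Finset.mem_Icc] at hn
      rw [Finset.mem_filter, Finset.mem_range, Nat.lt_succ_iff]
      exact ⟨hn.1.2, hn.2⟩
    · intro n hn hn2
      rw [Finset.mem_filter, Finset.mem_range, Nat.lt_succ_iff] at hn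
      unfold NP33 at hn2
      rw [Finset.mem_filter, Finset.mem_Icc] at hn2
      have h3 : n < 2 := by
        by_contra h4
        exact hn2 ⟨⟨not_lt.1 h4, hn.1⟩, hn.2⟩
      have h5 : ArithmeticFunction.vonMangoldt n = 0 := by
        interval_cases n
        · simp
        · simp
      unfold cf33
      rw [h5]
      ring
  unfold pp
  rw [hS, ← h1, hB, hC]
  ring

private lemma int_cos_cos33 {W : ℝ} (hW : 0 < W) (τ a b : ℝ) :
    Integrable (fun t => PW W (t - τ) * (Real.cos (t * a) * Real.cos (t * b))) ∧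
    ∫ t, PW W (t - τ) * (Real.cos (t * a) * Real.cos (t * b)) ≤
      (Real.exp (-(W * |a - b|)) + Real.exp (-(W * |a + b|))) / 2 := by
  have hP : Integrable fun t => PW W (t - τ) := (integral_PW hW).1.comp_sub_right τ
  have hi : ∀ u : ℝ, Integrable fun t => PW W (t - τ) * Real.cos (u * t) := by
    intro u
    refine Integrable.mul_bdd (c := 1) hP ?_ ?_
    · exact (by fun_prop : Continuous fun t : ℝ => Real.cos (u * t)).aestronglyMeasurable
    · exact Eventually.of_forall fun t => by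
        rw [Real.norm_eq_abs]
        exact Real.abs_cos_le_one _
  have e : (fun t => PW W (t - τ) * (Real.cos (t * a) * Real.cos (t * b))) =
      fun t => (1 / 2) * (PW W (t - τ) * Real.cos ((a - b) * t) + PW W (t - τ) * Real.cos ((a + b) * t)) := by
    funext t
    have h1 : Real.cos ((a - b) * t) = Real.cos (t * a) * Real.cos (t * b) + Real.sin (t * a) * Real.sin (t * b) := by
      rw [← Real.cos_sub]
      congr 1
      ring
    have h2 : Real.cos ((a + b) * t) = Real.cos (t * a) * Real.cos (t * b) - Real.sin (t * a) * Real.sin (t * b) := by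
      rw [← Real.cos_add]
      congr 1
      ring
    rw [h1, h2]
    ring
  rw [e]
  refine ⟨((hi _).add (hi _)).const_mul _, ?_⟩
  rw [integral_const_mul, integral_add (hi _) (hi _), integral_cos hW, integral_cos hW]
  have h3 : Real.exp (-(W * |a - b|)) * Real.cos ((a - b) * τ) ≤ Real.exp (-(W * |a - b|)) :=
    mul_le_of_le_one_right (Real.exp_pos _).le (Real.cos_le_one _)
  have h4 : Real.exp (-(W * |a + b|)) * Real.cos ((a + b) * τ) ≤ Real.exp (-(W * |a + b|)) :=
    mul_le_of_le_one_right (Real.exp_pos _).le (Real.cos_le_one _)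
  linarith

private lemma second33 {W : ℝ} (hW : 0 < W) (τ : ℝ) (S : Finset ℕ) (c l : ℕ → ℝ) {δ : ℝ}
    (hc : ∀ n ∈ S, 0 ≤ c n) (hl0 : ∀ n ∈ S, 0 ≤ l n)
    (hl : ∀ m ∈ S, ∀ n ∈ S, m ≠ n → δ ≤ |l m - l n|) :
    Integrable (fun t => PW W (t - τ) * (∑ n ∈ S, c n * Real.cos (t * l n)) ^ 2) ∧
    ∫ t, PW W (t - τ) * (∑ n ∈ S, c n * Real.cos (t * l n)) ^ 2 ≤
      ∑ n ∈ S, c n ^ 2 + (∑ n ∈ S, c n) ^ 2 * Real.exp (-(W * δ)) := by
  have e : (fun t => PW W (t - τ) * (∑ n ∈ S, c n * Real.cos (t * l n)) ^ 2) =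
      fun t => ∑ m ∈ S, ∑ n ∈ S, c m * c n *
        (PW W (t - τ) * (Real.cos (t * l m) * Real.cos (t * l n))) := by
    funext t
    rw [pow_two, Finset.sum_mul_sum, Finset.mul_sum]
    refine Finset.sum_congr rfl fun m _ => ?_
    rw [Finset.mul_sum]
    exact Finset.sum_congr rfl fun n _ => by ring
  have hi : ∀ m n : ℕ, Integrable fun t => c m * c n *
      (PW W (t - τ) * (Real.cos (t * l m) * Real.cos (t * l n))) :=
    fun m n => (int_cos_cos33 hW τ (l m) (l n)).1.const_mul _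
  rw [e]
  refine ⟨integrable_finsetSum _ fun m _ => integrable_finsetSum _ fun n _ => hi m n, ?_⟩
  rw [integral_finsetSum _ fun m _ => integrable_finsetSum _ fun n _ => hi m n]
  have hb : ∀ m ∈ S, ∫ t, ∑ n ∈ S, c m * c n *
      (PW W (t - τ) * (Real.cos (t * l m) * Real.cos (t * l n))) ≤
      c m ^ 2 + c m * (∑ n ∈ S, c n) * Real.exp (-(W * δ)) := by
    intro m hm
    rw [integral_finsetSum _ fun n _ => hi m n]
    have hb2 : ∀ n ∈ S, ∫ t, c m * c n *
        (PW W (t - τ) * (Real.cos (t * l m) * Real.cos (t * l n))) ≤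
        (if n = m then c m * c n else 0) + c m * c n * Real.exp (-(W * δ)) := by
      intro n hn
      rw [integral_const_mul]
      have h1 := (int_cos_cos33 hW τ (l m) (l n)).2
      have hcc : 0 ≤ c m * c n := mul_nonneg (hc m hm) (hc n hn)
      have h2 := mul_le_mul_of_nonneg_left h1 hcc
      refine h2.trans ?_
      have hmn : |l m - l n| ≤ |l m + l n| := by
        have h3 := hl0 m hm
        have h4 := hl0 n hn
        rw [abs_of_nonneg (add_nonneg h3 h4)]
        exact abs_le.2 ⟨by linarith, by linarith⟩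
      have h5 : Real.exp (-(W * |l m + l n|)) ≤ Real.exp (-(W * |l m - l n|)) := by
        apply Real.exp_le_exp.2
        have := mul_le_mul_of_nonneg_left hmn hW.le
        linarith
      split_ifs with h
      · have h6 : Real.exp (-(W * |l m - l n|)) ≤ 1 := by
          rw [Real.exp_le_one_iff]
          have : 0 ≤ W * |l m - l n| := by positivity
          linarith
        have h7 : 0 ≤ c m * c n * Real.exp (-(W * δ)) := mul_nonneg hcc (Real.exp_pos _).le
        have h8 : c m * c n * ((Real.exp (-(W * |l m - l n|)) + Real.exp (-(W * |l m + l n|))) / 2) ≤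
            c m * c n * 1 := mul_le_mul_of_nonneg_left (by linarith) hcc
        linarith
      · have h6 : Real.exp (-(W * |l m - l n|)) ≤ Real.exp (-(W * δ)) := by
          apply Real.exp_le_exp.2
          have := mul_le_mul_of_nonneg_left (hl m hm n hn (Ne.symm h)) hW.le
          linarith
        rw [zero_add]
        exact mul_le_mul_of_nonneg_left (by linarith) hcc
    refine (Finset.sum_le_sum hb2).trans ?_
    rw [Finset.sum_add_distrib, Finset.sum_ite_eq' S m, if_pos hm, ← Finset.sum_mul, ← Finset.mul_sum]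
    apply le_of_eq
    ring
  refine (Finset.sum_le_sum hb).trans ?_
  rw [Finset.sum_add_distrib, ← Finset.sum_mul, ← Finset.sum_mul]
  apply le_of_eq
  ring

private lemma np_mem33 {X : ℝ} {n : ℕ} (hn : n ∈ NP33 X) :
    2 ≤ n ∧ (n : ℝ) ≤ Real.exp X ∧ Real.log n ≤ X ∧ ¬ n.Prime := by
  unfold NP33 at hn
  rw [Finset.mem_filter, Finset.mem_Icc] at hn
  have h1 : (n : ℝ) ≤ Real.exp X := (Nat.le_floor_iff (Real.exp_pos X).le).1 hn.1.2
  have h0 : (0 : ℝ) < n := by
    have : 0 < n := by omega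
    exact_mod_cast this
  exact ⟨hn.1.1, h1, (Real.log_le_iff_le_exp h0).2 h1, hn.2⟩

private lemma cf_bd33 {X : ℝ} (hX : 0 < X) {n : ℕ} (hn : n ∈ NP33 X) :
    0 ≤ cf33 X n ∧ cf33 X n ≤ 2 ∧ cf33 X n ^ 2 ≤ 4 / X * (ArithmeticFunction.vonMangoldt n / n) := by
  obtain ⟨h2, -, hlX, -⟩ := np_mem33 hn
  have hn1 : (1 : ℝ) ≤ n := by
    have : 1 ≤ n := by omega
    exact_mod_cast this
  have hn0 : (0 : ℝ) < n := by linarith
  have hL0 : 0 ≤ ArithmeticFunction.vonMangoldt n := ArithmeticFunction.vonMangoldt_nonneg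
  have hL1 : ArithmeticFunction.vonMangoldt n ≤ X :=
    ArithmeticFunction.vonMangoldt_le_log.trans hlX
  have hlog : 0 ≤ Real.log n := Real.log_nonneg hn1
  have hs1 : 1 ≤ Real.sqrt n := Real.one_le_sqrt.2 hn1
  have hq0 : 0 ≤ Real.log n / X := div_nonneg hlog hX.le
  have hq1 : Real.log n / X ≤ 1 := (div_le_one hX).2 hlX
  have hw0 : 0 ≤ (1 - Real.log n / X) ^ 2 := sq_nonneg _
  have hw1 : (1 - Real.log n / X) ^ 2 ≤ 1 := by nlinarith
  have hd0 : 0 ≤ ArithmeticFunction.vonMangoldt n / Real.sqrt n := div_nonneg hL0 (by linarith)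
  have hd1 : ArithmeticFunction.vonMangoldt n / Real.sqrt n ≤ X :=
    (div_le_self hL0 hs1).trans hL1
  refine ⟨?_, ?_, ?_⟩
  · unfold cf33
    positivity
  · unfold cf33
    have h3 : ArithmeticFunction.vonMangoldt n / Real.sqrt n * (1 - Real.log n / X) ^ 2 ≤ X * 1 :=
      mul_le_mul hd1 hw1 hw0 hX.le
    calc 2 / X * (ArithmeticFunction.vonMangoldt n / Real.sqrt n * (1 - Real.log n / X) ^ 2)
        ≤ 2 / X * (X * 1) := mul_le_mul_of_nonneg_left h3 (by positivity)
      _ = 2 := by field_simp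
  · unfold cf33
    have h4 : (2 / X * (ArithmeticFunction.vonMangoldt n / Real.sqrt n * (1 - Real.log n / X) ^ 2)) ^ 2 =
        4 / X ^ 2 * (ArithmeticFunction.vonMangoldt n ^ 2 / (Real.sqrt n) ^ 2) *
          ((1 - Real.log n / X) ^ 2) ^ 2 := by ring
    rw [h4, Real.sq_sqrt hn0.le]
    have h5 : ((1 - Real.log n / X) ^ 2) ^ 2 ≤ 1 := pow_le_one₀ hw0 hw1
    have h6 : 4 / X ^ 2 * (ArithmeticFunction.vonMangoldt n ^ 2 / n) ≤
        4 / X * (ArithmeticFunction.vonMangoldt n / n) := by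
      have h7 : ArithmeticFunction.vonMangoldt n ^ 2 / n ≤ X * (ArithmeticFunction.vonMangoldt n / n) := by
        rw [pow_two, mul_div_assoc]
        exact mul_le_mul_of_nonneg_right hL1 (by positivity)
      calc 4 / X ^ 2 * (ArithmeticFunction.vonMangoldt n ^ 2 / n)
          ≤ 4 / X ^ 2 * (X * (ArithmeticFunction.vonMangoldt n / n)) :=
            mul_le_mul_of_nonneg_left h7 (by positivity)
        _ = 4 / X * (ArithmeticFunction.vonMangoldt n / n) := by
            field_simp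
    exact (mul_le_of_le_one_right (by positivity) h5).trans h6

private lemma sep33 {X : ℝ} {m n : ℕ} (hm : m ∈ NP33 X) (hn : n ∈ NP33 X) (hne : m ≠ n) :
    Real.exp (-X) ≤ |Real.log m - Real.log n| := by
  wlog h : n < m generalizing m n
  · rw [abs_sub_comm]
    exact this hn hm (Ne.symm hne) (lt_of_le_of_ne (not_lt.1 h) hne)
  obtain ⟨hm2, hmX, -, -⟩ := np_mem33 hm
  obtain ⟨hn2, -, -, -⟩ := np_mem33 hn
  have hn0 : (0 : ℝ) < n := by
    have : 0 < n := by omega
    exact_mod_cast this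
  have hm0 : (0 : ℝ) < m := by
    have : 0 < m := by omega
    exact_mod_cast this
  have h1 : (n : ℝ) + 1 ≤ m := by exact_mod_cast h
  have h2 := Real.one_sub_inv_le_log_of_pos (div_pos hm0 hn0)
  rw [inv_div, Real.log_div hm0.ne' hn0.ne'] at h2
  refine le_trans ?_ (le_abs_self _)
  refine le_trans ?_ h2
  rw [Real.exp_neg]
  have h3 : (Real.exp X)⁻¹ ≤ (m : ℝ)⁻¹ := inv_anti₀ hm0 hmX
  have h4 : (m : ℝ)⁻¹ ≤ 1 - n / m := by
    have h5 : 1 - (n : ℝ) / m = (m - n) * (m : ℝ)⁻¹ := by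
      field_simp
    rw [h5]
    have : (1 : ℝ) * (m : ℝ)⁻¹ ≤ (m - n) * (m : ℝ)⁻¹ :=
      mul_le_mul_of_nonneg_right (by linarith) (by positivity)
    linarith
  exact h3.trans h4

private lemma sum_np33 : ∃ C : ℝ, 0 ≤ C ∧ ∀ X : ℝ,
    ∑ n ∈ NP33 X, ArithmeticFunction.vonMangoldt n / (n : ℝ) ≤ C := by
  have hs := ArithmeticFunction.vonMangoldt.summable_residueClass_non_primes_div (0 : ZMod 1)
  have hr : ∀ n : ℕ, ArithmeticFunction.vonMangoldt.residueClass (0 : ZMod 1) n =
      ArithmeticFunction.vonMangoldt n := by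
    intro n
    unfold ArithmeticFunction.vonMangoldt.residueClass
    rw [Set.indicator_apply, if_pos]
    exact Subsingleton.elim _ _
  have h0 : ∀ n : ℕ, 0 ≤ (if n.Prime then 0 else
      ArithmeticFunction.vonMangoldt.residueClass (0 : ZMod 1) n) / (n : ℝ) := by
    intro n
    rw [hr n]
    split_ifs
    · simp
    · exact div_nonneg ArithmeticFunction.vonMangoldt_nonneg n.cast_nonneg
  refine ⟨∑' n : ℕ, (if n.Prime then 0 else
      ArithmeticFunction.vonMangoldt.residueClass (0 : ZMod 1) n) / (n : ℝ), tsum_nonneg h0, fun X => ?_⟩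
  refine le_trans (le_of_eq ?_) (hs.sum_le_tsum (NP33 X) fun n _ => h0 n)
  refine Finset.sum_congr rfl fun n hn => ?_
  rw [hr n, if_neg (np_mem33 hn).2.2.2]

private lemma pp_sq33 {C : ℝ} (hC : ∀ X : ℝ,
    ∑ n ∈ NP33 X, ArithmeticFunction.vonMangoldt n / (n : ℝ) ≤ C) {X W : ℝ} (hX : 0 < X)
    (hW : 0 < W) (τ : ℝ) :
    Integrable (fun t => PW W (t - τ) * pp X t ^ 2) ∧
    ∫ t, PW W (t - τ) * pp X t ^ 2 ≤
      4 * C / X + 4 * (Real.exp X ^ 2 * Real.exp (-(W * Real.exp (-X)))) := by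
  have h := second33 hW τ (NP33 X) (cf33 X) (fun n => Real.log n) (δ := Real.exp (-X))
    (fun n hn => (cf_bd33 hX hn).1)
    (fun n hn => Real.log_nonneg (by
      have := (np_mem33 hn).1
      have : 1 ≤ n := by omega
      exact_mod_cast this))
    (fun m hm n hn hmn => sep33 hm hn hmn)
  have e : ∀ t : ℝ, pp X t ^ 2 = (∑ n ∈ NP33 X, cf33 X n * Real.cos (t * Real.log n)) ^ 2 := by
    intro t
    rw [pp_eq33, neg_sq]
  simp_rw [e]
  refine ⟨h.1, h.2.trans ?_⟩
  have h1 : ∑ n ∈ NP33 X, cf33 X n ^ 2 ≤ 4 * C / X := by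
    calc ∑ n ∈ NP33 X, cf33 X n ^ 2
        ≤ ∑ n ∈ NP33 X, 4 / X * (ArithmeticFunction.vonMangoldt n / n) :=
          Finset.sum_le_sum fun n hn => (cf_bd33 hX hn).2.2
      _ = 4 / X * ∑ n ∈ NP33 X, ArithmeticFunction.vonMangoldt n / (n : ℝ) := by
          rw [Finset.mul_sum]
      _ ≤ 4 / X * C := mul_le_mul_of_nonneg_left (hC X) (by positivity)
      _ = 4 * C / X := by ring
  have h2 : ∑ n ∈ NP33 X, cf33 X n ≤ 2 * Real.exp X := by
    calc ∑ n ∈ NP33 X, cf33 X n ≤ ∑ n ∈ NP33 X, (2 : ℝ) :=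
          Finset.sum_le_sum fun n hn => (cf_bd33 hX hn).2.1
      _ = (NP33 X).card * 2 := by rw [Finset.sum_const, nsmul_eq_mul]
      _ ≤ Real.exp X * 2 := by
          apply mul_le_mul_of_nonneg_right _ (by norm_num)
          have h3 : (NP33 X).card ≤ ⌊Real.exp X⌋₊ := by
            unfold NP33
            refine (Finset.card_filter_le _ _).trans ?_
            rw [Nat.card_Icc]
            omega
          have h4 : ((NP33 X).card : ℝ) ≤ (⌊Real.exp X⌋₊ : ℝ) := by exact_mod_cast h3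
          exact h4.trans (Nat.floor_le (Real.exp_pos X).le)
      _ = 2 * Real.exp X := by ring
  have h0 : 0 ≤ ∑ n ∈ NP33 X, cf33 X n := Finset.sum_nonneg fun n hn => (cf_bd33 hX hn).1
  have h3 : (∑ n ∈ NP33 X, cf33 X n) ^ 2 ≤ (2 * Real.exp X) ^ 2 := pow_le_pow_left₀ h0 h2 2
  have h4 := mul_le_mul_of_nonneg_right h3 (Real.exp_pos (-(W * Real.exp (-X)))).le
  have h5 : (2 * Real.exp X) ^ 2 * Real.exp (-(W * Real.exp (-X))) =
      4 * (Real.exp X ^ 2 * Real.exp (-(W * Real.exp (-X)))) := by ring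
  linarith

private lemma lim33 {θ : ℝ} (hθ : 0 < θ) (hθ1 : θ < 1) :
    Tendsto (fun W : ℝ => Real.exp (θ * Real.log W) ^ 2 *
      Real.exp (-(W * Real.exp (-(θ * Real.log W))))) atTop (𝓝 0) := by
  have h1θ : 0 < 1 - θ := by linarith
  have h := (tendsto_rpow_mul_exp_neg_mul_atTop_nhds_zero (2 * θ / (1 - θ)) 1 one_pos).comp
    (tendsto_rpow_atTop h1θ)
  refine h.congr' ?_
  filter_upwards [eventually_gt_atTop 0] with W hW
  have e1 : Real.exp (θ * Real.log W) = W ^ θ := by
    rw [Real.rpow_def_of_pos hW, mul_comm]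
  have e2 : Real.exp (-(θ * Real.log W)) = W ^ (-θ) := by
    rw [Real.rpow_def_of_pos hW]
    congr 1
    ring
  have e3 : W * W ^ (-θ) = W ^ (1 - θ) := by
    rw [sub_eq_add_neg, Real.rpow_add hW, Real.rpow_one]
  have e4 : (W ^ θ) ^ 2 = (W ^ (1 - θ)) ^ (2 * θ / (1 - θ)) := by
    rw [← Real.rpow_natCast, ← Real.rpow_mul hW.le, ← Real.rpow_mul hW.le]
    congr 1
    field_simp
    push_cast
    ring
  rw [e1, e2, e3, e4]
  simp only [Function.comp_apply]
  rw [neg_one_mul]

theorem pp_mean {θ : ℝ} (hθ : 0 < θ) (hθ1 : θ < 1) {ε : ℝ} (hε : 0 < ε) :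
    ∀ᶠ W : ℝ in atTop, ∀ τ : ℝ, ∫ t, PW W (t - τ) * |pp (θ * Real.log W) t| ≤ ε := by
  obtain ⟨C, hC0, hC⟩ := sum_np33
  have hX : Tendsto (fun W : ℝ => θ * Real.log W) atTop atTop :=
    Real.tendsto_log_atTop.const_mul_atTop hθ
  have h1 : Tendsto (fun W : ℝ => 4 * C / (θ * Real.log W)) atTop (𝓝 0) :=
    hX.const_div_atTop (4 * C)
  have h2 := h1.add ((lim33 hθ hθ1).const_mul 4)
  rw [mul_zero, add_zero] at h2
  have hε2 : 0 < ε ^ 2 := by positivity
  filter_upwards [h2.eventually_lt_const hε2, hX.eventually_gt_atTop 0, eventually_gt_atTop 0]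
    with W hW1 hX0 hW0 τ
  obtain ⟨hi, hle⟩ := pp_sq33 hC hX0 hW0 τ
  have hP : Integrable fun t => PW W (t - τ) := (integral_PW hW0).1.comp_sub_right τ
  have hP1 : ∫ t, PW W (t - τ) = 1 := by
    rw [integral_sub_right_eq_self (fun t => PW W t) τ]
    exact (integral_PW hW0).2
  have hint : Integrable fun t => ε / 2 * PW W (t - τ) +
      1 / (2 * ε) * (PW W (t - τ) * pp (θ * Real.log W) t ^ 2) :=
    (hP.const_mul _).add (hi.const_mul _)
  have hpt : ∀ t, PW W (t - τ) * |pp (θ * Real.log W) t| ≤ ε / 2 * PW W (t - τ) +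
      1 / (2 * ε) * (PW W (t - τ) * pp (θ * Real.log W) t ^ 2) := by
    intro t
    have hp := PW_pos hW0 (t - τ)
    set y := pp (θ * Real.log W) t
    have h3 : |y| ≤ ε / 2 + 1 / (2 * ε) * y ^ 2 := by
      have h4 : 0 ≤ (|y| - ε) ^ 2 := sq_nonneg _
      have h5 : ε / 2 + 1 / (2 * ε) * y ^ 2 - |y| = (|y| - ε) ^ 2 / (2 * ε) := by
        field_simp
        rw [sub_sq, sq_abs]
        ring
      have h6 : 0 ≤ (|y| - ε) ^ 2 / (2 * ε) := by positivity
      linarith
    calc PW W (t - τ) * |y| ≤ PW W (t - τ) * (ε / 2 + 1 / (2 * ε) * y ^ 2) :=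
          mul_le_mul_of_nonneg_left h3 hp.le
      _ = _ := by ring
  calc ∫ t, PW W (t - τ) * |pp (θ * Real.log W) t|
      ≤ ∫ t, (ε / 2 * PW W (t - τ) +
        1 / (2 * ε) * (PW W (t - τ) * pp (θ * Real.log W) t ^ 2)) := by
        refine integral_mono_of_nonneg (Eventually.of_forall fun t =>
          mul_nonneg (PW_pos hW0 _).le (abs_nonneg _)) hint (Eventually.of_forall hpt)
    _ = ε / 2 + 1 / (2 * ε) * ∫ t, PW W (t - τ) * pp (θ * Real.log W) t ^ 2 := by
        rw [integral_add (hP.const_mul _) (hi.const_mul _), integral_const_mul, integral_const_mul,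
          hP1, mul_one]
    _ ≤ ε / 2 + 1 / (2 * ε) * ε ^ 2 := by
        have h7 : ∫ t, PW W (t - τ) * pp (θ * Real.log W) t ^ 2 ≤ ε ^ 2 := hle.trans hW1.le
        have := mul_le_mul_of_nonneg_left h7 (by positivity : 0 ≤ 1 / (2 * ε))
        linarith
    _ = ε := by
        field_simp
        ring

end Pool.Agent.Helper54.LG
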