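import Pool.Agent.Helper54.LG.Hyp
import Pool.Agent.Helper54.LG.Mu
import Pool.Agent.Helper54.LG.Mom
import Pool.Agent.Helper54.LG.Pp
import Pool.Agent.Helper54.LG.Mt
import Pool.Agent.Helper54.LG.EMean
import Pool.Agent.Helper54.LG.Deep
import Pool.Agent.Helper54.LG.Cov

/-!
# LG-FIN: the final deduction
-/

set_option autoImplicit false
open MeasureTheory Set Filter Topology
open Pool.Agent.Helper57.Zeta Pool.Agent.Helper57.LH Pool.Agent.Helper57.ED Pool.Agent.Helper57.PC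

namespace Pool.Agent.Helper54.LG

private lemma Ab_bdd54 (X α β t : ℝ) : |Ab X α β t| ≤ ∑ p ∈ PP X α β, |cc X p| := by
  unfold Ab
  rw [abs_neg]
  refine (Finset.abs_sum_le_sum_abs _ _).trans (Finset.sum_le_sum fun p _ => ?_)
  rw [abs_mul]
  exact mul_le_of_le_one_right (abs_nonneg _) (Real.abs_cos_le_one _)

private lemma Ab_cont54 (X α β : ℝ) : Continuous (Ab X α β) := by
  unfold Ab
  fun_prop

private lemma a1_cont54 (X : ℝ) : Continuous (a1 X) := Ab_cont54 X 0 (1 / 2)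

private lemma a2_cont54 (X : ℝ) : Continuous (a2 X) := Ab_cont54 X (1 / 2) 1

private lemma pp_bdd54 (X : ℝ) : ∃ C : ℝ, ∀ t, |pp X t| ≤ C := by
  refine ⟨|2 / X| * (∑ n ∈ Finset.range (⌊Real.exp X⌋₊ + 1),
    |ArithmeticFunction.vonMangoldt n / Real.sqrt n * (1 - Real.log n / X) ^ 2|) +
    (∑ p ∈ PP X 0 (1 / 2), |cc X p| + ∑ p ∈ PP X (1 / 2) 1, |cc X p|), fun t => ?_⟩
  unfold pp
  refine (abs_sub _ _).trans ?_
  rw [abs_neg]
  refine add_le_add ?_ ((abs_add_le _ _).trans (add_le_add (Ab_bdd54 X 0 (1 / 2) t)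
    (Ab_bdd54 X (1 / 2) 1 t)))
  unfold SS
  rw [abs_mul]
  refine mul_le_mul_of_nonneg_left ?_ (abs_nonneg _)
  refine (Finset.abs_sum_le_sum_abs _ _).trans (Finset.sum_le_sum fun n _ => ?_)
  rw [abs_mul]
  exact mul_le_of_le_one_right (abs_nonneg _) (Real.abs_cos_le_one _)

private lemma int_bdd54 {W : ℝ} (hW : 0 < W) (τ : ℝ) {f : ℝ → ℝ} (hf : Continuous f) {C : ℝ}
    (hC : ∀ t, |f t| ≤ C) : Integrable f (mu W τ) := by
  have := mu_prob hW τ
  exact Integrable.of_bound hf.aestronglyMeasurable C (Eventually.of_forall hC)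

private lemma ord_finite54 (a b : ℝ) :
    {g : ℝ | a ≤ g ∧ g ≤ b ∧ ∃ ρ : ℂ, IsNontrivialZero ρ ∧ ρ.im = g}.Finite := by
  have h1 := (zsym_finite (max |a| |b|)).image Complex.im
  refine h1.subset ?_
  rintro g ⟨hg1, hg2, ρ, hρ, hρg⟩
  refine ⟨ρ, ⟨isNontrivialZero_iff.1 hρ, ?_⟩, hρg⟩
  rw [hρg]
  exact abs_le_max_abs_abs hg1 hg2

private lemma sum_split54 {X A t : ℝ} (hX : 0 < X) :
    (Summable fun ρ : ZS => mx ρ * ek (za X ρ) (zb X t ρ)) ∧
    (Summable fun ρ : ZS => mx ρ * (if za X ρ < A then ek (za X ρ) (zb X t ρ) else 0)) ∧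
    (Summable fun ρ : ZS => mx ρ * (if za X ρ < A then 0 else hk (za X ρ) (zb X t ρ))) := by
  have h := summable_h hX t
  have hh : ∀ a b : ℝ, 0 ≤ hk a b := fun a b => (ek_nonneg a b).trans (ek_le_hk a b)
  refine ⟨?_, ?_, ?_⟩
  · refine Summable.of_nonneg_of_le (fun ρ => mul_nonneg (mx_nonneg _) (ek_nonneg _ _))
      (fun ρ => mul_le_mul_of_nonneg_left (ek_le_hk _ _) (mx_nonneg _)) h
  · refine Summable.of_nonneg_of_le (fun ρ => mul_nonneg (mx_nonneg _) ?_)
      (fun ρ => mul_le_mul_of_nonneg_left ?_ (mx_nonneg _)) h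
    · split_ifs
      · exact ek_nonneg _ _
      · exact le_rfl
    · split_ifs
      · exact ek_le_hk _ _
      · exact hh _ _
  · refine Summable.of_nonneg_of_le (fun ρ => mul_nonneg (mx_nonneg _) ?_)
      (fun ρ => mul_le_mul_of_nonneg_left ?_ (mx_nonneg _)) h
    · split_ifs
      · exact le_rfl
      · exact hh _ _
    · split_ifs
      · exact hh _ _
      · exact le_rfl

private lemma ek_split54 {X A t : ℝ} (hX : 0 < X) :
    1 / 2 * ∑' ρ : ZS, mx ρ * ek (za X ρ) (zb X t ρ) ≤ Ey X A t + 1 / 2 * Dy X A t := by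
  obtain ⟨h1, h2, h3⟩ := sum_split54 (A := A) (t := t) hX
  unfold Ey Dy
  rw [← mul_add, ← h2.tsum_add h3]
  refine mul_le_mul_of_nonneg_left ?_ (by norm_num)
  refine h1.tsum_le_tsum (fun ρ => ?_) (h2.add h3)
  rw [← mul_add]
  refine mul_le_mul_of_nonneg_left ?_ (mx_nonneg _)
  split_ifs
  · rw [add_zero]
  · rw [zero_add]; exact ek_le_hk _ _

private lemma Ey_nonneg54 (X A t : ℝ) : 0 ≤ Ey X A t := by
  unfold Ey
  refine mul_nonneg (by norm_num) (tsum_nonneg fun ρ => mul_nonneg (mx_nonneg _) ?_)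
  split_ifs
  · exact ek_nonneg _ _
  · exact le_rfl

/-- The pointwise inequality at a covered point. -/
private lemma good54 {θ lam κ s₀ R r A T W t : ℝ} (hθ : 0 < θ) (hlam : 0 < lam)
    (hs : κ = 1 / θ - 1 / (θ * lam) + s₀) (hs0 : 0 < s₀)
    (hR : ∀ S : Finset ℝ, (∀ x : ℝ, -R ≤ x → x + 2 * Real.pi * θ * lam ≤ R →
      ∃ s ∈ S, x ≤ s ∧ s ≤ x + 2 * Real.pi * θ * lam) →
      1 / (θ * lam) - s₀ / 4 ≤ ∑ s ∈ S, qk 0 s)
    (hlW : 0 < Real.log W) (hlT : Real.log W ≤ Real.log T)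
    (hRr : R / (θ * Real.log W) ≤ r / Real.log T) (ht0 : 0 ≤ t) (htT : t ≤ T)
    (hu : t ∉ uncov lam r T) (hMM : |MM (θ * Real.log W) t - 1 / θ| ≤ s₀ / 4)
    (hDy : Dy (θ * Real.log W) A t ≤ s₀ / 2) :
    max 0 (-κ - a1 (θ * Real.log W) t - a2 (θ * Real.log W) t) ≤
      |pp (θ * Real.log W) t| + Ey (θ * Real.log W) A t := by
  set X := θ * Real.log W with hXd
  have hX : 0 < X := mul_pos hθ hlW
  have hpi := Real.pi_pos
  have hG0 : 0 < 2 * Real.pi * θ * lam := by positivity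
  have hlT0 : 0 < Real.log T := lt_of_lt_of_le hlW hlT
  set F := (ord_finite54 (t - R / X) (t + R / X)).toFinset with hF
  have hFm : ∀ g, g ∈ F ↔ t - R / X ≤ g ∧ g ≤ t + R / X ∧
      ∃ ρ : ℂ, IsNontrivialZero ρ ∧ ρ.im = g := by
    intro g
    rw [hF, Set.Finite.mem_toFinset]
    rfl
  have hinj : Set.InjOn (fun g : ℝ => X * (t - g)) F := by
    intro g _ g' _ h
    have h2 : t - g = t - g' := mul_left_cancel₀ hX.ne' h
    linarith
  have h1 := hR (F.image fun g => X * (t - g)) (by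
    intro x hx1 hx2
    have hgX : lam * (2 * Real.pi / Real.log T) ≤ 2 * Real.pi * θ * lam / X := by
      rw [hXd, show 2 * Real.pi * θ * lam / (θ * Real.log W) = lam * (2 * Real.pi / Real.log W) by
        field_simp]
      gcongr
    by_contra hno
    push Not at hno
    apply hu
    refine ⟨ht0, htT, t - (x + 2 * Real.pi * θ * lam) / X, ?_, ?_, ?_⟩
    · have : (x + 2 * Real.pi * θ * lam) / X ≤ R / X := by gcongr
      linarith
    · have e1 : (x + 2 * Real.pi * θ * lam) / X = x / X + 2 * Real.pi * θ * lam / X := by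
        rw [add_div]
      have e2 : -(R / X) ≤ x / X := by
        rw [← neg_div]
        gcongr
      rw [e1]
      linarith
    · rintro ρ hρ ⟨hρ1, hρ2⟩
      have e1 : (x + 2 * Real.pi * θ * lam) / X = x / X + 2 * Real.pi * θ * lam / X := by
        rw [add_div]
      have b1 : ρ.im ≤ t - x / X := by rw [e1] at hρ2; linarith
      have c1 : x ≤ X * (t - ρ.im) := by
        have h3 : x / X ≤ t - ρ.im := by linarith
        rw [div_le_iff₀ hX] at h3
        linarith
      have c2 : X * (t - ρ.im) ≤ x + 2 * Real.pi * θ * lam := by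
        have h3 : t - ρ.im ≤ (x + 2 * Real.pi * θ * lam) / X := by linarith
        rw [le_div_iff₀ hX] at h3
        linarith
      have hm : X * (t - ρ.im) ∈ F.image fun g => X * (t - g) := by
        rw [Finset.mem_image]
        refine ⟨ρ.im, (hFm _).2 ⟨?_, ?_, ρ, hρ, rfl⟩, rfl⟩
        · have h3 : t - ρ.im ≤ R / X := by
            rw [le_div_iff₀ hX]; linarith
          linarith
        · have h3 : -R / X ≤ t - ρ.im := by
            rw [div_le_iff₀ hX]; linarith
          rw [neg_div] at h3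
          linarith
      exact absurd c2 (not_le.2 (hno _ hm c1)))
  rw [Finset.sum_image hinj] at h1
  have h2 := pointwise hX t F (by
    intro g hg
    obtain ⟨_, _, ρ, hρ, hρg⟩ := (hFm g).1 hg
    exact ⟨⟨ρ, isNontrivialZero_iff.1 hρ⟩, hρg⟩)
  have h3 := ek_split54 (A := A) (t := t) hX
  have h4 : -SS X t = pp X t + (a1 X t + a2 X t) := by unfold pp; ring
  have h5 := (abs_le.1 hMM).2
  have h6 := le_abs_self (pp X t)
  apply max_le
  · exact add_nonneg (abs_nonneg _) (Ey_nonneg54 _ _ _)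
  · linarith

private lemma gm_two54 (v : ℝ) : gm 2 v = v := by
  unfold gm
  norm_num [Nat.factorial]

private lemma gm_zero54 (v : ℝ) : gm 0 v = 1 := by
  unfold gm
  norm_num [Nat.factorial]

theorem large_gaps {θ lam κ e : ℝ} (hθ : 0 < θ) (hθ1 : θ < 1 / 2) (hlam : 1 < lam)
    (hC1 : C1 θ lam) (hC2 : C2 θ e) (hC3 : C3 κ e) (hκ : 1 / θ - 1 / (θ * lam) < κ)
    (hD : DeepDens) :
    ∃ c : ℝ, 0 < c ∧ ∀ᶠ T : ℝ in atTop, c * (T * Real.log T) ≤ ((gapSet lam T).ncard : ℝ) := by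
  obtain ⟨co, hco0, hcoP, hcoE⟩ := hC3
  obtain ⟨Gs, hGs⟩ : ∃ Gs, Gs = ∑ i ∈ Finset.range 9, ∑ j ∈ Finset.range 5,
    co i j * gm i v1 * gm j v2 := ⟨_, rfl⟩
  rw [← hGs] at hcoE
  obtain ⟨η, hη⟩ : ∃ η, η = Gs - e := ⟨_, rfl⟩
  have hη0 : 0 < η := by linarith
  obtain ⟨s₀, hs₀⟩ : ∃ s₀, s₀ = κ - (1 / θ - 1 / (θ * lam)) := ⟨_, rfl⟩
  have hs0 : 0 < s₀ := by linarith
  have hs : κ = 1 / θ - 1 / (θ * lam) + s₀ := by linarith
  have hlam0 : 0 < lam := by linarith
  have hpi := Real.pi_pos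
  have hκ0 : 0 ≤ κ := by
    have : 1 / (θ * lam) ≤ 1 / θ := by
      apply one_div_le_one_div_of_le hθ
      nlinarith
    linarith
  obtain ⟨R, hR0, hR⟩ := hC1 (s₀ / 4) (by linarith)
  obtain ⟨Vb, hVb⟩ : ∃ Vb : ℝ, Vb = v1 + v2 + 1 := ⟨_, rfl⟩
  have hVb0 : 0 < Vb := by rw [hVb]; unfold v1 v2; norm_num
  obtain ⟨s, hsd⟩ : ∃ s, s = η / (8 * Vb) := ⟨_, rfl⟩
  have hsp : 0 < s := by rw [hsd]; positivity
  have hsV : s * Vb = η / 8 := by rw [hsd]; field_simp
  obtain ⟨β, hβ⟩ : ∃ β, β = s * η / 4 := ⟨_, rfl⟩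
  have hβ0 : 0 < β := by rw [hβ]; positivity
  obtain ⟨K, hK⟩ : ∃ K, K = 8 / (Real.pi * (β / 4)) + 1 := ⟨_, rfl⟩
  have hK1 : 1 ≤ K := by
    rw [hK]
    have : 0 ≤ 8 / (Real.pi * (β / 4)) := by positivity
    linarith
  have hK0 : 0 < K := by linarith
  have hKβ : 8 / (Real.pi * K) ≤ β / 4 := by
    rw [div_le_iff₀ (by positivity)]
    have h1 : 8 / (Real.pi * (β / 4)) ≤ K := by rw [hK]; linarith
    rw [div_le_iff₀ (by positivity)] at h1
    linarith
  obtain ⟨A, hA0, hA⟩ := Dy_small (θ := θ) (K := K) (δ := s₀ / 2) (ε := β / 4) hθ hθ1 hK0.le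
    (by linarith) (by linarith) (fun e he => hD K e hK0.le he)
  obtain ⟨n, c, a, hc, ha, hell, hce⟩ := hC2 A hA0
  have hEy := Ey_mean (θ := θ) (A := A) (K := K) (ε := η / 8) hθ hθ1 hA0 hK0.le (by linarith)
    hc ha hell
  have hpp := pp_mean (θ := θ) hθ (by linarith) (ε := η / 8) (by linarith)
  have hMM := MM_lim (θ := θ) (δ := K / 4) (K := K) (ε := s₀ / 4) hθ (by linarith) (by linarith)
    (by linarith)
  obtain ⟨cs, hcs⟩ : ∃ cs : ℝ, cs = 1 + ∑ i ∈ Finset.range 9, ∑ j ∈ Finset.range 5, |co i j| :=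
    ⟨_, rfl⟩
  have hcs0 : 0 < cs := by
    rw [hcs]
    have : 0 ≤ ∑ i ∈ Finset.range 9, ∑ j ∈ Finset.range 5, |co i j| :=
      Finset.sum_nonneg fun i _ => Finset.sum_nonneg fun j _ => abs_nonneg _
    linarith
  have hmom : ∀ᶠ W : ℝ in atTop, ∀ i ∈ Finset.range 9, ∀ j ∈ Finset.range 5, i + 2 * j ≤ 8 →
      ∀ τ : ℝ, |(∫ t, PW W (t - τ) * (a1 (θ * Real.log W) t ^ i * a2 (θ * Real.log W) t ^ j)) -
        gm i v1 * gm j v2| ≤ η / (8 * cs) := by
    rw [Filter.eventually_all_finset]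
    intro i _
    rw [Filter.eventually_all_finset]
    intro j _
    by_cases hij : i + 2 * j ≤ 8
    · have h1 : θ * ((i : ℝ) / 2 + j) < 2 := by
        have h2 : ((i : ℝ) / 2 + j) ≤ 4 := by
          have h3 : ((i + 2 * j : ℕ) : ℝ) ≤ 8 := by exact_mod_cast hij
          push_cast at h3
          linarith
        have h3 : 0 ≤ (i : ℝ) / 2 + j := by positivity
        nlinarith
      filter_upwards [moments hθ i j h1 (ε := η / (8 * cs)) (by positivity)] with W hW _ τ
      exact hW τ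
    · filter_upwards with W h
      exact absurd h hij
  have hm20 := moments hθ 2 0 (by push_cast; linarith) (ε := 1 / 2) (by norm_num)
  have hm02 := moments hθ 0 2 (by push_cast; linarith) (ε := 1 / 2) (by norm_num)
  obtain ⟨r, hr⟩ : ∃ r, r = 2 * R / θ := ⟨_, rfl⟩
  have hr0 : 0 < r := by rw [hr]; positivity
  obtain ⟨εu, hεu⟩ : ∃ εu, εu = Real.pi * β / (4 * K) := ⟨_, rfl⟩
  have hεu0 : 0 < εu := by rw [hεu]; positivity
  obtain ⟨c₀, hc₀, hcov⟩ := cov hlam0 hr0 hεu0
  refine ⟨c₀, hc₀, ?_⟩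
  have hWT : Tendsto (fun T : ℝ => T / K) atTop atTop := tendsto_id.atTop_div_const hK0
  have hlog := Real.tendsto_log_atTop
  filter_upwards [hcov, hWT.eventually hA, hWT.eventually hEy, hWT.eventually hpp,
    hWT.eventually hMM, hWT.eventually hmom, hWT.eventually hm20, hWT.eventually hm02,
    eventually_gt_atTop 0, (hlog.comp hWT).eventually_gt_atTop 0,
    hlog.eventually_ge_atTop (2 * Real.log K)] with T hT hA hEy hpp hMM hmom hm20 hm02 hT0
      hlW hlT2
  by_contra hlt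
  push Not at hlt
  obtain ⟨W, hW⟩ : ∃ W, W = T / K := ⟨_, rfl⟩
  rw [← hW] at hA hEy hpp hMM hmom hm20 hm02
  have hlW' : 0 < Real.log W := by rw [hW]; exact hlW
  have hW0 : 0 < W := by rw [hW]; positivity
  have hTW : T = K * W := by rw [hW]; field_simp
  obtain ⟨τ, hτ⟩ : ∃ τ, τ = T / 2 := ⟨_, rfl⟩
  have hτK : |τ| ≤ K * W := by
    rw [hτ, abs_of_pos (by positivity), ← hTW]; linarith
  have hu := hT hlt.le
  obtain ⟨hEi, hEm⟩ := hEy τ hτK
  have hppm := hpp τ
  have hDm := hA τ hτK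
  obtain ⟨X, hX⟩ : ∃ X, X = θ * Real.log W := ⟨_, rfl⟩
  rw [← hX] at hEi hEm hppm hDm hMM hmom hm20 hm02
  have hlWT : Real.log W ≤ Real.log T := by
    apply Real.log_le_log hW0
    rw [hTW]; nlinarith
  have hlWT2 : Real.log T ≤ 2 * Real.log W := by
    have h1 : Real.log W = Real.log T - Real.log K := by
      rw [hW, Real.log_div hT0.ne' hK0.ne']
    linarith
  have hRr : R / (θ * Real.log W) ≤ r / Real.log T := by
    have hlT0 : 0 < Real.log T := lt_of_lt_of_le hlW' hlWT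
    rw [hr, div_le_div_iff₀ (by positivity) hlT0]
    have h1 : 2 * R / θ * (θ * Real.log W) = R * (2 * Real.log W) := by
      field_simp
    rw [h1]
    exact mul_le_mul_of_nonneg_left hlWT2 hR0.le
  have := mu_prob hW0 τ
  -- the bad set
  obtain ⟨bad, hbad⟩ : ∃ bad : Set ℝ, bad = {t | T / 4 ≤ |t - τ|} ∪
    (uncov lam r T ∪ {t | s₀ / 2 < Dy X A t}) := ⟨_, rfl⟩
  have hbm : mu W τ bad ≤ ENNReal.ofReal (3 * β / 4) := by
    have b1 : mu W τ {t | T / 4 ≤ |t - τ|} ≤ ENNReal.ofReal (β / 4) := by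
      refine (mu_tail hW0 (by positivity) τ).trans (ENNReal.ofReal_le_ofReal ?_)
      have : 2 * W / (Real.pi * (T / 4)) = 8 / (Real.pi * K) := by
        rw [hTW]; field_simp; norm_num
      rw [this]; exact hKβ
    have b2 : mu W τ (uncov lam r T) ≤ ENNReal.ofReal (β / 4) := by
      refine (mu_le hW0 τ _).trans ?_
      calc ENNReal.ofReal (1 / (Real.pi * W)) * volume (uncov lam r T)
          ≤ ENNReal.ofReal (1 / (Real.pi * W)) * ENNReal.ofReal (εu * T) := by gcongr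
        _ = ENNReal.ofReal (β / 4) := by
          rw [← ENNReal.ofReal_mul (by positivity)]
          congr 1
          rw [hεu, hTW]
          field_simp
    rw [hbad]
    refine (measure_union_le _ _).trans ?_
    refine (add_le_add b1 ((measure_union_le _ _).trans (add_le_add b2 hDm))).trans (le_of_eq ?_)
    rw [← ENNReal.ofReal_add (by positivity) (by positivity),
      ← ENNReal.ofReal_add (by positivity) (by positivity)]
    congr 1
    ring
  obtain ⟨B, hB⟩ : ∃ B : Set ℝ, B = toMeasurable (mu W τ) bad := ⟨_, rfl⟩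
  have hBme : MeasurableSet B := by rw [hB]; exact measurableSet_toMeasurable _ _
  have hBsub : bad ⊆ B := by rw [hB]; exact subset_toMeasurable _ _
  have hBmu : (mu W τ).real B ≤ 3 * β / 4 := by
    rw [hB, measureReal_def, measure_toMeasurable]
    exact ENNReal.toReal_le_of_le_ofReal (by positivity) hbm
  -- pointwise
  have hpt : ∀ t : ℝ, ∑ i ∈ Finset.range 9, ∑ j ∈ Finset.range 5, co i j * a1 X t ^ i * a2 X t ^ j ≤
      |pp X t| + Ey X A t + s * (a1 X t ^ 2 + a2 X t ^ 2) + B.indicator (fun _ => 1 / (2 * s)) t := by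
    intro t
    refine (hcoP _ _).trans ?_
    have e0 : 0 ≤ s * (a1 X t ^ 2 + a2 X t ^ 2) := by positivity
    have e1 : 0 ≤ |pp X t| + Ey X A t := add_nonneg (abs_nonneg _) (Ey_nonneg54 _ _ _)
    by_cases ht : t ∈ B
    · rw [indicator_of_mem ht]
      have h1 : ∀ x : ℝ, |x| ≤ s * x ^ 2 + 1 / (4 * s) := by
        intro x
        have h2 : 0 ≤ s * (|x| - 1 / (2 * s)) ^ 2 := by positivity
        have h3 : s * (|x| - 1 / (2 * s)) ^ 2 = s * x ^ 2 + 1 / (4 * s) - |x| := by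
          rw [← sq_abs x]
          field_simp
          ring
        linarith
      have h4 : 1 / (2 * s) = 1 / (4 * s) + 1 / (4 * s) := by field_simp; norm_num
      have h5 := h1 (a1 X t)
      have h6 := h1 (a2 X t)
      have h7 := neg_abs_le (a1 X t)
      have h8 := neg_abs_le (a2 X t)
      apply max_le
      · positivity
      · rw [h4]; linarith
    · rw [indicator_of_notMem ht, add_zero]
      have hnb : t ∉ bad := fun h => ht (hBsub h)
      rw [hbad] at hnb
      simp only [mem_union, mem_ofPred_eq, not_or, not_le, not_lt] at hnb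
      obtain ⟨n1, n2, n3⟩ := hnb
      rw [hτ] at n1
      obtain ⟨n4, n5⟩ := abs_lt.1 n1
      have h1 := good54 (t := t) (A := A) hθ hlam0 hs hs0 hR hlW' hlWT hRr (by linarith)
        (by linarith) n2 (by
          rw [← hX]
          exact hMM t (by rw [hTW] at n4; linarith) (by rw [← hTW]; linarith)) (by
          rw [← hX]; exact n3)
      rw [← hX] at h1
      linarith
  -- integrability
  have ia1 : ∀ i j : ℕ, Integrable (fun t => a1 X t ^ i * a2 X t ^ j) (mu W τ) := by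
    intro i j
    refine int_bdd54 hW0 τ (((a1_cont54 X).pow i).mul ((a2_cont54 X).pow j))
      (C := (∑ p ∈ PP X 0 (1 / 2), |cc X p|) ^ i * (∑ p ∈ PP X (1 / 2) 1, |cc X p|) ^ j) ?_
    intro t
    rw [abs_mul, abs_pow, abs_pow]
    have h1 := Ab_bdd54 X 0 (1 / 2) t
    have h2 := Ab_bdd54 X (1 / 2) 1 t
    apply mul_le_mul (pow_le_pow_left₀ (abs_nonneg _) h1 i) (pow_le_pow_left₀ (abs_nonneg _) h2 j)
      (by positivity)
    exact pow_nonneg ((abs_nonneg _).trans h1) i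
  have ipp : Integrable (fun t => |pp X t|) (mu W τ) := by
    obtain ⟨C, hC⟩ := pp_bdd54 X
    exact int_bdd54 hW0 τ (pp_cont X).abs (C := C) fun t => by rw [abs_abs]; exact hC t
  have iE : Integrable (fun t => Ey X A t) (mu W τ) := (integrable_mu hW0 τ _).2 hEi
  have ia20 : Integrable (fun t => a1 X t ^ 2) (mu W τ) := by simpa using ia1 2 0
  have ia02 : Integrable (fun t => a2 X t ^ 2) (mu W τ) := by simpa using ia1 0 2
  have iB : Integrable (B.indicator fun _ : ℝ => 1 / (2 * s)) (mu W τ) :=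
    (integrable_const _).indicator hBme
  have iP : Integrable (fun t => ∑ i ∈ Finset.range 9, ∑ j ∈ Finset.range 5,
      co i j * a1 X t ^ i * a2 X t ^ j) (mu W τ) := by
    refine integrable_finsetSum _ fun i _ => integrable_finsetSum _ fun j _ => ?_
    simpa only [mul_assoc] using (ia1 i j).const_mul (co i j)
  have hint := integral_mono iP
    (((ipp.add iE).add ((ia20.add ia02).const_mul s)).add iB) hpt
  -- evaluation of the right side
  have r1 : ∫ t, |pp X t| ∂(mu W τ) ≤ η / 8 := by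
    rw [integral_mu hW0]; exact hppm
  have r2 : ∫ t, Ey X A t ∂(mu W τ) ≤ e + η / 8 := by
    rw [integral_mu hW0]; linarith
  have r3 : ∫ t, a1 X t ^ 2 ∂(mu W τ) ≤ v1 + 1 / 2 := by
    rw [integral_mu hW0]
    have h1 := (abs_le.1 (hm20 τ)).2
    simp only [pow_zero, mul_one, gm_two54, gm_zero54] at h1
    linarith
  have r4 : ∫ t, a2 X t ^ 2 ∂(mu W τ) ≤ v2 + 1 / 2 := by
    rw [integral_mu hW0]
    have h1 := (abs_le.1 (hm02 τ)).2
    simp only [pow_zero, one_mul, gm_two54, gm_zero54] at h1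
    linarith
  have r5 : ∫ t, B.indicator (fun _ : ℝ => 1 / (2 * s)) t ∂(mu W τ) ≤ 3 * η / 32 := by
    rw [integral_indicator_const _ hBme, smul_eq_mul]
    calc (mu W τ).real B * (1 / (2 * s)) ≤ 3 * β / 4 * (1 / (2 * s)) := by gcongr
      _ = 3 * η / 32 := by rw [hβ]; field_simp; norm_num
  have hR' : ∫ t, (|pp X t| + Ey X A t + s * (a1 X t ^ 2 + a2 X t ^ 2) +
      B.indicator (fun _ => 1 / (2 * s)) t) ∂(mu W τ) ≤ e + 15 * η / 32 := by
    have k1 : Integrable (fun t => |pp X t| + Ey X A t) (mu W τ) := ipp.add iE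
    have k2 : Integrable (fun t => s * (a1 X t ^ 2 + a2 X t ^ 2)) (mu W τ) :=
      (ia20.add ia02).const_mul s
    have k3 : Integrable (fun t => |pp X t| + Ey X A t + s * (a1 X t ^ 2 + a2 X t ^ 2))
      (mu W τ) := k1.add k2
    have k4 : Integrable (fun t => B.indicator (fun _ : ℝ => 1 / (2 * s)) t) (mu W τ) := iB
    rw [integral_add k3 k4, integral_add k1 k2, integral_add ipp iE,
      integral_const_mul, integral_add ia20 ia02]
    have h1 : s * ((∫ t, a1 X t ^ 2 ∂(mu W τ)) + ∫ t, a2 X t ^ 2 ∂(mu W τ)) ≤ s * Vb := by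
      apply mul_le_mul_of_nonneg_left _ hsp.le
      rw [hVb]; linarith
    rw [hsV] at h1
    linarith
  -- evaluation of the left side
  have hL' : Gs - η / 8 ≤ ∫ t, (∑ i ∈ Finset.range 9, ∑ j ∈ Finset.range 5,
      co i j * a1 X t ^ i * a2 X t ^ j) ∂(mu W τ) := by
    rw [integral_finsetSum _ fun i _ => integrable_finsetSum _ fun j _ => by
      simpa only [mul_assoc] using (ia1 i j).const_mul (co i j)]
    have h1 : ∀ i ∈ Finset.range 9, ∫ t, (∑ j ∈ Finset.range 5,
        co i j * a1 X t ^ i * a2 X t ^ j) ∂(mu W τ) =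
        ∑ j ∈ Finset.range 5, co i j * ∫ t, a1 X t ^ i * a2 X t ^ j ∂(mu W τ) := by
      intro i _
      rw [integral_finsetSum _ fun j _ => by
        simpa only [mul_assoc] using (ia1 i j).const_mul (co i j)]
      refine Finset.sum_congr rfl fun j _ => ?_
      rw [← integral_const_mul]
      simp only [mul_assoc]
    rw [Finset.sum_congr rfl h1]
    have h2 : Gs - ∑ i ∈ Finset.range 9, ∑ j ∈ Finset.range 5,
        co i j * ∫ t, a1 X t ^ i * a2 X t ^ j ∂(mu W τ) ≤
        ∑ i ∈ Finset.range 9, ∑ j ∈ Finset.range 5, |co i j| * (η / (8 * cs)) := by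
      rw [hGs, ← Finset.sum_sub_distrib]
      refine Finset.sum_le_sum fun i hi => ?_
      rw [← Finset.sum_sub_distrib]
      refine Finset.sum_le_sum fun j hj => ?_
      by_cases hij : i + 2 * j ≤ 8
      · have h3 := hmom i hi j hj hij τ
        rw [← integral_mu hW0] at h3
        rw [abs_sub_comm] at h3
        calc co i j * gm i v1 * gm j v2 - co i j * ∫ t, a1 X t ^ i * a2 X t ^ j ∂(mu W τ)
            = co i j * (gm i v1 * gm j v2 - ∫ t, a1 X t ^ i * a2 X t ^ j ∂(mu W τ)) := by ring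
          _ ≤ |co i j * (gm i v1 * gm j v2 - ∫ t, a1 X t ^ i * a2 X t ^ j ∂(mu W τ))| :=
            le_abs_self _
          _ = |co i j| * |gm i v1 * gm j v2 - ∫ t, a1 X t ^ i * a2 X t ^ j ∂(mu W τ)| := abs_mul _ _
          _ ≤ _ := mul_le_mul_of_nonneg_left h3 (abs_nonneg _)
      · rw [hco0 i j (by omega)]
        simp
    have h3 : ∑ i ∈ Finset.range 9, ∑ j ∈ Finset.range 5, |co i j| * (η / (8 * cs)) ≤ η / 8 := by
      simp_rw [← Finset.sum_mul]
      have h4 : (∑ i ∈ Finset.range 9, ∑ j ∈ Finset.range 5, |co i j|) ≤ cs := by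
        rw [hcs]; linarith
      calc (∑ i ∈ Finset.range 9, ∑ j ∈ Finset.range 5, |co i j|) * (η / (8 * cs))
          ≤ cs * (η / (8 * cs)) := by gcongr
        _ = η / 8 := by field_simp
    linarith
  have hfin := hL'.trans (hint.trans hR')
  linarith

end Pool.Agent.Helper54.LG
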