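import Pool.Agent.Helper54.LG.Fin
import Pool.Agent.Helper54.LG.Dens

/-!
# LG: the deep density hypothesis holds
-/

set_option autoImplicit false
open MeasureTheory Set Filter Topology
open Pool.Agent.Helper57.Zeta Pool.Agent.Helper57.LH Pool.Agent.Helper57.ED Pool.Agent.Helper57.PC

namespace Pool.Agent.Helper54.LG

theorem large_gaps' {θ lam κ e : ℝ} (hθ : 0 < θ) (hθ1 : θ < 1 / 2) (hlam : 1 < lam)
    (hC1 : C1 θ lam) (hC2 : C2 θ e) (hC3 : C3 κ e) (hκ : 1 / θ - 1 / (θ * lam) < κ) :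
    ∃ c : ℝ, 0 < c ∧ ∀ᶠ T : ℝ in atTop, c * (T * Real.log T) ≤ ((gapSet lam T).ncard : ℝ) :=
  large_gaps hθ hθ1 hlam hC1 hC2 hC3 hκ deepDens

end Pool.Agent.Helper54.LG
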