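import Pool.Agent.Helper54.LG.Def
import Pool.Agent.Helper57.M.H

/-!
# LG-LONG: long gaps are rare (from the number variance of Helper57)

`Pool.Agent.Helper57.UB.berry` (M/H.lean): for `0 < X ≤ T^{1/200}`, `∫_0^X pairCount T (-β) β dβ` is
`SN T` times (`X² (1 + O(1/L))` plus `(log L - log |ζ(1 + 1/L + 2πiX/L)|)/π²` plus `O(1)`), `L = log T`; for fixed `X`
the last bracket is `O(log (2 + X))` for large `T` (`|ζ(1+z)| ~ 1/|z|`). Let `N(t)` be the number of zeros of
`Zf T` with ordinate in `[t, t + 2πX/L]`. Then `∫_ℝ N² dt = (2π/L) ∑_{pairs} (X - |x|)_+ =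
(2π/L) ∫_0^X pairCount T (-β) β dβ` and `∫ N dt = (2π/L) X NT T`, `NT T = SN T (1 + O(1/L))` (`NL_ex` or
`NT_lower`). So `∫_0^T (N - X)² dt ≤ ∫ N² - 2X ∫_0^T N + X² T ≤ C (1 + log (2+X)) T + o(T)` (the edge loses
only `O(1)` in `t`). The set in question has `N = 0` except for `t > T - 2πX/L`, so its measure is at most
`C (1 + log (2+X)) T / X² + o(T)`. Take `R = 2πX` with `X` large.
-/

set_option autoImplicit false
open MeasureTheory Set Filter Topology
open Pool.Agent.Helper57.Zeta Pool.Agent.Helper57.LH Pool.Agent.Helper57.ED Pool.Agent.Helper57.PC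

namespace Pool.Agent.Helper54.LG

private noncomputable def ind57 (h γ t : ℝ) : ℝ := Set.indicator (Icc (γ - h) γ) (fun _ => (1:ℝ)) t

private noncomputable def NN57 (T h t : ℝ) : ℝ := ∑ ρ ∈ Zf T, (mult ρ : ℝ) * ind57 h ρ.im t

private lemma ind_meas57 (h γ : ℝ) : Measurable (ind57 h γ) := by
  unfold ind57
  exact measurable_const.indicator measurableSet_Icc

private lemma ind_nonneg57 (h γ t : ℝ) : 0 ≤ ind57 h γ t := by
  unfold ind57
  exact Set.indicator_nonneg (fun _ _ => zero_le_one) _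

private lemma ind_int57 (h γ : ℝ) : Integrable (ind57 h γ) := by
  unfold ind57
  rw [integrable_indicator_iff measurableSet_Icc]
  exact integrableOn_const (by simp)

private lemma ind_mul_eq57 (h γ γ' : ℝ) : (fun t => ind57 h γ t * ind57 h γ' t) =
    Set.indicator (Icc (max (γ - h) (γ' - h)) (min γ γ')) (fun _ => (1:ℝ)) := by
  funext t
  unfold ind57
  have e : Icc (max (γ - h) (γ' - h)) (min γ γ') = Icc (γ - h) γ ∩ Icc (γ' - h) γ' := by
    rw [Icc_inter_Icc]
  rw [e]
  by_cases h1 : t ∈ Icc (γ - h) γ <;> by_cases h2 : t ∈ Icc (γ' - h) γ' <;> simp [Set.indicator, h1, h2]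

private lemma ind_mul_int57 (h γ γ' : ℝ) : Integrable (fun t => ind57 h γ t * ind57 h γ' t) := by
  rw [ind_mul_eq57, integrable_indicator_iff measurableSet_Icc]
  exact integrableOn_const (by simp)

private lemma ind_integral57 {h : ℝ} (hh : 0 ≤ h) (γ : ℝ) : ∫ t, ind57 h γ t = h := by
  unfold ind57
  rw [integral_indicator measurableSet_Icc, setIntegral_const, Real.volume_real_Icc, smul_eq_mul, mul_one]
  rw [max_eq_left (by linarith)]
  ring

private lemma ind_mul_integral57 (h γ γ' : ℝ) : ∫ t, ind57 h γ t * ind57 h γ' t = max 0 (h - |γ - γ'|) := by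
  have e : (fun t => ind57 h γ t * ind57 h γ' t) = _ := ind_mul_eq57 h γ γ'
  rw [e, integral_indicator measurableSet_Icc, setIntegral_const, Real.volume_real_Icc, smul_eq_mul, mul_one, max_comm]
  congr 1
  rcases le_total γ γ' with hγ | hγ
  · rw [min_eq_left hγ, max_eq_right (by linarith), abs_of_nonpos (by linarith)]; ring
  · rw [min_eq_right hγ, max_eq_left (by linarith), abs_of_nonneg (by linarith)]; ring

private lemma NN_int57 (T h : ℝ) : Integrable (NN57 T h) := by
  unfold NN57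
  exact integrable_finsetSum _ fun ρ _ => (ind_int57 h ρ.im).const_mul _

private lemma NN_nonneg57 (T h t : ℝ) : 0 ≤ NN57 T h t := by
  unfold NN57
  exact Finset.sum_nonneg fun ρ _ => mul_nonneg (Nat.cast_nonneg _) (ind_nonneg57 _ _ _)

private lemma NN_meas57 (T h : ℝ) : Measurable (NN57 T h) := by
  unfold NN57
  exact Finset.measurable_sum _ fun ρ _ => (ind_meas57 h ρ.im).const_mul _

private lemma NN_integral57 (T : ℝ) {h : ℝ} (hh : 0 ≤ h) : ∫ t, NN57 T h t = h * NT T := by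
  unfold NN57
  rw [integral_finsetSum _ fun ρ _ => (ind_int57 h ρ.im).const_mul _]
  unfold NT
  rw [Finset.mul_sum]
  refine Finset.sum_congr rfl fun ρ _ => ?_
  rw [integral_const_mul, ind_integral57 hh]
  ring

private lemma NN_sq_eq57 (T h : ℝ) : (fun t => NN57 T h t ^ 2) =
    fun t => ∑ p ∈ Zf T ×ˢ Zf T, ((mult p.1 : ℝ) * (mult p.2 : ℝ)) * (ind57 h p.1.im t * ind57 h p.2.im t) := by
  funext t
  unfold NN57
  rw [pow_two, Finset.sum_mul_sum, Finset.sum_product]
  refine Finset.sum_congr rfl fun ρ _ => Finset.sum_congr rfl fun ρ' _ => by ring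

private lemma NN_sq_int57 (T h : ℝ) : Integrable (fun t => NN57 T h t ^ 2) := by
  rw [NN_sq_eq57]
  exact integrable_finsetSum _ fun p _ => (ind_mul_int57 h p.1.im p.2.im).const_mul _

private lemma NN_sq_integral57 {T X : ℝ} (hT : 1 < T) (hX : 0 < X) :
    ∫ t, NN57 T (2 * Real.pi * X / Real.log T) t ^ 2 =
      2 * Real.pi / Real.log T * WP T (Pool.Agent.Helper4.PC.Tr X) := by
  have hL : 0 < Real.log T := Real.log_pos hT
  have hpi := Real.pi_pos
  rw [NN_sq_eq57, integral_finsetSum _ fun p _ => (ind_mul_int57 _ p.1.im p.2.im).const_mul _]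
  unfold WP
  rw [Finset.mul_sum]
  refine Finset.sum_congr rfl fun p _ => ?_
  rw [integral_const_mul, ind_mul_integral57]
  have e : max 0 (2 * Real.pi * X / Real.log T - |p.1.im - p.2.im|) =
      2 * Real.pi / Real.log T * Pool.Agent.Helper4.PC.Tr X (nd T p) := by
    unfold Pool.Agent.Helper4.PC.Tr Pool.Agent.Helper4.PC.tri nd
    rw [← mul_assoc, mul_max_of_nonneg _ _ (by positivity), mul_zero]
    congr 1
    rw [abs_div, abs_div, abs_mul, abs_of_pos hX, abs_of_pos hL, abs_of_pos (by positivity : 0 < 2 * Real.pi)]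
    field_simp
  rw [e]
  ring

private lemma log_lim57 {X : ℝ} (hX : 0 < X) : ∀ᶠ T : ℝ in atTop,
    Real.log (Real.log T) - Real.log ‖riemannZeta (((1 + 1 / Real.log T : ℝ) : ℂ) +
      ((2 * Real.pi * X / Real.log T : ℝ) : ℂ) * Complex.I)‖ ≤ Real.log ‖(1 : ℂ) + 2 * Real.pi * X * Complex.I‖ + 1 := by
  have hl := Real.tendsto_log_atTop
  set w : ℂ := 1 + 2 * Real.pi * X * Complex.I with hw
  have hw0 : w ≠ 0 := by
    intro h
    have := congrArg Complex.re h
    simp [hw] at this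
  have h1 : Tendsto (fun T : ℝ => (1 : ℂ) + w / (Real.log T : ℂ)) atTop (𝓝[≠] 1) := by
    apply tendsto_nhdsWithin_iff.mpr
    constructor
    · have h2 : Tendsto (fun T : ℝ => w / (Real.log T : ℂ)) atTop (𝓝 0) := by
        rw [tendsto_zero_iff_norm_tendsto_zero]
        have h3 : Tendsto (fun T : ℝ => ‖w‖ / |Real.log T|) atTop (𝓝 0) :=
          tendsto_const_nhds.div_atTop (tendsto_abs_atTop_atTop.comp hl)
        refine h3.congr fun T => ?_
        rw [norm_div, Complex.norm_real, Real.norm_eq_abs]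
      simpa using h2.const_add 1
    · filter_upwards [hl.eventually_gt_atTop 0] with T hT
      simp only [mem_compl_iff, mem_singleton_iff, add_eq_left]
      exact div_ne_zero hw0 (by exact_mod_cast hT.ne')
  have h4 := riemannZeta_residue_one.comp h1
  have h5 := h4.norm
  rw [norm_one] at h5
  have h6 : Tendsto (fun T : ℝ => Real.log ‖((fun s => (s - 1) * riemannZeta s) ∘ fun T : ℝ => (1 : ℂ) + w / (Real.log T : ℂ)) T‖) atTop (𝓝 (Real.log 1)) :=
    (Real.continuousAt_log one_ne_zero).tendsto.comp h5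
  rw [Real.log_one] at h6
  filter_upwards [h6.eventually (lt_mem_nhds (show (-1:ℝ) < 0 by norm_num)), hl.eventually_gt_atTop 0,
    h5.eventually (lt_mem_nhds (show (1 / 2 : ℝ) < 1 by norm_num))] with T hT hL hpos
  simp only [Function.comp_apply, add_sub_cancel_left] at hT hpos
  have e1 : (((1 + 1 / Real.log T : ℝ) : ℂ) + ((2 * Real.pi * X / Real.log T : ℝ) : ℂ) * Complex.I) =
      1 + w / (Real.log T : ℂ) := by
    rw [hw]
    push_cast
    have : (Real.log T : ℂ) ≠ 0 := by exact_mod_cast hL.ne'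
    field_simp
    ring
  rw [e1]
  rw [norm_mul, norm_div, Complex.norm_real, Real.norm_of_nonneg hL.le] at hT hpos
  have hz : 0 < ‖riemannZeta (1 + w / (Real.log T : ℂ))‖ := by
    rcases (norm_nonneg (riemannZeta (1 + w / (Real.log T : ℂ)))).eq_or_lt with h | h
    · rw [← h, mul_zero] at hpos; norm_num at hpos
    · exact h
  have hwn : 0 < ‖w‖ := norm_pos_iff.mpr hw0
  rw [Real.log_mul (by positivity) hz.ne', Real.log_div hwn.ne' hL.ne'] at hT
  linarith

private lemma NN_zero57 {T h t : ℝ} (ht : T < t) : NN57 T h t = 0 := by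
  unfold NN57
  refine Finset.sum_eq_zero fun ρ hρ => ?_
  have h1 := (mem_Zf.mp hρ).2.2
  have : ind57 h ρ.im t = 0 := by
    unfold ind57
    rw [Set.indicator_of_notMem]
    rintro ⟨_, h3⟩
    linarith
  rw [this, mul_zero]

private lemma NN_lower57 {T h : ℝ} (hh : 0 ≤ h) (hh1 : h ≤ 1) (hT : 1 ≤ T) :
    h * (NT T - NT 1) ≤ ∫ t in Icc (0:ℝ) T, NN57 T h t := by
  unfold NN57
  have hint : ∀ ρ ∈ Zf T, Integrable (fun t => (mult ρ : ℝ) * ind57 h ρ.im t) (volume.restrict (Icc (0:ℝ) T)) :=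
    fun ρ _ => ((ind_int57 h ρ.im).const_mul _).integrableOn
  rw [integral_finsetSum _ hint]
  have h1 : NT T - NT 1 ≤ ∑ ρ ∈ Zf T, (mult ρ : ℝ) * (if 1 ≤ ρ.im then 1 else 0) := by
    unfold NT
    have h2 : ∑ ρ ∈ Zf T, (mult ρ : ℝ) = ∑ ρ ∈ Zf T, (mult ρ : ℝ) * (if 1 ≤ ρ.im then 1 else 0) +
        ∑ ρ ∈ Zf T, (mult ρ : ℝ) * (if 1 ≤ ρ.im then 0 else 1) := by
      rw [← Finset.sum_add_distrib]
      refine Finset.sum_congr rfl fun ρ _ => ?_
      split_ifs <;> ring
    have h3 : ∑ ρ ∈ Zf T, (mult ρ : ℝ) * (if 1 ≤ ρ.im then 0 else 1) ≤ ∑ ρ ∈ Zf 1, (mult ρ : ℝ) := by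
      have e : ∑ ρ ∈ Zf T, (mult ρ : ℝ) * (if 1 ≤ ρ.im then 0 else 1) =
          ∑ ρ ∈ (Zf T).filter (fun ρ => ¬ 1 ≤ ρ.im), (mult ρ : ℝ) := by
        rw [Finset.sum_filter]
        refine Finset.sum_congr rfl fun ρ _ => ?_
        split_ifs <;> simp
      rw [e]
      apply Finset.sum_le_sum_of_subset_of_nonneg
      · intro ρ hρ
        obtain ⟨h4, h5⟩ := Finset.mem_filter.mp hρ
        obtain ⟨h6, h7, h8⟩ := mem_Zf.mp h4
        exact mem_Zf.mpr ⟨h6, h7, (not_le.mp h5).le⟩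
      · intro _ _ _
        exact Nat.cast_nonneg _
    linarith
  calc h * (NT T - NT 1) ≤ h * ∑ ρ ∈ Zf T, (mult ρ : ℝ) * (if 1 ≤ ρ.im then 1 else 0) :=
        mul_le_mul_of_nonneg_left h1 hh
    _ = ∑ ρ ∈ Zf T, (mult ρ : ℝ) * (if 1 ≤ ρ.im then h else 0) := by
        rw [Finset.mul_sum]
        refine Finset.sum_congr rfl fun ρ _ => ?_
        split_ifs <;> ring
    _ ≤ _ := by
        refine Finset.sum_le_sum fun ρ hρ => ?_
        rw [integral_const_mul]
        apply mul_le_mul_of_nonneg_left _ (Nat.cast_nonneg _)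
        split_ifs with h4
        · obtain ⟨_, _, h8⟩ := mem_Zf.mp hρ
          have e : ∫ t in Icc (0:ℝ) T, ind57 h ρ.im t = ∫ t, ind57 h ρ.im t := by
            apply setIntegral_eq_integral_of_forall_compl_eq_zero
            intro t ht
            unfold ind57
            rw [Set.indicator_of_notMem]
            rintro ⟨h9, h10⟩
            exact ht ⟨by linarith, by linarith⟩
          rw [e, ind_integral57 hh]
        · exact setIntegral_nonneg measurableSet_Icc fun t _ => ind_nonneg57 _ _ _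

private lemma main57 : ∃ C : ℝ, 0 ≤ C ∧ ∀ X : ℝ, 1 ≤ X → ∀ᶠ T : ℝ in atTop,
    ∫ t in Icc (0:ℝ) T, (NN57 T (2 * Real.pi * X / Real.log T) t - X) ^ 2 ≤
      (C + Real.log ‖(1 : ℂ) + 2 * Real.pi * X * Complex.I‖) * T := by
  obtain ⟨C, hC, htri⟩ := Pool.Agent.Helper57.UB.tri_law
  refine ⟨C + 3, by positivity, fun X hX => ?_⟩
  have hX0 : 0 < X := by linarith
  have hpi := Real.pi_pos
  have hpi3 := Real.pi_gt_three
  have hl := Real.tendsto_log_atTop
  obtain ⟨T₀, hlow⟩ := NT_lower (1 / (4 * X ^ 2)) (by positivity)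
  have e1 : ∀ᶠ T : ℝ in atTop, X ≤ T ^ (1 / 200 : ℝ) := (tendsto_rpow_atTop (by norm_num)).eventually_ge_atTop _
  have e2 : ∀ᶠ T : ℝ in atTop, Pool.Agent.Helper4.PU.CAT * X ^ 2 ≤ Real.log T := hl.eventually_ge_atTop _
  have e3 : ∀ᶠ T : ℝ in atTop, 2 * Real.pi * X ≤ Real.log T := hl.eventually_ge_atTop _
  have e4 : ∀ᶠ T : ℝ in atTop, 2 * X * NT 1 ≤ 1 / 2 * T := by
    filter_upwards [eventually_ge_atTop (4 * X * NT 1)] with T hT
    linarith
  filter_upwards [htri, log_lim57 hX0, eventually_ge_atTop T₀, e1, e2, e3, e4, eventually_ge_atTop 3,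
    hl.eventually_gt_atTop 0] with T h1 h2 h3 h4 h5 h6 h7 h8 hL
  set L := Real.log T with hLd
  have hT0 : 0 < T := by linarith
  have hT1 : 1 < T := by linarith
  set h := 2 * Real.pi * X / L with hh
  have hh0 : 0 < h := by positivity
  have hh1 : h ≤ 1 := by rw [hh, div_le_one hL]; exact h6
  have hS : 2 * Real.pi / L * SN T = T := by
    unfold SN
    rw [← hLd]
    field_simp
  have hSN := SN_pos hT1
  set lw := Real.log ‖(1 : ℂ) + 2 * Real.pi * X * Complex.I‖ with hlw
  have hlw0 : 0 ≤ lw := by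
    apply Real.log_nonneg
    have := Complex.abs_re_le_norm ((1 : ℂ) + 2 * Real.pi * X * Complex.I)
    simp at this
    simpa using this
  have h9 := (abs_le.mp (h1 X hX0 h4)).2
  have hAT := (abs_le.mp (Pool.Agent.Helper4.PU.AT_close h8)).2
  have h10 : Pool.Agent.Helper4.PU.AT T * X ^ 2 ≤ X ^ 2 + 1 := by
    have h11 : Pool.Agent.Helper4.PU.AT T ≤ 1 + Pool.Agent.Helper4.PU.CAT / L := by linarith
    calc Pool.Agent.Helper4.PU.AT T * X ^ 2 ≤ (1 + Pool.Agent.Helper4.PU.CAT / L) * X ^ 2 := by gcongr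
      _ = X ^ 2 + (Pool.Agent.Helper4.PU.CAT * X ^ 2) / L := by ring
      _ ≤ X ^ 2 + 1 := by
        gcongr
        rw [div_le_one hL]
        exact h5
  have h12 : (Real.log L - Real.log ‖riemannZeta (((1 + 1 / L : ℝ) : ℂ) + ((2 * Real.pi * X / L : ℝ) : ℂ) * Complex.I)‖) /
      Real.pi ^ 2 ≤ lw + 1 := by
    rw [div_le_iff₀ (by positivity)]
    refine h2.trans ?_
    have : 1 ≤ Real.pi ^ 2 := by nlinarith
    nlinarith
  have h13 : WP T (Pool.Agent.Helper4.PC.Tr X) ≤ SN T * (X ^ 2 + 2 + C + lw) := by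
    have h14 : SN T * (Pool.Agent.Helper4.PU.AT T * X ^ 2 + (Real.log L - Real.log ‖riemannZeta (((1 + 1 / L : ℝ) : ℂ) +
      ((2 * Real.pi * X / L : ℝ) : ℂ) * Complex.I)‖) / Real.pi ^ 2) ≤ SN T * (X ^ 2 + 2 + lw) :=
      mul_le_mul_of_nonneg_left (by linarith) hSN.le
    have h15 : C * SN T = SN T * C := mul_comm _ _
    have h16 : SN T * (X ^ 2 + 2 + C + lw) = SN T * (X ^ 2 + 2 + lw) + SN T * C := by ring
    rw [h16]
    linarith
  have h17 : ∫ t, NN57 T h t ^ 2 ≤ T * (X ^ 2 + 2 + C + lw) := by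
    rw [hh, NN_sq_integral57 hT1 hX0, ← hLd]
    calc 2 * Real.pi / L * WP T (Pool.Agent.Helper4.PC.Tr X) ≤ 2 * Real.pi / L * (SN T * (X ^ 2 + 2 + C + lw)) :=
          mul_le_mul_of_nonneg_left h13 (by positivity)
      _ = (2 * Real.pi / L * SN T) * (X ^ 2 + 2 + C + lw) := by ring
      _ = _ := by rw [hS]
  have h18 : ∫ t in Icc (0:ℝ) T, NN57 T h t ^ 2 ≤ ∫ t, NN57 T h t ^ 2 :=
    setIntegral_le_integral (NN_sq_int57 T h) (Filter.Eventually.of_forall fun t => sq_nonneg _)
  have h19 := NN_lower57 hh0.le hh1 (by linarith : 1 ≤ T)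
  have h20 := hlow T h3
  have h21 : ∫ t in Icc (0:ℝ) T, (NN57 T h t - X) ^ 2 =
      (∫ t in Icc (0:ℝ) T, NN57 T h t ^ 2) - 2 * X * (∫ t in Icc (0:ℝ) T, NN57 T h t) + X ^ 2 * T := by
    have e : ∀ t, (NN57 T h t - X) ^ 2 = (NN57 T h t ^ 2 - 2 * X * NN57 T h t) + X ^ 2 := fun t => by ring
    simp_rw [e]
    have i1 : IntegrableOn (fun t => NN57 T h t ^ 2) (Icc (0:ℝ) T) := (NN_sq_int57 T h).integrableOn
    have i2 : IntegrableOn (fun t => 2 * X * NN57 T h t) (Icc (0:ℝ) T) := ((NN_int57 T h).const_mul _).integrableOn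
    have i3 : IntegrableOn (fun _ : ℝ => X ^ 2) (Icc (0:ℝ) T) := integrableOn_const (by simp)
    have i4 : IntegrableOn (fun t => NN57 T h t ^ 2 - 2 * X * NN57 T h t) (Icc (0:ℝ) T) := i1.sub i2
    have g1 := integral_add i4 i3
    have g2 := integral_sub i1 i2
    have g3 : ∫ t in Icc (0:ℝ) T, 2 * X * NN57 T h t = 2 * X * ∫ t in Icc (0:ℝ) T, NN57 T h t := integral_const_mul _ _
    have g4 : ∫ t in Icc (0:ℝ) T, X ^ 2 = T * X ^ 2 := by
      rw [setIntegral_const, Real.volume_real_Icc, max_eq_left (by linarith), smul_eq_mul]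
      ring
    rw [g1, g2, g3, g4]
    ring
  rw [h21]
  have h22 : 2 * X * (h * (NT T - NT 1)) ≥ 2 * X ^ 2 * T - 1 / 2 * T - 1 / 2 * T := by
    have h23 : h * NT T ≥ h * ((1 - 1 / (4 * X ^ 2)) * SN T) := by
      apply mul_le_mul_of_nonneg_left _ hh0.le
      unfold SN
      exact h20
    have h24 : h * ((1 - 1 / (4 * X ^ 2)) * SN T) = X * T * (1 - 1 / (4 * X ^ 2)) := by
      rw [hh]
      calc _ = X * (2 * Real.pi / L * SN T) * (1 - 1 / (4 * X ^ 2)) := by ring
        _ = _ := by rw [hS]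
    have h25 : 2 * X * (X * T * (1 - 1 / (4 * X ^ 2))) = 2 * X ^ 2 * T - 1 / 2 * T := by
      field_simp
      ring
    have h26 : 2 * X * (h * NT 1) ≤ 1 / 2 * T := by
      have : 2 * X * (h * NT 1) ≤ 2 * X * (1 * NT 1) := by
        have := NT_nonneg 1
        gcongr
      linarith
    have h27 : 2 * X * (h * (NT T - NT 1)) = 2 * X * (h * NT T) - 2 * X * (h * NT 1) := by ring
    rw [h27]
    have h28 : 2 * X * (h * NT T) ≥ 2 * X * (X * T * (1 - 1 / (4 * X ^ 2))) := by
      rw [← h24]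
      apply mul_le_mul_of_nonneg_left h23 (by positivity)
    linarith
  have h29 : 2 * X * (∫ t in Icc (0:ℝ) T, NN57 T h t) ≥ 2 * X * (h * (NT T - NT 1)) :=
    mul_le_mul_of_nonneg_left h19 (by positivity)
  nlinarith

theorem long_gaps {ε : ℝ} (hε : 0 < ε) : ∃ R : ℝ, 0 < R ∧ ∀ᶠ T : ℝ in atTop,
    volume {t : ℝ | 0 ≤ t ∧ t ≤ T ∧ ∀ ρ : ℂ, IsNontrivialZero ρ →
      ¬(t ≤ ρ.im ∧ ρ.im ≤ t + R / Real.log T)} ≤ ENNReal.ofReal (ε * T) := by
  obtain ⟨C, hC, hmain⟩ := main57
  have hpi := Real.pi_pos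
  have hpi3 := Real.pi_gt_three
  -- choose X
  have hlim : Tendsto (fun X : ℝ => (C + Real.log (1 + 2 * Real.pi * X)) / X ^ 2) atTop (𝓝 0) := by
    have h1 : Tendsto (fun X : ℝ => C / X ^ 2) atTop (𝓝 0) :=
      tendsto_const_nhds.div_atTop (tendsto_pow_atTop (by norm_num))
    have h2 : Tendsto (fun X : ℝ => (1 + 2 * Real.pi * X) / X ^ 2) atTop (𝓝 0) := by
      have h3 : Tendsto (fun X : ℝ => 1 / X ^ 2) atTop (𝓝 0) :=
        tendsto_const_nhds.div_atTop (tendsto_pow_atTop (by norm_num))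
      have h4 : Tendsto (fun X : ℝ => 2 * Real.pi / X) atTop (𝓝 0) := tendsto_const_nhds.div_atTop tendsto_id
      have h5 := h3.add h4
      rw [add_zero] at h5
      refine h5.congr' ?_
      filter_upwards [eventually_gt_atTop 0] with X hX
      field_simp
    have h6 : Tendsto (fun X : ℝ => C / X ^ 2 + (1 + 2 * Real.pi * X) / X ^ 2) atTop (𝓝 0) := by
      simpa using h1.add h2
    refine squeeze_zero' ?_ ?_ h6
    · filter_upwards [eventually_gt_atTop 0] with X hX
      have : 0 ≤ Real.log (1 + 2 * Real.pi * X) := Real.log_nonneg (by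
        have : 0 ≤ 2 * Real.pi * X := by positivity
        linarith)
      positivity
    · filter_upwards [eventually_gt_atTop 0] with X hX
      rw [← add_div]
      gcongr
      have := Real.log_le_sub_one_of_pos (show 0 < 1 + 2 * Real.pi * X by positivity)
      linarith
  obtain ⟨X, hXe, hX1⟩ := ((hlim.eventually (gt_mem_nhds (show (0:ℝ) < ε / 2 by linarith))).and (eventually_ge_atTop 1)).exists
  have hX0 : 0 < X := by linarith
  refine ⟨2 * Real.pi * X, by positivity, ?_⟩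
  have hl := Real.tendsto_log_atTop
  have e3 : ∀ᶠ T : ℝ in atTop, 2 * Real.pi * X ≤ Real.log T := hl.eventually_ge_atTop _
  filter_upwards [hmain X hX1, e3, eventually_ge_atTop 1, eventually_ge_atTop (2 / ε), hl.eventually_gt_atTop 0] with T hT h6 hT1 hTε hL
  set h := 2 * Real.pi * X / Real.log T with hh
  have hh0 : 0 < h := by positivity
  have hh1 : h ≤ 1 := by rw [hh, div_le_one hL]; exact h6
  have hT0 : 0 < T := by linarith
  -- the set
  set S : Set ℝ := {t | t ∈ Icc (0:ℝ) T ∧ NN57 T h t = 0} with hS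
  have hSm : MeasurableSet S := by
    apply measurableSet_Icc.inter
    exact (NN_meas57 T h) (measurableSet_singleton 0)
  have hsub : {t : ℝ | 0 ≤ t ∧ t ≤ T ∧ ∀ ρ : ℂ, IsNontrivialZero ρ → ¬(t ≤ ρ.im ∧ ρ.im ≤ t + h)} ⊆
      S ∪ Icc (T - h) T := by
    rintro t ⟨ht0, htT, ht⟩
    by_cases h1 : t ≤ T - h
    · left
      refine ⟨⟨ht0, htT⟩, ?_⟩
      unfold NN57
      refine Finset.sum_eq_zero fun ρ hρ => ?_
      have h2 := ht ρ (mem_Zf.mp hρ).1
      have : ind57 h ρ.im t = 0 := by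
        unfold ind57
        rw [Set.indicator_of_notMem]
        rintro ⟨h3, h4⟩
        exact h2 ⟨h4, by linarith⟩
      rw [this, mul_zero]
    · right
      exact ⟨(not_le.mp h1).le, htT⟩
  have hvolS : X ^ 2 * volume.real S ≤ (C + Real.log ‖(1 : ℂ) + 2 * Real.pi * X * Complex.I‖) * T := by
    refine le_trans ?_ hT
    have i1 : IntegrableOn (fun t => (NN57 T h t - X) ^ 2) (Icc (0:ℝ) T) := by
      have e : ∀ t, (NN57 T h t - X) ^ 2 = (NN57 T h t ^ 2 - 2 * X * NN57 T h t) + X ^ 2 := fun t => by ring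
      simp_rw [e]
      exact ((NN_sq_int57 T h).integrableOn.sub ((NN_int57 T h).const_mul _).integrableOn).add
        (integrableOn_const (by simp))
    calc X ^ 2 * volume.real S = ∫ t in S, (X ^ 2 : ℝ) := by
          rw [setIntegral_const, smul_eq_mul, mul_comm]
      _ = ∫ t in S, (NN57 T h t - X) ^ 2 := by
          apply setIntegral_congr_fun hSm
          intro t ht
          simp only [ht.2]
          ring
      _ ≤ ∫ t in Icc (0:ℝ) T, (NN57 T h t - X) ^ 2 := by
          apply setIntegral_mono_set i1 (Filter.Eventually.of_forall fun t => sq_nonneg _)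
          exact (show S ⊆ Icc (0:ℝ) T from fun t ht => ht.1).eventuallyLE
  have hfin : volume S ≠ ⊤ := by
    have : volume S ≤ volume (Icc (0:ℝ) T) := measure_mono fun t ht => ht.1
    refine ne_top_of_le_ne_top ?_ this
    simp
  have hnorm : Real.log ‖(1 : ℂ) + 2 * Real.pi * X * Complex.I‖ ≤ Real.log (1 + 2 * Real.pi * X) := by
    have h1 : (1:ℝ) ≤ ‖(1 : ℂ) + 2 * Real.pi * X * Complex.I‖ := by
      have := Complex.abs_re_le_norm ((1 : ℂ) + 2 * Real.pi * X * Complex.I)
      simpa using this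
    apply Real.log_le_log (by linarith)
    refine (norm_add_le _ _).trans ?_
    rw [norm_one]
    have : ‖(2 * Real.pi * X * Complex.I : ℂ)‖ = 2 * Real.pi * X := by
      rw [show (2 * Real.pi * X * Complex.I : ℂ) = ((2 * Real.pi * X : ℝ) : ℂ) * Complex.I by push_cast; ring,
        norm_mul, Complex.norm_I, mul_one, Complex.norm_real, Real.norm_of_nonneg (by positivity)]
    rw [this]
  have hvS : volume.real S ≤ ε / 2 * T := by
    have h1 : X ^ 2 * volume.real S ≤ X ^ 2 * (ε / 2 * T) := by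
      refine hvolS.trans ?_
      rw [div_lt_iff₀ (by positivity)] at hXe
      calc (C + Real.log ‖(1 : ℂ) + 2 * Real.pi * X * Complex.I‖) * T ≤ (C + Real.log (1 + 2 * Real.pi * X)) * T := by gcongr
        _ ≤ (ε / 2 * X ^ 2) * T := by gcongr
        _ = _ := by ring
    exact le_of_mul_le_mul_left h1 (by positivity)
  calc volume {t : ℝ | 0 ≤ t ∧ t ≤ T ∧ ∀ ρ : ℂ, IsNontrivialZero ρ → ¬(t ≤ ρ.im ∧ ρ.im ≤ t + h)}
      ≤ volume (S ∪ Icc (T - h) T) := measure_mono hsub
    _ ≤ volume S + volume (Icc (T - h) T) := measure_union_le _ _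
    _ ≤ ENNReal.ofReal (ε / 2 * T) + ENNReal.ofReal (ε / 2 * T) := by
        apply add_le_add
        · rw [← ENNReal.ofReal_toReal hfin]
          exact ENNReal.ofReal_le_ofReal hvS
        · rw [Real.volume_Icc]
          apply ENNReal.ofReal_le_ofReal
          have : 1 ≤ ε / 2 * T := by
            rw [div_le_iff₀ hε] at hTε
            linarith
          linarith
    _ = ENNReal.ofReal (ε * T) := by
        rw [← ENNReal.ofReal_add (by positivity) (by positivity)]
        congr 1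
        ring

end Pool.Agent.Helper54.LG
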