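import Pool.Agent.Helper54.LG.LocB

/-!
# LG-LOC: the deduction at a fixed height
-/

set_option autoImplicit false
open MeasureTheory Set Filter Topology
open Pool.Agent.Helper57.Zeta Pool.Agent.Helper57.LH Pool.Agent.Helper57.ED Pool.Agent.Helper57.PC

namespace Pool.Agent.Helper54.LG

lemma ia1L {W : ℝ} (hW0 : 0 < W) (τ X : ℝ) (i j : ℕ) :
    Integrable (fun t => a1 X t ^ i * a2 X t ^ j) (mu W τ) := by
  refine int_bdd54L hW0 τ (((a1_cont54L X).pow i).mul ((a2_cont54L X).pow j))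
    (C := (∑ p ∈ PP X 0 (1 / 2), |cc X p|) ^ i * (∑ p ∈ PP X (1 / 2) 1, |cc X p|) ^ j) ?_
  intro t
  rw [abs_mul, abs_pow, abs_pow]
  have h1 := Ab_bdd54L X 0 (1 / 2) t
  have h2 := Ab_bdd54L X (1 / 2) 1 t
  apply mul_le_mul (pow_le_pow_left₀ (abs_nonneg _) h1 i) (pow_le_pow_left₀ (abs_nonneg _) h2 j)
    (by positivity)
  exact pow_nonneg ((abs_nonneg _).trans h1) i

/-- The measure of the bad set. -/
lemma bad_measL {lam r η T K W τ β εu δ A X : ℝ} (hη0 : 0 < η) (hT0 : 0 < T) (hK0 : 0 < K)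
    (hW0 : 0 < W) (hβ0 : 0 < β) (hTW : T = K / η * W) (hKβ : 8 / (Real.pi * K) ≤ β / 4)
    (hεu : εu = Real.pi * β * η / (4 * K))
    (hu : volume (uncovL lam r η T) ≤ ENNReal.ofReal (εu * T))
    (hDm : mu W τ {t | δ < Dy X A t} ≤ ENNReal.ofReal (β / 4)) :
    mu W τ ({t | η * T / 4 ≤ |t - τ|} ∪ (uncovL lam r η T ∪ {t | δ < Dy X A t})) ≤
      ENNReal.ofReal (3 * β / 4) := by
  have hpi := Real.pi_pos
  have b1 : mu W τ {t | η * T / 4 ≤ |t - τ|} ≤ ENNReal.ofReal (β / 4) := by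
    refine (mu_tail hW0 (by positivity) τ).trans (ENNReal.ofReal_le_ofReal ?_)
    have : 2 * W / (Real.pi * (η * T / 4)) = 8 / (Real.pi * K) := by
      rw [hTW]; field_simp; norm_num
    rw [this]; exact hKβ
  have b2 : mu W τ (uncovL lam r η T) ≤ ENNReal.ofReal (β / 4) := by
    refine (mu_le hW0 τ _).trans ?_
    calc ENNReal.ofReal (1 / (Real.pi * W)) * volume (uncovL lam r η T)
        ≤ ENNReal.ofReal (1 / (Real.pi * W)) * ENNReal.ofReal (εu * T) := by gcongr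
      _ = ENNReal.ofReal (β / 4) := by
        rw [← ENNReal.ofReal_mul (by positivity)]
        congr 1
        rw [hεu, hTW]
        field_simp
  refine (measure_union_le _ _).trans ?_
  refine (add_le_add b1 ((measure_union_le _ _).trans (add_le_add b2 hDm))).trans (le_of_eq ?_)
  rw [← ENNReal.ofReal_add (by positivity) (by positivity),
    ← ENNReal.ofReal_add (by positivity) (by positivity)]
  congr 1
  ring

/-- The bound on the bad set. -/
lemma bad_ptL {κ s x y E : ℝ} (hκ0 : 0 ≤ κ) (hsp : 0 < s) (hE : 0 ≤ E) :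
    max 0 (-κ - x - y) ≤ E + s * (x ^ 2 + y ^ 2) + 1 / (2 * s) := by
  have h1 : ∀ x : ℝ, |x| ≤ s * x ^ 2 + 1 / (4 * s) := by
    intro x
    have h2 : 0 ≤ s * (|x| - 1 / (2 * s)) ^ 2 := by positivity
    have h3 : s * (|x| - 1 / (2 * s)) ^ 2 = s * x ^ 2 + 1 / (4 * s) - |x| := by
      rw [← sq_abs x]
      field_simp
      ring
    linarith
  have h4 : 1 / (2 * s) = 1 / (4 * s) + 1 / (4 * s) := by field_simp; norm_num
  have h5 := h1 x
  have h6 := h1 y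
  have h7 := neg_abs_le x
  have h8 := neg_abs_le y
  apply max_le
  · positivity
  · rw [h4]; linarith

/-- The right side of the mean inequality. -/
lemma rhsL {e ν s X A W τ Vb β : ℝ} {B : Set ℝ} (hW0 : 0 < W) (hsp : 0 < s)
    (hβ : β = s * ν / 4) (hVb : Vb = v1 + v2 + 1) (hsV : s * Vb = ν / 8)
    (hBme : MeasurableSet B) (hBmu : (mu W τ).real B ≤ 3 * β / 4)
    (ipp : Integrable (fun t => |pp X t|) (mu W τ)) (iE : Integrable (fun t => Ey X A t) (mu W τ))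
    (r1 : ∫ t, |pp X t| ∂(mu W τ) ≤ ν / 8) (r2 : ∫ t, Ey X A t ∂(mu W τ) ≤ e + ν / 8)
    (r3 : ∫ t, a1 X t ^ 2 ∂(mu W τ) ≤ v1 + 1 / 2) (r4 : ∫ t, a2 X t ^ 2 ∂(mu W τ) ≤ v2 + 1 / 2) :
    Integrable (fun t => |pp X t| + Ey X A t + s * (a1 X t ^ 2 + a2 X t ^ 2) +
      B.indicator (fun _ => 1 / (2 * s)) t) (mu W τ) ∧
    ∫ t, (|pp X t| + Ey X A t + s * (a1 X t ^ 2 + a2 X t ^ 2) +
      B.indicator (fun _ => 1 / (2 * s)) t) ∂(mu W τ) ≤ e + 15 * ν / 32 := by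
  have := mu_prob hW0 τ
  have ia20 : Integrable (fun t => a1 X t ^ 2) (mu W τ) := by simpa using ia1L hW0 τ X 2 0
  have ia02 : Integrable (fun t => a2 X t ^ 2) (mu W τ) := by simpa using ia1L hW0 τ X 0 2
  have iB : Integrable (B.indicator fun _ : ℝ => 1 / (2 * s)) (mu W τ) :=
    (integrable_const _).indicator hBme
  have r5 : ∫ t, B.indicator (fun _ : ℝ => 1 / (2 * s)) t ∂(mu W τ) ≤ 3 * ν / 32 := by
    rw [integral_indicator_const _ hBme, smul_eq_mul]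
    calc (mu W τ).real B * (1 / (2 * s)) ≤ 3 * β / 4 * (1 / (2 * s)) := by gcongr
      _ = 3 * ν / 32 := by rw [hβ]; field_simp; ring
  have k1 : Integrable (fun t => |pp X t| + Ey X A t) (mu W τ) := ipp.add iE
  have k2 : Integrable (fun t => s * (a1 X t ^ 2 + a2 X t ^ 2)) (mu W τ) :=
    (ia20.add ia02).const_mul s
  have k3 : Integrable (fun t => |pp X t| + Ey X A t + s * (a1 X t ^ 2 + a2 X t ^ 2))
    (mu W τ) := k1.add k2
  have k4 : Integrable (fun t => B.indicator (fun _ : ℝ => 1 / (2 * s)) t) (mu W τ) := iB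
  refine ⟨k3.add k4, ?_⟩
  rw [integral_add k3 k4, integral_add k1 k2, integral_add ipp iE,
    integral_const_mul, integral_add ia20 ia02]
  have h1 : s * ((∫ t, a1 X t ^ 2 ∂(mu W τ)) + ∫ t, a2 X t ^ 2 ∂(mu W τ)) ≤ s * Vb := by
    apply mul_le_mul_of_nonneg_left _ hsp.le
    rw [hVb]; linarith
  rw [hsV] at h1
  linarith

/-- The left side of the mean inequality. -/
lemma lhsL {ν X W τ cs : ℝ} {co : ℕ → ℕ → ℝ} (hW0 : 0 < W) (hν : 0 < ν)
    (hco0 : ∀ i j, 8 < i + 2 * j → co i j = 0)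
    (hcs : cs = 1 + ∑ i ∈ Finset.range 9, ∑ j ∈ Finset.range 5, |co i j|) (hcs0 : 0 < cs)
    (hmom : ∀ i ∈ Finset.range 9, ∀ j ∈ Finset.range 5, i + 2 * j ≤ 8 →
      |(∫ t, PW W (t - τ) * (a1 X t ^ i * a2 X t ^ j)) - gm i v1 * gm j v2| ≤ ν / (8 * cs)) :
    Integrable (fun t => ∑ i ∈ Finset.range 9, ∑ j ∈ Finset.range 5,
      co i j * a1 X t ^ i * a2 X t ^ j) (mu W τ) ∧
    (∑ i ∈ Finset.range 9, ∑ j ∈ Finset.range 5, co i j * gm i v1 * gm j v2) - ν / 8 ≤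
      ∫ t, (∑ i ∈ Finset.range 9, ∑ j ∈ Finset.range 5,
        co i j * a1 X t ^ i * a2 X t ^ j) ∂(mu W τ) := by
  have ia1 := ia1L hW0 τ X
  refine ⟨integrable_finsetSum _ fun i _ => integrable_finsetSum _ fun j _ => by
    simpa only [mul_assoc] using (ia1 i j).const_mul (co i j), ?_⟩
  rw [integral_finsetSum _ fun i _ => integrable_finsetSum _ fun j _ => by
    simpa only [mul_assoc] using (ia1 i j).const_mul (co i j)]
  have h1 : ∀ i ∈ Finset.range 9, ∫ t, (∑ j ∈ Finset.range 5,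
      co i j * a1 X t ^ i * a2 X t ^ j) ∂(mu W τ) =
      ∑ j ∈ Finset.range 5, co i j * ∫ t, a1 X t ^ i * a2 X t ^ j ∂(mu W τ) := by
    intro i _
    rw [integral_finsetSum _ fun j _ => by
      simpa only [mul_assoc] using (ia1 i j).const_mul (co i j)]
    refine Finset.sum_congr rfl fun j _ => ?_
    rw [← integral_const_mul]
    simp only [mul_assoc]
  rw [Finset.sum_congr rfl h1]
  have h2 : (∑ i ∈ Finset.range 9, ∑ j ∈ Finset.range 5, co i j * gm i v1 * gm j v2) -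
      ∑ i ∈ Finset.range 9, ∑ j ∈ Finset.range 5,
      co i j * ∫ t, a1 X t ^ i * a2 X t ^ j ∂(mu W τ) ≤
      ∑ i ∈ Finset.range 9, ∑ j ∈ Finset.range 5, |co i j| * (ν / (8 * cs)) := by
    rw [← Finset.sum_sub_distrib]
    refine Finset.sum_le_sum fun i hi => ?_
    rw [← Finset.sum_sub_distrib]
    refine Finset.sum_le_sum fun j hj => ?_
    by_cases hij : i + 2 * j ≤ 8
    · have h3 := hmom i hi j hj hij
      rw [← integral_mu hW0] at h3
      rw [abs_sub_comm] at h3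
      calc co i j * gm i v1 * gm j v2 - co i j * ∫ t, a1 X t ^ i * a2 X t ^ j ∂(mu W τ)
          = co i j * (gm i v1 * gm j v2 - ∫ t, a1 X t ^ i * a2 X t ^ j ∂(mu W τ)) := by ring
        _ ≤ |co i j * (gm i v1 * gm j v2 - ∫ t, a1 X t ^ i * a2 X t ^ j ∂(mu W τ))| :=
          le_abs_self _
        _ = |co i j| * |gm i v1 * gm j v2 - ∫ t, a1 X t ^ i * a2 X t ^ j ∂(mu W τ)| := abs_mul _ _
        _ ≤ _ := mul_le_mul_of_nonneg_left h3 (abs_nonneg _)
    · rw [hco0 i j (by omega)]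
      simp
  have h3 : ∑ i ∈ Finset.range 9, ∑ j ∈ Finset.range 5, |co i j| * (ν / (8 * cs)) ≤ ν / 8 := by
    simp_rw [← Finset.sum_mul]
    have h4 : (∑ i ∈ Finset.range 9, ∑ j ∈ Finset.range 5, |co i j|) ≤ cs := by
      rw [hcs]; linarith
    calc (∑ i ∈ Finset.range 9, ∑ j ∈ Finset.range 5, |co i j|) * (ν / (8 * cs))
        ≤ cs * (ν / (8 * cs)) := by gcongr
      _ = ν / 8 := by field_simp
  linarith

/-- The mean inequality. -/
lemma meanL {e ν s κ X A W τ Vb cs β : ℝ} {co : ℕ → ℕ → ℝ} {bad : Set ℝ}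
    (hW0 : 0 < W) (hν : 0 < ν) (hsp : 0 < s) (hκ0 : 0 ≤ κ)
    (hβ : β = s * ν / 4) (hVb : Vb = v1 + v2 + 1) (hsV : s * Vb = ν / 8)
    (hco0 : ∀ i j, 8 < i + 2 * j → co i j = 0)
    (hcoP : ∀ x y : ℝ, ∑ i ∈ Finset.range 9, ∑ j ∈ Finset.range 5, co i j * x ^ i * y ^ j ≤
      max 0 (-κ - x - y))
    (hcs : cs = 1 + ∑ i ∈ Finset.range 9, ∑ j ∈ Finset.range 5, |co i j|) (hcs0 : 0 < cs)
    (hbm : mu W τ bad ≤ ENNReal.ofReal (3 * β / 4))
    (hgood : ∀ t, t ∉ bad → max 0 (-κ - a1 X t - a2 X t) ≤ |pp X t| + Ey X A t)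
    (hEi : Integrable (fun t => PW W (t - τ) * Ey X A t))
    (hEm : ∫ t, PW W (t - τ) * Ey X A t ≤ e + ν / 8)
    (hppm : ∫ t, PW W (t - τ) * |pp X t| ≤ ν / 8)
    (hmom : ∀ i ∈ Finset.range 9, ∀ j ∈ Finset.range 5, i + 2 * j ≤ 8 →
      |(∫ t, PW W (t - τ) * (a1 X t ^ i * a2 X t ^ j)) - gm i v1 * gm j v2| ≤ ν / (8 * cs))
    (hm20 : |(∫ t, PW W (t - τ) * (a1 X t ^ 2 * a2 X t ^ 0)) - gm 2 v1 * gm 0 v2| ≤ 1 / 2)
    (hm02 : |(∫ t, PW W (t - τ) * (a1 X t ^ 0 * a2 X t ^ 2)) - gm 0 v1 * gm 2 v2| ≤ 1 / 2) :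
    (∑ i ∈ Finset.range 9, ∑ j ∈ Finset.range 5, co i j * gm i v1 * gm j v2) ≤
      e + 19 * ν / 32 := by
  have := mu_prob hW0 τ
  have hβ0 : 0 < β := by rw [hβ]; positivity
  obtain ⟨B, hB⟩ : ∃ B : Set ℝ, B = toMeasurable (mu W τ) bad := ⟨_, rfl⟩
  have hBme : MeasurableSet B := by rw [hB]; exact measurableSet_toMeasurable _ _
  have hBsub : bad ⊆ B := by rw [hB]; exact subset_toMeasurable _ _
  have hBmu : (mu W τ).real B ≤ 3 * β / 4 := by
    rw [hB, measureReal_def, measure_toMeasurable]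
    exact ENNReal.toReal_le_of_le_ofReal (by positivity) hbm
  have hpt : ∀ t : ℝ, ∑ i ∈ Finset.range 9, ∑ j ∈ Finset.range 5, co i j * a1 X t ^ i * a2 X t ^ j ≤
      |pp X t| + Ey X A t + s * (a1 X t ^ 2 + a2 X t ^ 2) + B.indicator (fun _ => 1 / (2 * s)) t := by
    intro t
    refine (hcoP _ _).trans ?_
    have e0 : 0 ≤ s * (a1 X t ^ 2 + a2 X t ^ 2) := by positivity
    have e1 : 0 ≤ |pp X t| + Ey X A t := add_nonneg (abs_nonneg _) (Ey_nonneg54L _ _ _)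
    by_cases ht : t ∈ B
    · rw [indicator_of_mem ht]
      exact bad_ptL hκ0 hsp e1
    · rw [indicator_of_notMem ht, add_zero]
      have h1 := hgood t fun h => ht (hBsub h)
      linarith
  have ipp : Integrable (fun t => |pp X t|) (mu W τ) := by
    obtain ⟨C, hC⟩ := pp_bdd54L X
    exact int_bdd54L hW0 τ (pp_cont X).abs (C := C) fun t => by rw [abs_abs]; exact hC t
  have iE : Integrable (fun t => Ey X A t) (mu W τ) := (integrable_mu hW0 τ _).2 hEi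
  have r1 : ∫ t, |pp X t| ∂(mu W τ) ≤ ν / 8 := by
    rw [integral_mu hW0]; exact hppm
  have r2 : ∫ t, Ey X A t ∂(mu W τ) ≤ e + ν / 8 := by
    rw [integral_mu hW0]; exact hEm
  have r3 : ∫ t, a1 X t ^ 2 ∂(mu W τ) ≤ v1 + 1 / 2 := by
    rw [integral_mu hW0]
    have h1 := (abs_le.1 hm20).2
    simp only [pow_zero, mul_one, gm_two54L, gm_zero54L] at h1
    linarith
  have r4 : ∫ t, a2 X t ^ 2 ∂(mu W τ) ≤ v2 + 1 / 2 := by
    rw [integral_mu hW0]
    have h1 := (abs_le.1 hm02).2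
    simp only [pow_zero, one_mul, gm_two54L, gm_zero54L] at h1
    linarith
  obtain ⟨iR, hR'⟩ := rhsL hW0 hsp hβ hVb hsV hBme hBmu ipp iE r1 r2 r3 r4
  obtain ⟨iL, hL'⟩ := lhsL hW0 hν hco0 hcs hcs0 hmom
  have hint := integral_mono iL iR hpt
  linarith

end Pool.Agent.Helper54.LG
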