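import Pool.Agent.Helper54.LG.Hyp
import Pool.Agent.Helper54.LG.LocA
import Pool.Agent.Helper54.LG.LocC
import Pool.Agent.Helper54.LG.Mom
import Pool.Agent.Helper54.LG.Mt
import Pool.Agent.Helper54.LG.EMean
import Pool.Agent.Helper54.LG.Deep
import Pool.Agent.Helper54.LG.Dens

/-!
# LG-LOC: large gaps in `[T, (1+η)T]`
-/

set_option autoImplicit false
open MeasureTheory Set Filter Topology
open Pool.Agent.Helper57.Zeta Pool.Agent.Helper57.LH Pool.Agent.Helper57.ED Pool.Agent.Helper57.PC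

namespace Pool.Agent.Helper54.LG

/-- A positive proportion of large gaps in `[T, (1+η)T]`. -/
theorem large_gapsL {θ lam κ e η : ℝ} (hθ : 0 < θ) (hθ1 : θ < 1 / 2) (hlam : 1 < lam)
    (hC1 : C1 θ lam) (hC2 : C2 θ e) (hC3 : C3 κ e) (hκ : 1 / θ - 1 / (θ * lam) < κ)
    (hD : DeepDens) (hη0 : 0 < η) (hη1 : η ≤ 1) :
    ∃ c : ℝ, 0 < c ∧ ∀ᶠ T : ℝ in atTop, c * (T * Real.log T) ≤ ((gapL lam η T).ncard : ℝ) := by
  obtain ⟨co, hco0, hcoP, hcoE⟩ := hC3
  obtain ⟨Gs, hGs⟩ : ∃ Gs, Gs = ∑ i ∈ Finset.range 9, ∑ j ∈ Finset.range 5,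
    co i j * gm i v1 * gm j v2 := ⟨_, rfl⟩
  rw [← hGs] at hcoE
  obtain ⟨ν, hnu⟩ : ∃ ν, ν = Gs - e := ⟨_, rfl⟩
  have hnu0 : 0 < ν := by linarith
  obtain ⟨s₀, hs₀⟩ : ∃ s₀, s₀ = κ - (1 / θ - 1 / (θ * lam)) := ⟨_, rfl⟩
  have hs0 : 0 < s₀ := by linarith
  have hs : κ = 1 / θ - 1 / (θ * lam) + s₀ := by linarith
  have hlam0 : 0 < lam := by linarith
  have hpi := Real.pi_pos
  have hκ0 : 0 ≤ κ := by
    have : 1 / (θ * lam) ≤ 1 / θ := by
      exact one_div_le_one_div_of_le hθ (le_mul_of_one_le_right hθ.le hlam.le)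
    linarith
  obtain ⟨R, hR0, hR⟩ := hC1 (s₀ / 4) (by linarith)
  obtain ⟨Vb, hVb⟩ : ∃ Vb : ℝ, Vb = v1 + v2 + 1 := ⟨_, rfl⟩
  have hVb0 : 0 < Vb := by rw [hVb]; unfold v1 v2; norm_num
  obtain ⟨s, hsd⟩ : ∃ s, s = ν / (8 * Vb) := ⟨_, rfl⟩
  have hsp : 0 < s := by rw [hsd]; positivity
  have hsV : s * Vb = ν / 8 := by rw [hsd]; field_simp
  obtain ⟨β, hβ⟩ : ∃ β, β = s * ν / 4 := ⟨_, rfl⟩
  have hβ0 : 0 < β := by rw [hβ]; positivity
  obtain ⟨K, hK⟩ : ∃ K, K = 8 / (Real.pi * (β / 4)) + 1 := ⟨_, rfl⟩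
  have hK1 : 1 ≤ K := by
    rw [hK]
    have : 0 ≤ 8 / (Real.pi * (β / 4)) := by positivity
    linarith
  have hK0 : 0 < K := by linarith
  have hKβ : 8 / (Real.pi * K) ≤ β / 4 := by
    rw [div_le_iff₀ (by positivity)]
    have h1 : 8 / (Real.pi * (β / 4)) ≤ K := by rw [hK]; linarith
    rw [div_le_iff₀ (by positivity)] at h1
    linarith
  obtain ⟨K₂, hK₂⟩ : ∃ K₂, K₂ = 2 * K / η := ⟨_, rfl⟩
  have hK₂0 : 0 < K₂ := by rw [hK₂]; positivity
  obtain ⟨A, hA0, hA⟩ := Dy_small (θ := θ) (K := K₂) (δ := s₀ / 2) (ε := β / 4) hθ hθ1 hK₂0.le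
    (by linarith) (by linarith) (fun e he => hD K₂ e hK₂0.le he)
  obtain ⟨n, c, a, hc, ha, hell, hce⟩ := hC2 A hA0
  have hEy := Ey_mean (θ := θ) (A := A) (K := K₂) (ε := ν / 8) hθ hθ1 hA0 hK₂0.le (by linarith)
    hc ha hell
  have hpp := pp_mean (θ := θ) hθ (by linarith) (ε := ν / 8) (by linarith)
  have hMM := MM_lim (θ := θ) (δ := K / η) (K := K₂) (ε := s₀ / 4) hθ (by linarith) (by positivity)
    (by linarith)
  obtain ⟨cs, hcs⟩ : ∃ cs : ℝ, cs = 1 + ∑ i ∈ Finset.range 9, ∑ j ∈ Finset.range 5, |co i j| :=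
    ⟨_, rfl⟩
  have hcs0 : 0 < cs := by
    rw [hcs]
    have : 0 ≤ ∑ i ∈ Finset.range 9, ∑ j ∈ Finset.range 5, |co i j| :=
      Finset.sum_nonneg fun i _ => Finset.sum_nonneg fun j _ => abs_nonneg _
    linarith
  have hmom : ∀ᶠ W : ℝ in atTop, ∀ i ∈ Finset.range 9, ∀ j ∈ Finset.range 5, i + 2 * j ≤ 8 →
      ∀ τ : ℝ, |(∫ t, PW W (t - τ) * (a1 (θ * Real.log W) t ^ i * a2 (θ * Real.log W) t ^ j)) -
        gm i v1 * gm j v2| ≤ ν / (8 * cs) := by
    rw [Filter.eventually_all_finset]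
    intro i _
    rw [Filter.eventually_all_finset]
    intro j _
    by_cases hij : i + 2 * j ≤ 8
    · have h1 : θ * ((i : ℝ) / 2 + j) < 2 := by
        have h2 : ((i : ℝ) / 2 + j) ≤ 4 := by
          have h3 : ((i + 2 * j : ℕ) : ℝ) ≤ 8 := by exact_mod_cast hij
          push_cast at h3
          linarith
        calc θ * ((i : ℝ) / 2 + j) ≤ θ * 4 := mul_le_mul_of_nonneg_left h2 hθ.le
          _ < 2 := by linarith only [hθ1]
      filter_upwards [moments hθ i j h1 (ε := ν / (8 * cs)) (by positivity)] with W hW _ τ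
      exact hW τ
    · filter_upwards with W h
      exact absurd h hij
  have hm20 := moments hθ 2 0 (by push_cast; linarith) (ε := 1 / 2) (by norm_num)
  have hm02 := moments hθ 0 2 (by push_cast; linarith) (ε := 1 / 2) (by norm_num)
  obtain ⟨r, hr⟩ : ∃ r, r = 2 * R / θ := ⟨_, rfl⟩
  have hr0 : 0 < r := by rw [hr]; positivity
  obtain ⟨εu, hεu⟩ : ∃ εu, εu = Real.pi * β * η / (4 * K) := ⟨_, rfl⟩
  have hεu0 : 0 < εu := by rw [hεu]; positivity
  obtain ⟨c₀, hc₀, hcov⟩ := covL hlam0 hr0 hεu0 hη1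
  refine ⟨c₀, hc₀, ?_⟩
  have hWT : Tendsto (fun T : ℝ => T / (K / η)) atTop atTop :=
    tendsto_id.atTop_div_const (by positivity)
  have hlog := Real.tendsto_log_atTop
  filter_upwards [hcov, hWT.eventually hA, hWT.eventually hEy, hWT.eventually hpp,
    hWT.eventually hMM, hWT.eventually hmom, hWT.eventually hm20, hWT.eventually hm02,
    eventually_gt_atTop 0, (hlog.comp hWT).eventually_gt_atTop 0,
    hlog.eventually_ge_atTop (2 * Real.log (K / η))] with T hT hA hEy hpp hMM hmom hm20 hm02 hT0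
      hlW hlT2
  by_contra hlt
  push Not at hlt
  obtain ⟨W, hW⟩ : ∃ W, W = T / (K / η) := ⟨_, rfl⟩
  rw [← hW] at hA hEy hpp hMM hmom hm20 hm02
  have hlW' : 0 < Real.log W := by rw [hW]; exact hlW
  have hW0 : 0 < W := by rw [hW]; positivity
  have hTW : T = K / η * W := by rw [hW]; field_simp
  have hKη : 1 ≤ K / η := by rw [le_div_iff₀ hη0]; linarith
  have hK₂W : K₂ * W = 2 * T := by rw [hK₂, hTW]; ring
  obtain ⟨τ, hτ⟩ : ∃ τ, τ = (1 + η / 2) * T := ⟨_, rfl⟩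
  have hτK : |τ| ≤ K₂ * W := by
    rw [hτ, abs_of_pos (by positivity), hK₂W]
    exact mul_le_mul_of_nonneg_right (by linarith only [hη1]) hT0.le
  have hu := hT hlt.le
  obtain ⟨hEi, hEm⟩ := hEy τ hτK
  have hppm := hpp τ
  have hDm := hA τ hτK
  obtain ⟨X, hX⟩ : ∃ X, X = θ * Real.log W := ⟨_, rfl⟩
  rw [← hX] at hEi hEm hppm hDm hMM hmom hm20 hm02
  have hlWT : Real.log W ≤ Real.log T := by
    apply Real.log_le_log hW0
    rw [hTW]
    exact le_mul_of_one_le_left hW0.le hKη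
  have hlWT2 : Real.log T ≤ 2 * Real.log W := by
    have h1 : Real.log W = Real.log T - Real.log (K / η) := by
      rw [hW, Real.log_div hT0.ne' (by positivity)]
    linarith
  have hRr : R / (θ * Real.log W) ≤ r / Real.log T := by
    have hlT0 : 0 < Real.log T := lt_of_lt_of_le hlW' hlWT
    rw [hr, div_le_div_iff₀ (by positivity) hlT0]
    have h1 : 2 * R / θ * (θ * Real.log W) = R * (2 * Real.log W) := by
      field_simp
    rw [h1]
    exact mul_le_mul_of_nonneg_left hlWT2 hR0.le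
  have hbm := bad_measL (τ := τ) (δ := s₀ / 2) hη0 hT0 hK0 hW0 hβ0 hTW hKβ hεu hu hDm
  have hηT : 0 < η * T := by positivity
  have hηT1 : η * T ≤ T := by nlinarith only [hη1, hT0]
  have hgood : ∀ t, t ∉ ({t | η * T / 4 ≤ |t - τ|} ∪ (uncovL lam r η T ∪ {t | s₀ / 2 < Dy X A t})) →
      max 0 (-κ - a1 X t - a2 X t) ≤ |pp X t| + Ey X A t := by
    intro t hnb
    simp only [mem_union, mem_ofPred_eq, not_or, not_le, not_lt] at hnb
    obtain ⟨n1, n2, n3⟩ := hnb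
    rw [hτ] at n1
    obtain ⟨n4, n5⟩ := abs_lt.1 n1
    have m1 : T ≤ t := by linarith only [n4, hηT]
    have m2 : t ≤ (1 + η) * T := by linarith only [n5, hηT]
    have h1 := good54L (t := t) (A := A) (η := η) hθ hlam0 hs hs0 hR hlW' hlWT hRr m1
      m2 n2 (by
        rw [← hX]
        exact hMM t (by rw [← hTW]; linarith only [m1]) (by rw [hK₂W]; linarith only [m2, hηT1])) (by
        rw [← hX]; exact n3)
    rw [← hX] at h1
    exact h1
  have hfin := meanL (e := e) hW0 hnu0 hsp hκ0 hβ hVb hsV hco0 hcoP hcs hcs0 hbm hgood hEi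
    (hEm.trans (by linarith only [hce])) hppm (fun i hi j hj hij => hmom i hi j hj hij τ)
    (hm20 τ) (hm02 τ)
  rw [← hGs] at hfin
  linarith only [hfin, hnu, hnu0]

theorem large_gapsL' {θ lam κ e η : ℝ} (hθ : 0 < θ) (hθ1 : θ < 1 / 2) (hlam : 1 < lam)
    (hC1 : C1 θ lam) (hC2 : C2 θ e) (hC3 : C3 κ e) (hκ : 1 / θ - 1 / (θ * lam) < κ) (hη : 0 < η) :
    ∃ c : ℝ, 0 < c ∧ ∀ᶠ T : ℝ in atTop, c * (T * Real.log T) ≤ ((gapL lam η T).ncard : ℝ) := by
  obtain ⟨c, hc, h⟩ := large_gapsL hθ hθ1 hlam hC1 hC2 hC3 hκ deepDens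
    (lt_min hη one_pos) (min_le_right η 1)
  refine ⟨c, hc, ?_⟩
  filter_upwards [h, eventually_gt_atTop 0] with T hT hT0
  refine hT.trans ?_
  have : gapL lam (min η 1) T ⊆ gapL lam η T := by
    rintro g ⟨h0, h1, h2, h3⟩
    refine ⟨h0, h1.trans ?_, h2, h3⟩
    have : min η 1 ≤ η := min_le_left _ _
    gcongr
  exact_mod_cast Set.ncard_le_ncard this (gapL_finite lam η T hT0.le)

end Pool.Agent.Helper54.LG
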