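import Pool.Agent.Helper54.LG.LocD
import Pool.Agent.Helper54.LG.Mu
import Pool.Agent.Helper54.LG.Pp
import Pool.Agent.Helper54.LG.EDef
import Pool.Agent.Helper54.LG.Pt

/-!
# LG-LOC: the pointwise inequality at a covered point
-/

set_option autoImplicit false
open MeasureTheory Set Filter Topology
open Pool.Agent.Helper57.Zeta Pool.Agent.Helper57.LH Pool.Agent.Helper57.ED Pool.Agent.Helper57.PC

namespace Pool.Agent.Helper54.LG

lemma Ab_bdd54L (X α β t : ℝ) : |Ab X α β t| ≤ ∑ p ∈ PP X α β, |cc X p| := by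
  unfold Ab
  rw [abs_neg]
  refine (Finset.abs_sum_le_sum_abs _ _).trans (Finset.sum_le_sum fun p _ => ?_)
  rw [abs_mul]
  exact mul_le_of_le_one_right (abs_nonneg _) (Real.abs_cos_le_one _)

lemma Ab_cont54L (X α β : ℝ) : Continuous (Ab X α β) := by
  unfold Ab
  fun_prop

lemma a1_cont54L (X : ℝ) : Continuous (a1 X) := Ab_cont54L X 0 (1 / 2)

lemma a2_cont54L (X : ℝ) : Continuous (a2 X) := Ab_cont54L X (1 / 2) 1

lemma pp_bdd54L (X : ℝ) : ∃ C : ℝ, ∀ t, |pp X t| ≤ C := by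
  refine ⟨|2 / X| * (∑ n ∈ Finset.range (⌊Real.exp X⌋₊ + 1),
    |ArithmeticFunction.vonMangoldt n / Real.sqrt n * (1 - Real.log n / X) ^ 2|) +
    (∑ p ∈ PP X 0 (1 / 2), |cc X p| + ∑ p ∈ PP X (1 / 2) 1, |cc X p|), fun t => ?_⟩
  unfold pp
  refine (abs_sub _ _).trans ?_
  rw [abs_neg]
  refine add_le_add ?_ ((abs_add_le _ _).trans (add_le_add (Ab_bdd54L X 0 (1 / 2) t)
    (Ab_bdd54L X (1 / 2) 1 t)))
  unfold SS
  rw [abs_mul]
  refine mul_le_mul_of_nonneg_left ?_ (abs_nonneg _)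
  refine (Finset.abs_sum_le_sum_abs _ _).trans (Finset.sum_le_sum fun n _ => ?_)
  rw [abs_mul]
  exact mul_le_of_le_one_right (abs_nonneg _) (Real.abs_cos_le_one _)

lemma int_bdd54L {W : ℝ} (hW : 0 < W) (τ : ℝ) {f : ℝ → ℝ} (hf : Continuous f) {C : ℝ}
    (hC : ∀ t, |f t| ≤ C) : Integrable f (mu W τ) := by
  have := mu_prob hW τ
  exact Integrable.of_bound hf.aestronglyMeasurable C (Eventually.of_forall hC)

lemma ord_finite54L (a b : ℝ) :
    {g : ℝ | a ≤ g ∧ g ≤ b ∧ ∃ ρ : ℂ, IsNontrivialZero ρ ∧ ρ.im = g}.Finite := by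
  have h1 := (zsym_finite (max |a| |b|)).image Complex.im
  refine h1.subset ?_
  rintro g ⟨hg1, hg2, ρ, hρ, hρg⟩
  refine ⟨ρ, ⟨isNontrivialZero_iff.1 hρ, ?_⟩, hρg⟩
  rw [hρg]
  exact abs_le_max_abs_abs hg1 hg2

lemma sum_split54L {X A t : ℝ} (hX : 0 < X) :
    (Summable fun ρ : ZS => mx ρ * ek (za X ρ) (zb X t ρ)) ∧
    (Summable fun ρ : ZS => mx ρ * (if za X ρ < A then ek (za X ρ) (zb X t ρ) else 0)) ∧
    (Summable fun ρ : ZS => mx ρ * (if za X ρ < A then 0 else hk (za X ρ) (zb X t ρ))) := by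
  have h := summable_h hX t
  have hh : ∀ a b : ℝ, 0 ≤ hk a b := fun a b => (ek_nonneg a b).trans (ek_le_hk a b)
  refine ⟨?_, ?_, ?_⟩
  · refine Summable.of_nonneg_of_le (fun ρ => mul_nonneg (mx_nonneg _) (ek_nonneg _ _))
      (fun ρ => mul_le_mul_of_nonneg_left (ek_le_hk _ _) (mx_nonneg _)) h
  · refine Summable.of_nonneg_of_le (fun ρ => mul_nonneg (mx_nonneg _) ?_)
      (fun ρ => mul_le_mul_of_nonneg_left ?_ (mx_nonneg _)) h
    · split_ifs
      · exact ek_nonneg _ _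
      · exact le_rfl
    · split_ifs
      · exact ek_le_hk _ _
      · exact hh _ _
  · refine Summable.of_nonneg_of_le (fun ρ => mul_nonneg (mx_nonneg _) ?_)
      (fun ρ => mul_le_mul_of_nonneg_left ?_ (mx_nonneg _)) h
    · split_ifs
      · exact le_rfl
      · exact hh _ _
    · split_ifs
      · exact hh _ _
      · exact le_rfl

lemma ek_split54L {X A t : ℝ} (hX : 0 < X) :
    1 / 2 * ∑' ρ : ZS, mx ρ * ek (za X ρ) (zb X t ρ) ≤ Ey X A t + 1 / 2 * Dy X A t := by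
  obtain ⟨h1, h2, h3⟩ := sum_split54L (A := A) (t := t) hX
  unfold Ey Dy
  rw [← mul_add, ← h2.tsum_add h3]
  refine mul_le_mul_of_nonneg_left ?_ (by norm_num)
  refine h1.tsum_le_tsum (fun ρ => ?_) (h2.add h3)
  rw [← mul_add]
  refine mul_le_mul_of_nonneg_left ?_ (mx_nonneg _)
  split_ifs
  · rw [add_zero]
  · rw [zero_add]; exact ek_le_hk _ _

lemma Ey_nonneg54L (X A t : ℝ) : 0 ≤ Ey X A t := by
  unfold Ey
  refine mul_nonneg (by norm_num) (tsum_nonneg fun ρ => mul_nonneg (mx_nonneg _) ?_)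
  split_ifs
  · exact ek_nonneg _ _
  · exact le_rfl

/-- The pointwise inequality at a covered point. -/
lemma good54L {θ lam κ s₀ R r A T W t η : ℝ} (hθ : 0 < θ) (hlam : 0 < lam)
    (hs : κ = 1 / θ - 1 / (θ * lam) + s₀) (hs0 : 0 < s₀)
    (hR : ∀ S : Finset ℝ, (∀ x : ℝ, -R ≤ x → x + 2 * Real.pi * θ * lam ≤ R →
      ∃ s ∈ S, x ≤ s ∧ s ≤ x + 2 * Real.pi * θ * lam) →
      1 / (θ * lam) - s₀ / 4 ≤ ∑ s ∈ S, qk 0 s)
    (hlW : 0 < Real.log W) (hlT : Real.log W ≤ Real.log T)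
    (hRr : R / (θ * Real.log W) ≤ r / Real.log T) (ht0 : T ≤ t) (htT : t ≤ (1 + η) * T)
    (hu : t ∉ uncovL lam r η T) (hMM : |MM (θ * Real.log W) t - 1 / θ| ≤ s₀ / 4)
    (hDy : Dy (θ * Real.log W) A t ≤ s₀ / 2) :
    max 0 (-κ - a1 (θ * Real.log W) t - a2 (θ * Real.log W) t) ≤
      |pp (θ * Real.log W) t| + Ey (θ * Real.log W) A t := by
  set X := θ * Real.log W with hXd
  have hX : 0 < X := mul_pos hθ hlW
  have hpi := Real.pi_pos
  have hG0 : 0 < 2 * Real.pi * θ * lam := by positivity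
  have hlT0 : 0 < Real.log T := lt_of_lt_of_le hlW hlT
  set F := (ord_finite54L (t - R / X) (t + R / X)).toFinset with hF
  have hFm : ∀ g, g ∈ F ↔ t - R / X ≤ g ∧ g ≤ t + R / X ∧
      ∃ ρ : ℂ, IsNontrivialZero ρ ∧ ρ.im = g := by
    intro g
    rw [hF, Set.Finite.mem_toFinset]
    rfl
  have hinj : Set.InjOn (fun g : ℝ => X * (t - g)) F := by
    intro g _ g' _ h
    have h2 : t - g = t - g' := mul_left_cancel₀ hX.ne' h
    linarith
  have h1 := hR (F.image fun g => X * (t - g)) (by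
    intro x hx1 hx2
    have hgX : lam * (2 * Real.pi / Real.log T) ≤ 2 * Real.pi * θ * lam / X := by
      rw [hXd, show 2 * Real.pi * θ * lam / (θ * Real.log W) = lam * (2 * Real.pi / Real.log W) by
        field_simp]
      gcongr
    by_contra hno
    push Not at hno
    apply hu
    refine ⟨ht0, htT, t - (x + 2 * Real.pi * θ * lam) / X, ?_, ?_, ?_⟩
    · have : (x + 2 * Real.pi * θ * lam) / X ≤ R / X := by gcongr
      linarith
    · have e1 : (x + 2 * Real.pi * θ * lam) / X = x / X + 2 * Real.pi * θ * lam / X := by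
        rw [add_div]
      have e2 : -(R / X) ≤ x / X := by
        rw [← neg_div]
        gcongr
      rw [e1]
      linarith
    · rintro ρ hρ ⟨hρ1, hρ2⟩
      have e1 : (x + 2 * Real.pi * θ * lam) / X = x / X + 2 * Real.pi * θ * lam / X := by
        rw [add_div]
      have b1 : ρ.im ≤ t - x / X := by rw [e1] at hρ2; linarith
      have c1 : x ≤ X * (t - ρ.im) := by
        have h3 : x / X ≤ t - ρ.im := by linarith
        rw [div_le_iff₀ hX] at h3
        linarith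
      have c2 : X * (t - ρ.im) ≤ x + 2 * Real.pi * θ * lam := by
        have h3 : t - ρ.im ≤ (x + 2 * Real.pi * θ * lam) / X := by linarith
        rw [le_div_iff₀ hX] at h3
        linarith
      have hm : X * (t - ρ.im) ∈ F.image fun g => X * (t - g) := by
        rw [Finset.mem_image]
        refine ⟨ρ.im, (hFm _).2 ⟨?_, ?_, ρ, hρ, rfl⟩, rfl⟩
        · have h3 : t - ρ.im ≤ R / X := by
            rw [le_div_iff₀ hX]; linarith
          linarith
        · have h3 : -R / X ≤ t - ρ.im := by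
            rw [div_le_iff₀ hX]; linarith
          rw [neg_div] at h3
          linarith
      exact absurd c2 (not_le.2 (hno _ hm c1)))
  rw [Finset.sum_image hinj] at h1
  have h2 := pointwise hX t F (by
    intro g hg
    obtain ⟨_, _, ρ, hρ, hρg⟩ := (hFm g).1 hg
    exact ⟨⟨ρ, isNontrivialZero_iff.1 hρ⟩, hρg⟩)
  have h3 := ek_split54L (A := A) (t := t) hX
  have h4 : -SS X t = pp X t + (a1 X t + a2 X t) := by unfold pp; ring
  have h5 := (abs_le.1 hMM).2
  have h6 := le_abs_self (pp X t)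
  apply max_le
  · exact add_nonneg (abs_nonneg _) (Ey_nonneg54L _ _ _)
  · linarith

lemma gm_two54L (v : ℝ) : gm 2 v = v := by
  unfold gm
  norm_num [Nat.factorial]

lemma gm_zero54L (v : ℝ) : gm 0 v = 1 := by
  unfold gm
  norm_num [Nat.factorial]

end Pool.Agent.Helper54.LG
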