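import Pool.Agent.Helper54.LG.Def
import Pool.Agent.Helper57.M.H

/-!
# LG-LOC: definitions
-/

set_option autoImplicit false
open MeasureTheory Set Filter Topology
open Pool.Agent.Helper57.Zeta Pool.Agent.Helper57.LH Pool.Agent.Helper57.ED Pool.Agent.Helper57.PC

namespace Pool.Agent.Helper54.LG

/-- Ordinates in `[T, (1+η)T]` followed by a gap of `lam` mean spacings. -/
def gapL (lam η T : ℝ) : Set ℝ :=
  {g | T ≤ g ∧ g ≤ (1 + η) * T ∧ (∃ ρ : ℂ, IsNontrivialZero ρ ∧ ρ.im = g) ∧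
    ∀ ρ : ℂ, IsNontrivialZero ρ → ρ.im ∉ Ioo g (g + lam * (2 * Real.pi / Real.log T))}

/-- Points of `[T, (1+η)T]` near which there is a closed interval of `lam` mean spacings without
ordinates. -/
def uncovL (lam r η T : ℝ) : Set ℝ :=
  {t | T ≤ t ∧ t ≤ (1 + η) * T ∧ ∃ x : ℝ, t - r / Real.log T ≤ x ∧
    x + lam * (2 * Real.pi / Real.log T) ≤ t + r / Real.log T ∧
    ∀ ρ : ℂ, IsNontrivialZero ρ → ¬(x ≤ ρ.im ∧ ρ.im ≤ x + lam * (2 * Real.pi / Real.log T))}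

end Pool.Agent.Helper54.LG
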