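import Pool.Agent.Helper54.LG.Cos

/-!
# LG-WORD: means of products of Dirichlet polynomials over primes

Expand the powers into words (`Fintype.sum_pow` over `Fin r → P`): the integrand becomes a finite
sum of `c_w c_w' c_v c_v' exp (i t (log m - log n))`, `m = ∏w ∏v`, `n = ∏w' ∏v'`, whose mean is
`exp (-W |log m - log n|)` times a phase (`integral_cexp`). If `m = n`: the mean is `1`, and by
unique factorisation (`P`, `Q` disjoint sets of primes) `∏w = ∏w'`, `∏v = ∏v'`, `r = r'`, `s = s'`.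
If `m ≠ n`, say `m < n`: `log (n/m) ≥ log (1 + 1/m) ≥ 1/(2m)`, and `m² < m n ≤ x^(r+r') y^(s+s') ≤ N²`,
so the mean is at most `exp (-W/(2N))`.
-/

set_option autoImplicit false
open MeasureTheory Set Filter Topology
open Pool.Agent.Helper57.Zeta Pool.Agent.Helper57.LH Pool.Agent.Helper57.ED

namespace Pool.Agent.Helper54.LG

/-- `D(t) = ∑_{p ∈ P} c_p p^{it}`. -/
noncomputable def DD (P : Finset ℕ) (c : ℕ → ℝ) (t : ℝ) : ℂ :=
  ∑ p ∈ P, (c p : ℂ) * Complex.exp (Complex.I * ((t * Real.log p : ℝ) : ℂ))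

/-- The diagonal of the moment of order `2r`. -/
noncomputable def dg (P : Finset ℕ) (c : ℕ → ℝ) (r : ℕ) : ℝ :=
  ∑ w : Fin r → P, ∑ w' : Fin r → P,
    if ∏ i, (w i : ℕ) = ∏ i, (w' i : ℕ) then (∏ i, c (w i)) * ∏ i, c (w' i) else 0

private lemma pr_pos63 {P : Finset ℕ} (hP : ∀ p ∈ P, p.Prime) {r : ℕ} (w : Fin r → P) :
    0 < ∏ i, (w i : ℕ) :=
  Finset.prod_pos fun i _ => (hP _ (w i).2).pos

private lemma DD_pow63 {P : Finset ℕ} (hP : ∀ p ∈ P, p.Prime) (c : ℕ → ℝ) (r : ℕ) (t : ℝ) :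
    DD P c t ^ r = ∑ w : Fin r → P, ((∏ i, c (w i) : ℝ) : ℂ) *
      Complex.exp (Complex.I * ((t * Real.log ((∏ i, (w i : ℕ) : ℕ) : ℝ) : ℝ) : ℂ)) := by
  unfold DD
  rw [← Finset.sum_coe_sort P (fun p => (c p : ℂ) * Complex.exp (Complex.I * ((t * Real.log p : ℝ) : ℂ))),
    Fintype.sum_pow]
  apply Finset.sum_congr rfl
  intro w _
  rw [Finset.prod_mul_distrib, ← Complex.exp_sum, ← Finset.mul_sum]
  have e1 : (((∏ i, c (w i) : ℝ)) : ℂ) = ∏ i, (c (w i) : ℂ) := by push_cast; rfl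
  have e2 : ((t * Real.log ((∏ i, (w i : ℕ) : ℕ) : ℝ) : ℝ) : ℂ) = ∑ i, ((t * Real.log ((w i : ℕ) : ℝ) : ℝ) : ℂ) := by
    have e3 : t * Real.log ((∏ i, (w i : ℕ) : ℕ) : ℝ) = ∑ i, t * Real.log ((w i : ℕ) : ℝ) := by
      rw [Nat.cast_prod, Real.log_prod, Finset.mul_sum]
      intro i _
      exact_mod_cast (hP _ (w i).2).ne_zero
    rw [e3]
    push_cast
    rfl
  rw [e1, e2]

private lemma DDc_pow63 {P : Finset ℕ} (hP : ∀ p ∈ P, p.Prime) (c : ℕ → ℝ) (r : ℕ) (t : ℝ) :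
    (starRingEnd ℂ) (DD P c t) ^ r = ∑ w : Fin r → P, ((∏ i, c (w i) : ℝ) : ℂ) *
      Complex.exp (Complex.I * ((-(t * Real.log ((∏ i, (w i : ℕ) : ℕ) : ℝ)) : ℝ) : ℂ)) := by
  rw [← map_pow, DD_pow63 hP, map_sum]
  apply Finset.sum_congr rfl
  intro w _
  rw [map_mul, Complex.conj_ofReal, ← Complex.exp_conj, map_mul, Complex.conj_I, Complex.conj_ofReal]
  congr 2
  push_cast
  ring

private lemma omega63 {P : Finset ℕ} (hP : ∀ p ∈ P, p.Prime) {r : ℕ} (w : Fin r → P) :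
    ArithmeticFunction.cardFactors (∏ i, (w i : ℕ)) = r := by
  induction r with
  | zero => simp
  | succ r ih =>
    rw [Fin.prod_univ_succ, ArithmeticFunction.cardFactors_mul (hP _ (w 0).2).ne_zero
      (pr_pos63 hP (fun i => w (Fin.succ i))).ne', ih (fun i => w (Fin.succ i)),
      ArithmeticFunction.cardFactors_apply_prime (hP _ (w 0).2)]
    omega

private lemma cop63 {P Q : Finset ℕ} (hP : ∀ p ∈ P, p.Prime) (hQ : ∀ p ∈ Q, p.Prime)
    (hPQ : Disjoint P Q) {r s : ℕ} (w : Fin r → P) (v : Fin s → Q) :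
    Nat.Coprime (∏ i, (w i : ℕ)) (∏ i, (v i : ℕ)) := by
  apply Nat.Coprime.prod_left
  intro i _
  apply Nat.Coprime.prod_right
  intro j _
  apply (Nat.coprime_primes (hP _ (w i).2) (hQ _ (v j).2)).mpr
  intro h
  exact (Finset.disjoint_left.mp hPQ) (w i).2 (h ▸ (v j).2)

private lemma uniq63 {P Q : Finset ℕ} (hP : ∀ p ∈ P, p.Prime) (hQ : ∀ p ∈ Q, p.Prime)
    (hPQ : Disjoint P Q) {r r' s s' : ℕ} (w : Fin r → P) (w' : Fin r' → P) (v : Fin s → Q) (v' : Fin s' → Q)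
    (h : (∏ i, (w i : ℕ)) * (∏ i, (v i : ℕ)) = (∏ i, (w' i : ℕ)) * (∏ i, (v' i : ℕ))) :
    (∏ i, (w i : ℕ)) = (∏ i, (w' i : ℕ)) ∧ (∏ i, (v i : ℕ)) = (∏ i, (v' i : ℕ)) := by
  have h1 : (∏ i, (w i : ℕ)) ∣ (∏ i, (w' i : ℕ)) := by
    apply (cop63 hP hQ hPQ w v').dvd_of_dvd_mul_right
    rw [← h]
    exact Dvd.intro _ rfl
  have h2 : (∏ i, (w' i : ℕ)) ∣ (∏ i, (w i : ℕ)) := by
    apply (cop63 hP hQ hPQ w' v).dvd_of_dvd_mul_right
    rw [h]
    exact Dvd.intro _ rfl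
  have h3 := Nat.dvd_antisymm h1 h2
  refine ⟨h3, ?_⟩
  rw [← h3] at h
  exact Nat.eq_of_mul_eq_mul_left (pr_pos63 hP w) h

private lemma sumpair63 {α β : Type*} [Fintype α] [Fintype β] {R : Type*} [CommSemiring R] (f : α → R) (g : β → R) :
    (∑ i, f i) * (∑ j, g j) = ∑ p : α × β, f p.1 * g p.2 := by
  rw [Fintype.sum_prod_type, Finset.sum_mul_sum]

private lemma abs_words63 (P : Finset ℕ) (c : ℕ → ℝ) (r : ℕ) :
    ∑ w : Fin r → P, |∏ i, c (w i)| = (∑ p ∈ P, |c p|) ^ r := by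
  rw [← Finset.sum_coe_sort P (fun p => |c p|), Fintype.sum_pow]
  apply Finset.sum_congr rfl
  intro w _
  rw [Finset.abs_prod]

private lemma prod_le63 {P : Finset ℕ} {x : ℝ} (hx : ∀ p ∈ P, (p : ℝ) ≤ x) {r : ℕ} (w : Fin r → P) :
    ((∏ i, (w i : ℕ) : ℕ) : ℝ) ≤ x ^ r := by
  rw [Nat.cast_prod]
  calc ∏ i, ((w i : ℕ) : ℝ) ≤ ∏ _i : Fin r, x := by
        apply Finset.prod_le_prod
        · intro i _; positivity
        · intro i _; exact hx _ (w i).2
    _ = x ^ r := by simp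

private lemma log_gap63 {m n : ℕ} {N : ℝ} (hm : 0 < m) (hmn : m < n) (hN : 0 < N)
    (h : (m : ℝ) * n ≤ N ^ 2) : 1 / (2 * N) ≤ Real.log n - Real.log m := by
  have hm0 : (0 : ℝ) < m := by exact_mod_cast hm
  have hm1 : (1 : ℝ) ≤ m := by exact_mod_cast hm
  have hn1 : (m : ℝ) + 1 ≤ n := by exact_mod_cast hmn
  have hn0 : (0 : ℝ) < n := by linarith
  have hmN : (m : ℝ) ≤ N := by
    by_contra hcon
    push Not at hcon
    nlinarith
  have h1 := Real.one_sub_inv_le_log_of_pos (show (0:ℝ) < (m + 1) / m by positivity)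
  have h2 : Real.log ((m + 1) / m) ≤ Real.log (n / m) := by
    apply Real.log_le_log (by positivity)
    exact div_le_div_of_nonneg_right hn1 hm0.le
  rw [Real.log_div hn0.ne' hm0.ne'] at h2
  have h3 : 1 - ((m + 1 : ℝ) / m)⁻¹ = 1 / (m + 1) := by
    field_simp
    ring
  rw [h3] at h1
  have h4 : 1 / (2 * N) ≤ 1 / ((m : ℝ) + 1) := by
    apply one_div_le_one_div_of_le (by positivity)
    linarith
  linarith

theorem mean_words {P Q : Finset ℕ} (hP : ∀ p ∈ P, p.Prime) (hQ : ∀ p ∈ Q, p.Prime)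
    (hPQ : Disjoint P Q) (c : ℕ → ℝ) (r r' s s' : ℕ) {W N x y : ℝ} (τ : ℝ) (hW : 0 < W)
    (hN : 1 ≤ N) (hx1 : 1 ≤ x) (hy1 : 1 ≤ y) (hx : ∀ p ∈ P, (p : ℝ) ≤ x)
    (hy : ∀ p ∈ Q, (p : ℝ) ≤ y) (hxy : x ^ (r + r') * y ^ (s + s') ≤ N ^ 2) :
    ‖(∫ t, (PW W (t - τ) : ℂ) * (DD P c t ^ r * (starRingEnd ℂ) (DD P c t) ^ r' *
        DD Q c t ^ s * (starRingEnd ℂ) (DD Q c t) ^ s')) -
      (if r = r' ∧ s = s' then ((dg P c r * dg Q c s : ℝ) : ℂ) else 0)‖ ≤
      (∑ p ∈ P, |c p|) ^ (r + r') * (∑ p ∈ Q, |c p|) ^ (s + s') * Real.exp (-(W / (2 * N))) := by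
  classical
  set Ω := ((Fin r → P) × (Fin r' → P)) × ((Fin s → Q) × (Fin s' → Q)) with hΩ
  set C : Ω → ℝ := fun ω => ((∏ i, c (ω.1.1 i)) * (∏ i, c (ω.1.2 i))) * ((∏ i, c (ω.2.1 i)) * (∏ i, c (ω.2.2 i))) with hC
  set m : Ω → ℕ := fun ω => (∏ i, (ω.1.1 i : ℕ)) * (∏ i, (ω.2.1 i : ℕ)) with hm
  set n : Ω → ℕ := fun ω => (∏ i, (ω.1.2 i : ℕ)) * (∏ i, (ω.2.2 i : ℕ)) with hn
  set u : Ω → ℝ := fun ω => Real.log (m ω) - Real.log (n ω) with hu
  have hmpos : ∀ ω, 0 < m ω := fun ω => Nat.mul_pos (pr_pos63 hP _) (pr_pos63 hQ _)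
  have hnpos : ∀ ω, 0 < n ω := fun ω => Nat.mul_pos (pr_pos63 hP _) (pr_pos63 hQ _)
  have hexp : ∀ t : ℝ, DD P c t ^ r * (starRingEnd ℂ) (DD P c t) ^ r' *
        DD Q c t ^ s * (starRingEnd ℂ) (DD Q c t) ^ s' =
      ∑ ω : Ω, (C ω : ℂ) * Complex.exp (Complex.I * ((u ω * t : ℝ) : ℂ)) := by
    intro t
    rw [mul_assoc (DD P c t ^ r * (starRingEnd ℂ) (DD P c t) ^ r')]
    rw [DD_pow63 hP, DDc_pow63 hP, DD_pow63 hQ, DDc_pow63 hQ, sumpair63, sumpair63, sumpair63]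
    apply Finset.sum_congr rfl
    intro ω _
    have e1 : Complex.exp (Complex.I * ((u ω * t : ℝ) : ℂ)) =
        (Complex.exp (Complex.I * ((t * Real.log ((∏ i, (ω.1.1 i : ℕ) : ℕ) : ℝ) : ℝ) : ℂ)) *
          Complex.exp (Complex.I * ((-(t * Real.log ((∏ i, (ω.1.2 i : ℕ) : ℕ) : ℝ)) : ℝ) : ℂ))) *
        (Complex.exp (Complex.I * ((t * Real.log ((∏ i, (ω.2.1 i : ℕ) : ℕ) : ℝ) : ℝ) : ℂ)) *
          Complex.exp (Complex.I * ((-(t * Real.log ((∏ i, (ω.2.2 i : ℕ) : ℕ) : ℝ)) : ℝ) : ℂ))) := by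
      rw [← Complex.exp_add, ← Complex.exp_add, ← Complex.exp_add]
      congr 1
      have e2 : u ω = (Real.log ((∏ i, (ω.1.1 i : ℕ) : ℕ) : ℝ) + Real.log ((∏ i, (ω.2.1 i : ℕ) : ℕ) : ℝ)) -
          (Real.log ((∏ i, (ω.1.2 i : ℕ) : ℕ) : ℝ) + Real.log ((∏ i, (ω.2.2 i : ℕ) : ℕ) : ℝ)) := by
        rw [hu]
        simp only [hm, hn]
        rw [Nat.cast_mul, Nat.cast_mul, Real.log_mul, Real.log_mul]
        · exact_mod_cast (pr_pos63 hP _).ne'
        · exact_mod_cast (pr_pos63 hQ _).ne'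
        · exact_mod_cast (pr_pos63 hP _).ne'
        · exact_mod_cast (pr_pos63 hQ _).ne'
      rw [e2]
      push_cast
      ring
    rw [e1, hC]
    push_cast
    ring
  have hpi : Integrable (fun t : ℝ => PW W (t - τ)) := (integral_PW hW).1.comp_sub_right τ
  have hint : ∀ ω : Ω, Integrable (fun t : ℝ => (C ω : ℂ) *
      ((PW W (t - τ) : ℂ) * Complex.exp (Complex.I * ((u ω * t : ℝ) : ℂ)))) := by
    intro ω
    apply Integrable.const_mul
    refine Integrable.mul_bdd (c := 1) hpi.ofReal (by fun_prop) ?_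
    exact Eventually.of_forall fun t => by
      rw [mul_comm Complex.I, Complex.norm_exp_ofReal_mul_I]
  have hI : (∫ t, (PW W (t - τ) : ℂ) * (DD P c t ^ r * (starRingEnd ℂ) (DD P c t) ^ r' *
        DD Q c t ^ s * (starRingEnd ℂ) (DD Q c t) ^ s')) =
      ∑ ω : Ω, (C ω : ℂ) * ((Real.exp (-(W * |u ω|)) : ℂ) * Complex.exp (Complex.I * ((u ω * τ : ℝ) : ℂ))) := by
    have e : (fun t => (PW W (t - τ) : ℂ) * (DD P c t ^ r * (starRingEnd ℂ) (DD P c t) ^ r' *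
        DD Q c t ^ s * (starRingEnd ℂ) (DD Q c t) ^ s')) = fun t => ∑ ω : Ω, (C ω : ℂ) *
          ((PW W (t - τ) : ℂ) * Complex.exp (Complex.I * ((u ω * t : ℝ) : ℂ))) := by
      funext t
      rw [hexp t, Finset.mul_sum]
      apply Finset.sum_congr rfl
      intro ω _
      ring
    rw [e, integral_finsetSum _ (fun ω _ => hint ω)]
    apply Finset.sum_congr rfl
    intro ω _
    rw [integral_const_mul, integral_cexp hW]
  -- the diagonal
  have hdiag : (∑ ω : Ω, if m ω = n ω then (C ω : ℂ) else 0) =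
      if r = r' ∧ s = s' then ((dg P c r * dg Q c s : ℝ) : ℂ) else 0 := by
    by_cases hrs : r = r' ∧ s = s'
    · obtain ⟨hr, hs⟩ := hrs
      subst hr
      subst hs
      rw [if_pos ⟨rfl, rfl⟩]
      have e : dg P c r * dg Q c s = ∑ ω : Ω, if m ω = n ω then C ω else 0 := by
        unfold dg
        rw [← Fintype.sum_prod_type (fun p : (Fin r → P) × (Fin r → P) =>
            if ∏ i, (p.1 i : ℕ) = ∏ i, (p.2 i : ℕ) then (∏ i, c (p.1 i)) * ∏ i, c (p.2 i) else 0),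
          ← Fintype.sum_prod_type (fun p : (Fin s → Q) × (Fin s → Q) =>
            if ∏ i, (p.1 i : ℕ) = ∏ i, (p.2 i : ℕ) then (∏ i, c (p.1 i)) * ∏ i, c (p.2 i) else 0),
          sumpair63]
        apply Finset.sum_congr rfl
        intro ω _
        by_cases h1 : ∏ i, (ω.1.1 i : ℕ) = ∏ i, (ω.1.2 i : ℕ)
        · by_cases h2 : ∏ i, (ω.2.1 i : ℕ) = ∏ i, (ω.2.2 i : ℕ)
          · rw [if_pos h1, if_pos h2, if_pos]
            simp only [hm, hn]
            rw [h1, h2]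
          · rw [if_neg h2, mul_zero, if_neg]
            intro h
            exact h2 (uniq63 hP hQ hPQ _ _ _ _ h).2
        · rw [if_neg h1, zero_mul, if_neg]
          intro h
          exact h1 (uniq63 hP hQ hPQ _ _ _ _ h).1
      rw [e]
      push_cast
      apply Finset.sum_congr rfl
      intro ω _
      split_ifs <;> simp
    · rw [if_neg hrs]
      apply Finset.sum_eq_zero
      intro ω _
      rw [if_neg]
      intro h
      apply hrs
      obtain ⟨h1, h2⟩ := uniq63 hP hQ hPQ _ _ _ _ h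
      constructor
      · exact (omega63 hP ω.1.1).symm.trans ((congrArg ArithmeticFunction.cardFactors h1).trans (omega63 hP ω.1.2))
      · exact (omega63 hQ ω.2.1).symm.trans ((congrArg ArithmeticFunction.cardFactors h2).trans (omega63 hQ ω.2.2))
  -- the gap
  have hgap : ∀ ω : Ω, m ω ≠ n ω → 1 / (2 * N) ≤ |u ω| := by
    intro ω hne
    have hN0 : 0 < N := by linarith
    have hmn : (m ω : ℝ) * n ω ≤ N ^ 2 := by
      refine le_trans ?_ hxy
      simp only [hm, hn]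
      rw [Nat.cast_mul, Nat.cast_mul, pow_add, pow_add]
      have b1 := prod_le63 hx ω.1.1
      have b2 := prod_le63 hx ω.1.2
      have b3 := prod_le63 hy ω.2.1
      have b4 := prod_le63 hy ω.2.2
      have hx0 : 0 ≤ x := by linarith
      have hy0 : 0 ≤ y := by linarith
      calc ((∏ i, (ω.1.1 i : ℕ) : ℕ) : ℝ) * ((∏ i, (ω.2.1 i : ℕ) : ℕ) : ℝ) *
            (((∏ i, (ω.1.2 i : ℕ) : ℕ) : ℝ) * ((∏ i, (ω.2.2 i : ℕ) : ℕ) : ℝ))
          ≤ x ^ r * y ^ s * (x ^ r' * y ^ s') := by gcongr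
        _ = _ := by ring
    rcases lt_or_gt_of_ne hne with h | h
    · have := log_gap63 (hmpos ω) h hN0 hmn
      rw [abs_sub_comm]
      exact this.trans (le_abs_self _)
    · have := log_gap63 (hnpos ω) h hN0 (by rw [mul_comm]; exact hmn)
      exact this.trans (le_abs_self _)
  rw [hI, ← hdiag, ← Finset.sum_sub_distrib]
  have hterm : ∀ ω : Ω, ‖(C ω : ℂ) * ((Real.exp (-(W * |u ω|)) : ℂ) * Complex.exp (Complex.I * ((u ω * τ : ℝ) : ℂ))) -
      (if m ω = n ω then (C ω : ℂ) else 0)‖ ≤ |C ω| * Real.exp (-(W / (2 * N))) := by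
    intro ω
    by_cases h : m ω = n ω
    · rw [if_pos h]
      have hu0 : u ω = 0 := by
        simp only [hu]
        rw [h, sub_self]
      rw [hu0]
      simp only [abs_zero, mul_zero, neg_zero, Real.exp_zero, zero_mul, Complex.ofReal_zero, Complex.exp_zero,
        Complex.ofReal_one, mul_one, sub_self, norm_zero]
      positivity
    · rw [if_neg h, sub_zero, norm_mul, norm_mul, Complex.norm_real, Complex.norm_real,
        mul_comm Complex.I, Complex.norm_exp_ofReal_mul_I, mul_one, Real.norm_eq_abs, Real.norm_eq_abs,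
        abs_of_pos (Real.exp_pos _)]
      apply mul_le_mul_of_nonneg_left _ (abs_nonneg _)
      apply Real.exp_le_exp.mpr
      have h1 := hgap ω h
      have h2 : W * (1 / (2 * N)) ≤ W * |u ω| := mul_le_mul_of_nonneg_left h1 hW.le
      have h3 : W * (1 / (2 * N)) = W / (2 * N) := by ring
      linarith
  refine (norm_sum_le _ _).trans ((Finset.sum_le_sum fun ω _ => hterm ω).trans ?_)
  rw [← Finset.sum_mul]
  apply le_of_eq
  congr 1
  have e : ∑ ω : Ω, |C ω| = ((∑ w : Fin r → P, |∏ i, c (w i)|) * (∑ w : Fin r' → P, |∏ i, c (w i)|)) *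
      ((∑ w : Fin s → Q, |∏ i, c (w i)|) * (∑ w : Fin s' → Q, |∏ i, c (w i)|)) := by
    rw [sumpair63, sumpair63, sumpair63]
    apply Finset.sum_congr rfl
    intro ω _
    simp only [hC]
    rw [abs_mul, abs_mul, abs_mul]
  rw [e, abs_words63, abs_words63, abs_words63, abs_words63, pow_add, pow_add]

end Pool.Agent.Helper54.LG
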