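import Pool.Agent.Helper54.LG.Loc
import Pool.Agent.Helper25.LG.C12
import Pool.Agent.Helper69.LG.C3

/-!
# LG: the theorem on large gaps
-/

set_option autoImplicit false
open MeasureTheory Set Filter Topology
open Pool.Agent.Helper57.PC

namespace Pool.Agent.Helper54.LG

theorem cert3 : C3 (1701 / 5000) (36 / 10000) := by
  obtain ⟨co, h1, h2, h3⟩ := Pool.Agent.Helper69.LG.certificate
  exact ⟨co, h1, h2, lt_trans (by norm_num) h3⟩

/-- For every `η > 0` there are `c > 0`, `T₀` such that for `T ≥ T₀` at least `c T log T` different ordinates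
`g ∈ [T, (1+η)T]` of nontrivial zeros are such that no nontrivial zero has its ordinate in
`(g, g + 6/5 · 2π/log T)`. -/
theorem gaps_local {η : ℝ} (hη : 0 < η) : ∃ c T₀ : ℝ, 0 < c ∧ ∀ T : ℝ, T₀ ≤ T →
    c * (T * Real.log T) ≤ ({g : ℝ | T ≤ g ∧ g ≤ (1 + η) * T ∧
      (∃ ρ : ℂ, IsNontrivialZero ρ ∧ ρ.im = g) ∧
      ∀ ρ : ℂ, IsNontrivialZero ρ → ρ.im ∉ Ioo g (g + 6 / 5 * (2 * Real.pi / Real.log T))}.ncard : ℝ) := by
  obtain ⟨c, hc, h⟩ := large_gapsL' (θ := 49 / 100) (lam := 6 / 5) (κ := 1701 / 5000) (e := 36 / 10000)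
    (by norm_num) (by norm_num) (by norm_num) Pool.Agent.Helper25.LG.C1_cert
    Pool.Agent.Helper25.LG.C2_cert cert3 (by norm_num) hη
  obtain ⟨T₀, hT₀⟩ := eventually_atTop.1 h
  exact ⟨c, T₀, hc, fun T hT => hT₀ T hT⟩

end Pool.Agent.Helper54.LG
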